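import Mathlib

/-! Divided differences from their recursion: uniqueness, nil-Hecke relation, duality. -/

set_option linter.unusedSectionVars false

namespace Pool.Agent.K9c
open MvPolynomial Finset Equiv

variable {n : ℕ}

/-- Inversions of a permutation. -/
def invs (w : Perm (Fin n)) : Finset (Fin n × Fin n) :=
  univ.filter fun p => p.1 < p.2 ∧ w p.2 < w p.1

/-- Length of a permutation. -/
def len (w : Perm (Fin n)) : ℕ := (invs w).card

lemma mem_invs {w : Perm (Fin n)} {p : Fin n × Fin n} :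
    p ∈ invs w ↔ p.1 < p.2 ∧ w p.2 < w p.1 := by simp [invs]

lemma swap_lt {i j : Fin n} (h : j.1 = i.1 + 1) (a b : Fin n) :
    swap i j a < swap i j b ↔ (a < b ∧ ¬ (a = i ∧ b = j)) ∨ (a = j ∧ b = i) := by
  simp only [swap_apply_def, Fin.lt_def, Fin.ext_iff]
  split_ifs <;> omega

lemma invs_desc {w : Perm (Fin n)} {i j : Fin n} (h : j.1 = i.1 + 1) (hd : w⁻¹ j < w⁻¹ i) :
    invs w = insert (w⁻¹ j, w⁻¹ i) (invs (swap i j * w)) ∧
      (w⁻¹ j, w⁻¹ i) ∉ invs (swap i j * w) := by
  have hij : i < j := by rw [Fin.lt_def]; omega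
  constructor
  · ext ⟨p, q⟩
    simp only [mem_insert, mem_invs, Perm.mul_apply, swap_lt h, Prod.mk.injEq,
      Perm.eq_inv_iff_eq]
    constructor
    · tauto
    · rintro (⟨h1, h2⟩ | ⟨h1, h2 | ⟨h2, h3⟩⟩)
      · rw [← Perm.eq_inv_iff_eq.2 h1, ← Perm.eq_inv_iff_eq.2 h2] at hd
        exact ⟨hd, by rwa [h1, h2]⟩
      · exact ⟨h1, h2.1⟩
      · rw [← Perm.eq_inv_iff_eq.2 h2, ← Perm.eq_inv_iff_eq.2 h3] at hd
        exact absurd h1 hd.not_gt
  · simp [mem_invs, hij.le]

lemma len_desc {w : Perm (Fin n)} {i j : Fin n} (h : j.1 = i.1 + 1) (hd : w⁻¹ j < w⁻¹ i) :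
    len w = len (swap i j * w) + 1 := by
  rw [len, (invs_desc h hd).1, card_insert_of_notMem (invs_desc h hd).2, len]

lemma len_asc {w : Perm (Fin n)} {i j : Fin n} (h : j.1 = i.1 + 1) (hd : ¬ w⁻¹ j < w⁻¹ i) :
    len (swap i j * w) = len w + 1 := by
  have hne : w⁻¹ i ≠ w⁻¹ j := fun e => by have := w⁻¹.injective e; rw [this] at h; omega
  have := len_desc (w := swap i j * w) h (by simpa using lt_of_le_of_ne (not_lt.1 hd) hne)
  rwa [← mul_assoc, swap_mul_self, one_mul] at this

lemma len_step (w : Perm (Fin n)) {i j : Fin n} (h : j.1 = i.1 + 1) :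
    len w = len (swap i j * w) + 1 ∨ len (swap i j * w) = len w + 1 :=
  (em _).imp (len_desc h) (len_asc h)

lemma desc_of_lt {w : Perm (Fin n)} {i j : Fin n} (h : j.1 = i.1 + 1)
    (hl : len (swap i j * w) < len w) : w⁻¹ j < w⁻¹ i := by
  by_contra hd
  have := len_asc h hd; omega

lemma len_one : len (1 : Perm (Fin n)) = 0 := by
  rw [len, card_eq_zero]
  exact eq_empty_of_forall_notMem fun p hp => (mem_invs.1 hp).1.not_gt (mem_invs.1 hp).2

lemma eq_one_of_le {w : Perm (Fin n)} (h : ∀ i, w i ≤ i) : w = 1 := by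
  have := (sum_eq_sum_iff_of_le (s := univ) (f := fun i => (w i).1) (g := fun i => i.1)
    fun i _ => h i).1 (Equiv.sum_comp w fun i => i.1)
  exact Equiv.ext fun i => Fin.ext (this i (mem_univ i))

lemma perm_ind {P : Perm (Fin n) → Prop} (h1 : P 1) (hs : ∀ w (i j : Fin n), j.1 = i.1 + 1 →
    len (swap i j * w) < len w → P (swap i j * w) → P w) (w : Perm (Fin n)) : P w := by
  induction hk : len w using Nat.strong_induction_on generalizing w with
  | _ k ih =>
  by_cases h : ∃ i j : Fin n, j.1 = i.1 + 1 ∧ w⁻¹ j < w⁻¹ i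
  · obtain ⟨i, j, hij, hd⟩ := h
    have := len_desc hij hd
    exact hs w i j hij (by omega) (ih _ (by omega) _ rfl)
  · have : w⁻¹ = 1 := by
      refine eq_one_of_le fun i => StrictMono.apply_le ?_
      cases n with
      | zero => exact i.elim0
      | succ m =>
        refine Fin.strictMono_iff_lt_succ.2 fun l => lt_of_le_of_ne
          (not_lt.1 fun hd => h ⟨l.castSucc, l.succ, rfl, hd⟩) fun e => ?_
        exact (Fin.castSucc_lt_succ (i := l)).ne (w⁻¹.injective e)
    rwa [inv_eq_one.1 this]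

lemma invs_rev : invs (Fin.revPerm : Perm (Fin n)) = univ.filter fun p => p.1 < p.2 := by
  ext p; simp [mem_invs]

lemma len_lt_rev {w : Perm (Fin n)} (h : w ≠ Fin.revPerm) :
    len w < len (Fin.revPerm : Perm (Fin n)) := by
  rw [len, len, invs_rev]
  refine card_lt_card ⟨fun p hp => by simpa using (mem_invs.1 hp).1, fun hs => h ?_⟩
  have : Fin.revPerm * w = 1 := eq_one_of_le fun i => StrictMono.apply_le fun a b hab => by
    simpa using (mem_invs.1 (hs (x := (a, b)) (by simpa using hab))).2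
  rw [eq_inv_of_mul_eq_one_right this]; rfl

lemma len_compl (v : Perm (Fin n)) :
    len (Fin.revPerm : Perm (Fin n)) = len v + len (v⁻¹ * Fin.revPerm) := by
  rw [len, invs_rev, ← card_filter_add_card_filter_not (fun p : Fin n × Fin n => v p.2 < v p.1),
    filter_filter, filter_filter]
  congr 1
  refine card_nbij' (fun p => ((v p.2).rev, (v p.1).rev)) (fun p => (v⁻¹ p.2.rev, v⁻¹ p.1.rev))
    ?_ ?_ ?_ ?_
  · intro p hp
    simp only [coe_filter, mem_univ, true_and, Set.mem_ofPred_eq, not_lt] at hp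
    simpa [mem_invs, hp.1] using lt_of_le_of_ne hp.2 (v.injective.ne hp.1.ne)
  · intro p hp
    have := mem_invs.1 hp
    simpa [this.1.le] using this.2
  · intro p _; simp
  · intro p _; simp

section Rec
variable {K K' : Type} [CommRing K] [CommRing K'] {a : Fin n → K} {s : Fin n → Fin n → K →+* K}

/-- The divided-difference recursion along reduced words. -/
def Rec (a : Fin n → K) (s : Fin n → Fin n → K →+* K) (T : Perm (Fin n) → K) : Prop :=
  ∀ w (i j : Fin n), j.1 = i.1 + 1 → len (swap i j * w) < len w →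
    (a i - a j) * T w = T (swap i j * w) - s i j (T (swap i j * w))

lemma Rec.map {T : Perm (Fin n) → K} (h : Rec a s T) {a' : Fin n → K'}
    {s' : Fin n → Fin n → K' →+* K'} (φ : K →+* K') (c : K') (h1 : ∀ i, φ (a i) = a' i)
    (h2 : ∀ i j f, s' i j (φ f) = φ (s i j f)) (h3 : ∀ i j, s' i j c = c) :
    Rec a' s' fun w => c * φ (T w) := by
  intro w i j hij hl
  have := congrArg φ (h w i j hij hl)
  simp only [map_mul, map_sub, h1] at this
  simp only [map_mul, h2, h3]
  linear_combination c * this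

variable [IsDomain K]

lemma sub_ne (ha : Function.Injective a) {i j : Fin n} (h : j.1 = i.1 + 1) : a i - a j ≠ 0 :=
  sub_ne_zero.2 fun e => by rw [ha e] at h; omega

lemma Rec.zero (ha : Function.Injective a) {T : Perm (Fin n) → K} (h : Rec a s T) (h1 : T 1 = 0)
    (w : Perm (Fin n)) : T w = 0 := by
  induction w using perm_ind with
  | h1 => exact h1
  | hs w i j hij hl ih =>
    have := h w i j hij hl
    rw [ih, map_zero, sub_zero] at this
    exact (mul_eq_zero.1 this).resolve_left (sub_ne ha hij)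

lemma nilHecke (ha : Function.Injective a) (s1 : ∀ i j, s i j (a i) = a j)
    (s2 : ∀ i j, s i j (a j) = a i) (ss : ∀ i j f, s i j (s i j f) = f) {T U : Perm (Fin n) → K}
    (hT : Rec a s T) (hU : Rec a s U) {u : Perm (Fin n)} (h1 : U 1 = T u) (v : Perm (Fin n)) :
    len (v * u) ≤ len v + len u ∧ U v = if len (v * u) = len v + len u then T (v * u) else 0 := by
  induction v using perm_ind with
  | h1 => simp [len_one, h1]
  | hs v i j hij hl ih =>
    obtain ⟨ih1, ih2⟩ := ih
    have e1 := len_step v hij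
    have e2 := len_step (v * u) hij
    rw [mul_assoc] at ih1 ih2
    refine ⟨by omega, mul_left_cancel₀ (sub_ne ha hij) ?_⟩
    rw [hU v i j hij hl, ih2]
    by_cases c1 : len (swap i j * (v * u)) = len (swap i j * v) + len u
    · rw [if_pos c1]
      by_cases c2 : len (v * u) = len v + len u
      · rw [if_pos c2, hT (v * u) i j hij (by omega)]
      · rw [if_neg c2, mul_zero, sub_eq_zero]
        have := hT (swap i j * (v * u)) i j hij (by
          rw [← mul_assoc, swap_mul_self, one_mul]; omega)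
        have b := congrArg (s i j) this
        simp only [map_mul, map_sub, s1, s2, ss] at b
        refine mul_left_cancel₀ (sub_ne ha hij) ?_
        linear_combination this + b
    · rw [if_neg c1, if_neg (by omega), map_zero, sub_zero, mul_zero]

lemma dual_eval {L : Type} [CommRing L] [IsDomain L] {z : Fin n → L} (hz : Function.Injective z)
    (e : Perm (Fin n) → K →+* L) (e1 : ∀ θ i, e θ (a i) = -z (θ⁻¹ i).rev)
    (e2 : ∀ θ i j f, e θ (s i j f) = e (swap i j * θ) f) {T : Perm (Fin n) → K} (hT : Rec a s T)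
    (h1 : ∀ θ, e θ (T 1) = ∏ p ∈ univ.filter (fun p : Fin n × Fin n => p.1.1 + p.2.1 < n - 1),
      (-z (θ⁻¹ p.1).rev + z p.2)) (w : Perm (Fin n)) :
    e Fin.revPerm (T w) = if w = Fin.revPerm then 1 else 0 := by
  have ne : ∀ (θ : Perm (Fin n)) {i j : Fin n}, j.1 = i.1 + 1 →
      -z (θ⁻¹ i).rev - -z (θ⁻¹ j).rev ≠ 0 := fun θ i j h => sub_ne_zero.2 fun e => by
    rw [θ⁻¹.injective (Fin.rev_injective (hz (neg_injective e)))] at h; omega
  have van : ∀ w θ, len w < len θ → e θ (T w) = 0 := by
    intro w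
    induction w using perm_ind with
    | h1 =>
      intro θ hθ
      obtain ⟨i, hi⟩ : ∃ i, i < θ⁻¹ i := by
        by_contra hc
        push Not at hc
        rw [inv_eq_one.1 (eq_one_of_le hc)] at hθ
        exact lt_irrefl _ hθ
      rw [h1]
      refine prod_eq_zero (i := (i, (θ⁻¹ i).rev)) ?_ (neg_add_cancel _)
      have := (θ⁻¹ i).2
      simp only [mem_filter, mem_univ, true_and, Fin.val_rev, Fin.lt_def] at hi ⊢
      omega
    | hs w i j hij hl ih =>
      intro θ hθ
      have := congrArg (e θ) (hT w i j hij hl)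
      have l1 := len_step θ hij
      rw [map_mul, map_sub, map_sub, e1, e1, e2, ih θ (by omega), ih _ (by omega), sub_zero] at this
      exact (mul_eq_zero.1 this).resolve_left (ne θ hij)
  have dia : ∀ w, e w (T w) * ∏ p ∈ invs w, (z p.2.rev - z p.1.rev) =
      ∏ p ∈ univ.filter (fun p : Fin n × Fin n => p.1 < p.2), (z p.2.rev - z p.1.rev) := by
    intro w
    induction w using perm_ind with
    | h1 =>
      rw [card_eq_zero.1 len_one, prod_empty, mul_one, h1]
      refine prod_nbij' (fun p => (p.1, p.2.rev)) (fun p => (p.1, p.2.rev)) ?_ ?_ (by simp)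
        (by simp) fun p _ => by simp [neg_add_eq_sub]
      all_goals
        intro p hp
        have := p.2.2
        simp only [mem_filter, mem_univ, true_and, Fin.val_rev, Fin.lt_def] at hp ⊢
        omega
    | hs w i j hij hl ih =>
      have := congrArg (e w) (hT w i j hij hl)
      rw [map_mul, map_sub, map_sub, e1, e1, e2, van _ w hl] at this
      obtain ⟨d1, d2⟩ := invs_desc hij (desc_of_lt hij hl)
      rw [d1, prod_insert d2, ← ih]
      linear_combination (-∏ p ∈ invs (swap i j * w), (z p.2.rev - z p.1.rev)) * this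
  split_ifs with h
  · have := dia Fin.revPerm
    rw [invs_rev] at this
    rw [h]
    refine mul_right_cancel₀ (prod_ne_zero_iff.2 fun p hp => sub_ne_zero.2 fun e => ?_)
      (this.trans (one_mul _).symm)
    exact (mem_filter.1 hp).2.ne' (Fin.rev_injective (hz e))
  · exact van _ _ (len_lt_rev h)

end Rec

section Ext
variable {τ : Type} [DecidableEq τ]

/-- Coefficientwise extension of an operator to extra variables. -/
noncomputable def ext (D : MvPolynomial τ ℤ → MvPolynomial τ ℤ)
    (g : MvPolynomial (Fin n) (MvPolynomial τ ℤ)) : MvPolynomial (Fin n) (MvPolynomial τ ℤ) :=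
  ∑ β ∈ g.support, monomial β (D (coeff β g))

lemma coeff_ext {D : MvPolynomial τ ℤ → MvPolynomial τ ℤ} (h0 : D 0 = 0)
    (g : MvPolynomial (Fin n) (MvPolynomial τ ℤ)) (β : Fin n →₀ ℕ) :
    coeff β (ext D g) = D (coeff β g) := by
  simp only [ext, coeff_sum, coeff_monomial, sum_ite_eq', mem_support_iff]
  split_ifs with h
  · rfl
  · rw [not_not.1 h, h0]

/-- Exchange of two of the variables `x`. -/
noncomputable abbrev sx (x : Fin n → τ) (i j : Fin n) : MvPolynomial τ ℤ →+* MvPolynomial τ ℤ :=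
  (rename (swap (x i) (x j))).toRingHom

/-- The product of `x i + z j` over the triangle. -/
noncomputable def stair (x : Fin n → τ) : MvPolynomial (Fin n) (MvPolynomial τ ℤ) :=
  ∏ p ∈ univ.filter (fun p : Fin n × Fin n => p.1.1 + p.2.1 < n - 1), (C (X (x p.1)) + X p.2)

variable {x : Fin n → τ} {D : Perm (Fin n) → MvPolynomial τ ℤ → MvPolynomial τ ℤ}

lemma D_zero (hx : Function.Injective x) (h1 : ∀ f, D 1 f = f)
    (h2 : ∀ f, Rec (fun i => X (x i)) (sx x) fun w => D w f) (w : Perm (Fin n)) : D w 0 = 0 :=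
  (h2 0).zero (X_injective.comp hx) (h1 0) w

lemma ext_one (h1 : ∀ f, D 1 f = f) (g : MvPolynomial (Fin n) (MvPolynomial τ ℤ)) :
    ext (D 1) g = g := MvPolynomial.ext _ _ fun β => by rw [coeff_ext (h1 0), h1]

lemma rec_ext (hx : Function.Injective x) (h1 : ∀ f, D 1 f = f)
    (h2 : ∀ f, Rec (fun i => X (x i)) (sx x) fun w => D w f)
    (g : MvPolynomial (Fin n) (MvPolynomial τ ℤ)) :
    Rec (fun i => C (X (x i))) (fun i j => MvPolynomial.map (sx x i j)) fun w => ext (D w) g := by
  intro w i j hij hl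
  refine MvPolynomial.ext _ _ fun β => ?_
  rw [← map_sub, coeff_C_mul, coeff_sub, coeff_map]
  simp only [coeff_ext (D_zero hx h1 h2 _)]
  exact h2 _ w i j hij hl

lemma swap_x (hx : Function.Injective x) (i j k : Fin n) : swap (x i) (x j) (x k) = x (swap i j k) :=
  hx.swap_apply i j k

lemma swap_off {t : τ} (ht : ¬ ∃ k, x k = t) (i j : Fin n) : swap (x i) (x j) t = t :=
  swap_apply_of_ne_of_ne (fun e => ht ⟨i, e.symm⟩) fun e => ht ⟨j, e.symm⟩

lemma delta (hx : Function.Injective x) (h1 : ∀ f, D 1 f = f)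
    (h2 : ∀ f, Rec (fun i => X (x i)) (sx x) fun w => D w f) (v v' : Perm (Fin n)) :
    eval (fun j => -X (x j)) (ext (D v') (ext (D (v⁻¹ * Fin.revPerm)) (stair x)))
      = if v' = v then 1 else 0 := by
  let e : Perm (Fin n) → MvPolynomial (Fin n) (MvPolynomial τ ℤ) →+*
      MvPolynomial (Fin n) (MvPolynomial τ ℤ) := fun θ => eval₂Hom (eval₂Hom (Int.castRingHom _)
        (Function.extend x (fun i => -X (θ⁻¹ i).rev) fun t => C (X t))) X
  have e1 : ∀ θ i, e θ (C (X (x i))) = -X (θ⁻¹ i).rev := fun θ i => by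
    simp only [e, eval₂Hom_C, eval₂Hom_X', hx.extend_apply]
  have e0 : ∀ θ t, (¬ ∃ k, x k = t) → e θ (C (X t)) = C (X t) := fun θ t ht => by
    simp only [e, eval₂Hom_C, eval₂Hom_X', Function.extend_apply' _ _ _ ht]
  have eX : ∀ θ j, e θ (X j) = X j := fun θ j => by simp only [e, eval₂Hom_X']
  have d := dual_eval (z := X) X_injective e e1 (fun θ i j f => by
    have : (e θ).comp (MvPolynomial.map (sx x i j)) = e (swap i j * θ) := by
      refine ringHom_ext' (ringHom_ext' (Subsingleton.elim _ _) fun t => ?_) fun k => by simp [eX]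
      simp only [RingHom.comp_apply, map_C, AlgHom.toRingHom_eq_coe, RingHom.coe_coe, rename_X]
      by_cases ht : ∃ k, x k = t
      · obtain ⟨k, rfl⟩ := ht
        rw [swap_x hx, e1, e1]; simp
      · rw [swap_off ht, e0 _ _ ht, e0 _ _ ht]
    exact DFunLike.congr_fun this f) (rec_ext hx h1 h2 (stair x)) (fun θ => by
      simp only [ext_one h1, stair, map_prod, map_add, e1, eX])
  have ee : (eval fun j => -X (x j)).comp (e Fin.revPerm) = eval fun j => -X (x j) := by
    refine ringHom_ext' (ringHom_ext' (Subsingleton.elim _ _) fun t => ?_) fun k => by simp [eX]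
    simp only [RingHom.comp_apply]
    by_cases ht : ∃ k, x k = t
    · obtain ⟨k, rfl⟩ := ht
      rw [e1]; simp [Perm.inv_def]
    · rw [e0 _ _ ht]
  have d' : ∀ w, eval (fun j => -X (x j)) (ext (D w) (stair x))
      = if w = Fin.revPerm then 1 else 0 := fun w => by
    rw [← ee, RingHom.comp_apply, d w]; split_ifs <;> simp
  have nh := (nilHecke (fun i j h => hx (X_injective (C_injective _ _ h))) (by simp) (by simp)
    (fun i j f => by
      rw [MvPolynomial.map_map]
      have : (sx x i j).comp (sx x i j) = RingHom.id _ :=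
        ringHom_ext' (Subsingleton.elim _ _) fun t => by simp
      rw [this, MvPolynomial.map_id])
    (rec_ext hx h1 h2 (stair x)) (rec_ext hx h1 h2 _) (u := v⁻¹ * Fin.revPerm) (ext_one h1 _) v').2
  rw [nh]
  by_cases h : v' = v
  · subst h
    rw [mul_inv_cancel_left, if_pos (len_compl v'), d', if_pos rfl, if_pos rfl]
  · rw [if_neg h]
    split_ifs
    · rw [d', if_neg]
      intro e'
      rw [← mul_assoc, mul_eq_right, mul_inv_eq_one] at e'
      exact h e'
    · simp

lemma skew_eq (hx : Function.Injective x) (h1 : ∀ f, D 1 f = f)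
    (h2 : ∀ f, Rec (fun i => X (x i)) (sx x) fun w => D w f)
    {E : Perm (Fin n) → Perm (Fin n) → MvPolynomial τ ℤ → MvPolynomial τ ℤ}
    (h3 : ∀ w f g, D w (f * g) = ∑ v, E w v f * D v g) (v w : Perm (Fin n))
    (f : MvPolynomial τ ℤ) : eval (fun j => -X (x j))
      (ext (D w) (C f * ext (D (v⁻¹ * Fin.revPerm)) (stair x))) = E w v f := by
  have : ∀ g : MvPolynomial (Fin n) (MvPolynomial τ ℤ),
      ext (D w) (C f * g) = ∑ v', C (E w v' f) * ext (D v') g := fun g =>
    MvPolynomial.ext _ _ fun β => by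
      simp only [coeff_sum, coeff_C_mul, coeff_ext (D_zero hx h1 h2 _), h3]
  simp [this, delta hx h1 h2]

end Ext

end Pool.Agent.K9c
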