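import Pool.Agent.Lib.MP_9c9c2f_co.Cells

/-! Top cells are bases of the algebraic matroid; aggregation of labelled cobases. -/

set_option linter.unusedSectionVars false
set_option linter.style.haveILetI false

namespace Pool.Agent.K9c
open MvPolynomial Finset

section Agg
variable {P Λ : Type} [Fintype P] [DecidableEq P] [DecidableEq Λ]

/-- Exponent of an optional label. -/
noncomputable def lbl (o : Option Λ) : Λ →₀ ℕ := o.elim 0 fun l => Finsupp.single l 1

/-- Label counts of a labelling. -/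
noncomputable def typ (g : P → Option Λ) : Λ →₀ ℕ := ∑ p, lbl (g p)

/-- Labelled positions. -/
def dom (g : P → Option Λ) : Finset P := univ.filter fun p => g p ≠ none

lemma mem_dom {g : P → Option Λ} {p : P} : p ∈ dom g ↔ g p ≠ none := by simp [dom]

lemma typ_update (g : P → Option Λ) (p : P) (o : Option Λ) :
    typ (Function.update g p o) + lbl (g p) = typ g + lbl o := by
  unfold typ
  rw [← add_sum_erase univ _ (mem_univ p), ← add_sum_erase univ (fun p => lbl (g p)) (mem_univ p),
    Function.update_self, sum_congr rfl (g := fun q => lbl (g q)) fun q hq => by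
      rw [Function.update_of_ne (ne_of_mem_erase hq)]]
  abel

lemma typ_apply (g : P → Option Λ) (l : Λ) :
    typ g l = (univ.filter fun p => g p = some l).card := by
  rw [typ, Finsupp.finsetSum_apply, card_filter]
  refine sum_congr rfl fun p _ => ?_
  cases g p <;> simp [lbl, Finsupp.single_apply]

/-- The exchange property of an M-convex set. -/
def Exch (B : Set (Λ →₀ ℕ)) : Prop := ∀ a ∈ B, ∀ b ∈ B, ∀ i, b i < a i →
  ∃ j, a j < b j ∧ a - Finsupp.single i 1 + Finsupp.single j 1 ∈ B

lemma exch_typ (𝒞 : Set (Finset P)) (al : P → Λ → Prop)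
    (h𝒞 : ∀ C ∈ 𝒞, ∀ C' ∈ 𝒞, ∀ x ∈ C, x ∉ C' → ∃ y ∈ C', y ∉ C ∧ insert y (C.erase x) ∈ 𝒞) :
    Exch {a | ∃ g : P → Option Λ, (dom g ∈ 𝒞 ∧ ∀ p l, g p = some l → al p l) ∧ typ g = a} := by
  rintro _ ⟨g, hg, rfl⟩ _ ⟨g', hg', rfl⟩
  induction hn : (univ.filter fun p => g p ≠ g' p).card using Nat.strong_induction_on
    generalizing g with
  | _ k ih =>
  intro i hi
  obtain ⟨p, hp, hp'⟩ : ∃ p, g p = some i ∧ g' p ≠ some i := by
    by_contra hc
    push Not at hc
    rw [typ_apply, typ_apply] at hi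
    exact hi.not_ge (card_le_card fun p hp => by
      simp only [mem_filter, mem_univ, true_and] at hp ⊢; exact hc p hp)
  obtain ⟨g₁, j, v₁, d₁, t₁⟩ : ∃ g₁ j, (dom g₁ ∈ 𝒞 ∧ ∀ p l, g₁ p = some l → al p l) ∧
      (univ.filter fun p => g₁ p ≠ g' p).card < k ∧
      typ g₁ + Finsupp.single i 1 = typ g + Finsupp.single j 1 := by
    have lt : ∀ g₁ : P → Option Λ, g₁ p = g' p → (∀ q, g q = g' q → g₁ q = g' q) →
        (univ.filter fun p => g₁ p ≠ g' p).card < k := by
      intro g₁ a b
      rw [← hn]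
      refine card_lt_card ⟨fun q hq => ?_, fun hs => ?_⟩
      · simp only [mem_filter, mem_univ, true_and] at hq ⊢; exact mt (b q) hq
      · have := hs (x := p) (by simpa [hp] using hp'.symm)
        simp [a] at this
    rcases e : g' p with _ | j
    · obtain ⟨y, hy, hy', hC⟩ := h𝒞 _ hg.1 _ hg'.1 p (by simp [mem_dom, hp]) (by simp [mem_dom, e])
      rw [mem_dom] at hy hy'
      push Not at hy'
      obtain ⟨j, hj⟩ := Option.ne_none_iff_exists'.1 hy
      have hyp : p ≠ y := fun h => by rw [← h, hp] at hy'; cases hy'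
      refine ⟨Function.update (Function.update g p none) y (some j), j, ⟨?_, fun q l hq => ?_⟩,
        lt _ (by simp [hyp, e]) fun q hq => ?_, ?_⟩
      · convert hC using 1
        ext q
        by_cases h1 : q = y
        · simp [mem_dom, h1]
        by_cases h2 : q = p
        · simp [mem_dom, h2, hyp]
        · simp [mem_dom, h1, h2]
      · by_cases h1 : q = y
        · subst h1; rw [Function.update_self, ← hj] at hq; exact hg'.2 _ _ hq
        by_cases h2 : q = p
        · subst h2; simp [h1] at hq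
        · simp only [Function.update_of_ne h1, Function.update_of_ne h2] at hq
          exact hg.2 _ _ hq
      · by_cases h1 : q = y
        · simp [h1, hj]
        by_cases h2 : q = p
        · simp [h2, hyp, e]
        · simp [h1, h2, hq]
      · have a := typ_update g p none
        have b := typ_update (Function.update g p none) y (some j)
        rw [Function.update_of_ne hyp.symm, hy'] at b
        rw [hp] at a
        simp only [lbl, Option.elim_none, Option.elim_some, add_zero] at a b
        rw [b, ← a]; abel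
    · refine ⟨Function.update g p (some j), j, ⟨?_, fun q l hq => ?_⟩, lt _ (by simp [e])
        fun q hq => ?_, ?_⟩
      · convert hg.1 using 1
        ext q
        by_cases h2 : q = p <;> simp [mem_dom, h2, hp]
      · by_cases h2 : q = p
        · subst h2; rw [Function.update_self, ← e] at hq; exact hg'.2 _ _ hq
        · rw [Function.update_of_ne h2] at hq; exact hg.2 _ _ hq
      · by_cases h2 : q = p <;> simp [h2, e, hq]
      · have a := typ_update g p (some j)
        rwa [hp] at a
  have t : ∀ l, typ g₁ l + (if i = l then 1 else 0) = typ g l + if j = l then 1 else 0 := by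
    intro l
    simpa [Finsupp.single_apply] using DFunLike.congr_fun t₁ l
  by_cases hji : j = i
  · subst hji
    have e : typ g₁ = typ g := add_right_cancel t₁
    have := ih _ d₁ g₁ v₁ rfl j (e ▸ hi)
    rwa [e] at this
  have tj := t j
  rw [if_neg (Ne.symm hji), if_pos rfl] at tj
  have ti := t i
  rw [if_pos rfl, if_neg hji] at ti
  by_cases hj : typ g j < typ g' j
  · refine ⟨j, hj, g₁, v₁, Finsupp.ext fun l => ?_⟩
    have := t l
    simp only [Finsupp.add_apply, Finsupp.tsub_apply, Finsupp.single_apply]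
    split_ifs at this ⊢ <;> subst_vars <;> omega
  · obtain ⟨j', h1, h2⟩ := ih _ d₁ g₁ v₁ rfl j (by omega)
    refine ⟨j', ?_, ?_⟩
    · have := t j'
      split_ifs at this <;> subst_vars <;> omega
    · convert h2 using 2
      ext l
      have := t l
      simp only [Finsupp.tsub_apply, Finsupp.single_apply]
      split_ifs at this ⊢ <;> subst_vars <;> omega

open Classical in
lemma coeff_prod_lab (C : Finset P) (lab : P → Finset Λ) (a : Λ →₀ ℕ) :
    ∃ s : Finset (P → Option Λ),
      coeff a (∏ p ∈ C, ∑ l ∈ lab p, (X l : MvPolynomial Λ ℤ)) = s.card ∧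
      ∀ g, g ∈ s ↔ (dom g = C ∧ ∀ p l, g p = some l → l ∈ lab p) ∧ typ g = a := by
  let opt : P → Finset (Option Λ) := fun p => if p ∈ C then (lab p).image some else {none}
  have e : (∏ p ∈ C, ∑ l ∈ lab p, (X l : MvPolynomial Λ ℤ))
      = ∏ p, ∑ o ∈ opt p, monomial (lbl o) 1 := by
    rw [← prod_subset (subset_univ C) fun p _ hp => by simp [opt, hp, lbl]]
    refine prod_congr rfl fun p hp => ?_
    simp only [opt, hp, if_true]
    rw [sum_image fun _ _ _ _ h => Option.some_injective _ h]
    rfl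
  refine ⟨(Fintype.piFinset opt).filter fun g => typ g = a, ?_, fun g => ?_⟩
  · rw [e, prod_univ_sum, coeff_sum, card_filter]
    push_cast
    refine sum_congr rfl fun g _ => ?_
    rw [← monomial_sum_one, coeff_monomial]; rfl
  · rw [mem_filter, Fintype.mem_piFinset]
    refine and_congr_left fun _ => ⟨fun h => ⟨?_, fun p l hl => ?_⟩, fun h p => ?_⟩
    · ext p
      have := h p
      rw [mem_dom]
      by_cases hp : p ∈ C
      · simp only [opt, hp, if_true, mem_image] at this
        obtain ⟨l, -, hl⟩ := this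
        simp [hp, ← hl]
      · simpa [opt, hp] using this
    · have := h p
      by_cases hp : p ∈ C <;> simp_all [opt]
    · by_cases hp : p ∈ C
      · obtain ⟨l, hl⟩ := Option.ne_none_iff_exists'.1 (mem_dom.1 (h.1 ▸ hp))
        simpa [opt, hp, hl] using h.2 p l hl
      · have : g p = none := by by_contra hc; exact hp (h.1 ▸ mem_dom.2 hc)
        simp [opt, hp, this]

end Agg

variable {σ G : Type} [Fintype σ] [DecidableEq σ] [Fintype G]

/-- No nonzero element of `I` uses only variables from `F`. -/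
def Ind (I : Ideal (MvPolynomial σ ℚ)) (F : Set σ) : Prop := ∀ f ∈ I, ↑f.vars ⊆ F → f = 0

lemma exists_matroid {I : Ideal (MvPolynomial σ ℚ)} (hp : I.IsPrime) :
    ∃ M : Matroid σ, M.E = Set.univ ∧ ∀ F, M.Indep F ↔ Ind I F := by
  refine ⟨(AlgebraicIndependent.matroid ℚ (MvPolynomial σ ℚ ⧸ I)).comap
    fun q => Ideal.Quotient.mk I (X q), by simp, fun F => ?_⟩
  have e : (AlgebraicIndependent ℚ fun q : F => Ideal.Quotient.mk I (X q.1)) ↔ Ind I F := by
    have a : ∀ p : MvPolynomial F ℚ, aeval (fun q : F => Ideal.Quotient.mk I (X q.1)) p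
        = Ideal.Quotient.mk I (rename Subtype.val p) := fun p => by
      have : aeval (fun q : F => Ideal.Quotient.mk I (X q.1))
          = (Ideal.Quotient.mkₐ ℚ I).comp (rename Subtype.val) := by ext q; simp
      rw [this]; rfl
    simp only [algebraicIndependent_iff, a, Ideal.Quotient.eq_zero_iff_mem]
    constructor
    · intro h f hf hv
      obtain ⟨p, rfl⟩ := exists_rename_eq_of_vars_subset_range f (Subtype.val : F → σ)
        Subtype.val_injective (by simpa using hv)
      rw [h p hf, map_zero]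
    · intro h p hp
      refine rename_injective _ Subtype.val_injective ((h _ hp fun q hq => ?_).trans (map_zero _).symm)
      obtain ⟨i, -, rfl⟩ := mem_vars_rename _ _ hq
      exact i.2
  rw [Matroid.comap_indep_iff, AlgebraicIndependent.matroid_indep_iff, ← e]
  constructor
  · rintro ⟨h1, h2⟩
    exact (algebraicIndependent_image h2).2 h1
  · intro h
    have h2 : Set.InjOn (fun q => Ideal.Quotient.mk I (X q)) F := fun a ha b hb hab =>
      congrArg Subtype.val (h.injective (a₁ := ⟨a, ha⟩) (a₂ := ⟨b, hb⟩) hab)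
    exact ⟨(algebraicIndependent_image h2).1 h, h2⟩

lemma ind_of_cell {m : MonomialOrder σ} {I : Ideal (MvPolynomial σ ℚ)} {N : ℕ} (hN : Stab m I N)
    {p : σ →₀ ℕ} (hp : p ∈ cells m I N) : Ind I (free N p) := by
  intro f hf hv
  by_contra h0
  refine std_lower (hN (p + m.degree f) (std_lower (mem_cells.1 hp).2 fun q => ?_)) le_add_self
    f hf h0 rfl
  by_cases hq : m.degree f q = 0
  · simp [hq]
  · have : q ∈ free N p := hv ((mem_vars_iff_mem_support q).2
      ⟨_, m.degree_mem_support h0, Finsupp.mem_support_iff.2 hq⟩)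
    simp [mem_free.1 this]

lemma exists_cell {I : Ideal (MvPolynomial σ ℚ)} {F : Finset σ} (hF : Ind I F) :
    ∃ (m : MonomialOrder.{0, 0} σ) (N : ℕ) (p : σ →₀ ℕ), Stab m I N ∧ p ∈ cells m I N ∧ free N p = F := by
  let key : σ → ℕ := fun q => (if q ∈ F then Fintype.card σ else 0) + Fintype.equivFin σ q
  have hk : Function.Injective key := by
    intro a b h
    have ha := (Fintype.equivFin σ a).2
    have hb := (Fintype.equivFin σ b).2
    refine (Fintype.equivFin σ).injective (Fin.ext ?_)
    simp only [key] at h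
    split_ifs at h <;> omega
  letI : LinearOrder σ := LinearOrder.lift' key hk
  obtain ⟨N, hN⟩ := exists_stab (MonomialOrder.lex (σ := σ)) I
  let p : σ →₀ ℕ := Finsupp.equivFunOnFinite.symm fun q => if q ∈ F then N + 1 else 0
  have hp : ∀ q, p q = if q ∈ F then N + 1 else 0 := fun _ => rfl
  refine ⟨_, N + 1, p, hN _ N.le_succ, mem_cells.2 ⟨fun q => ?_, fun f hf h0 hd => h0 ?_⟩, ?_⟩
  · rw [hp, top_apply]; split_ifs <;> omega
  · refine hF f hf fun q hq => ?_
    obtain ⟨d, hd', hqd⟩ := (mem_vars_iff_mem_support q).1 hq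
    have := MonomialOrder.lex.le_degree hd'
    rw [hd, MonomialOrder.lex_le_iff] at this
    by_contra hqF
    have hqF' : q ∉ F := hqF
    refine Finsupp.mem_support_iff.1 hqd ?_
    rcases this.eq_or_lt with e | lt
    · rw [toLex_inj.1 e, hp, if_neg hqF']
    · obtain ⟨i, h1, h2⟩ := Finsupp.Lex.lt_iff.1 lt
      have hi : i ∈ F := by
        by_contra hc
        simp [hp, hc] at h2
      have hlt : q < i := by
        have := (Fintype.equivFin σ q).2
        show key q < key i
        simp only [key, hi, hqF', if_true, if_false]; omega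
      simpa [hp, hqF'] using h1 q hlt
  · ext q; simp [mem_free, hp]

theorem pos_of_md {Λ : Type} [DecidableEq Λ] {wt : σ → G → ℤ} (hw : PosW wt)
    {I : Ideal (MvPolynomial σ ℚ)} (hp : I.IsPrime) (hI : Homog wt I) {D : ℤ}
    {C : MvPolynomial G ℤ} (hC : MD wt I D C) (ev : MvPolynomial G ℤ →+* MvPolynomial Λ ℤ)
    (O Δ : Finset σ) (lab : σ → Finset Λ) (hO : ∀ q ∈ O, X q ∈ I ∧ ev (lin (wt q)) ≠ 0)
    (hΔ : ∀ q ∈ Δ, ev (lin (wt q)) = 0)
    (hl : ∀ q, q ∉ O → q ∉ Δ → ev (lin (wt q)) = ∑ l ∈ lab q, X l) {f : MvPolynomial Λ ℤ}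
    (hf : ev C = (∏ q ∈ O, ev (lin (wt q))) * f) :
    ∃ B, Exch B ∧ ∀ a, (a ∈ B → 0 < coeff a f) ∧ (a ∉ B → coeff a f = 0) := by
  classical
  have dis : ∀ F : Finset σ, Ind I F → ∀ q ∈ O, q ∉ F := fun F hF q hq h =>
    X_ne_zero q (hF _ (hO q hq).1 (by simpa [vars_X] using h))
  have form : ∀ (m : MonomialOrder.{0, 0} σ) N, Stab m I N → f = ∑ p ∈ (cells m I N).filter
      (fun p => ((free N p).card : ℤ) = D ∧ Δ ⊆ free N p),
        ∏ q ∈ (free N p)ᶜ \ O, ∑ l ∈ lab q, X l := by
    intro m N hN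
    refine mul_left_cancel₀ (prod_ne_zero_iff.2 fun q hq => (hO q hq).2) ?_
    rw [← hf, hC.eq_cellPoly hw hI hN, cellPoly, map_sum, mul_sum, ← filter_filter,
      sum_filter (fun p => Δ ⊆ free N p)]
    refine sum_congr rfl fun p hp => ?_
    rw [map_prod]
    split_ifs with h
    · rw [← prod_sdiff (s₁ := O) fun q hq =>
        mem_compl.2 (dis _ (ind_of_cell hN (mem_filter.1 hp).1) q hq), mul_comm]
      congr 1
      exact prod_congr rfl fun q hq =>
        hl q (mem_sdiff.1 hq).2 fun h' => mem_compl.1 (mem_sdiff.1 hq).1 (h h')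
    · obtain ⟨q, h1, h2⟩ := not_subset.1 h
      exact prod_eq_zero (mem_compl.2 h2) (hΔ q h1)
  obtain ⟨M, hE, hM⟩ := exists_matroid hp
  have le : ∀ F : Finset σ, Ind I F → (F.card : ℤ) ≤ D := fun F hF => by
    obtain ⟨m, N, p, h1, h2, rfl⟩ := exists_cell hF
    exact hC.card_le hw hI h1 p h2
  have base : ∀ F : Finset σ, Ind I F → (F.card : ℤ) = D → M.IsBase F := fun F hF hc =>
    ((hM F).2 hF).isBase_of_forall_insert fun e he hi => by
      have := le (insert e F) (by simpa using (hM _).1 hi)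
      rw [card_insert_of_notMem (by simpa using he.2)] at this
      omega
  refine ⟨_, exch_typ {Cb | ∃ F : Finset σ, Ind I F ∧ (F.card : ℤ) = D ∧ Δ ⊆ F ∧ Cb = Fᶜ \ O}
    (fun q l => l ∈ lab q) ?_, fun a => ⟨?_, fun ha => ?_⟩⟩
  · rintro _ ⟨F, h1, h2, h3, rfl⟩ _ ⟨F', h1', h2', h3', rfl⟩ x hx hx'
    simp only [mem_sdiff, mem_compl, not_and, not_not] at hx hx'
    have hxF' : x ∈ F' := by by_contra hc; exact hx.2 (hx' hc)
    obtain ⟨y, hy, hb⟩ := (base F h1 h2).compl_isBase_dual.exchange
      (base F' h1' h2').compl_isBase_dual (e := x) (by simp [hE, hx.1, hxF'])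
    simp only [hE, Set.mem_sdiff, Set.mem_univ, true_and, not_not, mem_coe] at hy
    have hb' := hb.compl_isBase_of_dual
    have e : M.E \ insert y ((M.E \ F) \ {x}) = ↑(insert x (F.erase y)) := by
      ext q
      by_cases a : q = x
      · subst a; simp [hE]; rintro rfl; exact hy.1 hxF'
      · simp [hE, a, and_comm]
    rw [e] at hb'
    refine ⟨y, by simp [hy.1, mt (dis F h1 y) (not_not.2 hy.2)], by simp [hy.2],
      insert x (F.erase y), (hM _).1 hb'.indep, ?_, fun q hq => ?_, ?_⟩
    · rw [card_insert_of_notMem (by simp [hx.1]), card_erase_add_one hy.2, h2]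
    · exact mem_insert_of_mem (mem_erase.2 ⟨fun e => hy.1 (e ▸ h3' hq), h3 hq⟩)
    · ext q
      have := mt (dis F h1 y) (not_not.2 hy.2)
      by_cases a : q = y
      · subst a; simp [this]; rintro rfl; exact hx.1 hy.2
      · simp [a, and_assoc]
  · rintro ⟨g, ⟨⟨F, h1, h2, h3, h4⟩, h5⟩, h6⟩
    obtain ⟨m, N, p, hN, hp, rfl⟩ := exists_cell h1
    rw [form m N hN, coeff_sum]
    refine sum_pos' (fun p' _ => ?_) ⟨p, mem_filter.2 ⟨hp, h2, h3⟩, ?_⟩
    · obtain ⟨s, hs, -⟩ := coeff_prod_lab ((free N p')ᶜ \ O) lab a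
      rw [hs]; positivity
    · obtain ⟨s, hs, hs'⟩ := coeff_prod_lab ((free N p)ᶜ \ O) lab a
      rw [hs]
      exact_mod_cast card_pos.2 ⟨g, (hs' g).2 ⟨⟨h4, h5⟩, h6⟩⟩
  · obtain ⟨N, hN⟩ := exists_stab (someOrder σ) I
    rw [form _ N (hN N le_rfl), coeff_sum]
    refine sum_eq_zero fun p hp => ?_
    obtain ⟨s, hs, hs'⟩ := coeff_prod_lab ((free N p)ᶜ \ O) lab a
    obtain ⟨h1, h2, h3⟩ := mem_filter.1 hp
    rw [hs, eq_empty_of_forall_notMem (s := s) fun g hg => ha ⟨g, ⟨⟨_, ind_of_cell (hN N le_rfl) h1,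
      h2, h3, ((hs' g).1 hg).1.1⟩, ((hs' g).1 hg).1.2⟩, ((hs' g).1 hg).2⟩]
    simp

end Pool.Agent.K9c
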