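import Mathlib

/-! Dimension counts modulo a subspace, weighted pieces, Laplace series. -/

set_option linter.unusedSectionVars false
set_option linter.style.haveILetI false

namespace Pool.Agent.K9c
open MvPolynomial Finset Filter Topology Module

section LinAlg
variable {M M' : Type*} [AddCommGroup M] [Module ℚ M] [AddCommGroup M'] [Module ℚ M']

/-- Dimension of the image of `V` in `M / I`. -/
noncomputable def hq (V I : Submodule ℚ M) : ℕ := finrank ℚ (V.map I.mkQ)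

lemma hq_add (V I : Submodule ℚ M) [FiniteDimensional ℚ V] :
    hq V I + finrank ℚ (V ⊓ I : Submodule ℚ M) = finrank ℚ V := by
  have h := LinearMap.finrank_range_add_finrank_ker (I.mkQ ∘ₗ V.subtype)
  rw [LinearMap.range_comp, Submodule.range_subtype, LinearMap.ker_comp, Submodule.ker_mkQ] at h
  rw [← h, hq, ← Submodule.map_comap_subtype, Submodule.finrank_map_subtype_eq]

lemma range_le_of_ker_le {V N N' : Type*} [AddCommGroup V] [Module ℚ V] [AddCommGroup N]
    [Module ℚ N] [AddCommGroup N'] [Module ℚ N'] [FiniteDimensional ℚ V]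
    (ψ : V →ₗ[ℚ] N') (χ : V →ₗ[ℚ] N) (h : LinearMap.ker ψ ≤ LinearMap.ker χ) :
    finrank ℚ (LinearMap.range χ) ≤ finrank ℚ (LinearMap.range ψ) := by
  have h1 := LinearMap.finrank_range_add_finrank_ker ψ
  have h2 := LinearMap.finrank_range_add_finrank_ker χ
  have h3 := Submodule.finrank_mono h
  omega

lemma hq_eq_range (V I : Submodule ℚ M) :
    hq V I = finrank ℚ (LinearMap.range (I.mkQ ∘ₗ V.subtype)) := by
  rw [LinearMap.range_comp, Submodule.range_subtype, hq]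

lemma hq_le_of_inj {V I : Submodule ℚ M} {V' I' : Submodule ℚ M'} [FiniteDimensional ℚ V]
    [FiniteDimensional ℚ V'] (φ : M →ₗ[ℚ] M') (h1 : ∀ v ∈ V, φ v ∈ V')
    (h2 : ∀ v ∈ V, φ v ∈ I' → v ∈ I) : hq V I ≤ hq V' I' := by
  have a := range_le_of_ker_le (I'.mkQ ∘ₗ φ ∘ₗ V.subtype) (I.mkQ ∘ₗ V.subtype) (by
    intro v hv
    simp only [LinearMap.mem_ker, LinearMap.comp_apply, Submodule.mkQ_apply,
      Submodule.Quotient.mk_eq_zero, Submodule.subtype_apply] at hv ⊢
    exact h2 v v.2 hv)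
  rw [← hq_eq_range] at a
  refine a.trans (Submodule.finrank_mono ?_)
  rintro _ ⟨v, rfl⟩
  exact ⟨φ v, h1 v v.2, rfl⟩

lemma hq_le_of_surj {V I : Submodule ℚ M} {V' I' : Submodule ℚ M'} [FiniteDimensional ℚ V]
    (φ : M →ₗ[ℚ] M') (h1 : ∀ v' ∈ V', ∃ v ∈ V, v' - φ v ∈ I')
    (h2 : ∀ v ∈ V, v ∈ I → φ v ∈ I') : hq V' I' ≤ hq V I := by
  have a := range_le_of_ker_le (I.mkQ ∘ₗ V.subtype) (I'.mkQ ∘ₗ φ ∘ₗ V.subtype) (by
    intro v hv
    simp only [LinearMap.mem_ker, LinearMap.comp_apply, Submodule.mkQ_apply,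
      Submodule.Quotient.mk_eq_zero, Submodule.subtype_apply] at hv ⊢
    exact h2 v v.2 hv)
  rw [← hq_eq_range] at a
  refine le_trans (Submodule.finrank_mono ?_) a
  rintro _ ⟨v', hv', rfl⟩
  obtain ⟨v, hv, h⟩ := h1 v' hv'
  refine ⟨⟨v, hv⟩, ?_⟩
  simp only [LinearMap.comp_apply, Submodule.mkQ_apply, Submodule.subtype_apply]
  exact ((Submodule.Quotient.eq _).2 h).symm

lemma hq_exact (V I K : Submodule ℚ M) [FiniteDimensional ℚ V] (h : I ≤ K) :
    hq V I = hq V K + hq (V ⊓ K) I := by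
  have h1 := hq_add V I
  have h2 := hq_add V K
  have h3 := hq_add (V ⊓ K) I
  rw [inf_assoc, inf_eq_right.2 h] at h3
  omega

lemma hq_le (V I : Submodule ℚ M) [FiniteDimensional ℚ V] : hq V I ≤ finrank ℚ V := by
  have := hq_add V I; omega

/-- A product of subspaces as a product of spaces. -/
noncomputable def piEquiv {ι : Type*} (V : ι → Submodule ℚ M) :
    (Submodule.pi Set.univ V) ≃ₗ[ℚ] (∀ i, V i) where
  toFun v i := ⟨v.1 i, v.2 i trivial⟩
  invFun v := ⟨fun i => v i, fun i _ => (v i).2⟩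
  map_add' _ _ := rfl
  map_smul' _ _ := rfl
  left_inv _ := rfl
  right_inv _ := rfl

lemma fin_pi {ι : Type*} [Fintype ι] (V : ι → Submodule ℚ M) [∀ i, FiniteDimensional ℚ (V i)] :
    FiniteDimensional ℚ (Submodule.pi Set.univ V) :=
  (piEquiv V).symm.finiteDimensional

lemma hq_pi {ι : Type*} [Fintype ι] (V : ι → Submodule ℚ M) (I : Submodule ℚ M)
    [∀ i, FiniteDimensional ℚ (V i)] :
    hq (Submodule.pi Set.univ V) (Submodule.pi Set.univ fun _ => I) = ∑ i, hq (V i) I := by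
  haveI := fin_pi V
  have h1 := hq_add (Submodule.pi Set.univ V) (Submodule.pi Set.univ fun _ => I)
  have e : (Submodule.pi Set.univ V ⊓ Submodule.pi Set.univ fun _ => I)
      = Submodule.pi Set.univ fun i => V i ⊓ I := by
    ext v; simp [Submodule.mem_pi, forall_and]
  rw [e, (piEquiv V).finrank_eq, (piEquiv fun i => V i ⊓ I).finrank_eq, finrank_pi_fintype,
    finrank_pi_fintype] at h1
  have h2 : ∑ i, hq (V i) I + ∑ i, finrank ℚ (V i ⊓ I : Submodule ℚ M) = ∑ i, finrank ℚ (V i) := by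
    rw [← sum_add_distrib]; exact sum_congr rfl fun i _ => hq_add _ _
  omega

end LinAlg

section Series
variable {G : Type} [Fintype G]

/-- Pairing of a real vector with a degree. -/
noncomputable def dot (L : G → ℝ) (d : G → ℤ) : ℝ := ∑ g, L g * d g

lemma dot_add (L : G → ℝ) (d e : G → ℤ) : dot L (d + e) = dot L d + dot L e := by
  simp [dot, mul_add, sum_add_distrib]

lemma dot_smul (ε : ℝ) (L : G → ℝ) (d : G → ℤ) : dot (ε • L) d = ε * dot L d := by
  simp [dot, mul_sum, mul_assoc]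

lemma dot_zero (L : G → ℝ) : dot L 0 = 0 := by simp [dot]

/-- A term of the Laplace series. -/
noncomputable def trm (h : (G → ℤ) → ℕ) (L : G → ℝ) (d : G → ℤ) : ℝ :=
  (h d : ℝ) * Real.exp (-dot L d)

lemma trm_nonneg (h : (G → ℤ) → ℕ) (L : G → ℝ) (d : G → ℤ) : 0 ≤ trm h L d := by
  unfold trm; positivity

/-- The Laplace series of a counting function. -/
noncomputable def ser (h : (G → ℤ) → ℕ) (L : G → ℝ) : ℝ := ∑' d, trm h L d

/-- The series converges at all positive vectors. -/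
def Sm (h : (G → ℤ) → ℕ) : Prop := ∀ L : G → ℝ, (∀ g, 0 < L g) → Summable (trm h L)

lemma ser_nonneg (h : (G → ℤ) → ℕ) (L : G → ℝ) : 0 ≤ ser h L := tsum_nonneg (trm_nonneg h L)

lemma trm_shift (h : (G → ℤ) → ℕ) (L : G → ℝ) (e d : G → ℤ) :
    trm (fun d => h (d - e)) L (d + e) = Real.exp (-dot L e) * trm h L d := by
  simp only [trm, add_sub_cancel_right, dot_add, neg_add, Real.exp_add]; ring

lemma ser_shift (h : (G → ℤ) → ℕ) (L : G → ℝ) (e : G → ℤ) :
    ser (fun d => h (d - e)) L = Real.exp (-dot L e) * ser h L := by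
  rw [ser, ← (Equiv.addRight e).tsum_eq, ser, ← tsum_mul_left]
  exact tsum_congr fun d => trm_shift h L e d

lemma Sm.shift {h : (G → ℤ) → ℕ} (hh : Sm h) (e : G → ℤ) : Sm fun d => h (d - e) := by
  intro L hL
  rw [← (Equiv.addRight e).summable_iff]
  exact ((hh L hL).mul_left (Real.exp (-dot L e))).congr fun d => (trm_shift h L e d).symm

lemma trm_mono {h h' : (G → ℤ) → ℕ} (hle : ∀ d, h d ≤ h' d) (L : G → ℝ) (d : G → ℤ) :
    trm h L d ≤ trm h' L d :=
  mul_le_mul_of_nonneg_right (by exact_mod_cast hle d) (Real.exp_pos _).le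

lemma Sm.mono {h h' : (G → ℤ) → ℕ} (hh : Sm h') (hle : ∀ d, h d ≤ h' d) : Sm h :=
  fun L hL => (hh L hL).of_nonneg_of_le (trm_nonneg h L) (trm_mono hle L)

lemma ser_mono {h h' : (G → ℤ) → ℕ} (hh : Sm h') (hle : ∀ d, h d ≤ h' d) {L : G → ℝ}
    (hL : ∀ g, 0 < L g) : ser h L ≤ ser h' L :=
  (hh.mono hle L hL).tsum_le_tsum (trm_mono hle L) (hh L hL)

lemma trm_sum {ι : Type*} (s : Finset ι) (h : ι → (G → ℤ) → ℕ) (L : G → ℝ) (d : G → ℤ) :
    trm (fun d => ∑ i ∈ s, h i d) L d = ∑ i ∈ s, trm (h i) L d := by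
  simp [trm, sum_mul]

lemma Sm.sum {ι : Type*} (s : Finset ι) {h : ι → (G → ℤ) → ℕ} (hh : ∀ i, Sm (h i)) :
    Sm fun d => ∑ i ∈ s, h i d := fun L hL =>
  (summable_sum fun i _ => hh i L hL).congr fun d => (trm_sum s h L d).symm

lemma ser_sum {ι : Type*} (s : Finset ι) {h : ι → (G → ℤ) → ℕ} (hh : ∀ i, Sm (h i))
    {L : G → ℝ} (hL : ∀ g, 0 < L g) : ser (fun d => ∑ i ∈ s, h i d) L = ∑ i ∈ s, ser (h i) L := by
  simp only [ser]
  rw [← Summable.tsum_finsetSum fun i _ => hh i L hL]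
  exact tsum_congr fun d => trm_sum s h L d

lemma ser_add {h h' : (G → ℤ) → ℕ} (hh : Sm h) (hh' : Sm h') {L : G → ℝ} (hL : ∀ g, 0 < L g) :
    ser (fun d => h d + h' d) L = ser h L + ser h' L := by
  simp only [ser]
  rw [← (hh L hL).tsum_add (hh' L hL)]
  exact tsum_congr fun d => by simp [trm, add_mul]

/-- The rescaled series has limit `c` at order `D` along the ray of `L`. -/
def Lim (h : (G → ℤ) → ℕ) (D : ℤ) (L : G → ℝ) (c : ℝ) : Prop :=
  Tendsto (fun ε : ℝ => ε ^ D * ser h (ε • L)) (𝓝[>] 0) (𝓝 c)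

lemma smul_pos' {L : G → ℝ} (hL : ∀ g, 0 < L g) {ε : ℝ} (hε : 0 < ε) : ∀ g, 0 < (ε • L) g :=
  fun g => mul_pos hε (hL g)

lemma tendsto_exp_one (c : ℝ) :
    Tendsto (fun ε : ℝ => Real.exp (-(ε * c))) (𝓝[>] 0) (𝓝 1) := by
  have : Continuous fun ε : ℝ => Real.exp (-(ε * c)) := by fun_prop
  have h := this.tendsto 0
  simp only [zero_mul, neg_zero, Real.exp_zero] at h
  exact h.mono_left nhdsWithin_le_nhds

lemma tendsto_slope (a b : ℝ) :
    Tendsto (fun ε : ℝ => (Real.exp (-(ε * a)) - Real.exp (-(ε * b))) / ε) (𝓝[>] 0)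
      (𝓝 (b - a)) := by
  have h1 : ∀ c : ℝ, HasDerivAt (fun ε : ℝ => Real.exp (-(ε * c))) (-c) 0 := by
    intro c
    have := ((hasDerivAt_id (0 : ℝ)).mul_const c).neg.exp
    simpa using this
  have h2 := ((h1 a).sub (h1 b)).tendsto_slope_zero_right
  simp only [zero_add, Pi.sub_apply, zero_mul, neg_zero, Real.exp_zero, sub_self, sub_zero,
    smul_eq_mul] at h2
  have e : -a - -b = b - a := by ring
  rw [e] at h2
  refine h2.congr fun ε => ?_
  rw [div_eq_inv_mul]

/-- Comparison with `ρ` shifted copies on both sides. -/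
lemma Lim.of_rank {ι : Type*} [Fintype ι] [Nonempty ι] {hQ h : (G → ℤ) → ℕ} (hh : Sm h)
    (e e' : ι → G → ℤ) (lo : ∀ d, ∑ i, h (d - e i) ≤ hQ d) (up : ∀ d, hQ d ≤ ∑ i, h (d - e' i))
    {D : ℤ} {L : G → ℝ} (hL : ∀ g, 0 < L g) {c : ℝ} (hc : Lim hQ D L c) :
    Lim h D L (c / Fintype.card ι) := by
  have sU : Sm fun d => ∑ i, h (d - e' i) := Sm.sum _ fun i => hh.shift _
  have sQ : Sm hQ := sU.mono up
  have key : ∀ f : ι → G → ℤ, Tendsto (fun ε : ℝ => ∑ i, Real.exp (-(ε * dot L (f i))))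
      (𝓝[>] 0) (𝓝 (Fintype.card ι)) := by
    intro f
    have := tendsto_finsetSum (univ : Finset ι) fun i _ => tendsto_exp_one (dot L (f i))
    simpa using this
  have hcard : (Fintype.card ι : ℝ) ≠ 0 := by exact_mod_cast Fintype.card_ne_zero
  have val : ∀ (f : ι → G → ℤ) (ε : ℝ), 0 < ε → ser (fun d => ∑ i, h (d - f i)) (ε • L)
      = (∑ i, Real.exp (-(ε * dot L (f i)))) * ser h (ε • L) := by
    intro f ε hε
    rw [ser_sum _ (fun i => hh.shift _) (smul_pos' hL hε), sum_mul]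
    exact sum_congr rfl fun i _ => by rw [ser_shift, dot_smul]
  have pos : ∀ (f : ι → G → ℤ) (ε : ℝ), 0 < ∑ i, Real.exp (-(ε * dot L (f i))) :=
    fun f ε => sum_pos (fun i _ => Real.exp_pos _) univ_nonempty
  refine tendsto_of_tendsto_of_tendsto_of_le_of_le' (hc.div (key e') hcard) (hc.div (key e) hcard)
    ?_ ?_
  · filter_upwards [self_mem_nhdsWithin] with ε hε
    have hε' : (0 : ℝ) < ε := hε
    have := ser_mono sU up (smul_pos' hL hε')
    rw [val e' ε hε'] at this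
    rw [Pi.div_apply, div_le_iff₀ (pos e' ε), mul_assoc, mul_comm (ser h _)]
    exact mul_le_mul_of_nonneg_left this (zpow_pos hε' D).le
  · filter_upwards [self_mem_nhdsWithin] with ε hε
    have hε' : (0 : ℝ) < ε := hε
    have := ser_mono sQ lo (smul_pos' hL hε')
    rw [val e ε hε'] at this
    rw [Pi.div_apply, le_div_iff₀ (pos e ε), mul_assoc, mul_comm (ser h _)]
    exact mul_le_mul_of_nonneg_left this (zpow_pos hε' D).le

end Series

section Pieces
variable {σ G : Type} [Fintype σ] [Fintype G]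

/-- The homogeneous piece of degree `d`. -/
noncomputable abbrev Vd (wt : σ → G → ℤ) (d : G → ℤ) : Submodule ℚ (MvPolynomial σ ℚ) :=
  weightedHomogeneousSubmodule ℚ wt d

/-- The component of degree `d`. -/
noncomputable abbrev cmp (wt : σ → G → ℤ) (d : G → ℤ) :
    MvPolynomial σ ℚ →ₗ[ℚ] MvPolynomial σ ℚ := weightedHomogeneousComponent wt d

/-- Weights are nonnegative and nonzero. -/
def PosW (wt : σ → G → ℤ) : Prop := (∀ p g, 0 ≤ wt p g) ∧ ∀ p, ∃ g, 0 < wt p g

/-- The ideal contains the components of its elements. -/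
def Homog (wt : σ → G → ℤ) (I : Ideal (MvPolynomial σ ℚ)) : Prop :=
  ∀ f ∈ I, ∀ d, cmp wt d f ∈ I

/-- Hilbert function of the quotient by `I`. -/
noncomputable def hf (wt : σ → G → ℤ) (I : Ideal (MvPolynomial σ ℚ)) (d : G → ℤ) : ℕ :=
  hq (Vd wt d) (I.restrictScalars ℚ)

/-- The linear form of a weight. -/
noncomputable def lin (w : G → ℤ) : MvPolynomial G ℤ := ∑ g, C (w g) * X g

/-- Real value of an integer polynomial. -/
noncomputable abbrev rv (L : G → ℝ) : MvPolynomial G ℤ →+* ℝ := eval₂Hom (Int.castRingHom ℝ) L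

lemma rv_lin (L : G → ℝ) (w : G → ℤ) : rv L (lin w) = dot L w := by
  rw [lin, map_sum]
  refine sum_congr rfl fun g _ => ?_
  rw [map_mul, eval₂Hom_C, eval₂Hom_X', mul_comm]; rfl

/-- `C` is the multidegree of the quotient by `I` at order `D`. -/
def MD (wt : σ → G → ℤ) (I : Ideal (MvPolynomial σ ℚ)) (D : ℤ) (C : MvPolynomial G ℤ) : Prop :=
  ∀ L : G → ℝ, (∀ g, 0 < L g) → Lim (hf wt I) D L (rv L C / ∏ p, dot L (wt p))

lemma PosW.dot_pos {wt : σ → G → ℤ} (hw : PosW wt) {L : G → ℝ} (hL : ∀ g, 0 < L g) (p : σ) :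
    0 < dot L (wt p) := by
  obtain ⟨g, hg⟩ := hw.2 p
  refine sum_pos' (fun g _ => mul_nonneg (hL g).le (by exact_mod_cast hw.1 p g))
    ⟨g, mem_univ _, mul_pos (hL g) (by exact_mod_cast hg)⟩

lemma rv_ext {C C' : MvPolynomial G ℤ} (h : ∀ L : G → ℝ, (∀ g, 0 < L g) → rv L C = rv L C') :
    C = C' := by
  apply map_injective (Int.castRingHom ℝ) (RingHom.injective_int _)
  refine funext_set (fun _ => Set.Ioi 0) (fun _ => Set.Ioi_infinite 0) fun L hL => ?_
  rw [eval_map, eval_map]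
  exact h L fun g => hL g trivial

lemma MD.unique {wt : σ → G → ℤ} (hw : PosW wt) {I : Ideal (MvPolynomial σ ℚ)} {D : ℤ}
    {C C' : MvPolynomial G ℤ} (h : MD wt I D C) (h' : MD wt I D C') : C = C' := by
  refine rv_ext fun L hL => ?_
  have := tendsto_nhds_unique (h L hL) (h' L hL)
  have hp : (∏ p, dot L (wt p)) ≠ 0 := (prod_pos fun p _ => hw.dot_pos hL p).ne'
  exact (div_left_inj' hp).1 this

lemma weight_apply' (wt : σ → G → ℤ) (e : σ →₀ ℕ) (g : G) :
    Finsupp.weight wt e g = ∑ p, (e p : ℤ) * wt p g := by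
  rw [Finsupp.weight_apply, Finsupp.sum_fintype _ _ (by simp)]
  simp

lemma PosW.finite {wt : σ → G → ℤ} (hw : PosW wt) (d : G → ℤ) :
    {e : σ →₀ ℕ | Finsupp.weight wt e = d}.Finite := by
  classical
  refine (Set.finite_Iic (Finsupp.equivFunOnFinite.symm fun _ => (∑ g, |d g|).toNat)).subset ?_
  intro e he p
  obtain ⟨g, hg⟩ := hw.2 p
  have h1 : (e p : ℤ) * wt p g ≤ d g := by
    rw [← show Finsupp.weight wt e = d from he, weight_apply']
    exact single_le_sum (f := fun p => (e p : ℤ) * wt p g)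
      (fun q _ => mul_nonneg (Nat.cast_nonneg _) (hw.1 q g)) (mem_univ p)
  have h2 : |d g| ≤ ∑ g, |d g| :=
    single_le_sum (f := fun g => |d g|) (fun _ _ => abs_nonneg _) (mem_univ g)
  have h3 : (e p : ℤ) ≤ (e p : ℤ) * wt p g := le_mul_of_one_le_right (Nat.cast_nonneg _) hg
  have h4 := le_abs_self (d g)
  simp only [Finsupp.equivFunOnFinite_symm_apply_apply]
  omega

lemma mem_span_mono {T : Set (σ →₀ ℕ)} {f : MvPolynomial σ ℚ} (h : ∀ e ∈ f.support, e ∈ T) :
    f ∈ Submodule.span ℚ ((fun e => monomial e (1 : ℚ)) '' T) := by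
  rw [f.as_sum]
  refine Submodule.sum_mem _ fun e he => ?_
  have : monomial e (coeff e f) = coeff e f • monomial e (1 : ℚ) := by simp [smul_monomial]
  rw [this]
  exact Submodule.smul_mem _ _ (Submodule.subset_span ⟨e, h e he, rfl⟩)

lemma PosW.fin {wt : σ → G → ℤ} (hw : PosW wt) (d : G → ℤ) : FiniteDimensional ℚ (Vd wt d) := by
  haveI := FiniteDimensional.span_of_finite ℚ ((hw.finite d).image fun e => monomial e (1 : ℚ))
  refine Submodule.finiteDimensional_of_le
    (S₂ := Submodule.span ℚ ((fun e => monomial e (1 : ℚ)) '' {e | Finsupp.weight wt e = d})) ?_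
  intro f hf
  exact mem_span_mono fun e he => hf (mem_support_iff.1 he)

lemma cmp_mul {wt : σ → G → ℤ} {t : MvPolynomial σ ℚ} {e : G → ℤ} (ht : t ∈ Vd wt e)
    (g : MvPolynomial σ ℚ) (d : G → ℤ) : cmp wt d (t * g) = t * cmp wt (d - e) g := by
  classical
  letI := weightedGradedAlgebra ℚ wt
  have := DirectSum.coe_decompose_mul_add_of_left_mem (weightedHomogeneousSubmodule ℚ wt)
    (j := d - e) (b := g) ht
  rw [add_sub_cancel] at this
  rw [cmp, cmp, ← weightedDecomposition.decompose'_apply, ← weightedDecomposition.decompose'_apply]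
  exact this

lemma cmp_self {wt : σ → G → ℤ} {f : MvPolynomial σ ℚ} {d : G → ℤ} (hf : f ∈ Vd wt d) :
    cmp wt d f = f := IsWeightedHomogeneous.weightedHomogeneousComponent_same hf

lemma cmp_mem (wt : σ → G → ℤ) (f : MvPolynomial σ ℚ) (d : G → ℤ) : cmp wt d f ∈ Vd wt d :=
  weightedHomogeneousComponent_mem wt f d

lemma sum_cmp (wt : σ → G → ℤ) (f : MvPolynomial σ ℚ) :
    ∃ s : Finset (G → ℤ), f = ∑ d ∈ s, cmp wt d f := by
  classical
  refine ⟨f.support.image (Finsupp.weight wt), ?_⟩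
  ext e
  simp only [coeff_sum, coeff_weightedHomogeneousComponent]
  rw [sum_ite_eq]
  split_ifs with h
  · rfl
  · by_contra h0
    exact h (mem_image_of_mem _ (mem_support_iff.2 h0))

lemma exists_cmp_notMem {wt : σ → G → ℤ} {I : Ideal (MvPolynomial σ ℚ)} {f : MvPolynomial σ ℚ}
    (hf : f ∉ I) : ∃ d, cmp wt d f ∉ I := by
  by_contra h
  push Not at h
  obtain ⟨s, hs⟩ := sum_cmp wt f
  exact hf (hs ▸ I.sum_mem fun d _ => h d)

lemma Homog.sup_span {wt : σ → G → ℤ} {I : Ideal (MvPolynomial σ ℚ)} (hI : Homog wt I)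
    {t : MvPolynomial σ ℚ} {e : G → ℤ} (ht : t ∈ Vd wt e) : Homog wt (I ⊔ Ideal.span {t}) := by
  intro f hf d
  obtain ⟨j, hj, y, hy, rfl⟩ := Submodule.mem_sup.1 hf
  obtain ⟨g, rfl⟩ := Ideal.mem_span_singleton'.1 hy
  rw [map_add, mul_comm g, cmp_mul ht]
  exact Submodule.add_mem_sup (hI j hj d) (Ideal.mul_mem_right _ _ (Ideal.mem_span_singleton_self t))

/-- Cutting a prime by a homogeneous element outside it. -/
lemma hf_cut' {wt : σ → G → ℤ} (hfin : ∀ d, FiniteDimensional ℚ (Vd wt d))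
    {I : Ideal (MvPolynomial σ ℚ)} (hp : I.IsPrime) (hI : Homog wt I)
    {t : MvPolynomial σ ℚ} {e : G → ℤ} (ht : t ∈ Vd wt e) (htI : t ∉ I) (d : G → ℤ) :
    hf wt I d = hf wt (I ⊔ Ideal.span {t}) d + hf wt I (d - e) := by
  unfold hf
  rw [hq_exact (Vd wt d) (I.restrictScalars ℚ) ((I ⊔ Ideal.span {t}).restrictScalars ℚ)
    (fun f hf => Submodule.mem_sup_left hf)]
  congr 1
  apply le_antisymm
  · refine hq_le_of_surj (LinearMap.mulLeft ℚ t) ?_ fun v _ hv => I.mul_mem_left t hv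
    rintro f ⟨hfd, hf⟩
    obtain ⟨j, hj, y, hy, rfl⟩ := Submodule.mem_sup.1 hf
    obtain ⟨g, rfl⟩ := Ideal.mem_span_singleton'.1 hy
    refine ⟨cmp wt (d - e) g, cmp_mem _ _ _, ?_⟩
    have := cmp_self hfd
    rw [map_add, mul_comm g, cmp_mul ht] at this
    rw [mul_comm g, ← this, LinearMap.mulLeft_apply, add_sub_cancel_right]
    exact hI j hj d
  · refine hq_le_of_inj (LinearMap.mulLeft ℚ t) (fun v hv => ⟨?_, ?_⟩) fun v _ hv => ?_
    · have := IsWeightedHomogeneous.mul ht hv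
      rwa [add_sub_cancel] at this
    · exact Submodule.mem_sup_right
        (Ideal.mul_mem_right _ _ (Ideal.mem_span_singleton_self t))
    · exact (hp.mem_or_mem hv).resolve_left htI

end Pieces

end Pool.Agent.K9c
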