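import Pool.Agent.Lib.MP_9c9c2f_co.Basic

/-! Standard monomials, cells, and the multidegree as a sum over top cells. -/

set_option linter.unusedSectionVars false
set_option linter.style.haveILetI false

namespace Pool.Agent.K9c
open MvPolynomial Finset Filter Topology Module

lemma hasSum_pi (σ : Type) [Fintype σ] : ∀ (f : σ → ℕ → ℝ) (a : σ → ℝ), (∀ q j, 0 ≤ f q j) →
    (∀ q, HasSum (f q) (a q)) → HasSum (fun e : σ → ℕ => ∏ q, f q (e q)) (∏ q, a q) := by
  refine Fintype.induction_empty_option (P := fun σ _ => ∀ (f : σ → ℕ → ℝ) (a : σ → ℝ),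
    (∀ q j, 0 ≤ f q j) → (∀ q, HasSum (f q) (a q)) →
      HasSum (fun e : σ → ℕ => ∏ q, f q (e q)) (∏ q, a q)) ?_ ?_ ?_ σ
  · intro α β _ e ih f a h0 h
    letI : Fintype α := Fintype.ofEquiv β e.symm
    have := ih (fun q => f (e q)) (fun q => a (e q)) (fun q j => h0 _ j) (fun q => h _)
    rw [← (Equiv.arrowCongr e (Equiv.refl ℕ)).hasSum_iff, ← e.prod_comp]
    have e1 : ((fun x : β → ℕ => ∏ q, f q (x q)) ∘ (Equiv.arrowCongr e (Equiv.refl ℕ)))
        = fun x : α → ℕ => ∏ q, f (e q) (x q) := by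
      funext x
      simp only [Function.comp_apply]
      rw [← e.prod_comp]
      simp
    rw [e1]; exact this
  · intro f a _ _
    simp
  · intro α _ ih f a h0 h
    have h1 := ih (fun q => f (some q)) (fun q => a (some q)) (fun q j => h0 _ j) (fun q => h _)
    have hs : Summable fun x : ℕ × (α → ℕ) => f none x.1 * ∏ q, f (some q) (x.2 q) :=
      Summable.mul_of_nonneg (f := f none) (g := fun e : α → ℕ => ∏ q, f (some q) (e q))
        (h none).summable h1.summable (h0 none) fun e => prod_nonneg fun q _ => h0 _ _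
    have h2 := HasSum.mul (f := f none) (g := fun e : α → ℕ => ∏ q, f (some q) (e q))
      (h none) h1 hs
    rw [← (Equiv.piOptionEquivProd (β := fun _ : Option α => ℕ)).symm.hasSum_iff,
      Fintype.prod_option]
    have e1 : ((fun e : Option α → ℕ => ∏ q, f q (e q)) ∘
        (Equiv.piOptionEquivProd (β := fun _ : Option α => ℕ)).symm)
        = fun x : ℕ × (α → ℕ) => f none x.1 * ∏ q, f (some q) (x.2 q) := by
      funext x
      simp [Fintype.prod_option, Equiv.piOptionEquivProd]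
    rw [e1]; exact h2

lemma hasSum_cell {r : ℝ} (h0 : 0 ≤ r) (h1 : r < 1) {N c : ℕ} (hc : c ≤ N) :
    HasSum (fun j : ℕ => if min j N = c then r ^ j else 0)
      (r ^ c * if c = N then (1 - r)⁻¹ else 1) := by
  split_ifs with h
  · subst h
    rw [← hasSum_nat_add_iff' c]
    have e : ∑ i ∈ range c, (if min i c = c then r ^ i else 0) = 0 := by
      refine sum_eq_zero fun i hi => if_neg ?_
      have := mem_range.1 hi; omega
    rw [e, sub_zero]
    have e1 : (fun j : ℕ => if min (j + c) c = c then r ^ (j + c) else 0)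
        = fun j => r ^ c * r ^ j := by
      funext j
      rw [if_pos (by omega), pow_add, mul_comm]
    rw [e1]
    exact (hasSum_geometric_of_lt_one h0 h1).mul_left (r ^ c)
  · rw [mul_one]
    convert hasSum_ite_eq c (r ^ c) using 2 with j
    by_cases hj : j = c
    · subst hj; rw [if_pos (by omega), if_pos rfl]
    · rw [if_neg (by omega), if_neg hj]

variable {σ G : Type} [Fintype σ] [DecidableEq σ] [Fintype G]

/-- Standard monomials: exponents that are not the leading exponent of an element of `I`. -/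
def Std (m : MonomialOrder σ) (I : Ideal (MvPolynomial σ ℚ)) : Set (σ →₀ ℕ) :=
  {e | ∀ f ∈ I, f ≠ 0 → m.degree f ≠ e}

lemma std_lower {m : MonomialOrder σ} {I : Ideal (MvPolynomial σ ℚ)} {e e' : σ →₀ ℕ}
    (he : e ∈ Std m I) (h : e' ≤ e) : e' ∈ Std m I := by
  intro f hf h0 hd
  have hm : (monomial (e - e') (1 : ℚ)) ≠ 0 := by simp
  refine he (f * monomial (e - e') 1) (I.mul_mem_right _ hf) (mul_ne_zero h0 hm) ?_
  rw [MonomialOrder.degree_mul h0 hm, hd, MonomialOrder.degree_monomial, if_neg one_ne_zero,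
    add_tsub_cancel_of_le h]

lemma std_anti {m : MonomialOrder σ} {I K : Ideal (MvPolynomial σ ℚ)} (h : I ≤ K) {e : σ →₀ ℕ}
    (he : e ∈ Std m K) : e ∈ Std m I := fun f hf => he f (h hf)

/-- The constant exponent `N`. -/
noncomputable def top (N : ℕ) : σ →₀ ℕ := Finsupp.equivFunOnFinite.symm fun _ => N

@[simp] lemma top_apply (N : ℕ) (q : σ) : (top N : σ →₀ ℕ) q = N := rfl

/-- Being standard depends only on the exponent truncated at `N`. -/
def Stab (m : MonomialOrder σ) (I : Ideal (MvPolynomial σ ℚ)) (N : ℕ) : Prop :=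
  ∀ e : σ →₀ ℕ, e ⊓ top N ∈ Std m I → e ∈ Std m I

lemma exists_stab (m : MonomialOrder σ) (I : Ideal (MvPolynomial σ ℚ)) :
    ∃ N₀, ∀ N, N₀ ≤ N → Stab m I N := by
  have hfin : {e | Minimal (fun e => e ∉ Std m I) e}.Finite :=
    (setOfPred_minimal_antichain _).finite_of_wellQuasiOrdered wellQuasiOrdered_le
  obtain ⟨b, hb⟩ := hfin.bddAbove
  refine ⟨univ.sup b, fun N hN e he => ?_⟩
  by_contra h
  obtain ⟨e₀, h0, hmin⟩ := exists_minimal_le_of_wellFoundedLT (fun e => e ∉ Std m I) e h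
  refine hmin.prop (std_lower he (le_inf h0 fun q => ?_))
  exact (hb hmin q).trans ((le_sup (f := b) (mem_univ q)).trans hN)

open Classical in
/-- Corner points of the cells. -/
noncomputable def cells (m : MonomialOrder σ) (I : Ideal (MvPolynomial σ ℚ)) (N : ℕ) :
    Finset (σ →₀ ℕ) := (Iic (top N)).filter (· ∈ Std m I)

lemma mem_cells {m : MonomialOrder σ} {I : Ideal (MvPolynomial σ ℚ)} {N : ℕ} {p : σ →₀ ℕ} :
    p ∈ cells m I N ↔ p ≤ top N ∧ p ∈ Std m I := by simp [cells]

/-- Free directions of a cell. -/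
def free (N : ℕ) (p : σ →₀ ℕ) : Finset σ := univ.filter fun q => p q = N

lemma mem_free {N : ℕ} {p : σ →₀ ℕ} {q : σ} : q ∈ free N p ↔ p q = N := by simp [free]

/-- Sum over the cells of dimension `D` of the product of the weights off the free set. -/
noncomputable def cellPoly (wt : σ → G → ℤ) (m : MonomialOrder σ) (I : Ideal (MvPolynomial σ ℚ))
    (N : ℕ) (D : ℤ) : MvPolynomial G ℤ :=
  ∑ p ∈ (cells m I N).filter (fun p => ((free N p).card : ℤ) = D), ∏ q ∈ (free N p)ᶜ, lin (wt q)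

open Classical in
lemma hf_eq_card {wt : σ → G → ℤ} (hw : PosW wt) (m : MonomialOrder σ)
    {I : Ideal (MvPolynomial σ ℚ)} (hI : Homog wt I) (d : G → ℤ) :
    hf wt I d = ((hw.finite d).toFinset.filter (· ∈ Std m I)).card := by
  set T := (hw.finite d).toFinset.filter (· ∈ Std m I) with hT
  have hmem : ∀ e, e ∈ T ↔ Finsupp.weight wt e = d ∧ e ∈ Std m I := by simp [hT]
  let φ : (T → ℚ) →ₗ[ℚ] MvPolynomial σ ℚ :=
    Fintype.linearCombination ℚ fun e : T => monomial e.1 (1 : ℚ)
  have hc : ∀ (c : T → ℚ) (e : σ →₀ ℕ), coeff e (φ c) = if h : e ∈ T then c ⟨e, h⟩ else 0 := by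
    intro c e
    simp only [φ, Fintype.linearCombination_apply, coeff_sum, coeff_smul, coeff_monomial,
      smul_eq_mul, mul_ite, mul_one, mul_zero]
    split_ifs with h
    · rw [Finset.sum_eq_single ⟨e, h⟩]
      · simp
      · intro b _ hb; exact if_neg fun hh => hb (Subtype.ext hh)
      · simp
    · exact sum_eq_zero fun b _ => if_neg fun hh : b.1 = e => h (hh ▸ b.2)
  have hs : ∀ (c : T → ℚ), ∀ e, coeff e (φ c) ≠ 0 → e ∈ T := by
    intro c e he
    by_contra h
    exact he (by rw [hc, dif_neg h])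
  have e0 : hq (⊤ : Submodule ℚ (T → ℚ)) ⊥ = T.card := by
    have := hq_add (⊤ : Submodule ℚ (T → ℚ)) ⊥
    rw [inf_eq_right.2 le_top] at this
    simpa using this
  haveI := hw.fin d
  rw [← e0]
  apply le_antisymm
  · refine hq_le_of_surj φ ?_ (by
      intro v _ hv
      rw [(Submodule.mem_bot ℚ).1 hv, map_zero]; exact Submodule.zero_mem _)
    have main : ∀ δ : m.syn, ∀ f ∈ Vd wt d, f ≠ 0 → m.toSyn (m.degree f) = δ →
        f ∈ LinearMap.range φ ⊔ I.restrictScalars ℚ := by
      intro δ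
      induction δ using WellFoundedLT.induction with
      | ind δ ih =>
      intro f hfd h0 hδ
      have hwt : Finsupp.weight wt (m.degree f) = d := hfd (m.coeff_degree_ne_zero_iff.2 h0)
      obtain ⟨t, htd, htU, hts, htc⟩ : ∃ t ∈ Vd wt d, t ∈ LinearMap.range φ ⊔ I.restrictScalars ℚ ∧
          (∀ e ∈ t.support, m.toSyn e ≤ m.toSyn (m.degree f)) ∧ coeff (m.degree f) t ≠ 0 := by
        by_cases hstd : m.degree f ∈ Std m I
        · refine ⟨monomial (m.degree f) 1, isWeightedHomogeneous_monomial _ _ _ hwt,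
            Submodule.mem_sup_left ?_, ?_, by simp⟩
          · rw [Fintype.range_linearCombination]
            exact Submodule.subset_span ⟨⟨_, (hmem _).2 ⟨hwt, hstd⟩⟩, rfl⟩
          · intro e he
            rw [Finset.mem_singleton.1 (support_monomial_subset he)]
        · simp only [Std, Set.mem_ofPred_eq, not_forall, not_not] at hstd
          obtain ⟨g, hg, hg0, hgd⟩ := hstd
          refine ⟨cmp wt d g, cmp_mem _ _ _, Submodule.mem_sup_right (hI g hg d), ?_, ?_⟩
          · intro e he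
            rw [← hgd]
            refine m.le_degree (mem_support_iff.2 fun h => mem_support_iff.1 he ?_)
            rw [coeff_weightedHomogeneousComponent, h, ite_self]
          · rw [coeff_weightedHomogeneousComponent, if_pos hwt, ← hgd]
            exact m.coeff_degree_ne_zero_iff.2 hg0
      set c := coeff (m.degree f) f / coeff (m.degree f) t with hcdef
      have hf' : f - c • t ∈ LinearMap.range φ ⊔ I.restrictScalars ℚ := by
        by_cases hz : f - c • t = 0
        · rw [hz]; exact Submodule.zero_mem _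
        refine ih _ ?_ _ (Submodule.sub_mem _ hfd (Submodule.smul_mem _ _ htd)) hz rfl
        have hsup := mem_support_iff.1 (m.degree_mem_support hz)
        rw [← hδ]
        refine lt_of_le_of_ne ?_ fun h => hsup ?_
        · by_contra hlt
          push Not at hlt
          apply hsup
          have a1 : coeff (m.degree (f - c • t)) f = 0 := m.coeff_eq_zero_of_lt hlt
          have a2 : coeff (m.degree (f - c • t)) t = 0 := by
            by_contra hne
            exact absurd (hts _ (mem_support_iff.2 hne)) (not_le.2 hlt)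
          rw [coeff_sub, coeff_smul, a1, a2]; simp
        · rw [m.toSyn.injective h, coeff_sub, coeff_smul, hcdef, smul_eq_mul,
            div_mul_cancel₀ _ htc, sub_self]
      have := Submodule.add_mem _ hf' (Submodule.smul_mem _ c htU)
      rwa [sub_add_cancel] at this
    intro f hfd
    by_cases h0 : f = 0
    · exact ⟨0, trivial, by simp [h0]⟩
    obtain ⟨_, ⟨c, rfl⟩, j, hj, rfl⟩ := Submodule.mem_sup.1 (main _ f hfd h0 rfl)
    exact ⟨c, trivial, by simpa using hj⟩
  · refine hq_le_of_inj φ (fun c _ e he => ((hmem e).1 (hs c e he)).1) fun c _ hcI => ?_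
    have hz : φ c = 0 := by
      by_contra h0
      exact ((hmem _).1 (hs c _ (m.coeff_degree_ne_zero_iff.2 h0))).2 _ hcI h0 rfl
    rw [Submodule.mem_bot]
    ext e
    have := hc c e.1
    rw [hz, dif_pos e.2] at this
    exact this.symm

/-- Contribution of one cell to the series. -/
noncomputable def cterm (wt : σ → G → ℤ) (N : ℕ) (L : G → ℝ) (p : σ →₀ ℕ) : ℝ :=
  ∏ q, (Real.exp (-dot L (wt q)) ^ p q *
    if p q = N then (1 - Real.exp (-dot L (wt q)))⁻¹ else 1)

lemma dot_weight (wt : σ → G → ℤ) (L : G → ℝ) (e : σ →₀ ℕ) :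
    dot L (Finsupp.weight wt e) = ∑ q, (e q : ℝ) * dot L (wt q) := by
  simp only [dot, weight_apply', mul_sum]
  rw [sum_comm]
  refine sum_congr rfl fun g _ => ?_
  push_cast
  rw [mul_sum]
  exact sum_congr rfl fun q _ => by ring

lemma hasSum_cells {wt : σ → G → ℤ} (hw : PosW wt) {m : MonomialOrder σ}
    {I : Ideal (MvPolynomial σ ℚ)} (hI : Homog wt I) {N : ℕ} (hN : Stab m I N) {L : G → ℝ}
    (hL : ∀ g, 0 < L g) : HasSum (trm (hf wt I) L) (∑ p ∈ cells m I N, cterm wt N L p) := by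
  classical
  set r : σ → ℝ := fun q => Real.exp (-dot L (wt q)) with hr
  have r0 : ∀ q, 0 ≤ r q := fun q => (Real.exp_pos _).le
  have r1 : ∀ q, r q < 1 := fun q => Real.exp_lt_one_iff.2 (neg_lt_zero.2 (hw.dot_pos hL q))
  have h1 : ∀ p ∈ cells m I N, HasSum
      (fun e : σ →₀ ℕ => ∏ q, if min (e q) N = p q then r q ^ e q else 0) (cterm wt N L p) := by
    intro p hp
    have := hasSum_pi σ (fun q j => if min j N = p q then r q ^ j else 0) _
      (fun q j => by split_ifs; exacts [pow_nonneg (r0 q) _, le_rfl])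
      (fun q => hasSum_cell (r0 q) (r1 q) ((mem_cells.1 hp).1 q))
    exact (Finsupp.equivFunOnFinite (α := σ) (M := ℕ)).hasSum_iff.2 this
  have h2 := hasSum_sum h1
  have h3 : ∀ e : σ →₀ ℕ, (∑ p ∈ cells m I N, ∏ q, if min (e q) N = p q then r q ^ e q else 0)
      = if e ∈ Std m I then Real.exp (-dot L (Finsupp.weight wt e)) else 0 := by
    intro e
    have a : ∀ p : σ →₀ ℕ, (∏ q, if min (e q) N = p q then r q ^ e q else 0)
        = if e ⊓ top N = p then Real.exp (-dot L (Finsupp.weight wt e)) else 0 := by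
      intro p
      split_ifs with h
      · rw [dot_weight, ← sum_neg_distrib, Real.exp_sum]
        refine prod_congr rfl fun q _ => ?_
        rw [if_pos (by rw [← h]; simp), hr, ← Real.exp_nat_mul, mul_neg]
      · by_contra hne
        refine h (Finsupp.ext fun q => ?_)
        by_contra hq
        exact hne (prod_eq_zero (mem_univ q) (if_neg (by simpa using hq)))
    simp only [a]
    rw [sum_ite_eq]
    refine if_congr ?_ rfl rfl
    rw [mem_cells]
    exact ⟨fun h => hN e h.2, fun h => ⟨inf_le_right, std_lower h inf_le_left⟩⟩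
  simp only [h3] at h2
  have h4 := h2.tsum_fiberwise (Finsupp.weight wt)
  refine (funext fun d => ?_ : _ = trm (hf wt I) L) ▸ h4
  symm
  have e1 : (Finsupp.weight wt ⁻¹' {d} : Set (σ →₀ ℕ)) = (hw.finite d).toFinset := by
    rw [Set.Finite.coe_toFinset]; rfl
  rw [e1, Finset.tsum_subtype' _
    (fun e => if e ∈ Std m I then Real.exp (-dot L (Finsupp.weight wt e)) else 0), trm,
    hf_eq_card hw m hI, ← sum_filter, sum_congr rfl (g := fun _ => Real.exp (-dot L d))]
  · simp
  · intro e he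
    have : Finsupp.weight wt e = d := by simpa using (mem_filter.1 he).1
    rw [this]

/-- Some monomial order. -/
noncomputable def someOrder (σ : Type) [Fintype σ] : MonomialOrder σ :=
  letI : LinearOrder σ := LinearOrder.lift' (Fintype.equivFin σ) (Fintype.equivFin σ).injective
  MonomialOrder.lex

lemma sm_hf {wt : σ → G → ℤ} (hw : PosW wt) {I : Ideal (MvPolynomial σ ℚ)} (hI : Homog wt I) :
    Sm (hf wt I) := fun _ hL => by
  obtain ⟨N, hN⟩ := exists_stab (someOrder σ) I
  exact (hasSum_cells hw hI (hN N le_rfl) hL).summable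

lemma cterm_tendsto {wt : σ → G → ℤ} (hw : PosW wt) (N : ℕ) {L : G → ℝ} (hL : ∀ g, 0 < L g)
    (p : σ →₀ ℕ) : Tendsto (fun ε : ℝ => ε ^ ((free N p).card : ℤ) * cterm wt N (ε • L) p)
      (𝓝[>] 0) (𝓝 ((∏ q ∈ (free N p)ᶜ, dot L (wt q)) / ∏ q, dot L (wt q))) := by
  have hpos := hw.dot_pos hL
  have a : ∀ q, Tendsto (fun ε : ℝ => Real.exp (-(ε * dot L (wt q))) ^ p q *
      if p q = N then ε * (1 - Real.exp (-(ε * dot L (wt q))))⁻¹ else 1) (𝓝[>] 0)
      (𝓝 (if p q = N then (dot L (wt q))⁻¹ else 1)) := by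
    intro q
    have b := (tendsto_exp_one (dot L (wt q))).pow (p q)
    split_ifs with h
    · have c := (tendsto_slope 0 (dot L (wt q))).inv₀ (by simpa using (hpos q).ne')
      simpa [div_eq_mul_inv] using b.mul c
    · simpa using b
  convert tendsto_finsetProd univ fun q _ => a q using 2 with ε
  · simp only [cterm, dot_smul, zpow_natCast]
    have : ε ^ (free N p).card = ∏ q, if p q = N then ε else 1 := by
      rw [← prod_filter, prod_const]; rfl
    rw [this, ← prod_mul_distrib]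
    refine prod_congr rfl fun q _ => ?_
    split_ifs <;> ring
  · rw [← prod_mul_prod_compl (free N p) fun q => dot L (wt q), ← prod_filter, prod_inv_distrib]
    have : ∏ q ∈ (free N p)ᶜ, dot L (wt q) ≠ 0 := (prod_pos fun q _ => hpos q).ne'
    rw [mul_comm, div_mul_cancel_left₀ this]; rfl

lemma zpow_tendsto {k : ℤ} (hk : 0 ≤ k) :
    Tendsto (fun ε : ℝ => ε ^ k) (𝓝[>] 0) (𝓝 (if k = 0 then 1 else 0)) := by
  lift k to ℕ using hk
  have : Tendsto (fun ε : ℝ => ε ^ k) (𝓝[>] 0) (𝓝 (0 ^ k)) :=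
    ((continuous_pow k).tendsto 0).mono_left nhdsWithin_le_nhds
  simpa [zero_pow_eq] using this

lemma md_cellPoly {wt : σ → G → ℤ} (hw : PosW wt) {m : MonomialOrder σ}
    {I : Ideal (MvPolynomial σ ℚ)} (hI : Homog wt I) {N : ℕ} (hN : Stab m I N) {D : ℤ}
    (hD : ∀ p ∈ cells m I N, ((free N p).card : ℤ) ≤ D) : MD wt I D (cellPoly wt m I N D) := by
  intro L hL
  have a := tendsto_finsetSum (cells m I N) fun p hp =>
    (zpow_tendsto (sub_nonneg.2 (hD p hp))).mul (cterm_tendsto hw N hL p)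
  have e : rv L (cellPoly wt m I N D) / ∏ p, dot L (wt p) = ∑ p ∈ cells m I N,
      (if D - ((free N p).card : ℤ) = 0 then (1 : ℝ) else 0) *
        ((∏ q ∈ (free N p)ᶜ, dot L (wt q)) / ∏ q, dot L (wt q)) := by
    rw [cellPoly, map_sum, sum_div, sum_filter]
    refine sum_congr rfl fun p _ => ?_
    simp only [map_prod, rv_lin, sub_eq_zero, ite_mul, one_mul, zero_mul]
    exact if_congr eq_comm rfl rfl
  rw [Lim, e]
  refine a.congr' ?_
  filter_upwards [self_mem_nhdsWithin] with ε hε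
  have hε' : (0 : ℝ) < ε := hε
  rw [ser, (hasSum_cells hw hI hN (smul_pos' hL hε')).tsum_eq, mul_sum]
  refine sum_congr rfl fun p _ => ?_
  rw [← mul_assoc, ← zpow_add₀ hε'.ne', sub_add_cancel]

lemma cterm_nonneg {wt : σ → G → ℤ} (hw : PosW wt) (N : ℕ) {L : G → ℝ} (hL : ∀ g, 0 < L g)
    (p : σ →₀ ℕ) : 0 ≤ cterm wt N L p := by
  refine prod_nonneg fun q _ => mul_nonneg (by positivity) ?_
  split_ifs
  · exact inv_nonneg.2 (sub_nonneg.2 (Real.exp_lt_one_iff.2 (neg_lt_zero.2 (hw.dot_pos hL q))).le)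
  · exact zero_le_one

lemma card_le_of_lim {wt : σ → G → ℤ} (hw : PosW wt) {m : MonomialOrder σ}
    {I : Ideal (MvPolynomial σ ℚ)} (hI : Homog wt I) {N : ℕ} (hN : Stab m I N) {D : ℤ}
    {L : G → ℝ} (hL : ∀ g, 0 < L g) {c : ℝ} (hc : Lim (hf wt I) D L c) :
    ∀ p ∈ cells m I N, ((free N p).card : ℤ) ≤ D := by
  intro p hp
  by_contra hlt
  push Not at hlt
  have a := (zpow_tendsto (sub_nonneg.2 hlt.le)).mul hc
  rw [if_neg (by omega), zero_mul] at a
  have b := le_of_tendsto_of_tendsto (cterm_tendsto hw N hL p) a (by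
    filter_upwards [self_mem_nhdsWithin] with ε hε
    have hε' : (0 : ℝ) < ε := hε
    rw [← mul_assoc, ← zpow_add₀ hε'.ne', sub_add_cancel,
      ser, (hasSum_cells hw hI hN (smul_pos' hL hε')).tsum_eq]
    exact mul_le_mul_of_nonneg_left (single_le_sum
      (fun p _ => cterm_nonneg hw N (smul_pos' hL hε') p) hp) (zpow_pos hε' _).le)
  exact absurd b (not_le.2 (div_pos (prod_pos fun q _ => hw.dot_pos hL q)
    (prod_pos fun q _ => hw.dot_pos hL q)))

lemma MD.card_le {wt : σ → G → ℤ} (hw : PosW wt) {m : MonomialOrder σ}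
    {I : Ideal (MvPolynomial σ ℚ)} (hI : Homog wt I) {N : ℕ} (hN : Stab m I N) {D : ℤ}
    {C : MvPolynomial G ℤ} (h : MD wt I D C) : ∀ p ∈ cells m I N, ((free N p).card : ℤ) ≤ D :=
  card_le_of_lim hw hI hN (L := fun _ => 1) (fun _ => one_pos) (h _ fun _ => one_pos)

lemma MD.eq_cellPoly {wt : σ → G → ℤ} (hw : PosW wt) {m : MonomialOrder σ}
    {I : Ideal (MvPolynomial σ ℚ)} (hI : Homog wt I) {N : ℕ} (hN : Stab m I N) {D : ℤ}
    {C : MvPolynomial G ℤ} (h : MD wt I D C) : C = cellPoly wt m I N D :=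
  h.unique hw (md_cellPoly hw hI hN (h.card_le hw hI hN))

lemma exists_md_of_lim {wt : σ → G → ℤ} (hw : PosW wt) {I : Ideal (MvPolynomial σ ℚ)}
    (hI : Homog wt I) {D : ℤ} {L : G → ℝ} (hL : ∀ g, 0 < L g) {c : ℝ}
    (hc : Lim (hf wt I) D L c) : ∃ C, MD wt I D C := by
  obtain ⟨N, hN⟩ := exists_stab (someOrder σ) I
  exact ⟨_, md_cellPoly hw hI (hN N le_rfl) (card_le_of_lim hw hI (hN N le_rfl) hL hc)⟩

lemma md_bot {wt : σ → G → ℤ} (hw : PosW wt) : MD wt ⊥ (Fintype.card σ) 1 := by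
  have hI : Homog wt ⊥ := fun f hf d => by rw [(Submodule.mem_bot _).1 hf, map_zero]; simp
  have hs : ∀ e, e ∈ Std (someOrder σ) (⊥ : Ideal (MvPolynomial σ ℚ)) :=
    fun e f hf h0 => absurd ((Submodule.mem_bot _).1 hf) h0
  have hc : cells (someOrder σ) (⊥ : Ideal (MvPolynomial σ ℚ)) 0 = {0} := by
    ext p
    rw [mem_cells, Finset.mem_singleton]
    refine ⟨fun h => Finsupp.ext fun q => Nat.le_zero.1 (h.1 q), ?_⟩
    rintro rfl; exact ⟨bot_le, hs _⟩
  have hf0 : free 0 (0 : σ →₀ ℕ) = univ := by ext q; simp [mem_free]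
  have := md_cellPoly hw hI (m := someOrder σ) (N := 0) (fun e _ => hs e) (D := Fintype.card σ)
    (fun p _ => by exact_mod_cast card_le_univ _)
  rwa [cellPoly, hc, filter_singleton, if_pos (by rw [hf0, card_univ]), sum_singleton, hf0,
    compl_univ, prod_empty] at this

/-- Cutting by a variable outside a homogeneous prime. -/
lemma MD.cut {wt : σ → G → ℤ} (hw : PosW wt) {I : Ideal (MvPolynomial σ ℚ)} (hp : I.IsPrime)
    (hI : Homog wt I) {D : ℤ} {C : MvPolynomial G ℤ} (h : MD wt I D C) {p : σ} (hX : X p ∉ I) :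
    MD wt (I ⊔ Ideal.span {X p}) (D - 1) (lin (wt p) * C) := by
  intro L hL
  have hXd : (X p : MvPolynomial σ ℚ) ∈ Vd wt (wt p) := isWeightedHomogeneous_X ℚ wt p
  have a := (tendsto_slope 0 (dot L (wt p))).mul (h L hL)
  rw [sub_zero, ← mul_div_assoc, ← rv_lin, ← map_mul] at a
  refine a.congr' ?_
  filter_upwards [self_mem_nhdsWithin] with ε hε
  have hε' : (0 : ℝ) < ε := hε
  have e : ser (hf wt I) (ε • L) = ser (hf wt (I ⊔ Ideal.span {X p})) (ε • L) +
      Real.exp (-(ε * dot L (wt p))) * ser (hf wt I) (ε • L) := by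
    rw [← dot_smul, ← ser_shift, ← ser_add (sm_hf hw (hI.sup_span hXd)) ((sm_hf hw hI).shift _)
      (smul_pos' hL hε')]
    congr 1
    exact funext (hf_cut' hw.fin hp hI hXd hX)
  rw [rv_lin, zpow_sub_one₀ hε'.ne', mul_zero, neg_zero, Real.exp_zero, eq_sub_of_add_eq e.symm]
  field_simp

/-- Passing to a saturation changes the multidegree by a multiple of the weight of `q`. -/
lemma MD.sat {wt : σ → G → ℤ} (hw : PosW wt) {K I₁ : Ideal (MvPolynomial σ ℚ)}
    (hK : Homog wt K) (hI : Homog wt I₁) (hle : K ≤ I₁) {q : σ}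
    (hsat : ∀ f ∈ I₁, ∃ k : ℕ, X q ^ k * f ∈ K) {D : ℤ} {C : MvPolynomial G ℤ}
    (h : MD wt K D C) : ∃ C₁, MD wt I₁ D C₁ ∧ lin (wt q) ∣ C - C₁ := by
  classical
  set m := someOrder σ
  obtain ⟨N₁, hN₁⟩ := exists_stab m K
  obtain ⟨N₂, hN₂⟩ := exists_stab m I₁
  have s1 := hN₁ (max N₁ N₂) (le_max_left _ _)
  have s2 := hN₂ (max N₁ N₂) (le_max_right _ _)
  set N := max N₁ N₂
  have sub : cells m I₁ N ⊆ cells m K N := fun p hp =>
    mem_cells.2 ⟨(mem_cells.1 hp).1, std_anti hle (mem_cells.1 hp).2⟩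
  refine ⟨_, md_cellPoly hw hI s2 fun p hp => h.card_le hw hK s1 p (sub hp), ?_⟩
  rw [h.eq_cellPoly hw hK s1, cellPoly, cellPoly,
    ← sum_sdiff (filter_subset_filter _ sub), add_sub_cancel_right]
  refine dvd_sum fun p hp => dvd_prod_of_mem _ (mem_compl.2 fun hq => ?_)
  obtain ⟨h1, h2⟩ := mem_sdiff.1 hp
  obtain ⟨h3, h4⟩ := mem_filter.1 h1
  refine h2 (mem_filter.2 ⟨mem_cells.2 ⟨(mem_cells.1 h3).1, fun f hf h0 hd => ?_⟩, h4⟩)
  obtain ⟨k, hk⟩ := hsat f hf
  have hX : (X q ^ k : MvPolynomial σ ℚ) ≠ 0 := pow_ne_zero _ (X_ne_zero q)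
  refine s1 (Finsupp.single q k + p) ?_ _ hk (mul_ne_zero hX h0) ?_
  · refine std_lower (mem_cells.1 h3).2 fun q' => ?_
    by_cases hq' : q' = q
    · subst hq'; rw [mem_free.1 hq]; exact inf_le_right (a := Finsupp.single q' k + p) (b := top N) q'
    · simp [Finsupp.single_eq_of_ne hq']
  · rw [MonomialOrder.degree_mul hX h0, hd, X_pow_eq_monomial, MonomialOrder.degree_monomial,
      if_neg one_ne_zero]

/-- A variable in the ideal divides the multidegree. -/
lemma MD.dvd_of_mem {wt : σ → G → ℤ} (hw : PosW wt) {I : Ideal (MvPolynomial σ ℚ)}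
    (hI : Homog wt I) {q : σ} (hq : X q ∈ I) {D : ℤ} {C : MvPolynomial G ℤ} (h : MD wt I D C) :
    lin (wt q) ∣ C := by
  have hT : Homog wt ⊤ := fun _ _ _ => trivial
  obtain ⟨C₁, h1, h2⟩ := h.sat hw hI hT le_top (q := q)
    fun f _ => ⟨1, by rw [pow_one]; exact I.mul_mem_right _ hq⟩
  obtain ⟨N, hN⟩ := exists_stab (someOrder σ) ⊤
  have hc : cells (someOrder σ) (⊤ : Ideal (MvPolynomial σ ℚ)) N = ∅ := by
    refine eq_empty_of_forall_notMem fun p hp => (mem_cells.1 hp).2 (monomial p 1) trivial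
      (by simp) ?_
    rw [MonomialOrder.degree_monomial, if_neg one_ne_zero]
  rwa [h1.eq_cellPoly hw hT (hN N le_rfl), cellPoly, hc, filter_empty, sum_empty, sub_zero] at h2

/-- Change of grading. -/
lemma MD.regrade {wt wt' : σ → G → ℤ} (hw : PosW wt) (hw' : PosW wt')
    {I : Ideal (MvPolynomial σ ℚ)} (hI : Homog wt I) (hI' : Homog wt' I)
    (κ : MvPolynomial G ℤ →+* MvPolynomial G ℤ) (hκ : ∀ q, κ (lin (wt q)) = lin (wt' q)) {D : ℤ}
    {C : MvPolynomial G ℤ} (h : MD wt I D C) : MD wt' I D (κ C) := by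
  obtain ⟨N, hN⟩ := exists_stab (someOrder σ) I
  have := md_cellPoly hw' hI' (hN N le_rfl) (h.card_le hw hI (hN N le_rfl))
  rw [h.eq_cellPoly hw hI (hN N le_rfl)]
  simpa only [cellPoly, map_sum, map_prod, hκ] using this

end Pool.Agent.K9c
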