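import Pool.Agent.Lib.MP_9c9c2f_co.Points

/-! Two extra variables: comparison of Hilbert functions. -/

set_option linter.unusedSectionVars false
set_option linter.style.haveILetI false

namespace Pool.Agent.K9c
open MvPolynomial Finset Filter Topology Module

variable {σ G : Type} [Fintype σ] [DecidableEq σ] [Fintype G] [DecidableEq G]

lemma rename_mem {σ' G' : Type} {wt : σ → G → ℤ} {wt' : σ' → G' → ℤ} (φ : σ → σ')
    (T : (G → ℤ) →+ (G' → ℤ)) (h : ∀ p, wt' (φ p) = T (wt p)) {f : MvPolynomial σ ℚ} {d : G → ℤ}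
    (hf : f ∈ Vd wt d) : rename φ f ∈ Vd wt' (T d) := by
  rw [f.as_sum, map_sum]
  refine Submodule.sum_mem _ fun e he => ?_
  rw [rename_monomial]
  refine isWeightedHomogeneous_monomial _ _ _ ?_
  rw [← hf (mem_support_iff.1 he), Finsupp.weight_apply, Finsupp.weight_apply,
    Finsupp.sum_mapDomain_index (by simp) (by simp [add_smul]), map_finsuppSum]
  simp only [h, map_nsmul]

/-- Degree with an extra coordinate. -/
def deg (m : ℤ) (d : G → ℤ) : Option G → ℤ := fun o => o.elim m d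

lemma deg_add (m m' : ℤ) (d d' : G → ℤ) : deg m d + deg m' d' = deg (m + m') (d + d') := by
  funext o; cases o <;> rfl

lemma deg_sub (m m' : ℤ) (d d' : G → ℤ) : deg m d - deg m' d' = deg (m - m') (d - d') := by
  funext o; cases o <;> rfl

lemma deg_nsmul (k : ℕ) (m : ℤ) (d : G → ℤ) : k • deg m d = deg (k * m) (k • d) := by
  funext o; cases o <;> simp [deg]

/-- Weights on the ring with two extra variables. -/
def wt2 (wt : σ → G → ℤ) (ab : Bool → G) : σ ⊕ Bool → Option G → ℤ :=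
  Sum.elim (fun p => deg 0 (wt p)) fun β => deg 1 (Pi.single (ab β) 1)

lemma PosW.wt2 {wt : σ → G → ℤ} (hw : PosW wt) (ab : Bool → G) : PosW (wt2 wt ab) := by
  constructor
  · rintro (p | β) (_ | g)
    · exact le_rfl
    · exact hw.1 p g
    · exact zero_le_one
    · show 0 ≤ (Pi.single (ab β) 1 : G → ℤ) g
      rw [Pi.single_apply]; split_ifs <;> norm_num
  · rintro (p | β)
    · obtain ⟨g, hg⟩ := hw.2 p; exact ⟨some g, hg⟩
    · exact ⟨none, one_pos⟩

/-- The inclusion of the base ring. -/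
noncomputable abbrev io : MvPolynomial σ ℚ →ₐ[ℚ] MvPolynomial (σ ⊕ Bool) ℚ := rename Sum.inl

variable {wt : σ → G → ℤ} {ab : Bool → G}

lemma io_mem {f : MvPolynomial σ ℚ} {d : G → ℤ} (hf : f ∈ Vd wt d) :
    io f ∈ Vd (wt2 wt ab) (deg 0 d) :=
  rename_mem (wt' := wt2 wt ab) Sum.inl
    (AddMonoidHom.mk' (deg 0) fun d d' => by rw [deg_add, add_zero]) (fun _ => rfl) hf

lemma cmp_io (f : MvPolynomial σ ℚ) (d : G → ℤ) :
    cmp (wt2 wt ab) (deg 0 d) (io f) = io (cmp wt d f) := by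
  obtain ⟨s, hs⟩ := sum_cmp wt f
  rw [hs]
  simp only [map_sum]
  refine sum_congr rfl fun d' _ => ?_
  by_cases h : d = d'
  · subst h
    rw [cmp_self (io_mem (cmp_mem _ _ _)), cmp_self (cmp_mem _ _ _)]
  · rw [IsWeightedHomogeneous.weightedHomogeneousComponent_ne d (cmp_mem wt f d') h, map_zero]
    refine IsWeightedHomogeneous.weightedHomogeneousComponent_ne _ (io_mem (cmp_mem _ _ _)) ?_
    intro e
    exact h (funext fun g => congrFun e (some g))

lemma cmp_mul_io {μ : MvPolynomial (σ ⊕ Bool) ℚ} {m : ℤ} {e : G → ℤ}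
    (hμ : μ ∈ Vd (wt2 wt ab) (deg m e)) (f : MvPolynomial σ ℚ) (d : G → ℤ) :
    cmp (wt2 wt ab) (deg m d) (μ * io f) = μ * io (cmp wt (d - e) f) := by
  rw [cmp_mul hμ, deg_sub, sub_self, cmp_io]

lemma mul_io_mem {μ : MvPolynomial (σ ⊕ Bool) ℚ} {m : ℤ} {e d : G → ℤ}
    (hμ : μ ∈ Vd (wt2 wt ab) (deg m e)) {f : MvPolynomial σ ℚ} (hf : f ∈ Vd wt (d - e)) :
    μ * io f ∈ Vd (wt2 wt ab) (deg m d) := by
  have := IsWeightedHomogeneous.mul hμ (io_mem (ab := ab) hf)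
  rwa [deg_add, add_zero, add_sub_cancel] at this

lemma X_pow_mem (β : Bool) (k : ℕ) : (X (Sum.inr β) ^ k : MvPolynomial (σ ⊕ Bool) ℚ) ∈
    Vd (wt2 wt ab) (deg k (k • Pi.single (ab β) 1)) := by
  have := (isWeightedHomogeneous_X ℚ (wt2 wt ab) (Sum.inr β)).pow k
  simp only [wt2, Sum.elim_inr, deg_nsmul, mul_one] at this
  exact this

lemma mono_split (e : σ ⊕ Bool →₀ ℕ) (β : Bool) : (monomial e 1 : MvPolynomial (σ ⊕ Bool) ℚ) =
    X (Sum.inr β) ^ e (Sum.inr β) * X (Sum.inr !β) ^ e (Sum.inr !β) *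
      io (∏ p, X p ^ e (Sum.inl p)) := by
  rw [monomial_eq, C_1, one_mul, Finsupp.prod_fintype _ _ (by simp), Fintype.prod_sum_type,
    Fintype.prod_bool, map_prod]
  cases β <;> simp [mul_comm]

lemma weight_none (e : σ ⊕ Bool →₀ ℕ) (β : Bool) :
    Finsupp.weight (wt2 wt ab) e none = e (Sum.inr β) + e (Sum.inr !β) := by
  rw [weight_apply', Fintype.sum_sum_type, Fintype.sum_bool]
  cases β <;> simp [wt2, deg, add_comm]

lemma le_of_mono {U : Submodule ℚ (MvPolynomial (σ ⊕ Bool) ℚ)} {m : ℕ} (β : Bool)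
    (h : ∀ j k : ℕ, j + k = m → ∀ f, X (Sum.inr β) ^ j * X (Sum.inr !β) ^ k * io f ∈ U)
    {d : G → ℤ} : Vd (wt2 wt ab) (deg m d) ≤ U := by
  intro F hF
  refine Submodule.span_le.2 ?_ (mem_span_mono (T := {e | e (Sum.inr β) + e (Sum.inr !β) = m})
    fun e he => ?_)
  · rintro _ ⟨e, he, rfl⟩
    show monomial e (1 : ℚ) ∈ U
    rw [mono_split e β]
    exact h _ _ he _
  · have := congrFun (hF (mem_support_iff.1 he)) none
    rw [weight_none e β] at this
    have h2 : ((e (Sum.inr β) : ℤ) + e (Sum.inr !β)) = m := this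
    exact_mod_cast h2

lemma hf_half (hw : PosW wt) {J : Ideal (MvPolynomial (σ ⊕ Bool) ℚ)}
    (hJ : Homog (wt2 wt ab) J) {I : Ideal (MvPolynomial σ ℚ)} (β : Bool)
    (H1 : ∀ f ∈ I, ∃ k : ℕ, X (Sum.inr β) ^ k * io f ∈ J ⊔ Ideal.span {X (Sum.inr !β)})
    (H2 : ∀ f (k : ℕ), X (Sum.inr β) ^ k * io f ∈ J ⊔ Ideal.span {X (Sum.inr !β)} → f ∈ I) :
    ∃ m₀ : ℕ, ∀ m : ℕ, m₀ ≤ m → ∀ d, hf (wt2 wt ab) (J ⊔ Ideal.span {X (Sum.inr !β)}) (deg m d)
      = hf wt I (d - m • Pi.single (ab β) 1) := by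
  set K := J ⊔ Ideal.span {X (Sum.inr !β)} with hKdef
  have hK : Homog (wt2 wt ab) K := hJ.sup_span (isWeightedHomogeneous_X ℚ _ _)
  let c : ℕ →o Ideal (MvPolynomial σ ℚ) :=
    ⟨fun k => (K.colon {X (Sum.inr β) ^ k}).comap io, monotone_nat_of_le_succ fun k f hf => by
      simp only [Ideal.mem_comap, Submodule.mem_colon_singleton, smul_eq_mul] at hf ⊢
      rw [pow_succ, ← mul_assoc]; exact K.mul_mem_right _ hf⟩
  have hc : ∀ k f, f ∈ c k ↔ X (Sum.inr β) ^ k * io f ∈ K := by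
    intro k f
    simp only [c, OrderHom.coe_mk, Ideal.mem_comap, Submodule.mem_colon_singleton, smul_eq_mul,
      mul_comm]
  obtain ⟨n, hn⟩ := monotone_stabilizes_iff_noetherian.2 inferInstance c
  refine ⟨n, fun m hm d => ?_⟩
  let φ : MvPolynomial σ ℚ →ₗ[ℚ] MvPolynomial (σ ⊕ Bool) ℚ :=
    LinearMap.mulLeft ℚ (X (Sum.inr β) ^ m) ∘ₗ io.toLinearMap
  have hφ : ∀ f, φ f = X (Sum.inr β) ^ m * io f := fun _ => rfl
  haveI := hw.fin
  haveI := (hw.wt2 ab).fin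
  apply le_antisymm
  · refine hq_le_of_surj φ (fun F hF => ?_) fun f _ hf => ?_
    · have hle : Vd (wt2 wt ab) (deg m d) ≤ LinearMap.range φ ⊔ K.restrictScalars ℚ := by
        refine le_of_mono β fun j k hjk f => ?_
        rcases k with _ | k
        · refine Submodule.mem_sup_left ⟨f, ?_⟩
          rw [hφ, pow_zero, mul_one, ← hjk, add_zero]
        · refine Submodule.mem_sup_right (Submodule.mem_sup_right (Ideal.mul_mem_right _ _
            (Ideal.mul_mem_left _ _ (Ideal.pow_mem_of_mem _ (Ideal.mem_span_singleton_self _) _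
              k.succ_pos))))
      obtain ⟨_, ⟨f, rfl⟩, j, hj, rfl⟩ := Submodule.mem_sup.1 (hle hF)
      refine ⟨_, cmp_mem wt f _, ?_⟩
      have := cmp_self hF
      rw [map_add, hφ, cmp_mul_io (X_pow_mem β m)] at this
      rw [hφ, hφ, ← this, add_sub_cancel_left]
      exact hK j hj _
    · obtain ⟨k, hk⟩ := H1 f hf
      have a := c.monotone (le_max_left k n) ((hc k f).2 hk)
      rw [← hn _ (le_max_right k n), hn m hm] at a
      exact (hc m f).1 a
  · exact hq_le_of_inj φ (fun f hf => mul_io_mem (X_pow_mem β m) hf) fun f _ hf => H2 f m hf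

lemma Homog.comap_io {J : Ideal (MvPolynomial (σ ⊕ Bool) ℚ)} (hJ : Homog (wt2 wt ab) J) :
    Homog wt (J.comap io) := fun f hf d => by
  rw [Ideal.mem_comap, ← cmp_io (ab := ab)]
  exact hJ _ hf _

/-- The monomials of degree `m` in the extra variables. -/
noncomputable def mu (σ : Type) (m : ℕ) (j : Fin (m + 1)) : MvPolynomial (σ ⊕ Bool) ℚ :=
  X (Sum.inr true) ^ j.1 * X (Sum.inr false) ^ (m - j.1)

/-- Their weights. -/
def muW (ab : Bool → G) (m : ℕ) (j : Fin (m + 1)) : G → ℤ :=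
  j.1 • Pi.single (ab true) 1 + (m - j.1) • Pi.single (ab false) 1

lemma mu_mem (m : ℕ) (j : Fin (m + 1)) : mu σ m j ∈ Vd (wt2 wt ab) (deg m (muW ab m j)) := by
  have := IsWeightedHomogeneous.mul (X_pow_mem (wt := wt) (ab := ab) true j.1)
    (X_pow_mem false (m - j.1))
  rwa [deg_add, ← Nat.cast_add, Nat.add_sub_cancel' (Nat.lt_succ_iff.1 j.2)] at this

lemma exists_ind {J : Ideal (MvPolynomial (σ ⊕ Bool) ℚ)} (hp : J.IsPrime)
    (hs : X (Sum.inr true) ∉ J) (m : ℕ) : ∃ T : Finset (Fin (m + 1)), T.Nonempty ∧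
      (∀ f : Fin (m + 1) → MvPolynomial σ ℚ, ∑ i ∈ T, mu σ m i * io (f i) ∈ J →
        ∀ i ∈ T, io (f i) ∈ J) ∧ ∀ j, ∃ δ, io δ ∉ J ∧ ∃ g : Fin (m + 1) → MvPolynomial σ ℚ,
        mu σ m j * io δ - ∑ i ∈ T, mu σ m i * io (g i) ∈ J := by
  let Ind : Finset (Fin (m + 1)) → Prop := fun T => ∀ f : Fin (m + 1) → MvPolynomial σ ℚ,
    ∑ i ∈ T, mu σ m i * io (f i) ∈ J → ∀ i ∈ T, io (f i) ∈ J
  have h0 : Ind {Fin.last m} := by
    intro f hf i hi
    rw [Finset.mem_singleton.1 hi]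
    rw [sum_singleton] at hf
    refine (hp.mem_or_mem hf).resolve_left fun h => hs (hp.mem_of_pow_mem m ?_)
    simpa [mu] using h
  obtain ⟨T, hT0, hT⟩ := (Set.toFinite {T | Ind T}).exists_le_maximal h0
  refine ⟨T, ⟨_, hT0 (mem_singleton_self _)⟩, hT.prop, fun j => ?_⟩
  by_cases hj : j ∈ T
  · refine ⟨1, fun h => hp.ne_top ((Ideal.eq_top_iff_one _).2 (by simpa using h)),
      Pi.single j 1, ?_⟩
    rw [sum_eq_single_of_mem j hj fun i _ hi => by simp [Pi.single_eq_of_ne hi]]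
    simp
  · have hn : ¬ Ind (insert j T) := fun h =>
      hj (hT.le_of_ge h (subset_insert j T) (mem_insert_self j T))
    simp only [Ind, not_forall] at hn
    obtain ⟨f, hf, i, hi, hfi⟩ := hn
    rw [sum_insert hj] at hf
    refine ⟨f j, fun h => ?_, -f, by simpa using hf⟩
    have a := (J.add_mem_iff_right (J.mul_mem_left (mu σ m j) h)).1 hf
    rcases mem_insert.1 hi with rfl | hi'
    · exact hfi h
    · exact hfi (hT.prop f a i hi')

/-- Combination of the chosen monomials. -/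
noncomputable def psi {m : ℕ} (T : Finset (Fin (m + 1))) :
    (T → MvPolynomial σ ℚ) →ₗ[ℚ] MvPolynomial (σ ⊕ Bool) ℚ :=
  ∑ i : T, LinearMap.mulLeft ℚ (mu σ m i) ∘ₗ io.toLinearMap ∘ₗ LinearMap.proj i

lemma psi_apply {m : ℕ} (T : Finset (Fin (m + 1))) (f : T → MvPolynomial σ ℚ) :
    psi T f = ∑ i : T, mu σ m i * io (f i) := by simp [psi]

lemma rank_lo (hw : PosW wt) {J : Ideal (MvPolynomial (σ ⊕ Bool) ℚ)} {m : ℕ}
    {T : Finset (Fin (m + 1))} (hT : ∀ f : Fin (m + 1) → MvPolynomial σ ℚ,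
      ∑ i ∈ T, mu σ m i * io (f i) ∈ J → ∀ i ∈ T, io (f i) ∈ J) (d : G → ℤ) :
    ∑ i : T, hf wt (J.comap io) (d - muW ab m i) ≤ hf (wt2 wt ab) J (deg m d) := by
  haveI := hw.fin
  haveI := (hw.wt2 ab).fin
  unfold hf
  rw [← hq_pi]
  haveI := fin_pi fun i : T => Vd wt (d - muW ab m i)
  refine hq_le_of_inj (psi T) (fun f hf => ?_) fun f _ hf i _ => ?_
  · rw [psi_apply]
    exact Submodule.sum_mem _ fun i _ => mul_io_mem (mu_mem m i) (hf i trivial)
  · have := hT (fun i => if h : i ∈ T then f ⟨i, h⟩ else 0) (by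
      rw [← sum_coe_sort]
      simpa [psi_apply] using hf) i i.2
    simpa using this

lemma mul_mem_range {J : Ideal (MvPolynomial (σ ⊕ Bool) ℚ)} {m : ℕ} {T : Finset (Fin (m + 1))}
    {δ : Fin (m + 1) → MvPolynomial σ ℚ} (hδ : ∀ j, ∃ g : Fin (m + 1) → MvPolynomial σ ℚ,
      mu σ m j * io (δ j) - ∑ i ∈ T, mu σ m i * io (g i) ∈ J) {d : G → ℤ}
    {F : MvPolynomial (σ ⊕ Bool) ℚ} (hF : F ∈ Vd (wt2 wt ab) (deg m d)) :
    ∃ f, F * io (∏ j, δ j) - psi T f ∈ J := by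
  have hle : Vd (wt2 wt ab) (deg m d) ≤ (LinearMap.range (psi T) ⊔ J.restrictScalars ℚ).comap
      (LinearMap.mulRight ℚ (io (∏ j, δ j))) := by
    refine le_of_mono true fun j k hjk f => ?_
    obtain ⟨j', hj'⟩ : ∃ j' : Fin (m + 1), j'.1 = j := ⟨⟨j, by omega⟩, rfl⟩
    obtain ⟨g, hg⟩ := hδ j'
    have a := J.mul_mem_right (io (f * ∏ i ∈ univ.erase j', δ i)) hg
    have b : mu σ m j' = X (Sum.inr true) ^ j * X (Sum.inr !true) ^ k := by
      rw [mu, hj', ← hjk, Nat.add_sub_cancel_left, Bool.not_true]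
    rw [Submodule.mem_comap, LinearMap.mulRight_apply, ← b]
    refine Submodule.mem_sup.2 ⟨_, LinearMap.mem_range_self (psi T)
      fun i : T => g i * (f * ∏ i ∈ univ.erase j', δ i), _, a, ?_⟩
    rw [psi_apply, ← mul_prod_erase univ δ (mem_univ j'), ← sum_coe_sort T, sub_mul, sum_mul]
    simp only [map_mul, mul_assoc]
    ring
  have := hle hF
  rw [Submodule.mem_comap, LinearMap.mulRight_apply] at this
  obtain ⟨y, hy, j, hj, h⟩ := Submodule.mem_sup.1 this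
  obtain ⟨f, hf⟩ := LinearMap.mem_range.1 hy
  refine ⟨f, ?_⟩
  rw [← h, hf, add_sub_cancel_left]
  exact hj

lemma rank_up (hw : PosW wt) {J : Ideal (MvPolynomial (σ ⊕ Bool) ℚ)} (hJ : Homog (wt2 wt ab) J)
    (hp : J.IsPrime) {m : ℕ} {T : Finset (Fin (m + 1))} {Δ : MvPolynomial σ ℚ} {c : G → ℤ}
    (hΔ : Δ ∈ Vd wt c) (hΔJ : io Δ ∉ J) (d : G → ℤ)
    (h : ∀ F ∈ Vd (wt2 wt ab) (deg m d), ∃ f, F * io Δ - psi T f ∈ J) :
    hf (wt2 wt ab) J (deg m d) ≤ ∑ i : T, hf wt (J.comap io) (d + c - muW ab m i) := by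
  haveI := hw.fin
  haveI := (hw.wt2 ab).fin
  unfold hf
  rw [← hq_pi]
  set V := Submodule.pi Set.univ fun i : T => Vd wt (d + c - muW ab m i) with hV
  haveI : FiniteDimensional ℚ V := fin_pi _
  refine le_trans (hq_le_of_inj (V' := V.map (psi T) ⊔
    (Vd (wt2 wt ab) (deg m (d + c)) ⊓ J.restrictScalars ℚ)) (I' := J.restrictScalars ℚ)
    (LinearMap.mulRight ℚ (io Δ)) (fun F hF => ?_) fun F _ hF => ?_)
    (hq_le_of_surj (psi T) ?_ ?_)
  · obtain ⟨f, hf⟩ := h F hF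
    have hF' : F * io Δ ∈ Vd (wt2 wt ab) (deg m (d + c)) :=
      mul_io_mem hF (by rwa [add_sub_cancel_left])
    have e : psi T (fun i => cmp wt (d + c - muW ab m i) (f i))
        = cmp (wt2 wt ab) (deg m (d + c)) (psi T f) := by
      rw [psi_apply, psi_apply, map_sum]
      exact sum_congr rfl fun i _ => (cmp_mul_io (mu_mem m i) _ _).symm
    rw [LinearMap.mulRight_apply, ← cmp_self hF', ← add_sub_cancel (psi T f) (F * io Δ), map_add,
      ← e]
    exact Submodule.add_mem_sup (Submodule.mem_map_of_mem fun i _ => cmp_mem _ _ _)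
      (Submodule.mem_inf.2 ⟨cmp_mem _ _ _, hJ _ hf _⟩)
  · rw [LinearMap.mulRight_apply] at hF
    exact (hp.mem_or_mem hF).resolve_right hΔJ
  · intro F hF
    obtain ⟨y, hy, j, hj, e⟩ := Submodule.mem_sup.1 hF
    obtain ⟨f, hf, e'⟩ := Submodule.mem_map.1 hy
    refine ⟨f, hf, ?_⟩
    rw [← e, e', add_sub_cancel_left]
    exact hj.2
  · intro f _ hf
    rw [psi_apply]
    exact Submodule.sum_mem _ fun i _ => J.mul_mem_left _ (hf i trivial)

lemma hf_rank (hw : PosW wt) {J : Ideal (MvPolynomial (σ ⊕ Bool) ℚ)} (hp : J.IsPrime)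
    (hJ : Homog (wt2 wt ab) J) (hs : X (Sum.inr true) ∉ J) (m : ℕ) :
    ∃ T : Finset (Fin (m + 1)), T.Nonempty ∧ ∃ e e' : T → G → ℤ,
      (∀ d, ∑ i, hf wt (J.comap io) (d - e i) ≤ hf (wt2 wt ab) J (deg m d)) ∧
      ∀ d, hf (wt2 wt ab) J (deg m d) ≤ ∑ i, hf wt (J.comap io) (d - e' i) := by
  obtain ⟨T, hne, hT, hδ⟩ := exists_ind hp hs m
  have hδ' : ∀ j, ∃ (c : G → ℤ) (δ : MvPolynomial σ ℚ), δ ∈ Vd wt c ∧ io δ ∉ J ∧
      ∃ g : Fin (m + 1) → MvPolynomial σ ℚ,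
        mu σ m j * io δ - ∑ i ∈ T, mu σ m i * io (g i) ∈ J := by
    intro j
    obtain ⟨δ, hδ, g, hg⟩ := hδ j
    obtain ⟨c, hc⟩ := exists_cmp_notMem (wt := wt) (I := J.comap io) hδ
    refine ⟨c, _, cmp_mem wt δ c, hc, fun i => cmp wt (c + muW ab m j - muW ab m i) (g i), ?_⟩
    have := hJ _ hg (deg m (c + muW ab m j))
    rw [map_sub, map_sum, cmp_mul_io (mu_mem m j), add_sub_cancel_right] at this
    simpa only [cmp_mul_io (mu_mem m _)] using this
  choose c δ hδc hδI hg using hδ'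
  refine ⟨T, hne, fun i => muW ab m i, fun i => muW ab m i - ∑ j, c j, rank_lo hw hT, fun d => ?_⟩
  have := rank_up hw hJ hp (T := T) (IsWeightedHomogeneous.prod univ δ c fun j _ => hδc j)
    (fun h => by
      rw [map_prod] at h
      obtain ⟨j, -, hj⟩ := (Ideal.IsPrime.prod_mem_iff (hp := hp)).1 h
      exact hδI j hj) d fun F hF => mul_mem_range hg hF
  simpa only [sub_sub_eq_add_sub] using this

end Pool.Agent.K9c
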