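import Pool.Agent.Lib.MP_9c9c2f_co.Cells

/-! Point sets, irreducibility, torus stability, shears and slices. -/

set_option linter.unusedSectionVars false
set_option linter.style.haveILetI false

namespace Pool.Agent.K9c
open MvPolynomial Finset Filter Topology Module

section Irr
variable {σ σ' ι : Type}

/-- Vanishing ideal of a set of rational points. -/
def VI (Z : Set (σ → ℚ)) : Ideal (MvPolynomial σ ℚ) where
  carrier := {f | ∀ z ∈ Z, eval z f = 0}
  add_mem' := fun {a b} ha hb z hz => by rw [map_add, ha z hz, hb z hz, add_zero]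
  zero_mem' := fun z _ => map_zero _
  smul_mem' := fun c f hf z hz => by rw [smul_eq_mul, map_mul, hf z hz, mul_zero]

lemma mem_VI {Z : Set (σ → ℚ)} {f : MvPolynomial σ ℚ} : f ∈ VI Z ↔ ∀ z ∈ Z, eval z f = 0 :=
  Iff.rfl

lemma VI_anti {Z W : Set (σ → ℚ)} (h : Z ⊆ W) : VI W ≤ VI Z := fun _ hf z hz => hf z (h hz)

/-- Polynomial functions. -/
def IsPoly (F : (σ → ℚ) → ℚ) : Prop := ∃ P : MvPolynomial σ ℚ, ∀ z, F z = eval z P

lemma IsPoly.const (c : ℚ) : IsPoly fun _ : σ → ℚ => c := ⟨C c, fun _ => by simp⟩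
lemma IsPoly.coord (q : σ) : IsPoly fun z : σ → ℚ => z q := ⟨X q, fun _ => by simp⟩
lemma IsPoly.add {F F' : (σ → ℚ) → ℚ} (h : IsPoly F) (h' : IsPoly F') :
    IsPoly fun z => F z + F' z := by
  obtain ⟨P, hP⟩ := h; obtain ⟨P', hP'⟩ := h'
  exact ⟨P + P', fun z => by simp [hP, hP']⟩
lemma IsPoly.mul {F F' : (σ → ℚ) → ℚ} (h : IsPoly F) (h' : IsPoly F') :
    IsPoly fun z => F z * F' z := by
  obtain ⟨P, hP⟩ := h; obtain ⟨P', hP'⟩ := h'
  exact ⟨P * P', fun z => by simp [hP, hP']⟩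
lemma IsPoly.ite {F F' : (σ → ℚ) → ℚ} (c : Prop) [Decidable c] (h : IsPoly F) (h' : IsPoly F') :
    IsPoly fun z => if c then F z else F' z := by
  split_ifs; exacts [h, h']
lemma IsPoly.comp {F : (σ → ℚ) → σ' → ℚ} (h : ∀ q, IsPoly fun z => F z q)
    (f : MvPolynomial σ' ℚ) : IsPoly fun z => eval (F z) f := by
  induction f using MvPolynomial.induction_on with
  | C a => simpa using IsPoly.const a
  | add p q hp hq => simpa using hp.add hq
  | mul_X p q hp => simpa using hp.mul (h q)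

lemma nonempty_of_prime {Z : Set (σ → ℚ)} (h : (VI Z).IsPrime) : Z.Nonempty := by
  by_contra h0
  rw [Set.not_nonempty_iff_eq_empty] at h0
  exact h.ne_top ((Ideal.eq_top_iff_one _).2 fun z hz => by simp [h0] at hz)

lemma poly_or {Z : Set (σ → ℚ)} (h : (VI Z).IsPrime) {F F' : (σ → ℚ) → ℚ} (hF : IsPoly F)
    (hF' : IsPoly F') (h0 : ∀ z ∈ Z, F z * F' z = 0) :
    (∀ z ∈ Z, F z = 0) ∨ ∀ z ∈ Z, F' z = 0 := by
  obtain ⟨P, hP⟩ := hF; obtain ⟨P', hP'⟩ := hF'
  simp only [hP, hP'] at h0 ⊢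
  exact h.mem_or_mem (x := P) (y := P') fun z hz => by rw [map_mul, h0 z hz]

lemma prime_of {Z : Set (σ → ℚ)} (hne : Z.Nonempty)
    (h : ∀ f g : MvPolynomial σ ℚ, (∀ z ∈ Z, eval z f * eval z g = 0) → f ∈ VI Z ∨ g ∈ VI Z) :
    (VI Z).IsPrime := by
  refine ⟨fun ht => ?_, fun {f g} hfg => h f g fun z hz => by rw [← map_mul]; exact hfg z hz⟩
  obtain ⟨z, hz⟩ := hne
  have : (1 : MvPolynomial σ ℚ) ∈ VI Z := ht ▸ trivial
  simpa using this z hz

lemma prime_image2 {Z : Set (σ → ℚ)} {W : Set (ι → ℚ)} (hZ : (VI Z).IsPrime)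
    (hW : (VI W).IsPrime) (F : (σ → ℚ) → (ι → ℚ) → σ' → ℚ)
    (h1 : ∀ c q, IsPoly fun z => F z c q) (h2 : ∀ z q, IsPoly fun c => F z c q) :
    (VI (Set.image2 F Z W)).IsPrime := by
  refine prime_of ((nonempty_of_prime hZ).image2 (nonempty_of_prime hW)) fun f g hfg => ?_
  by_contra hc
  simp only [mem_VI, not_or, not_forall] at hc
  obtain ⟨⟨_, ⟨z₁, hz₁, c₁, hc₁, rfl⟩, n₁⟩, _, ⟨z₂, hz₂, c₂, hc₂, rfl⟩, n₂⟩ := hc
  have := poly_or hZ (IsPoly.comp (h1 c₁) f) (IsPoly.comp (h1 c₂) g) fun z hz => by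
    rcases poly_or hW (IsPoly.comp (h2 z) f) (IsPoly.comp (h2 z) g)
      (fun c hc => hfg _ ⟨z, hz, c, hc, rfl⟩) with h | h
    · rw [h c₁ hc₁, zero_mul]
    · rw [h c₂ hc₂, mul_zero]
  exact this.elim (fun h => n₁ (h z₁ hz₁)) fun h => n₂ (h z₂ hz₂)

lemma VI_univ : VI (Set.univ : Set (σ → ℚ)) = ⊥ := by
  refine le_bot_iff.1 fun f hf => (Submodule.mem_bot _).2 (MvPolynomial.funext fun z => ?_)
  rw [hf z trivial, map_zero]

lemma prime_univ : (VI (Set.univ : Set (σ → ℚ))).IsPrime := VI_univ (σ := σ) ▸ Ideal.isPrime_bot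

lemma prime_image {Z : Set (σ → ℚ)} (hZ : (VI Z).IsPrime) (F : (σ → ℚ) → σ' → ℚ)
    (h1 : ∀ q, IsPoly fun z => F z q) : (VI (F '' Z)).IsPrime := by
  have := prime_image2 hZ (prime_univ (σ := Unit)) (fun z _ => F z) (fun _ => h1)
    fun z q => IsPoly.const _
  have e : Set.image2 (fun z (_ : Unit → ℚ) => F z) Z Set.univ = F '' Z := by
    ext y; simp
  rwa [e] at this

lemma mem_VI_of_ne {Z : Set (σ → ℚ)} (hZ : (VI Z).IsPrime) {t : MvPolynomial σ ℚ}
    (ht : t ∉ VI Z) {f : MvPolynomial σ ℚ} (hf : ∀ z ∈ Z, eval z t ≠ 0 → eval z f = 0) :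
    f ∈ VI Z := by
  refine (hZ.mem_or_mem (x := t) (y := f) fun z hz => ?_).resolve_left ht
  rw [map_mul]
  by_cases h : eval z t = 0
  · rw [h, zero_mul]
  · rw [hf z hz h, mul_zero]

end Irr

section Torus
variable {σ G : Type} [Fintype σ] [DecidableEq σ] [Fintype G]

/-- Characters of the torus. -/
def chi (w : G → ℤ) : (G → ℚˣ) →* ℚ where
  toFun t := ((∏ g, t g ^ w g : ℚˣ) : ℚ)
  map_one' := by simp
  map_mul' s t := by simp [mul_zpow, prod_mul_distrib]

lemma chi_add (w w' : G → ℤ) (t : G → ℚˣ) : chi (w + w') t = chi w t * chi w' t := by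
  simp [chi, zpow_add₀, prod_mul_distrib]

lemma chi_zero (t : G → ℚˣ) : chi 0 t = 1 := by simp [chi]

lemma chi_ne (w : G → ℤ) (t : G → ℚˣ) : chi w t ≠ 0 := Units.ne_zero _

lemma chi_single [DecidableEq G] (g : G) (t : G → ℚˣ) : chi (Pi.single g 1) t = t g := by
  show ((∏ g', t g' ^ (Pi.single g 1 : G → ℤ) g' : ℚˣ) : ℚ) = t g
  rw [prod_eq_single g]
  · simp
  · intro b _ hb; simp [Pi.single_eq_of_ne hb]
  · simp

lemma chi_mulSingle [DecidableEq G] (w : G → ℤ) (g : G) (u : ℚˣ) :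
    chi w (Pi.mulSingle g u) = (u : ℚ) ^ w g := by
  show ((∏ g', (Pi.mulSingle g u : G → ℚˣ) g' ^ w g' : ℚˣ) : ℚ) = _
  rw [prod_eq_single g]
  · simp
  · intro b _ hb; simp [Pi.mulSingle_eq_of_ne hb]
  · simp

lemma chi_injective : Function.Injective (chi : (G → ℤ) → _) := by
  classical
  intro w w' h
  funext g
  have := DFunLike.congr_fun h (Pi.mulSingle g (Units.mk0 2 two_ne_zero))
  rw [chi_mulSingle, chi_mulSingle] at this
  exact zpow_right_injective₀ (by norm_num) (by norm_num) this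

lemma chi_weight (wt : σ → G → ℤ) (e : σ →₀ ℕ) (t : G → ℚˣ) :
    chi (Finsupp.weight wt e) t = ∏ q, chi (wt q) t ^ e q := by
  have a : ∀ (k : ℕ) (w : G → ℤ), chi (k • w) t = chi w t ^ k := by
    intro k w
    induction k with
    | zero => simp [chi_zero]
    | succ k ih => rw [succ_nsmul, chi_add, ih, pow_succ]
  rw [Finsupp.weight_apply, Finsupp.sum_fintype _ _ (by simp)]
  induction (univ : Finset σ) using Finset.induction_on with
  | empty => simp [chi_zero]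
  | insert q s hq ih => rw [sum_insert hq, prod_insert hq, chi_add, ih, a]

/-- Torus action on points. -/
def tor (wt : σ → G → ℤ) (t : G → ℚˣ) (z : σ → ℚ) : σ → ℚ := fun p => chi (wt p) t * z p

/-- Stability under the torus. -/
def TorSt (wt : σ → G → ℤ) (Z : Set (σ → ℚ)) : Prop := ∀ t, ∀ z ∈ Z, tor wt t z ∈ Z

lemma eval_tor {wt : σ → G → ℤ} {f : MvPolynomial σ ℚ} {d : G → ℤ} (hf : f ∈ Vd wt d)
    (t : G → ℚˣ) (z : σ → ℚ) : eval (tor wt t z) f = chi d t * eval z f := by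
  rw [eval_eq', eval_eq', mul_sum]
  refine sum_congr rfl fun e he => ?_
  rw [← hf (mem_support_iff.1 he), chi_weight]
  simp only [tor, mul_pow, prod_mul_distrib]; ring

lemma TorSt.homog {wt : σ → G → ℤ} {Z : Set (σ → ℚ)} (h : TorSt wt Z) : Homog wt (VI Z) := by
  classical
  intro f hf d z hz
  obtain ⟨s, hs⟩ := sum_cmp wt f
  by_cases hd : d ∈ s
  · have li := (linearIndependent_monoidHom (G → ℚˣ) ℚ).comp chi chi_injective
    refine linearIndependent_iff'.1 li s (fun d => eval z (cmp wt d f)) ?_ d hd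
    funext t
    have := hf _ (h t z hz)
    rw [hs, map_sum] at this
    rw [Finset.sum_apply, Pi.zero_apply, ← this]
    refine sum_congr rfl fun d' _ => ?_
    rw [eval_tor (cmp_mem _ _ _), mul_comm]; rfl
  · rw [hs, map_sum, map_sum]
    refine sum_eq_zero fun d' hd' => ?_
    rw [IsWeightedHomogeneous.weightedHomogeneousComponent_ne d (cmp_mem wt f d')
      (fun e => hd (e ▸ hd')), map_zero]

end Torus

section Shear
variable {σ : Type}

/-- Shear adding `c` times the coordinate `sw p` to each coordinate `p` in `A`. -/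
def sh (A : σ → Prop) [DecidablePred A] (sw : σ → σ) (c : ℚ) (z : σ → ℚ) : σ → ℚ :=
  fun p => z p + if A p then c * z (sw p) else 0

variable {A : σ → Prop} [DecidablePred A] {sw : σ → σ}

lemma sh_zero (z : σ → ℚ) : sh A sw 0 z = z := by funext p; simp [sh]

lemma sh_sh (hA : ∀ p, A p → ¬ A (sw p)) (c c' : ℚ) (z : σ → ℚ) :
    sh A sw c (sh A sw c' z) = sh A sw (c' + c) z := by
  funext p
  by_cases h : A p
  · simp [sh, h, hA p h]; ring
  · simp [sh, h]

lemma sh_rat (A : σ → Prop) [DecidablePred A] (sw : σ → σ) (p₀ q₀ : σ) (f : MvPolynomial σ ℚ) :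
    ∃ (N : ℕ) (P : MvPolynomial σ ℚ), (∀ z, z q₀ ≠ 0 →
      eval (sh A sw (-z p₀ / z q₀) z) f * z q₀ ^ N = eval z P) ∧
      P - X q₀ ^ N * f ∈ Ideal.span {(X p₀ : MvPolynomial σ ℚ)} := by
  induction f using MvPolynomial.induction_on with
  | C a => exact ⟨0, C a, fun z _ => by simp, by simp⟩
  | add f g hf hg =>
    obtain ⟨N, P, h1, h2⟩ := hf
    obtain ⟨N', P', h1', h2'⟩ := hg
    refine ⟨N + N', P * X q₀ ^ N' + P' * X q₀ ^ N, fun z hz => ?_, ?_⟩
    · simp only [map_add, map_mul, map_pow, eval_X, ← h1 z hz, ← h1' z hz]; ring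
    · convert Ideal.add_mem _ (Ideal.mul_mem_right (X q₀ ^ N') _ h2)
        (Ideal.mul_mem_right (X q₀ ^ N) _ h2') using 1
      ring
  | mul_X f p hf =>
    obtain ⟨N, P, h1, h2⟩ := hf
    refine ⟨N + 1, P * (X q₀ * X p - if A p then X p₀ * X (sw p) else 0), fun z hz => ?_, ?_⟩
    · rw [map_mul, map_mul, ← h1 z hz, eval_X]
      unfold sh
      split_ifs
      · simp only [map_sub, map_mul, eval_X]; field_simp; ring
      · simp; ring
    · have : (if A p then X p₀ * X (sw p) else 0 : MvPolynomial σ ℚ) ∈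
          Ideal.span {(X p₀ : MvPolynomial σ ℚ)} := by
        split_ifs
        exacts [Ideal.mul_mem_right _ _ (Ideal.mem_span_singleton_self _), Ideal.zero_mem _]
      convert Ideal.sub_mem _ (Ideal.mul_mem_right (X q₀ * X p) _ h2)
        (Ideal.mul_mem_left _ P this) using 1
      ring

/-- The slice `z p = 0`, `z q ≠ 0` of a point set. -/
def slc (Z : Set (σ → ℚ)) (p q : σ) : Set (σ → ℚ) := {z | z ∈ Z ∧ z p = 0 ∧ z q ≠ 0}

variable {Z : Set (σ → ℚ)} {p₀ q₀ : σ}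

lemma sh_mem_slc (hs : ∀ c, ∀ z ∈ Z, sh A sw c z ∈ Z) (hp : A p₀) (hpq : sw p₀ = q₀)
    (hq : ¬ A q₀) {z : σ → ℚ} (hz : z ∈ Z) (h0 : z q₀ ≠ 0) :
    sh A sw (-z p₀ / z q₀) z ∈ slc Z p₀ q₀ := by
  refine ⟨hs _ z hz, ?_, ?_⟩
  · simp only [sh, if_pos hp, hpq]; field_simp; ring
  · simpa [sh, hq] using h0

lemma slc_sat (hZ : (VI Z).IsPrime) (hs : ∀ c, ∀ z ∈ Z, sh A sw c z ∈ Z) (hp : A p₀)
    (hpq : sw p₀ = q₀) (hq : ¬ A q₀) (hX : X q₀ ∉ VI Z) {f : MvPolynomial σ ℚ}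
    (hf : f ∈ VI (slc Z p₀ q₀)) : ∃ k : ℕ, X q₀ ^ k * f ∈ VI Z ⊔ Ideal.span {X p₀} := by
  obtain ⟨N, P, h1, h2⟩ := sh_rat A sw p₀ q₀ f
  have hP : P ∈ VI Z := mem_VI_of_ne hZ hX fun z hz h0 => by
    rw [eval_X] at h0
    rw [← h1 z h0, hf _ (sh_mem_slc hs hp hpq hq hz h0), zero_mul]
  refine ⟨N, ?_⟩
  have := Ideal.sub_mem _ (Submodule.mem_sup_left hP) (Submodule.mem_sup_right h2)
  rwa [sub_sub_cancel] at this

lemma slc_le : VI Z ⊔ Ideal.span {X p₀} ≤ VI (slc Z p₀ q₀) :=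
  sup_le (VI_anti fun _ h => h.1) ((Ideal.span_singleton_le_iff_mem _).2 fun z hz => by
    rw [eval_X]; exact hz.2.1)

lemma slc_prime (hZ : (VI Z).IsPrime) (hs : ∀ c, ∀ z ∈ Z, sh A sw c z ∈ Z) (hp : A p₀)
    (hpq : sw p₀ = q₀) (hq : ¬ A q₀) (hX : X q₀ ∉ VI Z) : (VI (slc Z p₀ q₀)).IsPrime := by
  have hX' := hX
  simp only [mem_VI, not_forall, eval_X] at hX'
  obtain ⟨z₀, hz₀, h₀⟩ := hX'
  refine prime_of ⟨_, sh_mem_slc hs hp hpq hq hz₀ h₀⟩ fun f g hfg => ?_
  obtain ⟨N, P, h1, -⟩ := sh_rat A sw p₀ q₀ f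
  obtain ⟨N', P', h1', -⟩ := sh_rat A sw p₀ q₀ g
  have : P * P' ∈ VI Z := mem_VI_of_ne hZ hX fun z hz h0 => by
    rw [eval_X] at h0
    rw [map_mul, ← h1 z h0, ← h1' z h0, mul_mul_mul_comm,
      hfg _ (sh_mem_slc hs hp hpq hq hz h0), zero_mul]
  have key : ∀ (f P : MvPolynomial σ ℚ) (N : ℕ), (∀ z, z q₀ ≠ 0 →
      eval (sh A sw (-z p₀ / z q₀) z) f * z q₀ ^ N = eval z P) → P ∈ VI Z →
      f ∈ VI (slc Z p₀ q₀) := by
    intro f P N h hP z hz
    have := h z hz.2.2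
    rw [hP z hz.1, hz.2.1, neg_zero, zero_div, sh_zero] at this
    exact (mul_eq_zero.1 this).resolve_right (pow_ne_zero _ hz.2.2)
  exact (hZ.mem_or_mem this).imp (key f P N h1) (key g P' N' h1')

lemma slc_notMem (hs : ∀ c, ∀ z ∈ Z, sh A sw c z ∈ Z) (hp : A p₀) (hpq : sw p₀ = q₀)
    (hX : X q₀ ∉ VI Z) : X p₀ ∉ VI Z := by
  intro h
  refine hX fun z hz => ?_
  have a := h z hz
  have b := h _ (hs 1 z hz)
  rw [eval_X] at a b ⊢
  simpa [sh, hp, hpq, a] using b

end Shear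

variable {σ G : Type} [Fintype σ] [DecidableEq σ] [Fintype G]

lemma TorSt.slc {wt : σ → G → ℤ} {Z : Set (σ → ℚ)} (h : TorSt wt Z) (p q : σ) :
    TorSt wt (slc Z p q) := fun t z hz =>
  ⟨h t z hz.1, by rw [tor, hz.2.1, mul_zero], mul_ne_zero (chi_ne _ _) hz.2.2⟩

lemma md_slc {wt : σ → G → ℤ} (hw : PosW wt) {A : σ → Prop} [DecidablePred A] {sw : σ → σ}
    {Z : Set (σ → ℚ)} {p₀ q₀ : σ} (hZ : (VI Z).IsPrime) (hT : TorSt wt Z)
    (hs : ∀ c, ∀ z ∈ Z, sh A sw c z ∈ Z) (hp : A p₀) (hpq : sw p₀ = q₀) (hq : ¬ A q₀)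
    (hX : X q₀ ∉ VI Z) {D : ℤ} {C : MvPolynomial G ℤ} (h : MD wt (VI Z) D C) :
    ∃ C₁, MD wt (VI (slc Z p₀ q₀)) (D - 1) C₁ ∧ lin (wt q₀) ∣ lin (wt p₀) * C - C₁ :=
  (h.cut hw hZ hT.homog (slc_notMem hs hp hpq hX)).sat hw
    (hT.homog.sup_span (isWeightedHomogeneous_X ℚ wt p₀)) (hT.slc p₀ q₀).homog slc_le
    fun _ hf => slc_sat hZ hs hp hpq hq hX hf

/-- Coordinate subspace. -/
def coordSub (K : Finset σ) : Set (σ → ℚ) := {z | ∀ p ∈ K, z p = 0}

lemma coordSub_prime (K : Finset σ) : (VI (coordSub K)).IsPrime := by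
  have := prime_image (prime_univ (σ := σ)) (fun z p => if p ∈ K then 0 else z p)
    fun q => IsPoly.ite _ (IsPoly.const 0) (IsPoly.coord q)
  convert this using 2
  ext z
  constructor
  · intro hz
    refine ⟨z, trivial, funext fun p => ?_⟩
    by_cases h : p ∈ K
    · simp [h, hz p h]
    · simp [h]
  · rintro ⟨y, -, rfl⟩ p hp
    simp [hp]

lemma coordSub_torSt (wt : σ → G → ℤ) (K : Finset σ) : TorSt wt (coordSub K) :=
  fun t z hz p hp => by rw [tor, hz p hp, mul_zero]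

lemma md_coordSub {wt : σ → G → ℤ} (hw : PosW wt) (K : Finset σ) :
    ∃ D, MD wt (VI (coordSub K)) D (∏ p ∈ K, lin (wt p)) := by
  induction K using Finset.induction_on with
  | empty =>
    have : coordSub (∅ : Finset σ) = Set.univ := by ext z; simp [coordSub]
    rw [this, VI_univ, prod_empty]
    exact ⟨_, md_bot hw⟩
  | insert p K hp ih =>
    obtain ⟨D, hD⟩ := ih
    have hX : X p ∉ VI (coordSub K) := fun h => by
      have := h (Pi.single p 1) fun q hq => Pi.single_eq_of_ne (fun e : q = p => hp (e ▸ hq)) _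
      simp at this
    have e : VI (coordSub (insert p K)) = VI (coordSub K) ⊔ Ideal.span {X p} := by
      refine le_antisymm (fun f hf => ?_) (sup_le (VI_anti fun z hz q hq =>
        hz q (mem_insert_of_mem hq)) ((Ideal.span_singleton_le_iff_mem _).2 fun z hz => by
          rw [eval_X]; exact hz p (mem_insert_self _ _)))
      have a : ∀ f : MvPolynomial σ ℚ, ∃ P, (∀ z, eval (Function.update z p 0) f = eval z P) ∧
          f - P ∈ Ideal.span {(X p : MvPolynomial σ ℚ)} := by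
        intro f
        induction f using MvPolynomial.induction_on with
        | C a => exact ⟨C a, by simp, by simp⟩
        | add f g hf hg =>
          obtain ⟨P, h1, h2⟩ := hf
          obtain ⟨P', h1', h2'⟩ := hg
          exact ⟨P + P', fun z => by simp [h1, h1'], by
            convert Ideal.add_mem _ h2 h2' using 1; ring⟩
        | mul_X f q hf =>
          obtain ⟨P, h1, h2⟩ := hf
          by_cases hq : q = p
          · subst hq
            exact ⟨0, by simp, by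
              rw [sub_zero]; exact Ideal.mul_mem_left _ _ (Ideal.mem_span_singleton_self _)⟩
          · exact ⟨P * X q, fun z => by simp [h1, Function.update_of_ne hq], by
              convert Ideal.mul_mem_right (X q) _ h2 using 1; ring⟩
      obtain ⟨P, h1, h2⟩ := a f
      have hP : P ∈ VI (coordSub K) := fun z hz => by
        rw [← h1]
        refine hf _ fun q hq => ?_
        rcases mem_insert.1 hq with rfl | hq'
        · simp
        · rw [Function.update_of_ne (fun e : q = p => hp (e ▸ hq'))]; exact hz q hq'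
      have := Submodule.add_mem_sup hP h2
      rwa [add_sub_cancel] at this
    rw [e, prod_insert hp]
    exact ⟨_, hD.cut hw (coordSub_prime K) (coordSub_torSt wt K).homog hX⟩

end Pool.Agent.K9c
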