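import Pool.Agent.Lib.MP_9c9c2f_co.HPL
import Pool.Agent.Lib.MP_9c9c2f_co.Points

/-! Leading monomials and a Brunn–Minkowski inequality for Hilbert functions. -/

set_option linter.unusedSectionVars false
set_option linter.style.haveILetI false

namespace Pool.Agent.K9c
open MvPolynomial Finset Module

lemma card_le_pow {U : Type} (Λ : Finset ℚ) (hΛ : Λ.Nonempty) [Fintype U] (k : ℕ) :
    ∀ (W : Submodule ℚ (U → ℚ)) (S : Finset (U → ℚ)), finrank ℚ W ≤ k →
      (∀ x ∈ S, ∀ y ∈ S, x - y ∈ W) → (∀ x ∈ S, ∀ u, x u ∈ Λ) → S.card ≤ Λ.card ^ k := by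
  classical
  have bot : ∀ (k : ℕ) (S : Finset (U → ℚ)), (∀ x ∈ S, ∀ y ∈ S, x - y ∈ (⊥ : Submodule ℚ _)) →
      S.card ≤ Λ.card ^ k := fun k S h =>
    (card_le_one.2 fun x hx y hy => sub_eq_zero.1 ((Submodule.mem_bot ℚ).1 (h x hx y hy))).trans
      (Nat.one_le_pow _ _ hΛ.card_pos)
  induction k with
  | zero =>
    intro W S hW h _
    rw [Submodule.finrank_eq_zero.1 (Nat.le_zero.1 hW)] at h
    exact bot 0 S h
  | succ k ih =>
    intro W S hW h hc
    by_cases h0 : W = ⊥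
    · exact bot _ S (h0 ▸ h)
    obtain ⟨w, hw, hw0⟩ := Submodule.exists_mem_ne_zero_of_ne_bot h0
    obtain ⟨u, hu⟩ := Function.ne_iff.1 hw0
    have lt : W ⊓ LinearMap.ker (LinearMap.proj u : (U → ℚ) →ₗ[ℚ] ℚ) < W :=
      lt_of_le_of_ne inf_le_left fun e => hu (e.symm ▸ hw : w ∈ W ⊓ _).2
    have := Submodule.finrank_lt_finrank_of_lt lt
    rw [pow_succ]
    refine card_le_mul_card_image_of_maps_to (f := fun x => x u) (fun x hx => hc x hx u) _
      fun b _ => ih _ _ (Nat.le_of_lt_succ (this.trans_le hW)) (fun x hx y hy => ?_) fun x hx => hc x (mem_filter.1 hx).1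
    obtain ⟨x1, x2⟩ := mem_filter.1 hx
    obtain ⟨y1, y2⟩ := mem_filter.1 hy
    exact ⟨h x x1 y y1, by simp [x2, y2]⟩

lemma bm_semigroup {U Δ : Type} [Fintype U] [AddCommMonoid Δ] (S : Δ → Finset (U → ℚ))
    (h0 : 0 ∈ S 0) (hS : ∀ a b, ∀ x ∈ S a, ∀ y ∈ S b, x + y ∈ S (a + b)) :
    ∃ (r : ℕ) (c : Δ), (∀ a b, 4 ^ r * ((S a).card * (S b).card) ≤ (S (a + b + c)).card ^ 2) ∧
      ∀ a (Λ : Finset ℚ), Λ.Nonempty → (∀ x ∈ S a, ∀ u, x u ∈ Λ) → (S a).card ≤ Λ.card ^ r := by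
  classical
  obtain ⟨v, h1, -, h3⟩ := Submodule.exists_fun_fin_finrank_span_eq ℚ
    {v : U → ℚ | ∃ d, ∃ x ∈ S d, ∃ y ∈ S d, v = x - y}
  choose d x hx y hy e using h1
  have sm : ∀ (z : _ → U → ℚ), (∀ i, z i ∈ S (d i)) → ∀ s : Finset _,
      ∑ i ∈ s, z i ∈ S (∑ i ∈ s, d i) := by
    intro z hz s
    induction s using Finset.induction_on with
    | empty => simpa using h0
    | insert i s hi ih => rw [sum_insert hi, sum_insert hi]; exact hS _ _ _ (hz i) _ ih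
  refine ⟨_, ∑ i, d i, fun a b => ?_, fun a Λ hΛ h => card_le_pow Λ hΛ _
    (Submodule.span ℚ {v : U → ℚ | ∃ d, ∃ x ∈ S d, ∃ y ∈ S d, v = x - y}) _ le_rfl
    (fun x hx y hy => Submodule.subset_span ⟨a, x, hx, y, hy, rfl⟩) h⟩
  have := pl_card h3 (S a) ((S b).image (· + ∑ i, y i)) (S (a + b + ∑ i, d i)) (by
    intro p hp q' hq' ε
    obtain ⟨q, hq, rfl⟩ := mem_image.1 hq'
    have := hS _ _ _ (hS _ _ _ hp _ hq) _ (sm (fun i => cond (ε i) (x i) (y i))
      (fun i => by cases ε i; exacts [hy i, hx i]) univ)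
    convert this using 1
    rw [← add_assoc, add_assoc (p + q), ← sum_add_distrib]
    congr 1
    exact sum_congr rfl fun i _ => by cases ε i <;> simp [e i])
  rwa [card_image_of_injective _ (add_left_injective _)] at this

lemma exists_lm {U : Type} (m : MonomialOrder U) (V : Submodule ℚ (MvPolynomial U ℚ))
    [FiniteDimensional ℚ V] : ∃ T : Finset (U →₀ ℕ), T.card = finrank ℚ V ∧
      ∀ e, e ∈ T ↔ ∃ f ∈ V, f ≠ 0 ∧ m.degree f = e := by
  classical
  have up : ∀ T : Finset (U →₀ ℕ), (∀ e ∈ T, ∃ f ∈ V, f ≠ 0 ∧ m.degree f = e) →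
      T.card ≤ finrank ℚ V := by
    intro T hT
    choose f h1 h2 h3 using hT
    have li : LinearIndependent ℚ fun e : T => (⟨f e e.2, h1 e e.2⟩ : V) := by
      refine LinearIndependent.of_comp V.subtype (linearIndependent_iff'.2 fun s c hc => ?_)
      by_contra hn
      push Not at hn
      obtain ⟨e, he, hm⟩ := (s.filter fun e => c e ≠ 0).exists_max_image (fun e => m.toSyn e.1)
        (let ⟨i, hi, hc⟩ := hn; ⟨i, mem_filter.2 ⟨hi, hc⟩⟩)
      have := congrArg (coeff e.1) hc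
      rw [coeff_sum, sum_eq_single_of_mem e (mem_filter.1 he).1] at this
      · refine (mem_filter.1 he).2 ((mul_eq_zero.1 this).resolve_right ?_)
        have := m.coeff_degree_ne_zero_iff.2 (h2 e e.2)
        rwa [h3] at this
      · intro e' he' hne
        by_cases h0 : c e' = 0
        · simp [h0]
        have lt : m.toSyn e'.1 < m.toSyn e.1 := lt_of_le_of_ne (hm e' (mem_filter.2 ⟨he', h0⟩))
          fun h => hne (Subtype.ext (m.toSyn.injective h))
        have : coeff e.1 (f e' e'.2) = 0 := m.coeff_eq_zero_of_lt (by rwa [h3])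
        simp [this]
    simpa using li.fintype_card_le_finrank
  have fin : {e | ∃ f ∈ V, f ≠ 0 ∧ m.degree f = e}.Finite := by
    by_contra h
    obtain ⟨T, h1, h2⟩ := Set.Infinite.exists_subset_card_eq h (finrank ℚ V + 1)
    have := up T fun e he => h1 he
    omega
  refine ⟨fin.toFinset, le_antisymm (up _ fun e he => by simpa using he) ?_, by simp⟩
  let φ : V →ₗ[ℚ] fin.toFinset → ℚ := LinearMap.pi fun e => lcoeff ℚ e.1 ∘ₗ V.subtype
  have inj : Function.Injective φ := by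
    refine (injective_iff_map_eq_zero φ).2 fun f hf => ?_
    by_contra h0
    have h1 : f.1 ≠ 0 := fun h => h0 (Subtype.ext h)
    exact m.coeff_degree_ne_zero_iff.2 h1
      (congrFun hf ⟨m.degree f.1, fin.mem_toFinset.2 ⟨f.1, f.2, h1, rfl⟩⟩)
  simpa using LinearMap.finrank_le_finrank_of_injective inj

section Prm
variable {σ σ' ι : Type}

lemma IsPoly.comp' {F : (σ' → ℚ) → ℚ} (hF : IsPoly F) {H : (σ → ℚ) → σ' → ℚ}
    (hH : ∀ q, IsPoly fun z => H z q) : IsPoly fun z => F (H z) := by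
  obtain ⟨P, hP⟩ := hF
  simp only [hP]
  exact IsPoly.comp hH P

lemma IsPoly.sum {κ : Type} (s : Finset κ) {F : κ → (σ → ℚ) → ℚ} (h : ∀ i, IsPoly (F i)) :
    IsPoly fun z => ∑ i ∈ s, F i z := by
  choose P hP using h
  exact ⟨∑ i ∈ s, P i, fun z => by simp [hP]⟩

lemma IsPoly.sub {F F' : (σ → ℚ) → ℚ} (h : IsPoly F) (h' : IsPoly F') :
    IsPoly fun z => F z - F' z := by
  obtain ⟨P, hP⟩ := h; obtain ⟨P', hP'⟩ := h'
  exact ⟨P - P', fun z => by simp [hP, hP']⟩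

/-- The closure of `Z` is the closure of the image of a polynomial map. -/
def Prm (Z : Set (σ → ℚ)) : Prop := ∃ (U : Type) (_ : Fintype U) (Φ : (U → ℚ) → σ → ℚ),
  (∀ q, IsPoly fun u => Φ u q) ∧ VI Z = VI (Set.range Φ)

lemma Prm.prime {Z : Set (σ → ℚ)} (h : Prm Z) : (VI Z).IsPrime := by
  obtain ⟨U, _, Φ, h1, h2⟩ := h
  rw [h2, ← Set.image_univ]
  exact prime_image prime_univ Φ h1

lemma Prm.congr {Z W : Set (σ → ℚ)} (h : Prm Z) (e : VI W = VI Z) : Prm W := by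
  obtain ⟨U, i, Φ, h1, h2⟩ := h
  exact ⟨U, i, Φ, h1, e.trans h2⟩

lemma Prm.image2 [Fintype ι] {Z : Set (σ → ℚ)} (h : Prm Z) (F : (σ → ℚ) → (ι → ℚ) → σ' → ℚ)
    (hF : ∀ q, IsPoly fun y : σ ⊕ ι → ℚ => F (y ∘ Sum.inl) (y ∘ Sum.inr) q) :
    Prm {y | ∃ z ∈ Z, ∃ c, y = F z c} := by
  obtain ⟨U, _, Φ, h1, h2⟩ := h
  refine ⟨U ⊕ ι, inferInstance, fun y => F (Φ (y ∘ Sum.inl)) (y ∘ Sum.inr), fun q => ?_, ?_⟩
  · refine (hF q).comp' (H := fun y : U ⊕ ι → ℚ => Sum.elim (Φ (y ∘ Sum.inl)) (y ∘ Sum.inr)) ?_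
    rintro (p | i)
    · exact (h1 p).comp' fun u => IsPoly.coord (Sum.inl u)
    · exact IsPoly.coord (Sum.inr i)
  have key : ∀ (c : ι → ℚ) (f : MvPolynomial σ' ℚ), ∃ P : MvPolynomial σ ℚ,
      ∀ z, eval (F z c) f = eval z P := fun c f => IsPoly.comp (fun q =>
    (hF q).comp' (H := fun z : σ → ℚ => Sum.elim z c) (by
      rintro (p | i); exacts [IsPoly.coord p, IsPoly.const _])) f
  ext f
  constructor
  · rintro hf _ ⟨y, rfl⟩
    obtain ⟨P, hP⟩ := key (y ∘ Sum.inr) f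
    have : P ∈ VI Z := fun z hz => by rw [← hP]; exact hf _ ⟨z, hz, _, rfl⟩
    rw [hP]; exact (h2 ▸ this) _ ⟨_, rfl⟩
  · rintro hf _ ⟨z, hz, c, rfl⟩
    obtain ⟨P, hP⟩ := key c f
    have : P ∈ VI (Set.range Φ) := by
      rintro _ ⟨u, rfl⟩
      rw [← hP]; exact hf _ ⟨Sum.elim u c, rfl⟩
    rw [hP]; exact (h2 ▸ this) z hz

lemma Prm.ker {Z : Set (σ → ℚ)} (h : Prm Z) : ∃ (U : Type) (_ : Fintype U)
    (ψ : σ → MvPolynomial U ℚ), ∀ f, f ∈ VI Z ↔ aeval ψ f = 0 := by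
  obtain ⟨U, i, Φ, h1, h2⟩ := h
  choose ψ hψ using h1
  have e : ∀ u f, eval u (aeval ψ f) = eval (Φ u) f := fun u f => by
    induction f using MvPolynomial.induction_on with
    | C a => simp
    | add f g hf hg => simp only [map_add, hf, hg]
    | mul_X f q hf => simp only [map_mul, hf, aeval_X, eval_X, ← hψ q u]
  refine ⟨U, i, ψ, fun f => ?_⟩
  rw [h2]
  constructor
  · intro hf
    exact MvPolynomial.funext fun u => by rw [e, hf _ ⟨u, rfl⟩, map_zero]
  · rintro hf _ ⟨u, rfl⟩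
    rw [← e, hf, map_zero]

end Prm

variable {σ G : Type} [Fintype σ] [DecidableEq σ] [Fintype G]

lemma totalDegree_aeval_le {U : Type} (ψ : σ → MvPolynomial U ℚ) {wt : σ → G → ℤ} (hw : PosW wt)
    {d : G → ℤ} {f : MvPolynomial σ ℚ} (hf : f ∈ Vd wt d) :
    (aeval ψ f).totalDegree ≤ (univ.sup fun p => (ψ p).totalDegree) * (∑ g, d g).toNat := by
  rw [aeval_def, eval₂_eq']
  refine totalDegree_finsetSum_le fun e he => (totalDegree_mul _ _).trans ?_
  rw [algebraMap_eq, totalDegree_C, zero_add]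
  refine (totalDegree_finsetProd _ _).trans ?_
  refine (sum_le_sum fun p _ => (totalDegree_pow _ _).trans (Nat.mul_le_mul_left _
    (le_sup (f := fun p => (ψ p).totalDegree) (mem_univ p)))).trans ?_
  rw [← sum_mul, mul_comm]
  refine Nat.mul_le_mul_left _ ?_
  have : ((∑ p, e p : ℕ) : ℤ) ≤ ∑ g, d g := by
    rw [← hf (mem_support_iff.1 he)]
    simp only [weight_apply']
    rw [sum_comm]
    push_cast
    refine sum_le_sum fun p _ => ?_
    obtain ⟨g, hg⟩ := hw.2 p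
    rw [← mul_sum]
    refine le_mul_of_one_le_right (Nat.cast_nonneg _) (le_trans hg ?_)
    exact single_le_sum (fun g _ => hw.1 p g) (mem_univ g)
  omega

theorem bm_hf {wt : σ → G → ℤ} (hw : PosW wt) {Z : Set (σ → ℚ)} (hZ : Prm Z) :
    ∃ (r K : ℕ) (c : G → ℤ), (∀ a b, 4 ^ r * (hf wt (VI Z) a * hf wt (VI Z) b)
      ≤ hf wt (VI Z) (a + b + c) ^ 2) ∧
      ∀ a, hf wt (VI Z) a ≤ (K * (∑ g, a g).toNat + 1) ^ r := by
  classical
  obtain ⟨U, _, ψ, hψ⟩ := hZ.ker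
  haveI := hw.fin
  choose T h1 h2 using fun d => exists_lm (someOrder U) ((Vd wt d).map (aeval ψ).toLinearMap)
  have e1 : ∀ d, hf wt (VI Z) d = (T d).card := fun d => by
    rw [h1, hf, hq_eq_range, ← Submodule.range_subtype (Vd wt d), ← LinearMap.range_comp,
      Submodule.range_subtype]
    exact le_antisymm (range_le_of_ker_le _ _ fun v hv => by simpa [hψ] using hv)
      (range_le_of_ker_le _ _ fun v hv => by simpa [hψ] using hv)
  let ca : (U →₀ ℕ) → U → ℚ := fun e u => e u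
  have inj : Function.Injective ca := fun e e' h =>
    Finsupp.ext fun u => Nat.cast_injective (R := ℚ) (congrFun h u)
  obtain ⟨r, c, b1, b2⟩ := bm_semigroup (fun d => (T d).image ca)
    (mem_image.2 ⟨0, (h2 0 0).2 ⟨1, ⟨1, isWeightedHomogeneous_one ℚ wt, by simp⟩, one_ne_zero,
      MonomialOrder.degree_one⟩, by funext u; simp [ca]⟩) (by
    intro a b x hx y hy
    obtain ⟨e, he, rfl⟩ := mem_image.1 hx
    obtain ⟨e', he', rfl⟩ := mem_image.1 hy
    obtain ⟨_, ⟨f, hf, rfl⟩, f0, rfl⟩ := (h2 _ _).1 he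
    obtain ⟨_, ⟨g, hg, rfl⟩, g0, rfl⟩ := (h2 _ _).1 he'
    refine mem_image.2 ⟨_, (h2 _ _).2 ⟨_, ⟨f * g, IsWeightedHomogeneous.mul hf hg,
      map_mul (aeval ψ) f g⟩,
      mul_ne_zero f0 g0, MonomialOrder.degree_mul f0 g0⟩, by funext u; simp [ca]⟩)
  simp only [card_image_of_injective _ inj, ← e1] at b1 b2
  refine ⟨r, univ.sup fun p => (ψ p).totalDegree, c, b1, fun a => ?_⟩
  have := b2 a ((range ((univ.sup fun p => (ψ p).totalDegree) * (∑ g, a g).toNat + 1)).image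
    Nat.cast) (nonempty_range_add_one.image _) (by
    intro x hx u
    obtain ⟨e, he, rfl⟩ := mem_image.1 hx
    obtain ⟨_, ⟨f, hf, rfl⟩, f0, rfl⟩ := (h2 _ _).1 he
    refine mem_image.2 ⟨_, mem_range.2 (Nat.lt_succ_of_le ?_), rfl⟩
    exact ((monomial_le_degreeOf u ((someOrder U).degree_mem_support f0)).trans
      (degreeOf_le_totalDegree _ u)).trans (totalDegree_aeval_le ψ hw hf))
  rwa [card_image_of_injective _ Nat.cast_injective, card_range] at this

end Pool.Agent.K9c
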