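import Pool.Agent.Lib.MP_9c9c2f_co.HFin

/-! Chains of sweeps in reciprocal variables. -/

set_option linter.unusedSectionVars false
set_option linter.style.haveILetI false

namespace Pool.Agent.K9c
open MvPolynomial Finset Equiv

variable {n : ℕ}

lemma perm_ind_min {P : Perm (Fin n) → Prop} (h1 : P 1) (hs : ∀ w (i j : Fin n), j.1 = i.1 + 1 →
    w⁻¹ j < w⁻¹ i → (∀ u v, u < v → v ≤ i → w⁻¹ u < w⁻¹ v) → P (swap i j * w) → P w)
    (w : Perm (Fin n)) : P w := by
  induction hk : len w using Nat.strong_induction_on generalizing w with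
  | _ k ih =>
  by_cases h : ∃ i : Fin n, ∃ j : Fin n, j.1 = i.1 + 1 ∧ w⁻¹ j < w⁻¹ i
  · obtain ⟨i, ⟨j, hij, hd⟩, hm⟩ := wellFounded_lt.has_min _ h
    have := len_desc hij hd
    refine hs w i j hij hd ?_ (ih _ (by omega) _ rfl)
    have key : ∀ (d : ℕ) (u v : Fin n), v.1 = u.1 + d + 1 → v ≤ i → w⁻¹ u < w⁻¹ v := by
      intro d
      induction d with
      | zero =>
        intro u v huv hv
        refine lt_of_le_of_ne (not_lt.1 fun hd' => hm u ⟨v, huv, hd'⟩ ?_) fun e => ?_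
        · rw [Fin.lt_def]; rw [Fin.le_def] at hv; omega
        · have := w⁻¹.injective e; rw [this] at huv; omega
      | succ d ihd =>
        intro u v huv hv
        have h2 : u.1 + d + 1 < n := by have := v.2; omega
        refine (ihd u ⟨_, h2⟩ rfl (by rw [Fin.le_def] at hv ⊢; simp only; omega)).trans
          (lt_of_le_of_ne (not_lt.1 fun hd' => hm _ ⟨v, huv, hd'⟩ ?_) fun e => ?_)
        · rw [Fin.lt_def]; rw [Fin.le_def] at hv; simp only; omega
        · have := congrArg Fin.val (w⁻¹.injective e); simp only at this; omega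
    intro u v huv
    exact key (v.1 - u.1 - 1) u v (by rw [Fin.lt_def] at huv; omega)
  · have : ∀ w : Perm (Fin n), (¬ ∃ i : Fin n, ∃ j : Fin n, j.1 = i.1 + 1 ∧ w⁻¹ j < w⁻¹ i) →
        w = 1 := fun w => perm_ind (P := fun w => (¬ ∃ i : Fin n, ∃ j : Fin n, j.1 = i.1 + 1 ∧
          w⁻¹ j < w⁻¹ i) → w = 1) (fun _ => rfl)
        (fun w i j hij hl _ h => absurd ⟨i, j, hij, desc_of_lt hij hl⟩ h) w
    rwa [this w h]

/-- Laurent polynomials. -/
abbrev Lau (n : ℕ) := AddMonoidAlgebra ℤ (Fin n → ℤ)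

/-- Laurent monomials. -/
noncomputable def mn (μ : Fin n → ℤ) : Lau n := AddMonoidAlgebra.single μ 1

lemma mn_add (μ ν : Fin n → ℤ) : mn (μ + ν) = mn μ * mn ν := by
  simp [mn, AddMonoidAlgebra.single_mul_single]

lemma mn_zero : mn (0 : Fin n → ℤ) = 1 := rfl

lemma mn_sum {ι : Type} (s : Finset ι) (μ : ι → Fin n → ℤ) :
    mn (∑ i ∈ s, μ i) = ∏ i ∈ s, mn (μ i) := by
  classical
  induction s using Finset.induction_on with
  | empty => simp [mn_zero]
  | insert i s hi ih => rw [sum_insert hi, prod_insert hi, mn_add, ih]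

lemma mn_nsmul (k : ℕ) (μ : Fin n → ℤ) : mn (k • μ) = mn μ ^ k := by
  rw [← card_range k, ← sum_const, mn_sum, prod_const]

lemma mn_ne {i j : Fin n} (h : i ≠ j) : mn (Pi.single i 1) - mn (Pi.single j 1) ≠ 0 := by
  refine sub_ne_zero.2 fun e => ?_
  have := congrFun (AddMonoidAlgebra.single_left_injective one_ne_zero e) i
  simp [h] at this

/-- Evaluation at reciprocal variables. -/
noncomputable def evr (ω : Bool → Perm (Fin n)) : MvPolynomial (Gv n) ℤ →+* Lau n :=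
  eval₂Hom (Int.castRingHom _)
    (Sum.elim (fun p => mn (-Pi.single (ω p.1 p.2.rev) 1)) fun j => -mn (-Pi.single j.rev 1))

lemma evr_l (ω : Bool → Perm (Fin n)) (β : Bool) (k : Fin n) :
    evr ω (X (Sum.inl (β, k))) = mn (-Pi.single (ω β k.rev) 1) := by simp [evr]

lemma evr_r (ω : Bool → Perm (Fin n)) (k : Fin n) :
    evr ω (X (Sum.inr k)) = -mn (-Pi.single k.rev 1) := by simp [evr]

lemma evr_swap (ω : Bool → Perm (Fin n)) (β : Bool) (i j : Fin n) (P : MvPolynomial (Gv n) ℤ) :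
    evr (Function.update ω β (ω β * swap i j)) P
      = evr ω (rename (swap (Sum.inl (β, i.rev)) (Sum.inl (β, j.rev))) P) := by
  refine hom_ext' (φ := evr (Function.update ω β (ω β * swap i j))) (ψ := (evr ω).comp
    (rename (swap (Sum.inl (β, i.rev) : Gv n) (Sum.inl (β, j.rev)))).toRingHom) ?_ P
  rintro (⟨β', k⟩ | k)
  · simp only [RingHom.comp_apply, AlgHom.toRingHom_eq_coe, RingHom.coe_coe, rename_X]
    by_cases h : β' = β
    · subst h
      have inj : Function.Injective fun k : Fin n => (Sum.inl (β', k.rev) : Gv n) :=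
        fun a b h => by simpa using h
      have := inj.swap_apply i j k.rev
      simp only [Fin.rev_rev] at this
      rw [this, evr_l, evr_l]; simp
    · rw [swap_apply_of_ne_of_ne (by simp [h]) (by simp [h]), evr_l, evr_l,
        Function.update_of_ne h]
  · simp [swap_apply_of_ne_of_ne, evr_r]

/-- Realisable classes, with any number of columns. -/
def GeoA (P : MvPolynomial (Gv n) ℤ) : Prop :=
  ∃ (κ : Type) (_ : Fintype κ) (_ : DecidableEq κ) (lb : κ → Bool), GeoK lb P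

lemma GeoA.col {P : MvPolynomial (Gv n) ℤ} (h : GeoA P) (β : Bool) (k e : ℕ) :
    GeoA ((∏ i ∈ univ.filter (fun i : Fin n => i.1 < k), X (Sum.inl (β, i))) ^ e * P) := by
  induction e with
  | zero => simpa using h
  | succ e ih =>
    obtain ⟨κ, _, _, lb, h⟩ := ih
    rw [pow_succ', mul_assoc]
    exact ⟨_, _, _, _, h.col β k⟩

open Classical in
/-- Indicator that the value `k` has a smaller value to its right. -/
noncomputable def sm (w : Perm (Fin n)) (k : Fin n) : ℤ :=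
  if ∃ v, v < k ∧ w⁻¹ k < w⁻¹ v then 1 else 0

lemma sm_nonneg (w : Perm (Fin n)) (k : Fin n) : 0 ≤ sm w k := by
  unfold sm; split_ifs <;> norm_num

lemma sm_le (w : Perm (Fin n)) (k : Fin n) : sm w k ≤ 1 := by
  unfold sm; split_ifs <;> norm_num

lemma comp_inv_single (σ : Perm (Fin n)) (i : Fin n) :
    (Pi.single i 1 : Fin n → ℤ) ∘ ⇑σ⁻¹ = Pi.single (σ i) 1 := by
  funext k; simp [Pi.single_apply, Equiv.symm_apply_eq]

lemma GeoA.sweep (β : Bool) {T₀ T₁ c : (Bool → Perm (Fin n)) → Lau n}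
    (hc : ∀ ω s, c (Function.update ω β s) = c ω) {i j : Fin n} (hij : j.1 = i.1 + 1)
    (hT : ∀ ω, (mn (Pi.single (ω β i) 1) - mn (Pi.single (ω β j) 1)) * T₁ ω
      = T₀ ω - T₀ (Function.update ω β (ω β * swap i j)))
    {ν : Fin n → ℤ} {P : MvPolynomial (Gv n) ℤ} (g1 : GeoA P)
    (g2 : ∀ ω, T₀ ω = c ω * mn (ν ∘ ⇑(ω β)⁻¹) * evr ω P) {e : ℕ} (he : ν i - ν j = e) :
    ∃ P', GeoA P' ∧ ∀ ω, T₁ ω = c ω * mn (((fun k => ν k + if j ≤ k then (e : ℤ) else 0)
      - Pi.single i 1 - Pi.single j 1) ∘ ⇑(ω β)⁻¹) * evr ω P' := by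
  have hlt : i < j := by rw [Fin.lt_def]; omega
  obtain ⟨κ, _, _, lb, g4⟩ := g1.col β (j.rev.1 + 1) e
  obtain ⟨P', g5, g6⟩ := g4.step β (b := j.rev) (a := i.rev) (by
    have := j.2; simp only [Fin.val_rev]; omega)
  set ν' : Fin n → ℤ := fun k => ν k + if j ≤ k then (e : ℤ) else 0 with hν'
  refine ⟨P', ⟨_, _, _, _, g5⟩, fun ω => ?_⟩
  have col : ∀ ω : Bool → Perm (Fin n), mn (ν ∘ ⇑(ω β)⁻¹) * evr ω P = mn (ν' ∘ ⇑(ω β)⁻¹) *
      evr ω ((∏ i ∈ univ.filter (fun i : Fin n => i.1 < j.rev.1 + 1),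
        X (Sum.inl (β, i))) ^ e * P) := fun ω => by
    simp only [map_mul, map_pow, map_prod, evr_l]
    rw [← mn_sum, ← mn_nsmul, ← mul_assoc, ← mn_add]
    congr 2
    funext k
    obtain ⟨k, rfl⟩ := (ω β).surjective k
    obtain ⟨k, rfl⟩ := Fin.rev_surjective k
    have : j ≤ k.rev ↔ k.1 < j.rev.1 + 1 := by
      have := j.2; have := k.2; simp only [Fin.le_def, Fin.val_rev]; omega
    simp [hν', Finset.sum_apply, Pi.single_apply, this]
  have sy : ν' ∘ ⇑(ω β * swap i j)⁻¹ = ν' ∘ ⇑(ω β)⁻¹ := by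
    funext k
    simp only [mul_inv_rev, swap_inv, Function.comp_apply, Perm.mul_apply]
    exact apply_swap_eq_self (by simp only [hν', hlt.not_ge, le_rfl, if_true, if_false]; omega) _
  refine mul_left_cancel₀ (mn_ne ((ω β).injective.ne hlt.ne)) ?_
  rw [hT, g2, g2, hc, mul_assoc, mul_assoc, col, col, evr_swap,
    Function.update_self, sy, ← mul_sub, ← mul_sub, ← map_sub, ← g6, map_mul, map_sub, evr_l,
    evr_l, Fin.rev_rev, Fin.rev_rev, Pi.sub_comp, Pi.sub_comp, comp_inv_single, comp_inv_single,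
    sub_eq_add_neg (ν' ∘ _ - _), sub_eq_add_neg (ν' ∘ _), mn_add, mn_add]
  have u : ∀ k : Fin n, mn (Pi.single k 1) * mn (-Pi.single k 1) = 1 := fun k => by
    rw [← mn_add, add_neg_cancel, mn_zero]
  linear_combination (c ω * mn (ν' ∘ ⇑(ω β)⁻¹) * evr ω P') *
    (mn (-Pi.single (ω β i) 1) * u (ω β j) - mn (-Pi.single (ω β j) 1) * u (ω β i))

lemma sm_step {w : Perm (Fin n)} {i j : Fin n} (hij : j.1 = i.1 + 1) (hd : w⁻¹ j < w⁻¹ i)
    (hm : ∀ u v, u < v → v ≤ i → w⁻¹ u < w⁻¹ v) :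
    (∀ k, k < i → sm (swap i j * w) k = 0) ∧ sm (swap i j * w) j = 0 ∧ sm w j = 1 ∧
      ∀ k, k ≠ i → k ≠ j → sm (swap i j * w) k ≤ sm w k := by
  have hlt : i < j := by rw [Fin.lt_def]; omega
  have inv : ∀ k, (swap i j * w)⁻¹ k = w⁻¹ (swap i j k) := fun k => by simp
  refine ⟨fun k hk => if_neg ?_, if_neg ?_, if_pos ⟨i, hlt, hd⟩, fun k h1 h2 => ?_⟩
  · rintro ⟨v, hv, h⟩
    rw [inv, inv, swap_apply_of_ne_of_ne hk.ne (hk.trans hlt).ne,
      swap_apply_of_ne_of_ne (hv.trans hk).ne ((hv.trans hk).trans hlt).ne] at h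
    exact absurd (hm v k hv hk.le) h.not_gt
  · rintro ⟨v, hv, h⟩
    rw [inv, inv, swap_apply_right] at h
    by_cases e : v = i
    · rw [e, swap_apply_left] at h; exact absurd hd h.not_gt
    · rw [swap_apply_of_ne_of_ne e hv.ne] at h
      refine absurd (hm v i ?_ le_rfl) h.not_gt
      simp only [Fin.lt_def, Fin.ext_iff] at hv e ⊢; omega
  · unfold sm
    split_ifs with a b
    · rfl
    · obtain ⟨v, hv, h⟩ := a
      rw [inv, inv, swap_apply_of_ne_of_ne h1 h2] at h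
      refine absurd ⟨_, ?_, h⟩ b
      simp only [swap_apply_def, Fin.lt_def, Fin.ext_iff, ne_eq] at hv h1 h2 ⊢
      split_ifs <;> omega
    all_goals norm_num

theorem chain (β : Bool) (T : Perm (Fin n) → (Bool → Perm (Fin n)) → Lau n)
    (c : (Bool → Perm (Fin n)) → Lau n) (hc : ∀ ω s, c (Function.update ω β s) = c ω)
    (hT : ∀ w (i j : Fin n), j.1 = i.1 + 1 → len (swap i j * w) < len w → ∀ ω,
      (mn (Pi.single (ω β i) 1) - mn (Pi.single (ω β j) 1)) * T w ω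
        = T (swap i j * w) ω - T (swap i j * w) (Function.update ω β (ω β * swap i j)))
    {ν₀ : Fin n → ℤ} {P₀ : MvPolynomial (Gv n) ℤ} (h0 : GeoA P₀)
    (h1 : ∀ ω, T 1 ω = c ω * mn (ν₀ ∘ ⇑(ω β)⁻¹) * evr ω P₀)
    (h2 : ∀ i j : Fin n, j.1 = i.1 + 1 → 1 ≤ ν₀ i - ν₀ j) (w : Perm (Fin n)) :
    ∃ (ν : Fin n → ℤ) (P : MvPolynomial (Gv n) ℤ), GeoA P ∧
      (∀ ω, T w ω = c ω * mn (ν ∘ ⇑(ω β)⁻¹) * evr ω P) ∧
      ∀ i j : Fin n, j.1 = i.1 + 1 → 1 - sm w j - sm w i ≤ ν i - ν j := by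
  induction w using perm_ind_min with
  | h1 =>
    refine ⟨ν₀, P₀, h0, h1, fun i j hij => ?_⟩
    have := h2 i j hij
    have := sm_nonneg 1 i
    have := sm_nonneg 1 j
    omega
  | hs w i j hij hd hm ih =>
  have hlt : i < j := by rw [Fin.lt_def]; omega
  obtain ⟨ν, P, g1, g2, g3⟩ := ih
  obtain ⟨s0, s1, s2, s3⟩ := sm_step hij hd hm
  obtain ⟨e, he⟩ : ∃ e : ℕ, ν i - ν j = e := by
    have := g3 i j hij
    have := sm_le (swap i j * w) i
    exact ⟨(ν i - ν j).toNat, by omega⟩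
  have l1 := len_desc hij hd
  obtain ⟨P', g5, g6⟩ := g1.sweep β hc hij (hT w i j hij (by omega)) g2 he
  refine ⟨_, P', g5, g6, fun k l hkl => ?_⟩
  have a1 := g3 k l hkl
  have a2 := s3 k
  have a3 := s3 l
  have a4 := s0 k
  have a5 := sm_nonneg w k
  have a6 := sm_nonneg w l
  have a7 := sm_le (swap i j * w) l
  simp only [Pi.sub_apply, Pi.single_apply]
  by_cases c1 : k = i
  · have : l = j := Fin.ext (by rw [hkl, hij, c1])
    subst c1 this
    simp only [hlt.not_ge, le_rfl, if_true, if_false, hlt.ne, hlt.ne']; omega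
  by_cases c2 : k = j
  · subst c2
    simp only [Fin.le_def, Fin.ext_iff, ne_eq] at *
    split_ifs <;> omega
  · simp only [Fin.le_def, Fin.lt_def, Fin.ext_iff, ne_eq] at *
    split_ifs <;> omega

lemma len_inv (w : Perm (Fin n)) : len w⁻¹ = len w := by
  refine card_nbij' (fun p => (w⁻¹ p.2, w⁻¹ p.1)) (fun p => (w p.2, w p.1)) ?_ ?_ ?_ ?_
  · intro p hp
    simpa [mem_invs, and_comm] using mem_invs.1 hp
  · intro p hp
    simpa [mem_invs, and_comm] using mem_invs.1 hp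
  · intro p _; simp
  · intro p _; simp

/-- The chain read from its first step. -/
theorem chain_rev {K : Type} (β : Bool) (T : Perm (Fin n) → K → K)
    (ev : K → (Bool → Perm (Fin n)) → Lau n) (c : (Bool → Perm (Fin n)) → Lau n)
    (hc : ∀ ω s, c (Function.update ω β s) = c ω) (h1 : ∀ g, T 1 g = g)
    (hT : ∀ g (i j : Fin n), j.1 = i.1 + 1 → ∀ ω,
      (mn (Pi.single (ω β i) 1) - mn (Pi.single (ω β j) 1)) * ev (T (swap i j) g) ω
        = ev g ω - ev g (Function.update ω β (ω β * swap i j)))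
    (hm : ∀ g w (i j : Fin n), j.1 = i.1 + 1 → len (w * swap i j) = len w + 1 →
      T (w * swap i j) g = T w (T (swap i j) g)) (w : Perm (Fin n)) :
    ∀ (g : K) (ν : Fin n → ℤ) (P : MvPolynomial (Gv n) ℤ), GeoA P →
      (∀ ω, ev g ω = c ω * mn (ν ∘ ⇑(ω β)⁻¹) * evr ω P) →
      (∀ i j : Fin n, j.1 = i.1 + 1 → (∃ k ≤ i, i < w⁻¹ k) → sm w i + sm w j ≤ ν i - ν j + 1) →
      ∃ (ν : Fin n → ℤ) (P : MvPolynomial (Gv n) ℤ), GeoA P ∧
        ∀ ω, ev (T w⁻¹ g) ω = c ω * mn (ν ∘ ⇑(ω β)⁻¹) * evr ω P := by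
  induction w using perm_ind_min with
  | h1 => exact fun g ν P g1 g2 _ => ⟨ν, P, g1, by rwa [inv_one, h1]⟩
  | hs w i j hij hd hmin ih =>
  intro g ν P g1 g2 g3
  have hlt : i < j := by rw [Fin.lt_def]; omega
  have pres : ∀ (u : Perm (Fin n)) (l : Fin n), (∀ k ≤ l, u k ≤ l) → ∀ k ≤ l, u⁻¹ k ≤ l := by
    intro u l hu k hk
    have s1 : (Iic l).image u = Iic l := eq_of_subset_of_card_le (fun x hx => by
      obtain ⟨k, hk, rfl⟩ := mem_image.1 hx
      exact mem_Iic.2 (hu k (mem_Iic.1 hk))) (by rw [card_image_of_injective _ u.injective])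
    obtain ⟨k', hk', e⟩ := mem_image.1 (show k ∈ (Iic l).image u by rw [s1]; simpa using hk)
    rw [← e]; simpa using hk'
  have hI : ∃ k ≤ i, i < w⁻¹ k := by
    by_contra h
    push Not at h
    have := pres _ i h (w⁻¹ j) (hd.le.trans (h i le_rfl))
    exact absurd hlt (by simpa using this)
  obtain ⟨s0, s1, s2, s3⟩ := sm_step hij hd hmin
  obtain ⟨e, he⟩ : ∃ e : ℕ, ν i - ν j = e := by
    have := g3 i j hij hI
    have := sm_nonneg w i
    exact ⟨(ν i - ν j).toNat, by omega⟩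
  obtain ⟨P', g5, g6⟩ := g1.sweep β hc hij (hT g i j hij) g2 he
  have l1 := len_desc hij hd
  have e1 : w⁻¹ = (swap i j * w)⁻¹ * swap i j := by simp [mul_assoc]
  rw [e1, hm _ _ i j hij (by rw [← e1, len_inv, len_inv, l1])]
  refine ih _ _ P' g5 g6 fun k l hkl hk => ?_
  simp only [Pi.sub_apply, Pi.single_apply]
  have a7 := sm_le (swap i j * w) l
  have a8 := sm_le (swap i j * w) k
  by_cases c1 : k = i
  · have : l = j := Fin.ext (by rw [hkl, hij, c1])
    subst c1 this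
    simp only [hlt.not_ge, le_rfl, if_true, if_false, hlt.ne, hlt.ne']; omega
  have a1 := g3 k l hkl (by
    obtain ⟨m, hm, h⟩ := hk
    refine ⟨swap i j m, ?_, by simpa using h⟩
    simp only [swap_apply_def, Fin.le_def, Fin.ext_iff] at hm c1 ⊢
    split_ifs <;> omega)
  have a2 := s3 k
  have a3 := s3 l
  have a4 := s0 k
  have a5 := sm_nonneg w k
  have a6 := sm_nonneg w l
  by_cases c2 : k = j
  · subst c2
    simp only [Fin.le_def, Fin.ext_iff, ne_eq] at *
    split_ifs <;> omega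
  · simp only [Fin.le_def, Fin.lt_def, Fin.ext_iff, ne_eq] at *
    split_ifs <;> omega

end Pool.Agent.K9c
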