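import Pool.Agent.Lib.MP_9c9c2f_co.HVol

/-! Products with coordinate spaces, cuts by homogeneous elements, saturations. -/

set_option linter.unusedSectionVars false
set_option linter.style.haveILetI false

namespace Pool.Agent.K9c
open MvPolynomial Finset Filter Topology Module

variable {σ σ' G G' : Type} [Fintype σ] [DecidableEq σ] [Fintype σ'] [DecidableEq σ']
  [Fintype G] [DecidableEq G] [Fintype G']

lemma ser_cut {wt : σ → G → ℤ} (hw : PosW wt) {I : Ideal (MvPolynomial σ ℚ)} (hp : I.IsPrime)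
    (hI : Homog wt I) {t : MvPolynomial σ ℚ} {e : G → ℤ} (ht : t ∈ Vd wt e) (htI : t ∉ I)
    {L : G → ℝ} (hL : ∀ g, 0 < L g) {ε : ℝ} (hε : 0 < ε) :
    ser (hf wt (I ⊔ Ideal.span {t})) (ε • L)
      = (Real.exp (-(ε * 0)) - Real.exp (-(ε * dot L e))) * ser (hf wt I) (ε • L) := by
  have e : ser (hf wt I) (ε • L) = ser (hf wt (I ⊔ Ideal.span {t})) (ε • L) +
      Real.exp (-(ε * dot L e)) * ser (hf wt I) (ε • L) := by
    rw [← dot_smul, ← ser_shift, ← ser_add (sm_hf hw (hI.sup_span ht)) ((sm_hf hw hI).shift _)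
      (smul_pos' hL hε)]
    congr 1
    exact funext (hf_cut' hw.fin hp hI ht htI)
  rw [mul_zero, neg_zero, Real.exp_zero, eq_sub_of_add_eq e.symm]; ring

lemma MD.cut' {wt : σ → G → ℤ} (hw : PosW wt) {I : Ideal (MvPolynomial σ ℚ)} (hp : I.IsPrime)
    (hI : Homog wt I) {D : ℤ} {C : MvPolynomial G ℤ} (h : MD wt I D C) {t : MvPolynomial σ ℚ}
    {e : G → ℤ} (ht : t ∈ Vd wt e) (htI : t ∉ I) :
    MD wt (I ⊔ Ideal.span {t}) (D - 1) (lin e * C) := by
  intro L hL
  have a := (tendsto_slope 0 (dot L e)).mul (h L hL)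
  rw [sub_zero, ← mul_div_assoc, ← rv_lin, ← map_mul] at a
  refine a.congr' ?_
  filter_upwards [self_mem_nhdsWithin] with ε hε
  have hε' : (0 : ℝ) < ε := hε
  rw [rv_lin, zpow_sub_one₀ hε'.ne', ser_cut hw hp hI ht htI hL hε']
  field_simp

lemma MD.uncut {wt : σ → G → ℤ} (hw : PosW wt) {I : Ideal (MvPolynomial σ ℚ)} (hp : I.IsPrime)
    (hI : Homog wt I) {D : ℤ} {C : MvPolynomial G ℤ} {p : σ} (hX : X p ∉ I)
    (h : MD wt (I ⊔ Ideal.span {X p}) D (lin (wt p) * C)) : MD wt I (D + 1) C := by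
  intro L hL
  have h0 := hw.dot_pos hL p
  have a := (h L hL).div (tendsto_slope 0 (dot L (wt p))) (by simpa using h0.ne')
  rw [sub_zero, map_mul, rv_lin, mul_div_assoc, mul_div_cancel_left₀ _ h0.ne'] at a
  refine a.congr' ?_
  filter_upwards [self_mem_nhdsWithin] with ε hε
  have hε' : (0 : ℝ) < ε := hε
  have hne : Real.exp (-(ε * 0)) - Real.exp (-(ε * dot L (wt p))) ≠ 0 := fun e0 =>
    h0.ne (mul_left_cancel₀ hε'.ne' (neg_injective (Real.exp_injective (sub_eq_zero.1 e0))))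
  rw [Pi.div_apply, ser_cut hw hp hI (isWeightedHomogeneous_X ℚ wt p) hX hL hε',
    zpow_add_one₀ hε'.ne']
  field_simp

lemma MD.sat' {wt : σ → G → ℤ} (hw : PosW wt) {K I₁ : Ideal (MvPolynomial σ ℚ)}
    (hK : Homog wt K) (hI : Homog wt I₁) (hle : K ≤ I₁) (S : Finset σ)
    (hsat : ∀ q ∈ S, ∀ f ∈ I₁, ∃ k : ℕ, X q ^ k * f ∈ K) {D : ℤ} {C : MvPolynomial G ℤ}
    (h : MD wt K D C) : ∃ C₁, MD wt I₁ D C₁ ∧ ∏ q ∈ S, lin (wt q) ∣ C - C₁ := by
  classical
  set m := someOrder σ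
  obtain ⟨N₁, hN₁⟩ := exists_stab m K
  obtain ⟨N₂, hN₂⟩ := exists_stab m I₁
  have s1 := hN₁ (max N₁ N₂) (le_max_left _ _)
  have s2 := hN₂ (max N₁ N₂) (le_max_right _ _)
  set N := max N₁ N₂
  have sub : cells m I₁ N ⊆ cells m K N := fun p hp =>
    mem_cells.2 ⟨(mem_cells.1 hp).1, std_anti hle (mem_cells.1 hp).2⟩
  refine ⟨_, md_cellPoly hw hI s2 fun p hp => h.card_le hw hK s1 p (sub hp), ?_⟩
  rw [h.eq_cellPoly hw hK s1, cellPoly, cellPoly,
    ← sum_sdiff (filter_subset_filter _ sub), add_sub_cancel_right]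
  refine dvd_sum fun p hp => prod_dvd_prod_of_subset _ _ _ fun q hqS => mem_compl.2 fun hq => ?_
  obtain ⟨h1, h2⟩ := mem_sdiff.1 hp
  obtain ⟨h3, h4⟩ := mem_filter.1 h1
  refine h2 (mem_filter.2 ⟨mem_cells.2 ⟨(mem_cells.1 h3).1, fun f hf h0 hd => ?_⟩, h4⟩)
  obtain ⟨k, hk⟩ := hsat q hqS f hf
  have hX : (X q ^ k : MvPolynomial σ ℚ) ≠ 0 := pow_ne_zero _ (X_ne_zero q)
  refine s1 (Finsupp.single q k + p) ?_ _ hk (mul_ne_zero hX h0) ?_
  · refine std_lower (mem_cells.1 h3).2 fun q' => ?_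
    by_cases hq' : q' = q
    · subst hq'; rw [mem_free.1 hq]; exact inf_le_right (a := Finsupp.single q' k + p) (b := top N) q'
    · simp [Finsupp.single_eq_of_ne hq']
  · rw [MonomialOrder.degree_mul hX h0, hd, X_pow_eq_monomial, MonomialOrder.degree_monomial,
      if_neg one_ne_zero]

lemma MD.dvd_of_mem' {wt : σ → G → ℤ} (hw : PosW wt) {I : Ideal (MvPolynomial σ ℚ)}
    (hI : Homog wt I) (S : Finset σ) (hq : ∀ q ∈ S, X q ∈ I) {D : ℤ} {C : MvPolynomial G ℤ}
    (h : MD wt I D C) : ∏ q ∈ S, lin (wt q) ∣ C := by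
  have hT : Homog wt ⊤ := fun _ _ _ => trivial
  obtain ⟨C₁, h1, h2⟩ := h.sat' hw hI hT le_top S
    fun q hqS f _ => ⟨1, by rw [pow_one]; exact I.mul_mem_right _ (hq q hqS)⟩
  obtain ⟨N, hN⟩ := exists_stab (someOrder σ) ⊤
  have hc : cells (someOrder σ) (⊤ : Ideal (MvPolynomial σ ℚ)) N = ∅ := by
    refine eq_empty_of_forall_notMem fun p hp => (mem_cells.1 hp).2 (monomial p 1) trivial
      (by simp) ?_
    rw [MonomialOrder.degree_monomial, if_neg one_ne_zero]
  rwa [h1.eq_cellPoly hw hT (hN N le_rfl), cellPoly, hc, filter_empty, sum_empty, sub_zero] at h2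

lemma MD.regrade' {wt : σ → G → ℤ} {wt' : σ → G' → ℤ} (hw : PosW wt) (hw' : PosW wt')
    {I : Ideal (MvPolynomial σ ℚ)} (hI : Homog wt I) (hI' : Homog wt' I)
    (κ : MvPolynomial G ℤ →+* MvPolynomial G' ℤ) (hκ : ∀ q, κ (lin (wt q)) = lin (wt' q)) {D : ℤ}
    {C : MvPolynomial G ℤ} (h : MD wt I D C) : MD wt' I D (κ C) := by
  obtain ⟨N, hN⟩ := exists_stab (someOrder σ) I
  have := md_cellPoly hw' hI' (hN N le_rfl) (h.card_le hw hI (hN N le_rfl))
  rw [h.eq_cellPoly hw hI (hN N le_rfl)]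
  simpa only [cellPoly, map_sum, map_prod, hκ] using this

lemma upd_rat (p₀ q₀ : σ) (t f : MvPolynomial σ ℚ) :
    ∃ (N : ℕ) (P : MvPolynomial σ ℚ), (∀ z : σ → ℚ, z q₀ ≠ 0 →
      eval (Function.update z p₀ (z p₀ - eval z t / z q₀)) f * z q₀ ^ N = eval z P) ∧
      P - X q₀ ^ N * f ∈ Ideal.span {t} := by
  induction f using MvPolynomial.induction_on with
  | C a => exact ⟨0, C a, fun z _ => by simp, by simp⟩
  | add f g hf hg =>
    obtain ⟨N, P, h1, h2⟩ := hf
    obtain ⟨N', P', h1', h2'⟩ := hg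
    refine ⟨N + N', P * X q₀ ^ N' + P' * X q₀ ^ N, fun z hz => ?_, ?_⟩
    · simp only [map_add, map_mul, map_pow, eval_X, ← h1 z hz, ← h1' z hz]; ring
    · convert Ideal.add_mem _ (Ideal.mul_mem_right (X q₀ ^ N') _ h2)
        (Ideal.mul_mem_right (X q₀ ^ N) _ h2') using 1
      ring
  | mul_X f p hf =>
    obtain ⟨N, P, h1, h2⟩ := hf
    refine ⟨N + 1, P * (X q₀ * X p - if p = p₀ then t else 0), fun z hz => ?_, ?_⟩
    · rw [map_mul, map_mul, ← h1 z hz, eval_X]
      split_ifs with hp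
      · subst hp
        simp only [map_sub, map_mul, eval_X, Function.update_self]; field_simp; ring
      · simp [Function.update_of_ne hp]; ring
    · have : (if p = p₀ then t else 0 : MvPolynomial σ ℚ) ∈ Ideal.span {t} := by
        split_ifs
        exacts [Ideal.mem_span_singleton_self _, Ideal.zero_mem _]
      convert Ideal.sub_mem _ (Ideal.mul_mem_right (X q₀ * X p) _ h2)
        (Ideal.mul_mem_left _ P this) using 1
      ring

lemma VI_cut {Z W : Set (σ → ℚ)} {p : σ} (h1 : W ⊆ Z) (h2 : ∀ z ∈ W, z p = 0)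
    (h3 : ∀ z ∈ Z, Function.update z p 0 ∈ W) : VI W = VI Z ⊔ Ideal.span {X p} := by
  refine le_antisymm (fun f hf => ?_) (sup_le (VI_anti h1)
    ((Ideal.span_singleton_le_iff_mem _).2 fun z hz => by rw [eval_X]; exact h2 z hz))
  have a : ∀ f : MvPolynomial σ ℚ, ∃ P, (∀ z, eval (Function.update z p 0) f = eval z P) ∧
      f - P ∈ Ideal.span {(X p : MvPolynomial σ ℚ)} := by
    intro f
    induction f using MvPolynomial.induction_on with
    | C a => exact ⟨C a, by simp, by simp⟩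
    | add f g hf hg =>
      obtain ⟨P, h1, h2⟩ := hf
      obtain ⟨P', h1', h2'⟩ := hg
      exact ⟨P + P', fun z => by simp [h1, h1'], by
        convert Ideal.add_mem _ h2 h2' using 1; ring⟩
    | mul_X f q hf =>
      obtain ⟨P, h1, h2⟩ := hf
      by_cases hq : q = p
      · subst hq
        exact ⟨0, by simp, by
          rw [sub_zero]; exact Ideal.mul_mem_left _ _ (Ideal.mem_span_singleton_self _)⟩
      · exact ⟨P * X q, fun z => by simp [h1, Function.update_of_ne hq], by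
          convert Ideal.mul_mem_right (X q) _ h2 using 1; ring⟩
  obtain ⟨P, e1, e2⟩ := a f
  have hP : P ∈ VI Z := fun z hz => by rw [← e1]; exact hf _ (h3 z hz)
  have := Submodule.add_mem_sup hP e2
  rwa [add_sub_cancel] at this

/-- Product of `Z` with the coordinate space on the new variables where those in `K` vanish. -/
def ex (ι : σ → σ') (K : Finset σ') (Z : Set (σ → ℚ)) : Set (σ' → ℚ) :=
  {y | y ∘ ι ∈ Z ∧ ∀ q ∈ K, y q = 0}

variable {ι : σ → σ'} {Z : Set (σ → ℚ)}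

lemma ex_prm (hι : Function.Injective ι) (hZ : Prm Z) {K : Finset σ'} (hK : ∀ p, ι p ∉ K) :
    Prm (ex ι K Z) := by
  have := hZ.image2 (fun z (c : σ' → ℚ) => Function.extend ι z fun q => if q ∈ K then 0 else c q)
    fun q => by
      by_cases hq : ∃ p, ι p = q
      · obtain ⟨p, rfl⟩ := hq
        simp only [hι.extend_apply]; exact IsPoly.coord _
      · simp only [Function.extend_apply' _ _ _ hq]
        exact IsPoly.ite _ (IsPoly.const 0) (IsPoly.coord _)
  convert this using 1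
  ext y
  constructor
  · rintro ⟨h1, h2⟩
    refine ⟨_, h1, y, funext fun q => ?_⟩
    by_cases hq : ∃ p, ι p = q
    · obtain ⟨p, rfl⟩ := hq
      simp [hι.extend_apply]
    · rw [Function.extend_apply' _ _ _ hq]
      split_ifs with h
      exacts [h2 q h, rfl]
  · rintro ⟨z, hz, c, rfl⟩
    refine ⟨by rwa [Function.extend_comp hι], fun q hq => ?_⟩
    rw [Function.extend_apply' _ _ _ fun ⟨p, hp⟩ => hK p (hp ▸ hq), if_pos hq]

lemma ex_torSt {wt : σ' → G → ℤ} (hT : TorSt (wt ∘ ι) Z) (K : Finset σ') :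
    TorSt wt (ex ι K Z) := fun t y hy =>
  ⟨hT t _ hy.1, fun q hq => by rw [tor, hy.2 q hq, mul_zero]⟩

lemma ex_hf (hι : Function.Injective ι) {wt : σ' → G → ℤ} (hw : PosW wt) (d : G → ℤ) :
    hf wt (VI (ex ι (univ.image ι)ᶜ Z)) d = hf (wt ∘ ι) (VI Z) d := by
  have hw' : PosW (wt ∘ ι) := ⟨fun p => hw.1 _, fun p => hw.2 _⟩
  haveI := hw.fin
  haveI := hw'.fin
  have mem : ∀ z ∈ Z, Function.extend ι z 0 ∈ ex ι (univ.image ι)ᶜ Z := fun z hz =>
    ⟨by rwa [Function.extend_comp hι], fun q hq => by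
      rw [Function.extend_apply' _ _ _ (by simpa using hq)]; rfl⟩
  apply le_antisymm
  · refine hq_le_of_inj (killCompl hι).toLinearMap (fun f hf e he => ?_) fun f h0 hf y hy => ?_
    · rw [AlgHom.toLinearMap_apply, coeff_killCompl] at he
      rw [← hf he, Finsupp.weight_apply, Finsupp.weight_apply,
        Finsupp.sum_mapDomain_index (by simp) (by simp [add_smul])]
      rfl
    · rw [← hf _ hy.1, AlgHom.toLinearMap_apply]
      clear hf h0
      induction f using MvPolynomial.induction_on with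
      | C a => simp
      | add f g hf hg => simp only [map_add, hf, hg]
      | mul_X f q hf =>
        simp only [map_mul, hf, eval_X]
        congr 1
        by_cases hq : ∃ p, ι p = q
        · obtain ⟨p, rfl⟩ := hq
          rw [← rename_X ι, killCompl_rename_app, eval_X]; rfl
        · rw [hy.2 q (by simpa using hq), killCompl, aeval_X, dif_neg (show q ∉ Set.range ι from hq),
            map_zero]
  · refine hq_le_of_inj (rename ι).toLinearMap (fun f hf => ?_) fun f _ hf z hz => ?_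
    · exact rename_mem (wt' := wt) ι (AddMonoidHom.id _) (fun _ => rfl) hf
    · have := hf _ (mem z hz)
      rwa [AlgHom.toLinearMap_apply, eval_rename, Function.extend_comp hι] at this

lemma ex_md (hι : Function.Injective ι) {wt : σ' → G → ℤ} (hw : PosW wt) (hZ : Prm Z)
    (hT : TorSt (wt ∘ ι) Z) {D : ℤ} {C : MvPolynomial G ℤ} (h : MD (wt ∘ ι) (VI Z) D C)
    {K : Finset σ'} (hK : ∀ p, ι p ∉ K) :
    ∃ D', MD wt (VI (ex ι K Z)) D' ((∏ q ∈ K, lin (wt q)) * C) := by
  induction K using WellFoundedGT.induction with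
  | ind K ih =>
  by_cases hc : K = (univ.image ι)ᶜ
  · refine ⟨D, fun L hL => ?_⟩
    have := h L hL
    rw [← funext (ex_hf (Z := Z) hι hw), ← hc] at this
    convert this using 1
    rw [← prod_mul_prod_compl (univ.image ι), prod_image fun _ _ _ _ e => hι e, ← hc, map_mul,
      map_prod, mul_comm]
    simp only [rv_lin]
    exact mul_div_mul_right _ _ (prod_pos fun q _ => hw.dot_pos hL q).ne'
  obtain ⟨p, hp, hpK⟩ := exists_of_ssubset (s₁ := K) (s₂ := (univ.image ι)ᶜ)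
    (Finset.ssubset_iff_subset_ne.2 ⟨fun q hq => by
      simpa using fun p (e : ι p = q) => hK p (e ▸ hq), hc⟩)
  have hp' : ∀ x, ι x ≠ p := by simpa using hp
  obtain ⟨D', hD⟩ := ih (insert p K) (ssubset_insert hpK) fun x hx =>
    (mem_insert.1 hx).elim (hp' x) (hK x)
  have upd : ∀ c, ∀ y ∈ ex ι K Z, Function.update y p c ∈ ex ι K Z := fun c y hy =>
    ⟨by rw [Function.update_comp_eq_of_forall_ne _ _ hp']; exact hy.1, fun q hq => by
      rw [Function.update_of_ne fun e : q = p => hpK (e ▸ hq)]; exact hy.2 q hq⟩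
  have pr := (ex_prm hι hZ hK).prime
  rw [prod_insert hpK, mul_assoc, VI_cut (Z := ex ι K Z) (W := ex ι (insert p K) Z) (p := p)
    (fun y hy => ⟨hy.1, fun q hq => hy.2 q (mem_insert_of_mem hq)⟩)
    (fun y hy => hy.2 p (mem_insert_self _ _)) fun y hy => ⟨(upd 0 y hy).1, fun q hq =>
      (mem_insert.1 hq).elim (fun e => by rw [e, Function.update_self]) ((upd 0 y hy).2 q)⟩] at hD
  refine ⟨_, hD.uncut hw pr (ex_torSt hT K).homog fun hX => ?_⟩
  obtain ⟨y, hy⟩ := nonempty_of_prime pr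
  simpa using hX _ (upd 1 y hy)

end Pool.Agent.K9c
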