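import Pool.Agent.Lib.MP_9c9c2f_co.HSkew

/-! Transfer to coefficients, quadratic forms and eigenvalues. -/

set_option linter.unusedSectionVars false
set_option linter.style.haveILetI false

namespace Pool.Agent.K9c
open MvPolynomial Finset Filter Topology

variable {n : ℕ}

lemma single_eq (μ : Fin n → ℤ) (c : ℤ) : AddMonoidAlgebra.single μ c = (c : Lau n) * mn μ := by
  rw [← zsmul_eq_mul, mn, AddMonoidAlgebra.smul_single, smul_eq_mul, mul_one]

lemma iot_monomial (m : Fin n →₀ ℕ) (c : ℤ) :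
    iot 1 (monomial m c) = AddMonoidAlgebra.single (fun i => (m i : ℤ)) c := by
  rw [monomial_eq, Finsupp.prod_fintype _ _ (by simp), map_mul, iot_prod, single_eq]
  simp [iot]

lemma rcp_monomial (ν : Fin n → ℤ) (β : Fin n →₀ ℕ) (c : ℤ) :
    mn ν * rcp (monomial β c) = AddMonoidAlgebra.single (fun i => ν i - β i.rev) c := by
  rw [monomial_eq, Finsupp.prod_fintype _ _ (by simp), map_mul, single_eq, mul_left_comm]
  simp only [rcp, map_prod, map_pow, eval₂Hom_X', ← mn_nsmul, ← mn_sum, ← mn_add, eq_intCast,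
    map_intCast]
  congr 2
  funext i
  obtain ⟨i, rfl⟩ := Fin.rev_surjective i
  simp [Finset.sum_apply, Pi.single_apply, sub_eq_add_neg]

lemma coeff_of_mono (L : MvPolynomial (Fin n) ℤ →+ Lau n) (φ : (Fin n →₀ ℕ) → Fin n → ℤ)
    (hφ : Function.Injective φ) (h : ∀ β c, L (monomial β c) = AddMonoidAlgebra.single (φ β) c)
    (P : MvPolynomial (Fin n) ℤ) :
    (∀ β, (L P).coeff (φ β) = coeff β P) ∧ ∀ μ, (¬ ∃ β, φ β = μ) → (L P).coeff μ = 0 := by
  induction P using MvPolynomial.induction_on' with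
  | monomial β c =>
    rw [h]
    refine ⟨fun β' => ?_, fun μ hμ => ?_⟩
    · simp [Finsupp.single_apply, coeff_monomial, hφ.eq_iff]
    · simpa using Finsupp.single_eq_of_ne fun e => hμ ⟨β, e.symm⟩
  | add P Q hP hQ =>
    exact ⟨fun β => by simp [hP.1, hQ.1], fun μ hμ => by simp [hP.2 μ hμ, hQ.2 μ hμ]⟩

lemma support_transfer {F Q : MvPolynomial (Fin n) ℤ} {ν : Fin n → ℤ}
    (h : iot 1 F = mn ν * rcp Q) {m₀ : ℕ} (hQ : Refl Q fun _ => m₀) :
    (∀ m, 0 ≤ coeff m F) ∧ Exch {m | coeff m F ≠ 0} := by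
  obtain ⟨B, b1, b2⟩ := hQ
  have c1 := (coeff_of_mono (iot 1).toAddMonoidHom (fun m i => (m i : ℤ))
    (fun m m' e => Finsupp.ext fun i => Nat.cast_injective (R := ℤ) (congrFun e i))
    iot_monomial F).1
  obtain ⟨c2, c3⟩ := coeff_of_mono ((AddMonoidHom.mulLeft (mn ν)).comp rcp.toAddMonoidHom)
    (fun β i => ν i - β i.rev) (fun m m' e => Finsupp.ext fun i => by
      have := congrFun e i.rev
      simpa using this) (rcp_monomial ν) Q
  have e : (iot 1).toAddMonoidHom F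
      = ((AddMonoidHom.mulLeft (mn ν)).comp rcp.toAddMonoidHom) Q := h
  simp only [e] at c1
  have k1 : ∀ (m β : Fin n →₀ ℕ), (∀ i, ν i - β i.rev = m i) → coeff m F = coeff β Q :=
    fun m β hm => by rw [← c1, ← c2, funext hm]
  have k2 : ∀ m : Fin n →₀ ℕ, coeff m F ≠ 0 → ∃ β : Fin n →₀ ℕ, ∀ i, ν i - β i.rev = m i :=
    fun m hm => by
      by_contra hc
      exact hm ((c1 m).symm.trans (c3 _ fun ⟨β, hβ⟩ => hc ⟨β, congrFun hβ⟩))
  refine ⟨fun m => ?_, fun m hm m' hm' s hs => ?_⟩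
  · by_cases h0 : coeff m F = 0
    · rw [h0]
    · obtain ⟨β, hβ⟩ := k2 m h0
      rw [k1 m β hβ]; exact (b2 β).1
  obtain ⟨β, hβ⟩ := k2 m hm
  obtain ⟨β', hβ'⟩ := k2 m' hm'
  obtain ⟨a, ha, a1⟩ := (b2 β).2.1 (k1 m β hβ ▸ hm)
  obtain ⟨a', ha', a1'⟩ := (b2 β').2.1 (k1 m' β' hβ' ▸ hm')
  simp only at a1 a1'
  have s1 : a' s.rev < a s.rev := by
    have := a1 s.rev; have := a1' s.rev; have := hβ s; have := hβ' s; omega
  obtain ⟨t, t1, t2⟩ := b1 a ha a' ha' s.rev s1
  obtain ⟨t, rfl⟩ := Fin.rev_surjective t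
  have t3 := a1 t.rev
  have t4 := a1' t.rev
  refine ⟨t, by have := hβ t; have := hβ' t; omega, ?_⟩
  show coeff _ F ≠ 0
  rw [k1 _ (β - Finsupp.single t.rev 1 + Finsupp.single s.rev 1) fun i => ?_]
  · refine (b2 _).2.2 ⟨_, t2, fun l => ?_⟩
    have := a1 l
    simp only [Finsupp.add_apply, Finsupp.tsub_apply, Finsupp.single_apply]
    clear a1 a1'
    split_ifs with u1 u2 u2
    · rw [← u1] at this ⊢; rw [u1, ← u2] at s1; omega
    · rw [← u1] at this ⊢; omega
    · rw [← u2] at this ⊢; omega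
    · omega
  · have := hβ i
    simp only [Finsupp.add_apply, Finsupp.tsub_apply, Finsupp.single_apply, Fin.rev_inj]
    clear a1 a1'
    split_ifs with u1 u2 u2
    · rw [u2, ← u1] at s1; omega
    · rw [← u1] at this ⊢; omega
    · rw [← u2] at this ⊢; omega
    · omega

lemma Exch.sum_le {S : Set (Fin n →₀ ℕ)} (h : Exch S) {m' : Fin n →₀ ℕ} (hm' : m' ∈ S) (k : ℕ) :
    ∀ m ∈ S, ∑ i, (m i - m' i) = k → ∑ i, m i ≤ ∑ i, m' i := by
  induction k with
  | zero =>
    intro m _ h0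
    exact sum_le_sum fun i _ => Nat.sub_eq_zero_iff_le.1 (sum_eq_zero_iff.1 h0 i (mem_univ i))
  | succ k ih =>
    intro m hm h0
    obtain ⟨s, -, hs⟩ := exists_ne_zero_of_sum_ne_zero (h0.trans_ne k.succ_ne_zero)
    obtain ⟨t, t1, t2⟩ := h m hm m' hm' s (by omega)
    have e1 : ∀ i, (m - Finsupp.single s 1 + Finsupp.single t 1 : Fin n →₀ ℕ) i
        + (if s = i then 1 else 0) = m i + if t = i then 1 else 0 := fun i => by
      simp only [Finsupp.add_apply, Finsupp.tsub_apply, Finsupp.single_apply]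
      split_ifs <;> subst_vars <;> omega
    have e2 : ∀ i, ((m - Finsupp.single s 1 + Finsupp.single t 1 : Fin n →₀ ℕ) i - m' i)
        + (if s = i then 1 else 0) = m i - m' i := fun i => by
      have := e1 i
      split_ifs at this ⊢ <;> subst_vars <;> omega
    have e3 := sum_congr rfl fun i (_ : i ∈ univ) => e1 i
    have e4 := sum_congr rfl fun i (_ : i ∈ univ) => e2 i
    simp only [sum_add_distrib, sum_ite_eq, mem_univ, if_true] at e3 e4
    have := ih _ t2 (by omega)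
    omega

/-- Product of divided powers. -/
noncomputable def tq (a : Fin n → ℝ) (γ : Fin n → ℤ) : ℝ := ∏ i, wq (γ i) (a i)

lemma wq_pred (γ : ℤ) (a : ℝ) : a * wq (γ - 1) a = γ * wq γ a := by
  rcases lt_trichotomy γ 0 with h | rfl | h
  · rw [wq_neg h, wq_neg (by omega)]; simp
  · rw [wq_neg (by omega)]; simp
  · obtain ⟨k, rfl⟩ : ∃ k : ℕ, γ = (k + 1 : ℕ) := ⟨(γ - 1).toNat, by omega⟩
    rw [wq_nat, Nat.cast_succ, add_sub_cancel_right, wq_nat, Nat.factorial_succ]
    push_cast; field_simp; ring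

lemma tq_euler (a : Fin n → ℝ) (γ : Fin n → ℤ) :
    ((∑ i, γ i : ℤ) : ℝ) * tq a γ = ∑ i, a i * tq a (γ - Pi.single i 1) := by
  push_cast
  rw [sum_mul]
  refine sum_congr rfl fun i _ => ?_
  rw [tq, tq, ← mul_prod_erase _ _ (mem_univ i), ← mul_prod_erase _ _ (mem_univ i), ← mul_assoc,
    ← mul_assoc, ← wq_pred, Pi.sub_apply, Pi.single_eq_same]
  congr 1
  exact prod_congr rfl fun j hj => by simp [ne_of_mem_erase hj]

lemma tq_zero (a : Fin n → ℝ) {γ : Fin n → ℤ} (h : ∑ i, γ i = 0) :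
    tq a γ = if γ = 0 then 1 else 0 := by
  split_ifs with h0
  · simp [h0, tq, wq]
  by_contra hc
  refine h0 (funext fun i => (sum_eq_zero_iff_of_nonneg fun j _ => ?_).1 h i (mem_univ i))
  by_contra hj
  exact hc (prod_eq_zero (mem_univ j) (wq_neg (not_le.1 hj) _))

lemma tq_two (a : Fin n → ℝ) {γ : Fin n → ℤ} (h : ∑ i, γ i = 2) :
    2 * tq a γ = ∑ i, ∑ j, if γ = Pi.single i 1 + Pi.single j 1 then a i * a j else 0 := by
  have := tq_euler a γ
  rw [h] at this
  refine this.trans (sum_congr rfl fun i _ => ?_)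
  have h1 : ∑ l, (γ - Pi.single i 1 : Fin n → ℤ) l = 1 := by simp [sum_sub_distrib, h]
  have := tq_euler a (γ - Pi.single i 1)
  rw [h1, Int.cast_one, one_mul] at this
  rw [this, mul_sum]
  refine sum_congr rfl fun j _ => ?_
  rw [tq_zero a (by simp [sum_sub_distrib, h]), sub_sub]
  simp only [sub_eq_zero]
  split_ifs <;> simp

/-- The quadratic form of a matrix. -/
def bl (H : Fin n → Fin n → ℝ) (a b : Fin n → ℝ) : ℝ := ∑ i, ∑ j, H i j * (a i * b j)

lemma vol_eq_bl {F Q : MvPolynomial (Fin n) ℤ} {ν : Fin n → ℤ} (h : iot 1 F = mn ν * rcp Q)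
    (α : Fin n →₀ ℕ) (hd : ∀ m, coeff m F ≠ 0 → ∑ i, m i = ∑ i, α i + 2) (a : Fin n → ℝ) :
    2 * vol (fun k => ν k.rev - α k.rev + 1) (fun k => a k.rev) Q
      = bl (fun i j => (coeff (α + Finsupp.single i 1 + Finsupp.single j 1) F : ℤ)) a a := by
  let Λ : Lau n →ₗ[ℤ] ℝ := Finsupp.linearCombination ℤ (fun μ => tq a (μ - fun i => (α i : ℤ))) ∘ₗ
    (AddMonoidAlgebra.coeffLinearEquiv ℤ).toLinearMap
  have hΛ : ∀ μ c, Λ (AddMonoidAlgebra.single μ c) = c * tq a (μ - fun i => (α i : ℤ)) :=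
    fun μ c => by simp [Λ]
  have e1 : vol (fun k => ν k.rev - α k.rev + 1) (fun k => a k.rev) Q = Λ (mn ν * rcp Q) := by
    clear h
    induction Q using MvPolynomial.induction_on' with
    | monomial β c =>
      rw [rcp_monomial, hΛ, vol_monomial, tq, ← Equiv.prod_comp Fin.revPerm]
      congr 1
      refine prod_congr rfl fun i _ => ?_
      simp only [Fin.revPerm_apply, Fin.rev_rev, Pi.sub_apply]
      congr 1; ring
    | add P Q hP hQ => simp only [map_add, mul_add, hP, hQ]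
  rw [e1, ← h]
  conv_lhs => rw [F.as_sum]
  simp only [map_sum, iot_monomial, hΛ, mul_sum, bl]
  rw [sum_congr rfl (g := fun m => ∑ i, ∑ j, if α + Finsupp.single i 1 + Finsupp.single j 1 = m
    then ((coeff m F : ℤ) : ℝ) * (a i * a j) else 0)]
  · rw [sum_comm]
    refine sum_congr rfl fun i _ => ?_
    rw [sum_comm]
    refine sum_congr rfl fun j _ => ?_
    rw [sum_ite_eq]
    split_ifs with h0
    · rfl
    · simp [notMem_support_iff.1 h0]
  intro m hm
  have := hd m (mem_support_iff.1 hm)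
  rw [mul_left_comm, tq_two a (by
    simp only [Pi.sub_apply, sum_sub_distrib]
    rw [← Nat.cast_sum, ← Nat.cast_sum, this]; push_cast; ring)]
  simp only [mul_sum, mul_ite, mul_zero]
  refine sum_congr rfl fun i _ => sum_congr rfl fun j _ => if_congr ?_ rfl rfl
  simp only [funext_iff, Finsupp.ext_iff, Pi.sub_apply, Pi.add_apply, Finsupp.add_apply,
    Finsupp.single_apply, Pi.single_apply, eq_comm (a := i), eq_comm (a := j)]
  exact forall_congr' fun l => by split_ifs <;> omega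

variable {H : Fin n → Fin n → ℝ}

lemma bl_add_smul (hs : ∀ i j, H i j = H j i) (s t : ℝ) (a b c : Fin n → ℝ) :
    bl H c (s • a + t • b) = s * bl H c a + t * bl H c b ∧
    bl H (s • a + t • b) (s • a + t • b)
      = s ^ 2 * bl H a a + 2 * s * t * bl H a b + t ^ 2 * bl H b b := by
  have sy : bl H b a = bl H a b := by
    rw [bl, sum_comm]
    exact sum_congr rfl fun i _ => sum_congr rfl fun j _ => by rw [hs, mul_comm (b j)]
  constructor
  · simp only [bl, mul_sum, ← sum_add_distrib, Pi.add_apply, Pi.smul_apply, smul_eq_mul]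
    exact sum_congr rfl fun i _ => sum_congr rfl fun j _ => by ring
  · rw [show 2 * s * t * bl H a b = s * t * bl H a b + s * t * bl H b a by rw [sy]; ring]
    simp only [bl, mul_sum, ← sum_add_distrib, Pi.add_apply, Pi.smul_apply, smul_eq_mul]
    exact sum_congr rfl fun i _ => sum_congr rfl fun j _ => by ring

lemma bl_real (h : ∀ a b : Fin n → ℕ, (∀ i, 0 < a i) → (∀ i, 0 < b i) →
      bl H (fun i => 2 * a i) (fun i => 2 * a i) * bl H (fun i => 2 * b i) (fun i => 2 * b i)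
        ≤ bl H (fun i => a i + b i) (fun i => a i + b i) ^ 2)
    {a b : Fin n → ℝ} (ha : ∀ i, 0 ≤ a i) (hb : ∀ i, 0 ≤ b i) :
    16 * (bl H a a * bl H b b) ≤ bl H (a + b) (a + b) ^ 2 := by
  have t : ∀ x : ℝ, 0 ≤ x → Tendsto (fun s : ℝ => ((⌊x * s⌋₊ + 1 : ℕ) : ℝ) / s) atTop (𝓝 x) :=
    fun x hx => by
      simpa [add_div] using (tendsto_nat_floor_mul_div_atTop hx).add tendsto_inv_atTop_zero
  have c : ∀ {u : ℝ → Fin n → ℝ} {x : Fin n → ℝ}, (∀ i, Tendsto (fun s => u s i) atTop (𝓝 (x i))) →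
      Tendsto (fun s => bl H (u s) (u s)) atTop (𝓝 (bl H x x)) := fun hu =>
    tendsto_finsetSum _ fun i _ => tendsto_finsetSum _ fun j _ => ((hu i).mul (hu j)).const_mul _
  refine le_of_tendsto_of_tendsto (((c fun i => t _ (ha i)).mul (c fun i => t _ (hb i))).const_mul
    16) ((c fun i => (t _ (ha i)).add (t _ (hb i))).pow 2) ?_
  filter_upwards [eventually_gt_atTop 0] with s hs
  have := h (fun i => ⌊a i * s⌋₊ + 1) (fun i => ⌊b i * s⌋₊ + 1) (fun i => Nat.succ_pos _)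
    fun i => Nat.succ_pos _
  have sc : ∀ (x : ℝ) (u : Fin n → ℝ), bl H (fun i => x * u i) (fun i => x * u i)
      = x ^ 2 * bl H u u := fun x u => by
    simp only [bl, mul_sum]
    exact sum_congr rfl fun i _ => sum_congr rfl fun j _ => by ring
  simp only [← add_div]
  simp only [div_eq_inv_mul, sc] at this ⊢
  nlinarith [mul_le_mul_of_nonneg_left this (show 0 ≤ s⁻¹ ^ 4 by positivity)]

lemma bl_nonneg (h0 : ∀ i j, 0 ≤ H i j) {a b : Fin n → ℝ} (ha : ∀ i, 0 ≤ a i)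
    (hb : ∀ i, 0 ≤ b i) : 0 ≤ bl H a b :=
  sum_nonneg fun i _ => sum_nonneg fun j _ => mul_nonneg (h0 i j) (mul_nonneg (ha i) (hb j))

lemma bl_rcs (hs : ∀ i j, H i j = H j i) (h0 : ∀ i j, 0 ≤ H i j)
    (h : ∀ a b : Fin n → ℝ, (∀ i, 0 ≤ a i) → (∀ i, 0 ≤ b i) →
      16 * (bl H a a * bl H b b) ≤ bl H (a + b) (a + b) ^ 2) (b : Fin n → ℝ) :
    bl H 1 1 * bl H b b ≤ bl H 1 b ^ 2 := by
  have pos : ∀ b : Fin n → ℝ, (∀ i, 0 ≤ b i) → bl H 1 1 * bl H b b ≤ bl H 1 b ^ 2 := by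
    intro b hb
    have h1 : ∀ i, (0 : ℝ) ≤ (1 : Fin n → ℝ) i := fun _ => zero_le_one
    rcases (bl_nonneg h0 h1 h1).eq_or_lt with e | hA
    · rw [← e, zero_mul]; positivity
    rcases (bl_nonneg h0 hb hb).eq_or_lt with e | hC
    · rw [← e, mul_zero]; positivity
    have hB := bl_nonneg h0 h1 hb
    obtain ⟨p, hp, ep⟩ : ∃ p : ℝ, 0 < p ∧ p ^ 4 = bl H 1 1 :=
      ⟨_, Real.rpow_pos_of_pos hA _, Real.rpow_inv_natCast_pow hA.le four_ne_zero⟩
    obtain ⟨q, hq, eq⟩ : ∃ q : ℝ, 0 < q ∧ q ^ 4 = bl H b b :=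
      ⟨_, Real.rpow_pos_of_pos hC _, Real.rpow_inv_natCast_pow hC.le four_ne_zero⟩
    have := h ((q ^ 2) • 1) ((p ^ 2) • b) (fun i => by simpa using sq_nonneg q)
      fun i => mul_nonneg (sq_nonneg p) (hb i)
    have e1 := (bl_add_smul hs (q ^ 2) 0 1 b b).2
    have e2 := (bl_add_smul hs (p ^ 2) 0 b b b).2
    simp only [zero_smul, add_zero] at e1 e2
    rw [(bl_add_smul hs _ _ 1 b b).2, e1, e2, ← ep, ← eq] at this
    rw [← ep, ← eq]
    have h4 : 4 * (p ^ 4 * q ^ 4) ≤ 2 * (p ^ 4 * q ^ 4) + 2 * (p ^ 2 * q ^ 2) * bl H 1 b := by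
      refine (pow_le_pow_iff_left₀ (by positivity) (by positivity) two_ne_zero).1 ?_
      refine le_of_eq_of_le ?_ (this.trans_eq ?_) <;> ring
    have h5 : p ^ 2 * q ^ 2 ≤ bl H 1 b :=
      le_of_mul_le_mul_left (a := p ^ 2 * q ^ 2) (by nlinarith) (by positivity)
    calc p ^ 4 * q ^ 4 = (p ^ 2 * q ^ 2) ^ 2 := by ring
      _ ≤ _ := pow_le_pow_left₀ (by positivity) h5 2
  have := pos ((∑ i, |b i|) • 1 + (1 : ℝ) • b) fun i => by
    have := single_le_sum (f := fun i => |b i|) (fun i _ => abs_nonneg _) (mem_univ i)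
    have := neg_abs_le (b i)
    simp only [Pi.add_apply, Pi.smul_apply, Pi.one_apply, smul_eq_mul]; linarith
  rw [(bl_add_smul hs _ _ 1 b 1).1, (bl_add_smul hs _ _ 1 b 1).2] at this
  nlinarith

lemma eig_le_one (h0 : ∀ i j, 0 ≤ H i j) (hH : (Matrix.of H).IsHermitian)
    (h : ∀ b, bl H 1 1 * bl H b b ≤ bl H 1 b ^ 2) :
    (univ.filter fun i => 0 < hH.eigenvalues i).card ≤ 1 := by
  have hs : ∀ i j, H i j = H j i := fun i j => by simpa using hH.apply j i
  have ev : ∀ i j, bl H (hH.eigenvectorBasis i) (hH.eigenvectorBasis j)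
      = if i = j then hH.eigenvalues j else 0 := fun i j => by
    have a := hH.mulVec_eigenvectorBasis j
    have b := orthonormal_iff_ite.1 hH.eigenvectorBasis.orthonormal i j
    simp only [PiLp.inner_apply, RCLike.inner_apply, conj_trivial] at b
    have c : ∀ k, ∑ l, H k l * hH.eigenvectorBasis j l
        = hH.eigenvalues j * hH.eigenvectorBasis j k := fun k => congrFun a k
    simp only [bl, mul_left_comm (H _ _), ← mul_sum, c]
    simp only [mul_comm (hH.eigenvectorBasis i _), mul_assoc, ← mul_sum, b]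
    simp
  refine card_le_one.2 fun i hi j hj => ?_
  by_contra hij
  have pi := (mem_filter.1 hi).2
  have pj := (mem_filter.1 hj).2
  have hA : 0 < bl H 1 1 := by
    refine (bl_nonneg h0 (fun _ => zero_le_one) fun _ => zero_le_one).lt_of_ne fun e => pi.ne' ?_
    have z : ∀ k l, H k l = 0 := fun k l => by
      simpa using (sum_eq_zero_iff_of_nonneg fun l _ => by simpa using h0 k l).1
        ((sum_eq_zero_iff_of_nonneg fun k _ => sum_nonneg fun l _ => by simpa using h0 k l).1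
          e.symm k (mem_univ k)) l (mem_univ l)
    simpa [bl, z] using (ev i i).symm
  have a1 := h (hH.eigenvectorBasis i)
  have a2 := h (bl H 1 (hH.eigenvectorBasis j) • (hH.eigenvectorBasis i : Fin n → ℝ)
    + (-bl H 1 (hH.eigenvectorBasis i)) • (hH.eigenvectorBasis j : Fin n → ℝ))
  rw [(bl_add_smul hs _ _ _ _ 1).1, (bl_add_smul hs _ _ _ _ 1).2, ev, ev, ev, if_pos rfl,
    if_pos rfl, if_neg hij] at a2
  rw [ev, if_pos rfl] at a1
  have a3 := (mul_pos hA pi).trans_le a1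
  nlinarith [mul_pos hA (mul_pos a3 pj), mul_nonneg hA.le
    (mul_nonneg (sq_nonneg (bl H 1 (hH.eigenvectorBasis j))) pi.le)]

theorem lorentz_of_rcp {F : MvPolynomial (Fin n) ℤ} {ν : Fin n → ℤ} {P : MvPolynomial (Gv n) ℤ}
    (hP : GeoA P) (h : iot 1 F = mn ν * rcp (ez P)) :
    (∀ m, 0 ≤ coeff m F) ∧ Exch {m | coeff m F ≠ 0} ∧ ∀ α : Fin n →₀ ℕ,
      ∃ hH : (Matrix.of fun i j : Fin n =>
        ((coeff (α + Finsupp.single i 1 + Finsupp.single j 1) F : ℤ) : ℝ)).IsHermitian,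
        (univ.filter fun i => 0 < hH.eigenvalues i).card ≤ 1 := by
  obtain ⟨h1, m₀, h2⟩ := hP.out
  obtain ⟨h3, h4⟩ := support_transfer h h2
  have hs : ∀ (α : Fin n →₀ ℕ) (i j : Fin n),
      ((coeff (α + Finsupp.single i 1 + Finsupp.single j 1) F : ℤ) : ℝ)
      = (coeff (α + Finsupp.single j 1 + Finsupp.single i 1) F : ℤ) := fun α i j => by
    rw [add_right_comm]
  refine ⟨h3, h4, fun α => ⟨Matrix.IsHermitian.ext fun i j => by simpa using hs α j i,
    eig_le_one (fun i j => by exact_mod_cast h3 _) _ ?_⟩⟩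
  by_cases h0 : ∀ i j, coeff (α + Finsupp.single i 1 + Finsupp.single j 1) F = 0
  · simp [bl, h0]
  push Not at h0
  obtain ⟨i, j, h0⟩ := h0
  have hd : ∀ m, coeff m F ≠ 0 → ∑ i, m i = ∑ i, α i + 2 := fun m hm => by
    rw [le_antisymm (h4.sum_le h0 _ m hm rfl) (h4.sum_le hm _ _ h0 rfl)]
    simp [sum_add_distrib, Finsupp.single_apply]
  refine bl_rcs (hs α) (fun i j => by exact_mod_cast h3 _) fun a b ha hb =>
    bl_real (fun a b ha hb => ?_) ha hb
  rw [← vol_eq_bl h α hd, ← vol_eq_bl h α hd, ← vol_eq_bl h α hd]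
  have := h1 (fun k => ν k.rev - α k.rev + 1) (fun k => a k.rev) (fun k => b k.rev)
    (fun k => ha _) fun k => hb _
  nlinarith

end Pool.Agent.K9c
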