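import Pool.Agent.Lib.MP_9c9c2f_co.HGeo

/-! From a sliced set to log-concavity and to the exchange property of the reflected support. -/

set_option linter.unusedSectionVars false
set_option linter.style.haveILetI false

namespace Pool.Agent.K9c
open MvPolynomial Finset

variable {σ G Λ : Type} [Fintype σ] [DecidableEq σ] [Fintype G] [Fintype Λ] [DecidableEq Λ]

/-- Midpoint log-concavity of the volume functional at level `M`. -/
def LC (f : MvPolynomial Λ ℤ) (M : Λ → ℤ) : Prop := ∀ a b : Λ → ℕ, (∀ l, 0 < a l) →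
  (∀ l, 0 < b l) → vol M (fun l => 2 * a l) f * vol M (fun l => 2 * b l) f
    ≤ vol M (fun l => a l + b l) f ^ 2

/-- Nonnegative coefficients and exchange property of the reflected support. -/
def Refl (f : MvPolynomial Λ ℤ) (M : Λ → ℕ) : Prop := ∃ B, Exch B ∧ ∀ β, 0 ≤ coeff β f ∧
  (coeff β f ≠ 0 ↔ ∃ a ∈ B, ∀ l, a l + β l = M l)

/-- The grading that separates the variables in `Δ`. -/
def sep (Δ : Finset σ) (lb : σ → Λ) (q : σ) : Λ ⊕ Δ :=
  if h : q ∈ Δ then Sum.inr ⟨q, h⟩ else Sum.inl (lb q)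

lemma cn_sep_l (Δ F : Finset σ) (lb : σ → Λ) (l : Λ) :
    cn (sep Δ lb) F (Sum.inl l) = cn lb (F \ Δ) l := by
  refine congrArg card (Finset.ext fun q => ?_)
  rw [mem_filter, mem_filter]
  by_cases h : q ∈ Δ <;> simp [sep, h]

lemma cn_sep_r (Δ F : Finset σ) (lb : σ → Λ) (δ : Δ) :
    cn (sep Δ lb) F (Sum.inr δ) = if δ.1 ∈ F then 1 else 0 := by
  have : F.filter (sep Δ lb · = Sum.inr δ) = F.filter (· = δ.1) := filter_congr fun q _ => by
    by_cases h : q ∈ Δ
    · simp [sep, h, Subtype.ext_iff]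
    · simpa [sep, h] using fun e : q = δ.1 => h (e ▸ δ.2)
  rw [cn, this, filter_eq']
  split_ifs <;> simp

lemma cn_split {O Δ F : Finset σ} (lb : σ → Λ) (h1 : Δ ⊆ F) (h2 : ∀ q ∈ O, q ∉ F) (l : Λ) :
    cn lb (O ∪ Δ)ᶜ l = cn lb (F \ Δ) l + cn lb (Fᶜ \ O) l := by
  have : (O ∪ Δ)ᶜ = (F \ Δ) ∪ (Fᶜ \ O) := by
    ext q
    have a := @h1 q
    have b := h2 q
    simp only [mem_compl, mem_union, mem_sdiff]; tauto
  rw [cn, this, filter_union, card_union_of_disjoint (disjoint_filter_filter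
    (disjoint_of_subset_left sdiff_subset (disjoint_of_subset_right sdiff_subset
      disjoint_compl_right)))]; rfl

theorem out_of_md {wt : σ → G → ℤ} (hw : PosW wt) {Z : Set (σ → ℚ)} (hZ : Prm Z)
    (hI : Homog wt (VI Z)) {D : ℤ} {C : MvPolynomial G ℤ} (hC : MD wt (VI Z) D C)
    (ev : MvPolynomial G ℤ →+* MvPolynomial Λ ℤ) (O Δ : Finset σ) (lb : σ → Λ)
    (hT : TorSt (pw (sep Δ lb)) Z) (hO : ∀ q ∈ O, X q ∈ VI Z ∧ ev (lin (wt q)) ≠ 0)
    (hΔ : ∀ q ∈ Δ, ev (lin (wt q)) = 0) (hl : ∀ q, q ∉ O → q ∉ Δ → ev (lin (wt q)) = X (lb q))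
    {f : MvPolynomial Λ ℤ} (hf : ev C = (∏ q ∈ O, ev (lin (wt q))) * f) :
    (∀ M : Λ → ℤ, (∀ l, M l ≤ cn lb (O ∪ Δ)ᶜ l) → LC f M) ∧ Refl f (cn lb (O ∪ Δ)ᶜ) := by
  classical
  set I := VI Z
  have dis : ∀ F : Finset σ, Ind I F → ∀ q ∈ O, q ∉ F := fun F hF q hq h =>
    X_ne_zero q (hF _ (hO q hq).1 (by simpa [vars_X] using h))
  have form : ∀ (m : MonomialOrder.{0, 0} σ) N, Stab m I N → f = ∑ p ∈ (cells m I N).filter
      (fun p => ((free N p).card : ℤ) = D ∧ Δ ⊆ free N p),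
        monomial (Finsupp.equivFunOnFinite.symm (cn lb ((free N p)ᶜ \ O))) 1 := by
    intro m N hN
    refine mul_left_cancel₀ (prod_ne_zero_iff.2 fun q hq => (hO q hq).2) ?_
    rw [← hf, hC.eq_cellPoly hw hI hN, cellPoly, map_sum, mul_sum, ← filter_filter,
      sum_filter (fun p => Δ ⊆ free N p)]
    refine sum_congr rfl fun p hp => ?_
    rw [map_prod]
    split_ifs with h
    · rw [← prod_sdiff (s₁ := O) fun q hq =>
        mem_compl.2 (dis _ (ind_of_cell hN (mem_filter.1 hp).1) q hq), mul_comm, ← prod_X_eq]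
      congr 1
      exact prod_congr rfl fun q hq =>
        hl q (mem_sdiff.1 hq).2 fun h' => mem_compl.1 (mem_sdiff.1 hq).1 (h h')
    · obtain ⟨q, h1, h2⟩ := not_subset.1 h
      exact prod_eq_zero (mem_compl.2 h2) (hΔ q h1)
  obtain ⟨N, hN⟩ := exists_stab (someOrder σ) I
  replace hN := hN N le_rfl
  constructor
  · intro M hM a b ha hb
    let α : Λ ⊕ Δ →₀ ℕ := Finsupp.equivFunOnFinite.symm
      (Sum.elim (fun l => (cn lb (O ∪ Δ)ᶜ l - M l).toNat) 0)
    have e : ∀ x : Λ ⊕ Δ → ℝ, vol (fun g => cn (sep Δ lb) univ g) x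
        (monomial α 1 * cellPoly (pw (sep Δ lb)) (someOrder σ) I N D)
        = vol M (fun l => x (Sum.inl l)) f := by
      intro x
      rw [form _ N hN, cellPoly, mul_sum, map_sum, map_sum, ← filter_filter,
        sum_filter (fun p => Δ ⊆ free N p)]
      refine sum_congr rfl fun p hp => ?_
      simp only [lin_pw, prod_X_eq, monomial_mul, vol_monomial, Fintype.prod_sum_type, mul_one,
        Int.cast_one, one_mul, Finsupp.add_apply, α, Finsupp.equivFunOnFinite_symm_apply_apply,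
        Sum.elim_inl, Sum.elim_inr, cn_compl (sep Δ lb) (free N p), Pi.zero_apply, zero_add]
      split_ifs with h
      · rw [prod_eq_one (s := univ) (f := fun δ : Δ => _) fun δ _ => by
          simp [cn_sep_r, h δ.2, wq], mul_one]
        refine prod_congr rfl fun l _ => ?_
        have a1 := cn_split lb h (dis _ (ind_of_cell hN (mem_filter.1 hp).1)) l
        have a2 := hM l
        rw [cn_sep_l Δ (free N p)]
        congr 1; omega
      · obtain ⟨q, h1, h2⟩ := not_subset.1 h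
        rw [prod_eq_zero (mem_univ (⟨q, h1⟩ : Δ)) (wq_neg (by simp [cn_sep_r, h2]) _), mul_zero]
    have := vol_lor hZ hT (md_cellPoly (posW_pw _) hT.homog hN (hC.card_le hw hI hN)) α
      (a := Sum.elim a 1) (b := Sum.elim b 1) (by rintro (l | δ); exacts [ha l, one_pos])
      (by rintro (l | δ); exacts [hb l, one_pos])
    rw [e, e, e] at this
    exact this
  obtain ⟨M, hE, hM⟩ := exists_matroid hZ.prime
  have le : ∀ F : Finset σ, Ind I F → (F.card : ℤ) ≤ D := fun F hF => by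
    obtain ⟨m, N, p, h1, h2, rfl⟩ := exists_cell hF
    exact hC.card_le hw hI h1 p h2
  have base : ∀ F : Finset σ, Ind I F → (F.card : ℤ) = D → M.IsBase F := fun F hF hc =>
    ((hM F).2 hF).isBase_of_forall_insert fun e he hi => by
      have := le (insert e F) (by simpa using (hM _).1 hi)
      rw [card_insert_of_notMem (by simpa using he.2)] at this
      omega
  have nn : ∀ (β γ : Λ →₀ ℕ), 0 ≤ coeff β (monomial γ (1 : ℤ)) := fun β γ => by
    rw [coeff_monomial]; split_ifs <;> norm_num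
  refine ⟨_, exch_typ {Cb | ∃ F : Finset σ, Ind I F ∧ (F.card : ℤ) = D ∧ Δ ⊆ F ∧ Cb = F \ Δ}
    (fun q l => lb q = l) ?_, fun β => ⟨?_, fun h0 => ?_, ?_⟩⟩
  · rintro _ ⟨F, h1, h2, h3, rfl⟩ _ ⟨F', h1', h2', h3', rfl⟩ x hx hx'
    simp only [mem_sdiff, not_and, not_not] at hx hx'
    obtain ⟨y, hy, hb⟩ := (base F h1 h2).exchange (base F' h1' h2') (e := x)
      ⟨hx.1, fun h => hx.2 (hx' h)⟩
    have hy1 : y ∈ F' := hy.1
    have hy2 : y ∉ F := hy.2
    refine ⟨y, mem_sdiff.2 ⟨hy1, fun h => hy2 (h3 h)⟩, by simp [hy2], insert y (F.erase x),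
      (hM _).1 (by simpa using hb.indep), ?_, fun q hq => ?_, ?_⟩
    · rw [card_insert_of_notMem (by simp [hy2]), card_erase_add_one hx.1, h2]
    · exact mem_insert_of_mem (mem_erase.2 ⟨fun e => hx.2 (e ▸ hq), h3 hq⟩)
    · ext q
      by_cases a : q = y
      · subst a; simpa using fun h => hy2 (h3 h)
      · simp [a, and_assoc]
  · rw [form _ N hN, coeff_sum]
    exact sum_nonneg fun p _ => nn _ _
  · rw [form _ N hN, coeff_sum] at h0
    obtain ⟨p, hp, h1⟩ := exists_ne_zero_of_sum_ne_zero h0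
    obtain ⟨h2, h3, h4⟩ := mem_filter.1 hp
    rw [coeff_monomial] at h1
    have h5 : ∀ l, β l = cn lb ((free N p)ᶜ \ O) l := fun l => by
      rw [← (ite_ne_right_iff.1 h1).1]; rfl
    refine ⟨_, ⟨fun q => if q ∈ free N p \ Δ then some (lb q) else none, ⟨⟨_, ind_of_cell hN h2,
      h3, h4, by ext q; simp [mem_dom]⟩, by simp⟩, rfl⟩, fun l => ?_⟩
    rw [h5, cn_split lb h4 (dis _ (ind_of_cell hN h2)), typ_apply]
    congr 2
    ext q; simp
  · rintro ⟨_, ⟨g, ⟨⟨F, h1, h2, h3, h4⟩, h5⟩, rfl⟩, h6⟩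
    obtain ⟨m, N, p, hN, hp, rfl⟩ := exists_cell h1
    rw [form m N hN, coeff_sum]
    refine (sum_pos' (fun p' _ => nn _ _) ⟨p, mem_filter.2 ⟨hp, h2, h3⟩, ?_⟩).ne'
    rw [coeff_monomial, if_pos]
    · exact one_pos
    ext l
    have a1 := h6 l
    have a2 : typ g l = cn lb (free N p \ Δ) l := by
      rw [typ_apply, cn, ← h4]
      congr 1
      ext q
      simp only [mem_filter, mem_univ, true_and, mem_dom]
      refine ⟨fun h => ⟨by simp [h], h5 q l h⟩, fun h => ?_⟩
      obtain ⟨l', hl'⟩ := Option.ne_none_iff_exists'.1 h.1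
      rw [hl', ← h5 q l' hl', h.2]
    rw [cn_split lb h3 (dis _ h1)] at a1
    show cn lb _ l = _
    omega

variable {n : ℕ} {κ : Type} [Fintype κ] [DecidableEq κ]

/-- The specialisation of the column variables of `ψ`. -/
noncomputable def ez : MvPolynomial (Gv n) ℤ →+* MvPolynomial (Fin n) ℤ :=
  eval₂Hom (Int.castRingHom _) (Sum.elim (fun p => X p.2) fun j => -X j)

lemma GeoK.out {P : MvPolynomial (Gv n) ℤ} (h : GeoK (fun _ : κ => false) P) :
    (∀ M : Fin n → ℤ, (∀ l, M l ≤ Fintype.card κ) → LC (ez P) M) ∧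
      Refl (ez P) fun _ => Fintype.card κ := by
  obtain ⟨Z, D, ρ, C, h1, h2, h3, h5, h6, h7, rfl⟩ := h
  have e : ∀ i j, ez (lin (wS (n := n) (fun _ : κ => false) (i, Sum.inr j))) = X i - X j :=
    fun i j => by simp [lin_wS_r, ez, sub_eq_add_neg]
  have ne : ∀ i j : Fin n, i ≠ j → (X i - X j : MvPolynomial (Fin n) ℤ) ≠ 0 :=
    fun i j h => sub_ne_zero.2 fun e => h (X_injective e)
  suffices (∀ M : Fin n → ℤ, (∀ l, M l ≤ Fintype.card κ) → LC (ez C) M) ∧
      Refl (ez C) fun _ => Fintype.card κ by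
    obtain ⟨b0, B, b1, b2⟩ := this
    rw [map_mul, map_natCast, ← nsmul_eq_mul]
    refine ⟨fun M hM a b ha hb => ?_, B, b1, fun β => ?_⟩
    · simp only [map_nsmul]
      simp only [nsmul_eq_mul]
      rw [mul_mul_mul_comm, mul_pow, ← sq]
      exact mul_le_mul_of_nonneg_left (b0 M hM a b ha hb) (sq_nonneg _)
    · rw [coeff_smul, ← (b2 β).2]
      exact ⟨nsmul_nonneg (b2 β).1 _, by simp [h7.ne']⟩
  have hL : LowSt (fun _ => True) Z := fun g hg M hM => by
    convert h3 false g hg M hM using 1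
    funext p; obtain ⟨i, c | j⟩ := p <;> simp [act, lab]
  rcases gauss' (posW_wS _) (fun i => ⟨Sum.inl (false, i), by
      rintro ⟨k, c | j⟩ <;> simp [wS_inl, lab]⟩) (fun j => ⟨_, fun q => wS_inr _ q j⟩) ez
    (fun k => by rw [e, sub_self]) h1 h2 hL h5 h6 univ.offDiag
    (by simp) (fun _ _ q hq _ => by simpa using hq) with h0 | ⟨D', C', a1, a2, a3, a4⟩
  · have := (mul_eq_zero.1 h0).resolve_left (prod_ne_zero_iff.2 fun p hp => by
      rw [e]; exact ne _ _ (by simpa using hp))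
    rw [this]
    exact ⟨fun M _ a b _ _ => by simp, ∅, fun a ha => ha.elim, fun a => by simp⟩
  have mO : ∀ i j, (i, Sum.inr j) ∈ (univ.offDiag.image fun p : Fin n × Fin n =>
      ((p.1, Sum.inr p.2) : Ps n κ)) ↔ i ≠ j := by simp
  have mΔ : ∀ i j, (i, Sum.inr j) ∈ (univ.image fun k : Fin n => ((k, Sum.inr k) : Ps n κ))
      ↔ i = j := by simp [eq_comm]
  have := out_of_md (posW_wS _) a1 a2.homog a3 ez
    (univ.offDiag.image fun p : Fin n × Fin n => (p.1, Sum.inr p.2))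
    (univ.image fun k : Fin n => (k, Sum.inr k)) Prod.fst ?_ ?_ ?_ ?_ (f := ez C) ?_
  · convert this using 1
    all_goals
      have : ∀ l, cn Prod.fst ((univ.offDiag.image fun p : Fin n × Fin n =>
          ((p.1, Sum.inr p.2) : Ps n κ)) ∪ univ.image fun k : Fin n => (k, Sum.inr k))ᶜ l
          = Fintype.card κ := fun l => by
        rw [← card_univ, ← card_image_of_injective (f := fun c : κ => ((l, Sum.inl c) : Ps n κ))
          univ fun _ _ e => Sum.inl.inj (Prod.mk.inj e).2]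
        refine congrArg card (Finset.ext ?_)
        rintro ⟨i, c | j⟩
        · simp [eq_comm]
        · simp only [mem_filter, mem_compl, mem_union, mO, mΔ]; simp
      simp only [this, funext this]
  · intro t z hz
    convert a2 (Sum.elim (fun p => t (Sum.inl p.2)) fun j =>
      t (Sum.inr ⟨(j, Sum.inr j), (mΔ j j).2 rfl⟩) / t (Sum.inl j)) z hz using 1
    funext p
    obtain ⟨i, c | j⟩ := p
    · simp [tor, pw, sep, wS, chi_single, lab]
    by_cases hij : i = j
    · subst hij; simp [tor, pw, sep, wS, chi_single, chi_add, lab, mul_div_cancel₀]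
    · simp [tor, (hz.2 (i, j) (by simpa using hij)).1]
  · intro q hq
    obtain ⟨p, hp, rfl⟩ := mem_image.1 hq
    refine ⟨fun z hz => ?_, by rw [e]; exact ne _ _ (by simpa using hp)⟩
    rw [eval_X]; exact (hz.2 p hp).1
  · intro q hq
    obtain ⟨k, -, rfl⟩ := mem_image.1 hq
    rw [e, sub_self]
  · rintro ⟨i, j | j⟩ q1 q2
    · simp [lin_wS_l, ez]
    · exact absurd ((mO i j).2 (mt (mΔ i j).2 q2)) q1
  · rw [a4, prod_image]
    intro p _ q _ h
    simp only [Prod.mk.injEq, Sum.inr.injEq] at h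
    exact Prod.ext h.1 h.2

end Pool.Agent.K9c
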