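import Pool.Agent.Lib.MP_9c9c2f_co.HLor

/-! Parametrised matrix sets: sweeps, new columns, merging of row variables, Gauss slices. -/

set_option linter.unusedSectionVars false
set_option linter.style.haveILetI false

namespace Pool.Agent.K9c
open MvPolynomial Finset Matrix

variable {n : ℕ} {G : Type} [Fintype G] [DecidableEq G]

section Slice
variable {σ : Type} [Fintype σ] [DecidableEq σ] {A : σ → Prop} [DecidablePred A] {sw : σ → σ}
  {Z : Set (σ → ℚ)}

lemma swept_prm (hZ : Prm Z) : Prm (swept A sw Z) := by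
  convert hZ.image2 (fun z (c : Unit → ℚ) => sh A sw (c ()) z) fun q =>
    (IsPoly.coord _).add (IsPoly.ite _ ((IsPoly.coord _).mul (IsPoly.coord _)) (IsPoly.const 0))
    using 1
  ext y
  exact ⟨fun ⟨τ, z, hz, e⟩ => ⟨z, hz, fun _ => τ, e⟩, fun ⟨z, hz, c, e⟩ => ⟨_, z, hz, e⟩⟩

lemma slc_prm {wt : σ → G → ℤ} {p₀ q₀ : σ} (hZ : Prm Z) (hT : TorSt wt Z)
    (hg : ∃ g, ∀ q, wt q g = if A q then 1 else 0) (hs : ∀ c, ∀ z ∈ Z, sh A sw c z ∈ Z)
    (hp : A p₀) (hpq : sw p₀ = q₀) (hq : ¬ A q₀) (hX : X q₀ ∉ VI Z) : Prm (slc Z p₀ q₀) := by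
  obtain ⟨g, hg⟩ := hg
  have sc : ∀ u : ℚ, u ≠ 0 → ∀ z ∈ Z, (fun p => if A p then u * z p else z p) ∈ Z := by
    intro u hu z hz
    convert hT (Pi.mulSingle g (Units.mk0 u hu)) z hz using 1
    funext p
    rw [tor, chi_mulSingle, hg]
    split_ifs <;> simp
  have hW := hZ.image2 (fun z (_ : Unit → ℚ) p =>
    if A p then z q₀ * z p - z p₀ * z (sw p) else z p) fun q => IsPoly.ite _
      (((IsPoly.coord _).mul (IsPoly.coord _)).sub ((IsPoly.coord _).mul (IsPoly.coord _)))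
      (IsPoly.coord _)
  refine hW.congr (le_antisymm (fun f hf => mem_VI_of_ne hW.prime (t := X q₀)
    (fun h => hX fun z hz => by simpa [hq] using h _ ⟨z, hz, 0, rfl⟩) ?_) (VI_anti ?_))
  · rintro _ ⟨z, hz, c, rfl⟩ h0
    have h1 : z q₀ ≠ 0 := by simpa [hq] using h0
    refine hf _ ⟨?_, by simp [hp, hpq, mul_comm], by simpa [hq] using h1⟩
    convert sc _ h1 _ (hs (-z p₀ / z q₀) z hz) using 2 with p
    split_ifs with h
    · simp only [sh, h, if_true]; field_simp; ring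
    · simp [sh, h]
  · rintro y ⟨h1, h2, h3⟩
    refine ⟨_, sc _ (inv_ne_zero h3) y h1, 0, funext fun p => ?_⟩
    by_cases h : A p <;> simp [h, hp, hq, h2, h3]

lemma coordSub_prm (K : Finset σ) : Prm (coordSub K) := by
  refine ⟨σ, inferInstance, fun z p => if p ∈ K then 0 else z p,
    fun q => IsPoly.ite _ (IsPoly.const 0) (IsPoly.coord q), congrArg VI ?_⟩
  ext z
  constructor
  · intro hz
    refine ⟨z, funext fun p => ?_⟩
    by_cases h : p ∈ K
    · simp [h, hz p h]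
    · simp [h]
  · rintro ⟨y, rfl⟩ p hp
    simp [hp]

end Slice

variable {κ : Type} [Fintype κ] [DecidableEq κ]

section
variable {T : κ → Prop} [DecidablePred T]

lemma row_sweep' {wt : Fin n × κ → G → ℤ} {r : Fin n → G} (h : RowW wt T r) (hw : PosW wt)
    {Z : Set (Fin n × κ → ℚ)} (hP : Prm Z) (hT : TorSt wt Z) (hL : LowSt T Z) {D : ℤ}
    {C : MvPolynomial G ℤ} (hC : MD wt (VI Z) D C) {b a : Fin n} (hab : a.1 = b.1 + 1) :
    ∃ Z' : Set (Fin n × κ → ℚ), Prm Z' ∧ TorSt wt Z' ∧ LowSt T Z' ∧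
      (∀ θ : (Fin n × κ → ℚ) → Fin n × κ → ℚ, (∀ g M, θ (act T g M) = act T g (θ M)) →
        (∀ M ∈ Z, θ M ∈ Z) → ∀ M ∈ Z', θ M ∈ Z') ∧ ∃ ρ : ℕ, 0 < ρ ∧ ∃ C',
        MD wt (VI Z') (D + 1) C' ∧ (X (r b) - X (r a)) * ((ρ : MvPolynomial G ℤ) * C') =
          C - rename (Equiv.swap (r a) (r b)) C := by
  have hZ := hP.prime
  have hlt : b < a := by rw [Fin.lt_def]; omega
  have hne : a ≠ b := hlt.ne'
  have eA : ∀ c M, sh (fun p => p.1 = a ∧ T p.2) (swp T a b) c M
      = act T (transvection a b c) M := by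
    intro c M; funext p
    rw [act_transvection, sh]
    split_ifs with hp
    · simp [swp, hp.1, hp.2]
    · rfl
  have eB : ∀ c M, sh (fun p => p.1 = b ∧ T p.2) (swp T a b) c M
      = act T (transvection b a c) M := by
    intro c M; funext p
    rw [act_transvection, sh]
    split_ifs with hp
    · simp [swp, hp.1, hp.2]
    · rfl
  have eW : ∀ M : Fin n × κ → ℚ, M ∘ swp T a b = act T (swm a b) M := by
    intro M; funext p
    by_cases hp : T p.2 <;> simp [swp, act, swm, hp]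
  obtain ⟨e1, -, e3⟩ := (h.pair hne).sweep hw hZ hT
    (fun c z hz => eA c z ▸ hL _ (low_transvection hlt c) z hz) hC
  have e4 : VI {y | ∃ g, Par b a g ∧ ∃ M ∈ Z, y = act T g M} =
      VI (swept (fun p => p.1 = b ∧ T p.2) (swp T a b) Z) := by
    refine le_antisymm (VI_anti ?_) ?_
    · rintro _ ⟨τ, z, hz, rfl⟩
      exact ⟨_, par_transvection b a τ, z, hz, eB τ z⟩
    · rintro f hf _ ⟨g, hg, M, hM, rfl⟩
      by_cases h0 : g a a = 0 ∧ g b a ≠ 0
      · rw [← e1] at hf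
        refine hf _ ⟨0, _, ⟨act T (swm a b * g) M, hL _ (((par_swm hab).mul hab hg).low ?_) M hM,
          rfl⟩, ?_⟩
        · rw [swm_mul, Equiv.swap_apply_right, h0.1]
        · beta_reduce
          rw [sh_zero, eW, ← act_mul, ← Matrix.mul_assoc, swm_swm, Matrix.one_mul]
      · refine hf _ ⟨g b a / g a a, act T (transvection b a (-(g b a / g a a)) * g) M,
          hL _ (((par_transvection b a _).mul hab hg).low ?_) M hM, ?_⟩
        · rw [transvection_mul_apply_same]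
          by_cases h1 : g a a = 0
          · have : g b a = 0 := by tauto
            simp [this]
          · field_simp; ring
        · rw [eB, ← act_mul, ← Matrix.mul_assoc, transvection_mul_transvection_same _ _ hne.symm,
            add_neg_cancel, transvection_zero, Matrix.one_mul]
  refine ⟨_, (swept_prm hP).congr e4, ?_, ?_, ?_, e4 ▸ e3⟩
  · rintro t _ ⟨g, hg, M, hM, rfl⟩
    refine ⟨Matrix.of fun i k => t (r i) * g i k / t (r k), fun i k hik hn => by
      simp [hg i k hik hn], _, hT t M hM, funext fun p => ?_⟩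
    by_cases hp : T p.2
    · simp only [tor, act, hp, if_true, mul_sum, of_apply]
      refine sum_congr rfl fun k _ => ?_
      have := congrArg (fun w => chi w t) (h.h2 p.1 k p.2 hp)
      simp only [chi_add, chi_single] at this
      rw [eq_div_of_mul_eq (t (r k)).ne_zero this]
      ring
    · simp [tor, act, hp]
  · rintro g' hg' _ ⟨g, hg, M, hM, rfl⟩
    exact ⟨g' * g, hg'.par.mul hab hg, M, hM, (act_mul _ _ _).symm⟩
  · rintro θ hθ hs _ ⟨g, hg, M, hM, rfl⟩
    exact ⟨g, hg, _, hs M hM, hθ g M⟩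

end

/-- Positions of the matrix `(φ | ψ)`. -/
abbrev Ps (n : ℕ) (κ : Type) := Fin n × (κ ⊕ Fin n)

/-- Stability under adding a left column of `ψ` to a right one. -/
def ColS (Z : Set (Ps n κ → ℚ)) : Prop := ∀ j k, k < j → ∀ c, ∀ M ∈ Z,
  sh (fun p : Ps n κ => p.2 = Sum.inr j) (fun p => (p.1, Sum.inr k)) c M ∈ Z

/-- The set cut out by the first Gauss steps. -/
def gz' (Z : Set (Ps n κ → ℚ)) (K : Finset (Fin n × Fin n)) : Set (Ps n κ → ℚ) :=
  {M | M ∈ Z ∧ ∀ p ∈ K, M (p.1, Sum.inr p.2) = 0 ∧ M (min p.1 p.2, Sum.inr (min p.1 p.2)) ≠ 0}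

lemma gz_insert' (Z : Set (Ps n κ → ℚ)) (K : Finset (Fin n × Fin n)) (p : Fin n × Fin n) :
    gz' Z (insert p K) = slc (gz' Z K) (p.1, Sum.inr p.2) (min p.1 p.2, Sum.inr (min p.1 p.2)) := by
  ext M; simp only [gz', slc, Set.mem_ofPred_eq, forall_mem_insert]; tauto

lemma gauss' {wt : Ps n κ → G → ℤ} {R : Type} [CommRing R] (hw : PosW wt)
    (hrow : ∀ i, ∃ g, ∀ q, wt q g = if q.1 = i then 1 else 0)
    (hcol : ∀ j, ∃ g, ∀ q, wt q g = if q.2 = Sum.inr j then 1 else 0)
    (ev : MvPolynomial G ℤ →+* R)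
    (hev : ∀ k, ev (lin (wt (k, Sum.inr k))) = 0) {Z : Set (Ps n κ → ℚ)} (hZ : Prm Z)
    (hT : TorSt wt Z) (hL : LowSt (fun _ => True) Z) (hc : ColS Z) {D : ℤ} {C : MvPolynomial G ℤ}
    (hC : MD wt (VI Z) D C) (K : Finset (Fin n × Fin n)) : (∀ p ∈ K, p.1 ≠ p.2) →
      (∀ p ∈ K, ∀ q : Fin n × Fin n, q.1 ≠ q.2 → min q.1 q.2 < min p.1 p.2 → q ∈ K) →
      (∏ p ∈ K, ev (lin (wt (p.1, Sum.inr p.2)))) * ev C = 0 ∨ ∃ D' C', Prm (gz' Z K) ∧
        TorSt wt (gz' Z K) ∧ MD wt (VI (gz' Z K)) D' C' ∧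
        ev C' = (∏ p ∈ K, ev (lin (wt (p.1, Sum.inr p.2)))) * ev C := by
  induction K using Finset.induction_on_max_value (fun p : Fin n × Fin n => min p.1 p.2) with
  | empty =>
    have : gz' Z ∅ = Z := by ext M; simp [gz']
    rw [this]
    exact fun _ _ => Or.inr ⟨D, C, hZ, hT, hC, by simp⟩
  | insert p K hp hmax ih =>
    intro h1 h2
    have h3 : ∀ q : Fin n × Fin n, q.1 ≠ q.2 → min q.1 q.2 < min p.1 p.2 → q ∈ K := by
      intro q hq hlt
      refine (mem_insert.1 (h2 p (mem_insert_self _ _) q hq hlt)).resolve_left ?_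
      rintro rfl; exact lt_irrefl _ hlt
    rw [prod_insert hp, mul_assoc, gz_insert']
    rcases ih (fun q hq => h1 q (mem_insert_of_mem hq))
      (fun p' hp' q hq hlt => h3 q hq (hlt.trans_le (hmax p' hp'))) with h0 | ⟨D', C', a1, a2, a3, a4⟩
    · left; rw [h0, mul_zero]
    rw [← a4]
    by_cases hX : X (min p.1 p.2, Sum.inr (min p.1 p.2)) ∈ VI (gz' Z K)
    · obtain ⟨c, hc⟩ := a3.dvd_of_mem hw a2.homog hX
      left; rw [hc, map_mul, hev, zero_mul, mul_zero]
    obtain ⟨A, _, sw, s1, s2, s3, s4, s5⟩ : ∃ (A : Ps n κ → Prop) (_ : DecidablePred A)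
        (sw : Ps n κ → Ps n κ), (∀ c, ∀ z ∈ gz' Z K, sh A sw c z ∈ gz' Z K) ∧ A (p.1, Sum.inr p.2) ∧
        sw (p.1, Sum.inr p.2) = (min p.1 p.2, Sum.inr (min p.1 p.2)) ∧
        ¬ A (min p.1 p.2, Sum.inr (min p.1 p.2)) ∧ ∃ g, ∀ q, wt q g = if A q then 1 else 0 := by
      rcases lt_or_gt_of_ne (h1 p (mem_insert_self _ _)) with hlt | hlt
      · simp only [min_eq_left hlt.le] at h3 hmax ⊢
        refine ⟨fun q => q.2 = Sum.inr p.2, inferInstance, fun q => (q.1, Sum.inr p.1), ?_, rfl,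
          rfl, by simpa using hlt.ne, hcol _⟩
        rintro c z ⟨hz, hK⟩
        refine ⟨hc _ _ hlt c z hz, fun q hq => ?_⟩
        have m1 := hmax q hq
        have m2 : min q.1 q.2 ≠ p.2 := (m1.trans_lt hlt).ne
        simp only [sh, (hK q hq).1, Sum.inr.injEq, m2, if_false, add_zero, zero_add]
        refine ⟨?_, (hK q hq).2⟩
        split_ifs with e
        · have m3 : q.1 ≠ p.1 := fun e' => hp (Prod.ext e' e ▸ hq)
          have m4 : q.1 < p.1 := by
            rw [e] at m1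
            exact lt_of_le_of_ne ((min_le_iff.1 m1).resolve_right hlt.not_ge) m3
          rw [(hK (q.1, p.1) (h3 _ m4.ne (min_lt_iff.2 (Or.inl m4)))).1, mul_zero]
        · rfl
      · simp only [min_eq_right hlt.le] at h3 hmax ⊢
        refine ⟨fun q => q.1 = p.1, inferInstance, fun q => (p.2, q.2), ?_, rfl,
          rfl, by simpa using hlt.ne, hrow _⟩
        rintro c z ⟨hz, hK⟩
        refine ⟨?_, fun q hq => ?_⟩
        · have : sh (fun q : Ps n κ => q.1 = p.1) (fun q => (p.2, q.2)) c z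
              = act (fun _ => True) (transvection p.1 p.2 c) z := by
            funext q; simp [act_transvection, sh]
          rw [this]; exact hL _ (low_transvection hlt c) z hz
        have m1 := hmax q hq
        have m2 : min q.1 q.2 ≠ p.1 := (m1.trans_lt hlt).ne
        simp only [sh, (hK q hq).1, m2, if_false, add_zero, zero_add]
        refine ⟨?_, (hK q hq).2⟩
        split_ifs with e
        · have m3 : q.2 ≠ p.2 := fun e' => hp (Prod.ext e e' ▸ hq)
          have m4 : q.2 < p.2 := by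
            rw [e] at m1
            exact lt_of_le_of_ne ((min_le_iff.1 m1).resolve_left hlt.not_ge) m3
          rw [(hK (p.2, q.2) (h3 _ m4.ne' (min_lt_iff.2 (Or.inr m4)))).1, mul_zero]
        · rfl
    obtain ⟨C₁, b1, c, b2⟩ := md_slc hw a1.prime a2 s1 s2 s3 s4 hX a3
    refine Or.inr ⟨_, C₁, slc_prm a1 a2 s5 s1 s2 s3 s4 hX, a2.slc _ _, b1, ?_⟩
    have := congrArg ev b2
    rw [map_mul, hev, zero_mul, map_sub, map_mul, sub_eq_zero] at this
    exact this.symm


/-- Grading variables: two sets of row variables and the column variables of `ψ`. -/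
abbrev Gv (n : ℕ) := (Bool × Fin n) ⊕ Fin n

/-- Which set of row variables a column uses. -/
def lab (lb : κ → Bool) : κ ⊕ Fin n → Bool := Sum.elim lb fun _ => false

/-- Weights of the entries. -/
def wS (lb : κ → Bool) (p : Ps n κ) : Gv n → ℤ := Pi.single (Sum.inl (lab lb p.2, p.1)) 1 +
  Sum.elim (fun _ => 0) (fun j => Pi.single (Sum.inr j) 1) p.2

lemma wS_inl (lb : κ → Bool) (p : Ps n κ) (β : Bool) (i : Fin n) :
    wS lb p (Sum.inl (β, i)) = if p.1 = i ∧ lab lb p.2 = β then 1 else 0 := by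
  obtain ⟨k, c | j⟩ := p <;> simp [wS, Pi.single_apply, eq_comm, and_comm]

lemma wS_inr (lb : κ → Bool) (p : Ps n κ) (j : Fin n) :
    wS lb p (Sum.inr j) = if p.2 = Sum.inr j then 1 else 0 := by
  obtain ⟨k, c | j'⟩ := p <;> simp [wS, Pi.single_apply, eq_comm]

lemma posW_wS (lb : κ → Bool) : PosW (wS (n := n) lb) := by
  refine ⟨?_, fun p => ⟨Sum.inl (lab lb p.2, p.1), by simp [wS_inl]⟩⟩
  rintro p (⟨β, i⟩ | j)
  · rw [wS_inl]; split_ifs <;> norm_num
  · rw [wS_inr]; split_ifs <;> norm_num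

lemma rowW_wS (lb : κ → Bool) (β : Bool) :
    RowW (wS (n := n) lb) (lab lb · = β) fun i => Sum.inl (β, i) where
  inj := fun i j h => by simpa using h
  h1 p i := wS_inl lb p β i
  h2 i k c h := by simp only [wS, h]; abel

lemma lin_wS_l (lb : κ → Bool) (i : Fin n) (c : κ) :
    lin (wS lb (i, Sum.inl c)) = X (Sum.inl (lb c, i)) := by simp [wS, lab, lin_single]

lemma lin_wS_r (lb : κ → Bool) (i j : Fin n) :
    lin (wS lb (i, Sum.inr j)) = X (Sum.inl (false, i)) + X (Sum.inr j) := by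
  simp [wS, lab, lin_single, lin_add]

/-- `P` is a positive multiple of the multidegree of a stable parametrised set. -/
def GeoK (lb : κ → Bool) (P : MvPolynomial (Gv n) ℤ) : Prop :=
  ∃ (Z : Set (Ps n κ → ℚ)) (D : ℤ) (ρ : ℕ) (C : MvPolynomial (Gv n) ℤ), Prm Z ∧ TorSt (wS lb) Z ∧
    (∀ β, LowSt (lab lb · = β) Z) ∧ ColS Z ∧ MD (wS lb) (VI Z) D C ∧ 0 < ρ ∧ P = ρ * C

variable {lb : κ → Bool} {P : MvPolynomial (Gv n) ℤ}

lemma GeoK.step (h : GeoK lb P) (β : Bool) {b a : Fin n} (hab : a.1 = b.1 + 1) :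
    ∃ P', GeoK lb P' ∧ (X (Sum.inl (β, b)) - X (Sum.inl (β, a))) * P'
      = P - rename (Equiv.swap (Sum.inl (β, a)) (Sum.inl (β, b))) P := by
  obtain ⟨Z, D, ρ, C, h1, h2, h3, h5, h6, h7, rfl⟩ := h
  obtain ⟨Z', a1, a2, a3, a4, ρ', a5, C', a6, a7⟩ :=
    row_sweep' (rowW_wS lb β) (posW_wS lb) h1 h2 (h3 β) h6 hab
  refine ⟨ρ * (ρ' * C'), ⟨Z', D + 1, ρ * ρ', C', a1, a2, fun β' => ?_,
    fun j k hjk c => a4 _ (fun g M => ?_) (h5 j k hjk c), a6, Nat.mul_pos h7 a5, ?_⟩, ?_⟩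
  · by_cases e : β' = β
    · exact e ▸ a3
    · exact fun g hg => a4 _ (fun g' M => act_comm (fun c h h' => e (h'.symm.trans h)) g' g M)
        (h3 β' g hg)
  · funext p
    by_cases hp : p.2 = Sum.inr j
    · cases β <;> simp [sh, act, hp, lab, mul_add, sum_add_distrib, mul_sum, mul_left_comm]
    · simp [sh, act, hp]
  · push_cast; ring
  · rw [map_mul, map_natCast, ← mul_sub, ← a7]; ring

lemma GeoK.col (h : GeoK lb P) (β : Bool) (k : ℕ) : GeoK (fun o : Option κ => o.elim β lb)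
    ((∏ i ∈ univ.filter (fun i : Fin n => i.1 < k), X (Sum.inl (β, i))) * P) := by
  obtain ⟨Z, D, ρ, C, h1, h2, h3, h5, h6, h7, rfl⟩ := h
  let ι : Ps n κ → Ps n (Option κ) := Prod.map id (Sum.map some id)
  have hι : Function.Injective ι := Function.injective_id.prodMap
    (Sum.map_injective.2 ⟨Option.some_injective _, Function.injective_id⟩)
  have e : wS (fun o : Option κ => o.elim β lb) ∘ ι = wS lb := by
    funext p; obtain ⟨i, c | j⟩ := p <;> rfl
  let K : Finset (Ps n (Option κ)) :=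
    (univ.filter fun i : Fin n => i.1 < k).image fun i => (i, Sum.inl none)
  have hK : ∀ p, ι p ∉ K := by rintro ⟨i, c | j⟩ <;> simp [ι, K]
  obtain ⟨D', hD⟩ := ex_md hι (posW_wS fun o : Option κ => o.elim β lb) h1 (e ▸ h2) (e ▸ h6) hK
  refine ⟨_, D', ρ, _, ex_prm hι h1 hK, ex_torSt (e ▸ h2) K, fun β' g hg y hy => ⟨?_, ?_⟩,
    fun j l hjl c y hy => ⟨?_, ?_⟩, hD, h7, ?_⟩
  · convert h3 β' g hg _ hy.1 using 1
    funext p; obtain ⟨i, c | j⟩ := p <;> rfl
  · intro q hq
    obtain ⟨i, hi, rfl⟩ := mem_image.1 hq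
    unfold act
    split_ifs
    · refine sum_eq_zero fun l _ => ?_
      by_cases hl : i < l
      · rw [hg _ _ hl, zero_mul]
      · rw [hy.2 _ (mem_image.2 ⟨l, ?_, rfl⟩), mul_zero]
        simp only [mem_filter, mem_univ, true_and, Fin.lt_def] at hi hl ⊢
        omega
    · exact hy.2 _ hq
  · convert h5 j l hjl c _ hy.1 using 1
    funext p; obtain ⟨i, c | j⟩ := p <;> simp [sh, ι]
  · intro q hq
    obtain ⟨i, hi, rfl⟩ := mem_image.1 hq
    simpa [sh] using hy.2 _ hq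
  · rw [prod_image fun _ _ _ _ e => (Prod.mk.inj e).1]
    simp only [lin_wS_l, Option.elim]; ring

lemma geoK_start : GeoK (n := n) (κ := Empty) Empty.elim
    (∏ p ∈ univ.filter (fun p : Fin n × Fin n => p.1.1 + p.2.1 < n - 1),
      (X (Sum.inl (false, p.1)) + X (Sum.inr p.2))) := by
  let K : Finset (Ps n Empty) := (univ.filter fun p : Fin n × Fin n => p.1.1 + p.2.1 < n - 1).image
    fun p => (p.1, Sum.inr p.2)
  have hK : ∀ i j, (i, Sum.inr j) ∈ K ↔ i.1 + j.1 < n - 1 := by simp [K]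
  obtain ⟨D, hD⟩ := md_coordSub (posW_wS (n := n) (κ := Empty) Empty.elim) K
  refine ⟨_, D, 1, _, coordSub_prm _, coordSub_torSt _ _, ?_, ?_, hD, one_pos, ?_⟩
  · rintro β g hg M hM ⟨i, c | j⟩ hp
    · exact c.elim
    unfold act
    split_ifs
    · refine sum_eq_zero fun k _ => ?_
      by_cases hk : i < k
      · rw [hg _ _ hk, zero_mul]
      · rw [hM (k, Sum.inr j), mul_zero]
        rw [hK] at hp ⊢
        rw [Fin.lt_def] at hk
        omega
    · exact hM _ hp
  · rintro j k hjk c M hM ⟨i, c | l⟩ hp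
    · exact c.elim
    simp only [sh, hM _ hp, zero_add]
    split_ifs with h
    · rw [hM (i, Sum.inr k), mul_zero]
      rw [hK] at hp ⊢
      rw [Fin.lt_def, ← Sum.inr.inj h] at hjk
      omega
    · rfl
  · rw [prod_image fun p _ q _ e => Prod.ext (Prod.mk.inj e).1 (Sum.inr.inj (Prod.mk.inj e).2)]
    simp [lin_wS_r]

/-- Identification of the two sets of row variables. -/
def mg : Gv n → Gv n := Sum.map (fun p => (false, p.2)) id

lemma GeoK.merge (h : GeoK lb P) : GeoK (fun _ : κ => false) (rename mg P) := by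
  obtain ⟨Z, D, ρ, C, h1, h2, h3, h5, h6, h7, rfl⟩ := h
  have t2 : TorSt (wS fun _ : κ => false) Z := fun t z hz => by
    have : tor (wS fun _ : κ => false) t z = tor (wS lb) (t ∘ mg) z := by
      funext p; obtain ⟨i, c | j⟩ := p <;> simp [tor, wS, lab, chi_add, chi_single, mg]
    rw [this]; exact h2 _ z hz
  refine ⟨Z, D, ρ, _, h1, t2, fun β g hg M hM => ?_, h5, h6.regrade (posW_wS _) (posW_wS _)
    h2.homog t2.homog (rename mg).toRingHom ?_, h7, by simp⟩
  · cases β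
    · convert h3 true g hg _ (h3 false g hg M hM) using 1
      funext p; obtain ⟨i, c | j⟩ := p
      · cases hc : lb c <;> simp [act, lab, hc]
      · simp [act, lab]
    · convert hM using 1
      funext p; obtain ⟨i, c | j⟩ := p <;> simp [act, lab]
  · rintro ⟨i, c | j⟩ <;> simp [lin_wS_l, lin_wS_r, mg]

end Pool.Agent.K9c
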