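import Pool.Agent.Lib.MP_9c9c2f_co.HCut

/-! Incidence varieties and log-concavity of the derivatives of the volume polynomial. -/

set_option linter.unusedSectionVars false
set_option linter.style.haveILetI false

namespace Pool.Agent.K9c
open MvPolynomial Finset Filter Topology Module

variable {σ G : Type} [Fintype σ] [DecidableEq σ] [Fintype G] [DecidableEq G]

/-- Pairs of a point of `Z` and a linear form vanishing on its coordinates of degree `g`. -/
def inc (ρ : σ → G) (g : G) (Z : Set (σ → ℚ)) : Set (σ ⊕ {p // ρ p = g} → ℚ) :=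
  {y | ∃ z ∈ Z, ∃ A : {p // ρ p = g} × {p // ρ p = g} → ℚ,
    y = Sum.elim z fun c => ∑ c', (A (c, c') - A (c', c)) * z c'}

/-- The incidence form. -/
noncomputable def incF (ρ : σ → G) (g : G) : MvPolynomial (σ ⊕ {p // ρ p = g}) ℚ :=
  ∑ c : {p // ρ p = g}, X (Sum.inl c.1) * X (Sum.inr c)

lemma eval_incF (ρ : σ → G) (g : G) (y : σ ⊕ {p // ρ p = g} → ℚ) :
    eval y (incF ρ g) = ∑ c : {p // ρ p = g}, y (Sum.inl c.1) * y (Sum.inr c) := by simp [incF]

variable {ρ : σ → G} {g : G} {Z : Set (σ → ℚ)}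

lemma mem_inc {y : σ ⊕ {p // ρ p = g} → ℚ} (h1 : y ∘ Sum.inl ∈ Z) (h2 : eval y (incF ρ g) = 0)
    {c₀ : {p // ρ p = g}} (h3 : y (Sum.inl c₀.1) ≠ 0) : y ∈ inc ρ g Z := by
  refine ⟨_, h1, fun p => if p.2 = c₀ then y (Sum.inr p.1) / y (Sum.inl c₀.1) else 0, funext ?_⟩
  rintro (p | c)
  · rfl
  rw [eval_incF] at h2
  simp only [Sum.elim_inr, sub_mul, sum_sub_distrib, ite_mul, zero_mul, sum_ite_eq', mem_univ,
    if_true, Function.comp_apply, div_mul_cancel₀ _ h3]
  split_ifs
  · simp only [div_mul_eq_mul_div, ← sum_div, mul_comm (y (Sum.inr _)), h2, zero_div, sub_zero]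
  · simp

lemma inc_step {θ : G} (hZ : Prm Z) (hT : TorSt (pw ρ) Z) {D : ℤ} {C : MvPolynomial G ℤ}
    (h : MD (pw ρ) (VI Z) D C) {c₀ : {p // ρ p = g}} (h0 : X c₀.1 ∉ VI Z) :
    Prm (inc ρ g Z) ∧ TorSt (pw (Sum.elim ρ fun _ => θ)) (inc ρ g Z) ∧
      ∃ D' C', MD (pw (Sum.elim ρ fun _ => θ)) (VI (inc ρ g Z)) D' C' ∧
        X g ^ cn ρ univ g ∣ (X g + X θ) * C - C' := by
  set ρ' : σ ⊕ {p // ρ p = g} → G := Sum.elim ρ fun _ => θ
  have hw := posW_pw ρ'
  have t1 : TorSt (pw ρ') (inc ρ g Z) := by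
    rintro t _ ⟨z, hz, A, rfl⟩
    refine ⟨_, hT t z hz, fun p => A p * t θ / t g, funext ?_⟩
    rintro (p | c)
    · rfl
    simp only [tor, pw, ρ', chi_single, Sum.elim_inr, mul_sum]
    refine sum_congr rfl fun c' _ => ?_
    rw [c'.2]; field_simp
  refine ⟨hZ.image2 (fun z (A : {p // ρ p = g} × {p // ρ p = g} → ℚ) =>
    Sum.elim z fun c => ∑ c', (A (c, c') - A (c', c)) * z c') ?_, t1, ?_⟩
  · rintro (p | c)
    · exact IsPoly.coord _
    · exact IsPoly.sum _ fun c' => ((IsPoly.coord _).sub (IsPoly.coord _)).mul (IsPoly.coord _)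
  obtain ⟨D₁, h1⟩ := ex_md (ι := Sum.inl) Sum.inl_injective hw hZ hT h (K := ∅) (by simp)
  have p1 := (ex_prm (ι := (Sum.inl : σ → σ ⊕ {p // ρ p = g})) Sum.inl_injective hZ (K := ∅)
    (by simp)).prime
  have t0 := (ex_torSt (wt := pw ρ') (ι := Sum.inl) hT ∅).homog
  have hf : incF ρ g ∈ Vd (pw ρ') (Pi.single g 1 + Pi.single θ 1) :=
    Submodule.sum_mem _ fun c _ => by
      have := (isWeightedHomogeneous_X ℚ (pw ρ') (Sum.inl c.1)).mul
        (isWeightedHomogeneous_X ℚ (pw ρ') (Sum.inr c))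
      simp only [pw, ρ', Sum.elim_inl, Sum.elim_inr, c.2] at this
      exact this
  have hn : incF ρ g ∉ VI (ex Sum.inl ∅ Z) := fun hn => h0 fun z hz => by
    have := hn (Sum.elim z (Pi.single c₀ 1)) ⟨hz, by simp⟩
    simpa [eval_incF, Pi.single_apply] using this
  obtain ⟨C', h2, h3⟩ := (h1.cut' hw p1 t0 hf hn).sat' hw (t0.sup_span hf) t1.homog
    (sup_le (VI_anti (by rintro _ ⟨z, hz, A, rfl⟩; exact ⟨hz, by simp⟩))
      ((Ideal.span_singleton_le_iff_mem _).2 (by
        rintro _ ⟨z, hz, A, rfl⟩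
        simp only [eval_incF, Sum.elim_inl, Sum.elim_inr, mul_sum, sub_mul, mul_sub,
          sum_sub_distrib]
        rw [sum_comm, sub_eq_zero]
        exact sum_congr rfl fun c _ => sum_congr rfl fun c' _ => by ring)))
    ((univ.filter (ρ · = g)).image Sum.inl) (by
      intro q hq F hF
      obtain ⟨p, hp, rfl⟩ := mem_image.1 hq
      by_cases hX : X (Sum.inl p) ∈ VI (ex (Sum.inl : σ → σ ⊕ {p // ρ p = g}) ∅ Z)
      · exact ⟨1, by rw [pow_one]; exact Submodule.mem_sup_left (Ideal.mul_mem_right _ _ hX)⟩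
      let c : {p // ρ p = g} := ⟨p, (mem_filter.1 hp).2⟩
      obtain ⟨N, P, a1, a2⟩ := upd_rat (Sum.inr c) (Sum.inl p) (incF ρ g) F
      have hP : P ∈ VI (ex Sum.inl ∅ Z) := mem_VI_of_ne p1 hX fun y hy y0 => by
        rw [eval_X] at y0
        rw [← a1 y y0, hF _ (mem_inc ?_ ?_ (c₀ := c) (by simpa using y0)), zero_mul]
        · rw [Function.update_comp_eq_of_forall_ne _ _ (by simp)]; exact hy.1
        · have : ∀ v c', Function.update y (Sum.inr c) v (Sum.inr c')
              = y (Sum.inr c') + if c' = c then v - y (Sum.inr c) else 0 := fun v c' => by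
            by_cases e : c' = c <;> simp [e]
          simp only [eval_incF, ne_eq, reduceCtorEq, not_false_eq_true, Function.update_of_ne, this,
            mul_add, sum_add_distrib, mul_ite, mul_zero, sum_ite_eq', mem_univ, if_true]
          simp only [c]
          field_simp; ring
      have := Ideal.sub_mem _ (Submodule.mem_sup_left hP) (Submodule.mem_sup_right a2)
      exact ⟨N, by rwa [sub_sub_cancel] at this⟩)
  refine ⟨_, C', h2, ?_⟩
  rw [prod_image fun _ _ _ _ e => Sum.inl_injective e, prod_congr rfl (g := fun _ => X g)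
    (fun q hq => by rw [lin_pw]; exact congrArg X (mem_filter.1 hq).2), prod_const, lin_add, lin_single,
    lin_single, prod_empty, one_mul] at h3
  exact h3

/-- All multiples of `P` have volume zero. -/
def Nul (M : G → ℤ) (P : MvPolynomial G ℤ) : Prop := ∀ Q a, vol M a (Q * P) = 0

lemma Nul.add {M : G → ℤ} {P P' : MvPolynomial G ℤ} (h : Nul M P) (h' : Nul M P') :
    Nul M (P + P') := fun Q a => by rw [mul_add, map_add, h, h', add_zero]

lemma Nul.of_dvd {M : G → ℤ} {P P' : MvPolynomial G ℤ} (h : Nul M P) (h' : P ∣ P') :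
    Nul M P' := fun Q a => by
  obtain ⟨c, rfl⟩ := h'
  rw [mul_comm P, ← mul_assoc, h]

lemma nul_X {M : G → ℤ} {m : ℕ} (h : M g = m) : Nul M (X g ^ m) := by
  intro Q a
  induction Q using MvPolynomial.induction_on' with
  | monomial β c =>
    rw [X_pow_eq_monomial, monomial_mul, vol_monomial, prod_eq_zero (mem_univ g), mul_zero]
    refine wq_neg ?_ _
    simp only [h, Finsupp.add_apply, Finsupp.single_eq_same]; omega
  | add P Q hP hQ => rw [add_mul, map_add, hP, hQ, add_zero]

lemma wq_tendsto (R j : ℕ) :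
    Tendsto (fun s : ℝ => wq (R - j) s / s ^ R) atTop (𝓝 (wq (-j) 1 / R.factorial)) := by
  rcases j with _ | j
  · simp only [Nat.cast_zero, sub_zero, wq_nat, neg_zero]
    rw [show wq 0 1 = 1 by simp [wq]]
    refine tendsto_const_nhds.congr' ?_
    filter_upwards [eventually_gt_atTop 0] with s hs
    field_simp
  rw [wq_neg (by omega), zero_div]
  by_cases h : j + 1 ≤ R
  · have := (tendsto_pow_div_pow_atTop_zero (𝕜 := ℝ) (p := R - (j + 1)) (q := R)
      (by omega)).div_const ((R - (j + 1)).factorial : ℝ)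
    rw [zero_div] at this
    refine this.congr fun s => ?_
    rw [← Nat.cast_sub h, wq_nat]; ring
  · simp [wq_neg (show (R : ℤ) - (j + 1) < 0 by omega)]

lemma vol_tendsto {M M' : Option G → ℤ} (h1 : ∀ g, M' (some g) = M (some g)) (h2 : M none = 1)
    {R : ℕ} (h3 : M' none = R + 1) (a : G → ℝ) (P : MvPolynomial (Option G) ℤ) :
    Tendsto (fun s : ℝ => vol M' (fun o => o.elim s a) P / s ^ R) atTop
      (𝓝 (vol M (fun o => o.elim 1 a) P / R.factorial)) := by
  induction P using MvPolynomial.induction_on' with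
  | monomial β c =>
    simp only [vol_monomial, Fintype.prod_option, h1, h2, h3, Option.elim, add_sub_cancel_right,
      sub_self, zero_sub]
    convert ((wq_tendsto R (β none)).mul_const
      (∏ g, wq (M (some g) - 1 - β (some g)) (a g))).const_mul (c : ℝ) using 2 <;> ring
  | add P Q hP hQ => simpa only [map_add, add_div] using hP.add hQ

lemma vol_rename {M : Option G → ℤ} (h2 : M none = 1) (a : Option G → ℝ)
    (P : MvPolynomial G ℤ) : vol M a (rename some P) = vol (M ∘ some) (a ∘ some) P := by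
  induction P using MvPolynomial.induction_on' with
  | monomial β c =>
    rw [rename_monomial, vol_monomial, vol_monomial, Fintype.prod_option,
      Finsupp.mapDomain_of_notMem_range _ _ (by simp), h2]
    simp [Finsupp.mapDomain_apply (Option.some_injective G), wq]
  | add P Q hP hQ => simp only [map_add, hP, hQ]

/-- `P` is, up to terms of volume zero, the multidegree of a parametrised set. -/
def Inc (M : G → ℕ) (P : MvPolynomial G ℤ) : Prop :=
  Nul (fun o : Option G => o.elim 1 fun g => M g) (rename some P) ∨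
    ∃ (σ' : Type) (_ : Fintype σ') (_ : DecidableEq σ') (ρ' : σ' → Option G) (Z' : Set (σ' → ℚ))
      (D' : ℤ) (C' : MvPolynomial (Option G) ℤ), Prm Z' ∧ TorSt (pw ρ') Z' ∧
      MD (pw ρ') (VI Z') D' C' ∧ (∀ g, cn ρ' univ (some g) = M g) ∧ 0 < cn ρ' univ none ∧
      Nul (fun o : Option G => o.elim 1 fun g => M g) (rename some P - C')

lemma cn_sum {τ : Type} [Fintype τ] [DecidableEq τ] (ρ : σ → G) (ρ' : τ → G) (g : G) :
    cn (Sum.elim ρ ρ') univ g = cn ρ univ g + cn ρ' univ g := by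
  simp only [cn, card_filter, Fintype.sum_sum_type]
  rfl

lemma inc_start (hZ : Prm Z) (hT : TorSt (pw ρ) Z) {D : ℤ} {C : MvPolynomial G ℤ}
    (h : MD (pw ρ) (VI Z) D C) : Inc (cn ρ univ) C := by
  have t1 : TorSt (pw (some ∘ ρ)) Z := fun t z hz => by
    have : tor (pw (some ∘ ρ)) t z = tor (pw ρ) (t ∘ some) z := by
      funext p; simp [tor, pw, chi_single]
    rw [this]; exact hT _ z hz
  have h1 := h.regrade' (posW_pw ρ) (posW_pw (some ∘ ρ)) hT.homog t1.homog
    (rename some).toRingHom fun q => by simp [lin_pw]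
  obtain ⟨D₁, h2⟩ := ex_md (ι := Sum.inl) (wt := pw (Sum.elim (some ∘ ρ) fun _ : Unit => none))
    Sum.inl_injective (posW_pw _) hZ t1 h1 (K := ∅) (by simp)
  refine Or.inr ⟨σ ⊕ Unit, inferInstance, inferInstance, _, _, D₁, _,
    ex_prm Sum.inl_injective hZ (by simp),
    ex_torSt (wt := pw (Sum.elim (some ∘ ρ) fun _ : Unit => none)) (ι := Sum.inl) t1 _, h2,
    fun g => ?_, ?_, fun Q a => by simp⟩
  · rw [cn_sum]; simp [cn]
  · rw [cn_sum]; simp [cn]

lemma Inc.step {M : G → ℕ} {P : MvPolynomial G ℤ} (h : Inc M P) (g : G) : Inc M (X g * P) := by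
  rcases h with h | ⟨σ', _, _, ρ', Z', D', C', h1, h2, h3, h4, h5, h6⟩
  · exact Or.inl (h.of_dvd (by rw [map_mul]; exact dvd_mul_left _ _))
  have n1 : Nul (fun o : Option G => o.elim 1 fun g => M g) (X (some g) ^ cn ρ' univ (some g)) :=
    nul_X (by rw [h4]; rfl)
  by_cases h0 : ∀ c : {p // ρ' p = some g}, X c.1 ∈ VI Z'
  · have := h3.dvd_of_mem' (posW_pw _) h2.homog (univ.filter (ρ' · = some g))
      fun q hq => h0 ⟨q, (mem_filter.1 hq).2⟩
    rw [prod_congr rfl (g := fun _ => X (some g)) (fun q hq => by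
      rw [lin_pw, (mem_filter.1 hq).2]), prod_const] at this
    have := h6.add (n1.of_dvd this)
    rw [sub_add_cancel] at this
    exact Or.inl (this.of_dvd (by rw [map_mul]; exact dvd_mul_left _ _))
  obtain ⟨c₀, h0⟩ := not_forall.1 h0
  obtain ⟨a1, a2, D'', C'', a3, a4⟩ := inc_step (θ := none) h1 h2 h3 h0
  refine Or.inr ⟨_, inferInstance, inferInstance, _, _, D'', C'', a1, a2, a3, fun g' => ?_, ?_, ?_⟩
  · rw [cn_sum, h4]; simp [cn]
  · rw [cn_sum]; omega
  have n2 : Nul (fun o : Option G => o.elim 1 fun g => M g) (X none ^ 1) := nul_X rfl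
  convert ((h6.of_dvd (dvd_mul_left _ (X (some g)))).add (n1.of_dvd a4)).add
    (n2.of_dvd (dvd_mul_right _ (-C'))) using 1
  rw [map_mul, rename_X]; ring

lemma Inc.ineq {M : G → ℕ} {P : MvPolynomial G ℤ} (h : Inc M P) {a b : G → ℕ} (ha : ∀ g, 0 < a g)
    (hb : ∀ g, 0 < b g) :
    vol (fun g => M g) (fun g => 2 * a g) P * vol (fun g => M g) (fun g => 2 * b g) P
      ≤ vol (fun g => M g) (fun g => a g + b g) P ^ 2 := by
  have e : ∀ a : G → ℝ, vol (fun g => M g) a P = vol (fun o : Option G => o.elim 1 fun g => M g)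
      (fun o => o.elim 1 a) (rename some P) := fun a => by rw [vol_rename rfl]; rfl
  rw [e, e, e]
  rcases h with h | ⟨σ', _, _, ρ', Z', D', C', h1, h2, h3, h4, h5, h6⟩
  · have := h 1
    simp only [one_mul] at this
    rw [this, this, this]; simp
  have e2 := h6 1
  simp only [one_mul, map_sub, sub_eq_zero] at e2
  rw [e2, e2, e2]
  obtain ⟨R, hR⟩ : ∃ R, cn ρ' univ none = R + 1 := ⟨_, (Nat.succ_pred_eq_of_pos h5).symm⟩
  have T := fun a : G → ℝ => (vol_tendsto (M := fun o : Option G => o.elim 1 fun g => M g)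
    (M' := fun o => cn ρ' univ o) (fun g => by rw [h4]; rfl) rfl (R := R) (by rw [hR]; rfl)
      a C').comp (tendsto_natCast_atTop_atTop.const_mul_atTop two_pos)
  have := le_of_tendsto_of_tendsto ((T fun g => 2 * a g).mul (T fun g => 2 * b g))
    ((T fun g => a g + b g).pow 2) (by
    filter_upwards [eventually_gt_atTop 0] with s hs
    simp only [Function.comp_apply]
    rw [div_mul_div_comm, div_pow, ← sq]
    refine div_le_div_of_nonneg_right ?_ (sq_nonneg _)
    have := vol_bm ρ' h1 h2 h3 (a := fun o => o.elim s a) (b := fun o => o.elim s b)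
      (by rintro (_ | g); exacts [hs, ha g]) (by rintro (_ | g); exacts [hs, hb g])
    have f1 : ∀ a : G → ℕ, (fun o : Option G => (2 : ℝ) * ((o.elim s a : ℕ) : ℝ))
        = fun o => o.elim (2 * (s : ℝ)) fun g => 2 * a g := fun a => by
      funext o; cases o <;> rfl
    have f2 : (fun o : Option G => ((o.elim s a : ℕ) : ℝ) + (o.elim s b : ℕ))
        = fun o => o.elim (2 * (s : ℝ)) fun g => a g + b g := by
      funext o; cases o
      exacts [(two_mul _).symm, rfl]
    rw [f1, f1, f2] at this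
    exact this)
  rwa [div_mul_div_comm, div_pow, ← sq, div_le_div_iff_of_pos_right (by positivity)] at this

theorem vol_lor (hZ : Prm Z) (hT : TorSt (pw ρ) Z) {D : ℤ} {C : MvPolynomial G ℤ}
    (h : MD (pw ρ) (VI Z) D C) (α : G →₀ ℕ) {a b : G → ℕ} (ha : ∀ g, 0 < a g)
    (hb : ∀ g, 0 < b g) :
    vol (fun g => cn ρ univ g) (fun g => 2 * a g) (monomial α 1 * C) *
      vol (fun g => cn ρ univ g) (fun g => 2 * b g) (monomial α 1 * C)
      ≤ vol (fun g => cn ρ univ g) (fun g => a g + b g) (monomial α 1 * C) ^ 2 := by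
  refine Inc.ineq ?_ ha hb
  induction α using Finsupp.induction with
  | zero => simpa using inc_start hZ hT h
  | single_add g k α _ _ ih =>
    rw [monomial_single_add, mul_assoc]
    clear * - ih
    induction k with
    | zero => simpa using ih
    | succ k ih' => rw [pow_succ', mul_assoc]; exact ih'.step g

end Pool.Agent.K9c
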