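import Mathlib

/-! A discrete Prékopa–Leindler inequality in a rational vector space. -/

set_option linter.style.haveILetI false

namespace Pool.Agent.K9c
open Finset MeasureTheory Pointwise

lemma layer {Γ : Type} (A : Finset Γ) (f : Γ → ℝ) (hf : ∀ x, 0 ≤ f x) :
    ∫⁻ t : ℝ, (((A.filter fun x => 0 < t ∧ t ≤ f x).card : ℕ) : ENNReal)
      = ENNReal.ofReal (∑ x ∈ A, f x) := by
  rw [ENNReal.ofReal_sum_of_nonneg fun x _ => hf x]
  have e : ∀ t : ℝ, (((A.filter fun x => 0 < t ∧ t ≤ f x).card : ℕ) : ENNReal)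
      = ∑ x ∈ A, (Set.Ioc 0 (f x)).indicator 1 t := by
    intro t
    rw [card_filter]
    push_cast
    refine sum_congr rfl fun x _ => ?_
    simp [Set.indicator_apply]
  simp only [e]
  rw [lintegral_finsetSum _ fun x _ => measurable_one.indicator measurableSet_Ioc]
  refine sum_congr rfl fun x _ => ?_
  rw [lintegral_indicator_one measurableSet_Ioc, Real.volume_Ioc, sub_zero]

lemma layer_meas {Γ : Type} (A : Finset Γ) (f : Γ → ℝ) :
    Measurable fun t : ℝ => (((A.filter fun x => 0 < t ∧ t ≤ f x).card : ℕ) : ENNReal) := by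
  have e : (fun t : ℝ => (((A.filter fun x => 0 < t ∧ t ≤ f x).card : ℕ) : ENNReal))
      = fun t => ∑ x ∈ A, (Set.Ioc 0 (f x)).indicator 1 t := by
    funext t
    rw [card_filter]
    push_cast
    refine sum_congr rfl fun x _ => ?_
    simp [Set.indicator_apply]
  rw [e]
  exact Finset.measurable_sum _ fun x _ => measurable_one.indicator measurableSet_Ioc

lemma pl_norm {Γ : Type} [AddCommGroup Γ] [Module ℚ Γ] {v : Γ} (hv : v ≠ 0) (A B S : Finset Γ)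
    (f g h : Γ → ℝ) (hf : ∀ x, 0 ≤ f x) (hg : ∀ x, 0 ≤ g x) (hh : ∀ x, 0 ≤ h x)
    (f1 : ∀ x ∈ A, f x ≤ 1) (g1 : ∀ x ∈ B, g x ≤ 1) {a₀ b₀ : Γ} (ha : a₀ ∈ A) (hb : b₀ ∈ B)
    (fa : f a₀ = 1) (gb : g b₀ = 1)
    (H : ∀ a ∈ A, ∀ b ∈ B, ∀ u, u = 0 ∨ u = v → a + b + u ∈ S ∧ f a * g b ≤ h (a + b + u) ^ 2) :
    ∑ x ∈ A, f x + ∑ x ∈ B, g x ≤ ∑ x ∈ S, h x := by
  classical
  haveI : IsAddTorsionFree Γ := IsAddTorsionFree.of_module_rat Γ
  rw [← ENNReal.ofReal_le_ofReal_iff (sum_nonneg fun x _ => hh x),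
    ENNReal.ofReal_add (sum_nonneg fun x _ => hf x) (sum_nonneg fun x _ => hg x),
    ← layer A f hf, ← layer B g hg, ← layer S h hh, ← lintegral_add_left (layer_meas A f)]
  refine lintegral_mono fun t => ?_
  simp only
  rw [← Nat.cast_add, Nat.cast_le]
  by_cases ht : 0 < t ∧ t ≤ 1
  · set A' := A.filter fun x => 0 < t ∧ t ≤ f x
    set B' := B.filter fun x => 0 < t ∧ t ≤ g x
    have nA : A'.Nonempty := ⟨a₀, mem_filter.2 ⟨ha, ht.1, fa ▸ ht.2⟩⟩
    have nB : B'.Nonempty := ⟨b₀, mem_filter.2 ⟨hb, ht.1, gb ▸ ht.2⟩⟩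
    have c1 := cauchy_davenport_of_isAddTorsionFree nA nB
    have c2 := cauchy_davenport_of_isAddTorsionFree (nA.add nB) (insert_nonempty 0 {v})
    rw [card_pair hv.symm] at c2
    have c3 := nA.card_pos
    refine le_trans (by omega : _ ≤ (A' + B' + {0, v}).card) (card_le_card fun z hz => ?_)
    obtain ⟨y, hy, u, hu, rfl⟩ := mem_add.1 hz
    obtain ⟨a, ha, b, hb, rfl⟩ := mem_add.1 hy
    obtain ⟨a1, -, a2⟩ := mem_filter.1 ha
    obtain ⟨b1, -, b2⟩ := mem_filter.1 hb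
    obtain ⟨h1, h2⟩ := H a a1 b b1 u (by simpa using hu)
    refine mem_filter.2 ⟨h1, ht.1, ?_⟩
    refine (pow_le_pow_iff_left₀ ht.1.le (hh _) two_ne_zero).1 (le_trans ?_ h2)
    rw [sq]; exact mul_le_mul a2 b2 ht.1.le (hf _)
  · have e1 : (A.filter fun x => 0 < t ∧ t ≤ f x) = ∅ :=
      filter_eq_empty_iff.2 fun x hx h => ht ⟨h.1, h.2.trans (f1 x hx)⟩
    have e2 : (B.filter fun x => 0 < t ∧ t ≤ g x) = ∅ :=
      filter_eq_empty_iff.2 fun x hx h => ht ⟨h.1, h.2.trans (g1 x hx)⟩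
    simp [e1, e2]

lemma exists_max_pos {Γ : Type} (A : Finset Γ) (f : Γ → ℝ) (hf : ∀ x, 0 ≤ f x) :
    ∑ x ∈ A, f x = 0 ∨ ∃ a ∈ A, 0 < f a ∧ ∀ x ∈ A, f x ≤ f a := by
  rcases A.eq_empty_or_nonempty with rfl | hA
  · simp
  obtain ⟨a, ha, hm⟩ := A.exists_max_image f hA
  rcases (hf a).eq_or_lt with h | h
  · exact Or.inl (sum_eq_zero fun x hx => le_antisymm (h ▸ hm x hx) (hf x))
  · exact Or.inr ⟨a, ha, h, hm⟩

lemma pl_one {Γ : Type} [AddCommGroup Γ] [Module ℚ Γ] {v : Γ} (hv : v ≠ 0) (A B S : Finset Γ)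
    (f g h : Γ → ℝ) (hf : ∀ x, 0 ≤ f x) (hg : ∀ x, 0 ≤ g x) (hh : ∀ x, 0 ≤ h x)
    (H : ∀ a ∈ A, ∀ b ∈ B, ∀ u, u = 0 ∨ u = v → a + b + u ∈ S ∧ f a * g b ≤ h (a + b + u) ^ 2) :
    4 * ((∑ x ∈ A, f x) * ∑ x ∈ B, g x) ≤ (∑ x ∈ S, h x) ^ 2 := by
  rcases exists_max_pos A f hf with h0 | ⟨a₀, ha, fa, f1⟩
  · rw [h0, zero_mul, mul_zero]; positivity
  rcases exists_max_pos B g hg with h0 | ⟨b₀, hb, gb, g1⟩
  · rw [h0, mul_zero, mul_zero]; positivity
  have hm : 0 < √(f a₀ * g b₀) := Real.sqrt_pos.2 (mul_pos fa gb)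
  have hq : √(f a₀ * g b₀) ^ 2 = f a₀ * g b₀ := Real.sq_sqrt (mul_pos fa gb).le
  have := pl_norm hv A B S (fun x => f x / f a₀) (fun x => g x / g b₀)
    (fun x => h x / √(f a₀ * g b₀)) (fun x => div_nonneg (hf x) fa.le)
    (fun x => div_nonneg (hg x) gb.le) (fun x => div_nonneg (hh x) hm.le)
    (fun x hx => (div_le_one fa).2 (f1 x hx)) (fun x hx => (div_le_one gb).2 (g1 x hx)) ha hb
    (div_self fa.ne') (div_self gb.ne') fun a ha b hb u hu => ⟨(H a ha b hb u hu).1, by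
      rw [div_pow, hq, div_mul_div_comm]
      exact div_le_div_of_nonneg_right (H a ha b hb u hu).2 (mul_pos fa gb).le⟩
  simp only [← sum_div] at this
  have p1 : 0 ≤ (∑ x ∈ A, f x) / f a₀ := div_nonneg (sum_nonneg fun x _ => hf x) fa.le
  have p2 : 0 ≤ (∑ x ∈ B, g x) / g b₀ := div_nonneg (sum_nonneg fun x _ => hg x) gb.le
  have c := pow_le_pow_left₀ (add_nonneg p1 p2) this 2
  rw [div_pow, hq, le_div_iff₀ (mul_pos fa gb)] at c
  refine le_trans ?_ c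
  have e : 4 * ((∑ x ∈ A, f x) * ∑ x ∈ B, g x)
      = 4 * ((∑ x ∈ A, f x) / f a₀ * ((∑ x ∈ B, g x) / g b₀)) * (f a₀ * g b₀) := by
    field_simp
  rw [e]
  refine mul_le_mul_of_nonneg_right ?_ (mul_pos fa gb).le
  nlinarith [sq_nonneg ((∑ x ∈ A, f x) / f a₀ - (∑ x ∈ B, g x) / g b₀)]

lemma pl_half {Γ : Type} [AddCommGroup Γ] (A S : Finset Γ) (f h : Γ → ℝ) (hf : ∀ x, 0 ≤ f x)
    (hh : ∀ x, 0 ≤ h x) (b : Γ) {c m : ℝ} (hc : 0 ≤ c) (hm : 0 < m) (f1 : ∀ x ∈ A, f x ≤ m)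
    (H : ∀ a ∈ A, a + b ∈ S ∧ f a * c ≤ h (a + b) ^ 2) :
    (∑ x ∈ A, f x) * √(c / m) ≤ ∑ x ∈ S, h x := by
  classical
  calc (∑ x ∈ A, f x) * √(c / m) ≤ ∑ x ∈ A, h (x + b) := by
        rw [sum_mul]
        refine sum_le_sum fun x hx => ?_
        refine (pow_le_pow_iff_left₀ (mul_nonneg (hf x) (Real.sqrt_nonneg _)) (hh _)
          two_ne_zero).1 (le_trans ?_ (H x hx).2)
        rw [mul_pow, Real.sq_sqrt (div_nonneg hc hm.le), sq, mul_assoc]
        refine mul_le_mul_of_nonneg_left ?_ (hf x)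
        rw [mul_div_assoc', div_le_iff₀ hm, mul_comm c]
        exact mul_le_mul_of_nonneg_right (f1 x hx) hc
    _ = ∑ x ∈ A.image (· + b), h x := (sum_image fun x _ y _ e => add_right_cancel e).symm
    _ ≤ _ := sum_le_sum_of_subset_of_nonneg (fun z hz => by
        obtain ⟨a, ha, rfl⟩ := mem_image.1 hz; exact (H a ha).1) fun x _ _ => hh x

lemma pl_zero {Γ : Type} [AddCommGroup Γ] (A B S : Finset Γ)
    (f g h : Γ → ℝ) (hf : ∀ x, 0 ≤ f x) (hg : ∀ x, 0 ≤ g x) (hh : ∀ x, 0 ≤ h x)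
    (H : ∀ a ∈ A, ∀ b ∈ B, a + b ∈ S ∧ f a * g b ≤ h (a + b) ^ 2) :
    (∑ x ∈ A, f x) * ∑ x ∈ B, g x ≤ (∑ x ∈ S, h x) ^ 2 := by
  rcases exists_max_pos A f hf with h0 | ⟨a₀, ha, fa, f1⟩
  · rw [h0, zero_mul]; positivity
  rcases exists_max_pos B g hg with h0 | ⟨b₀, hb, gb, g1⟩
  · rw [h0, mul_zero]; positivity
  have c1 := pl_half A S f h hf hh b₀ gb.le fa f1 fun a ha => H a ha b₀ hb
  have c2 := pl_half B S g h hg hh a₀ fa.le gb g1 fun b hb => by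
    rw [add_comm, mul_comm]; exact H a₀ ha b hb
  have c := mul_le_mul c1 c2 (mul_nonneg (sum_nonneg fun x _ => hg x) (Real.sqrt_nonneg _))
    (sum_nonneg fun x _ => hh x)
  rwa [mul_mul_mul_comm, ← Real.sqrt_mul (div_pos gb fa).le, div_mul_div_cancel₀ fa.ne',
    div_self gb.ne', Real.sqrt_one, mul_one, ← sq] at c

theorem pl_cube (r : ℕ) : ∀ (Γ : Type) [AddCommGroup Γ] [Module ℚ Γ] (v : Fin r → Γ),
    LinearIndependent ℚ v → ∀ (A B S : Finset Γ) (f g h : Γ → ℝ), (∀ x, 0 ≤ f x) →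
    (∀ x, 0 ≤ g x) → (∀ x, 0 ≤ h x) →
    (∀ a ∈ A, ∀ b ∈ B, ∀ ε : Fin r → Bool, a + b + ∑ i, cond (ε i) (v i) 0 ∈ S ∧
      f a * g b ≤ h (a + b + ∑ i, cond (ε i) (v i) 0) ^ 2) →
    4 ^ r * ((∑ x ∈ A, f x) * ∑ x ∈ B, g x) ≤ (∑ x ∈ S, h x) ^ 2 := by
  classical
  induction r with
  | zero =>
    intro Γ _ _ v _ A B S f g h hf hg hh H
    rw [pow_zero, one_mul]
    exact pl_zero A B S f g h hf hg hh fun a ha b hb => by simpa using H a ha b hb default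
  | succ r ih =>
    intro Γ _ _ v hv A B S f g h hf hg hh H
    have h0 : v 0 ≠ 0 := hv.ne_zero 0
    obtain ⟨h1, h2⟩ := linearIndependent_finSucc.1 hv
    set π := (Submodule.span ℚ {v 0}).mkQ with hπ
    have π0 : π (v 0) = 0 :=
      (Submodule.Quotient.mk_eq_zero _).2 (Submodule.mem_span_singleton_self _)
    have h3 : LinearIndependent ℚ (π ∘ Fin.tail v) :=
      h1.map (by rw [hπ, Submodule.ker_mkQ]; exact (Submodule.disjoint_span_singleton' h0).2 h2)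
    have := ih _ _ h3 (A.image π) (B.image π) (S.image π)
      (fun y => ∑ x ∈ A.filter (π · = y), f x) (fun y => ∑ x ∈ B.filter (π · = y), g x)
      (fun y => (∑ x ∈ S.filter (π · = y), h x) / 2) (fun y => sum_nonneg fun x _ => hf x)
      (fun y => sum_nonneg fun x _ => hg x)
      (fun y => div_nonneg (sum_nonneg fun x _ => hh x) zero_le_two) ?_
    · rw [← sum_div, sum_fiberwise_of_maps_to fun x hx => mem_image_of_mem π hx,
        sum_fiberwise_of_maps_to fun x hx => mem_image_of_mem π hx,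
        sum_fiberwise_of_maps_to fun x hx => mem_image_of_mem π hx] at this
      rw [pow_succ]; nlinarith
    intro a' ha' b' hb' ε
    set u := ∑ i, cond (ε i) (Fin.tail v i) 0 with hu
    have πu : π u = ∑ i, cond (ε i) ((π ∘ Fin.tail v) i) 0 := by
      rw [hu, map_sum]
      exact sum_congr rfl fun i _ => by cases ε i <;> simp
    have key : ∀ a ∈ A, ∀ b ∈ B, ∀ w, w = 0 ∨ w = v 0 → a + b + (w + u) ∈ S ∧
        f a * g b ≤ h (a + b + (w + u)) ^ 2 := by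
      rintro a ha b hb w (rfl | rfl)
      · simpa [Fin.sum_univ_succ, hu, Fin.tail] using H a ha b hb (Fin.cons false ε)
      · simpa [Fin.sum_univ_succ, hu, Fin.tail] using H a ha b hb (Fin.cons true ε)
    rw [← πu]
    constructor
    · obtain ⟨a, ha, rfl⟩ := mem_image.1 ha'
      obtain ⟨b, hb, rfl⟩ := mem_image.1 hb'
      refine mem_image.2 ⟨_, (key a ha b hb 0 (Or.inl rfl)).1, by simp⟩
    have c := pl_one h0 (A.filter (π · = a')) (B.filter (π · = b'))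
      ((S.filter (π · = a' + b' + π u)).image (· - u)) f g (fun x => h (x + u)) hf hg
      (fun x => hh _) (by
        intro a ha b hb w hw
        obtain ⟨a1, a2⟩ := mem_filter.1 ha
        obtain ⟨b1, b2⟩ := mem_filter.1 hb
        obtain ⟨k1, k2⟩ := key a a1 b b1 w hw
        refine ⟨mem_image.2 ⟨_, mem_filter.2 ⟨k1, ?_⟩, by abel⟩, by rwa [add_assoc (a + b)]⟩
        rcases hw with rfl | rfl <;> simp [a2, b2, π0])
    rw [sum_image fun x _ y _ e => sub_left_injective e] at c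
    simp only [sub_add_cancel] at c
    rw [div_pow]; linarith

theorem pl_card {r : ℕ} {Γ : Type} [AddCommGroup Γ] [Module ℚ Γ] {v : Fin r → Γ}
    (hv : LinearIndependent ℚ v) (A B S : Finset Γ)
    (H : ∀ a ∈ A, ∀ b ∈ B, ∀ ε : Fin r → Bool, a + b + ∑ i, cond (ε i) (v i) 0 ∈ S) :
    4 ^ r * (A.card * B.card) ≤ S.card ^ 2 := by
  have := pl_cube r Γ v hv A B S 1 1 1 (fun _ => zero_le_one) (fun _ => zero_le_one)
    (fun _ => zero_le_one) fun a ha b hb ε => ⟨H a ha b hb ε, by simp⟩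
  simp only [Pi.one_apply, sum_const, nsmul_eq_mul, mul_one] at this
  exact_mod_cast this

end Pool.Agent.K9c
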