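import Pool.Agent.Lib.MP_9c9c2f_co.HChain

/-! Skew divided differences as reciprocals of specialised multidegrees. -/

set_option linter.unusedSectionVars false
set_option linter.style.haveILetI false

namespace Pool.Agent.K9c
open MvPolynomial Finset Equiv

variable {n : ℕ}

/-- Evaluation at permuted variables. -/
noncomputable def iot (σ : Perm (Fin n)) : MvPolynomial (Fin n) ℤ →+* Lau n :=
  eval₂Hom (Int.castRingHom _) fun i => mn (Pi.single (σ i) 1)

/-- Evaluation at permuted variables, the extra variables going to the negatives. -/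
noncomputable def evx (σ : Perm (Fin n)) :
    MvPolynomial (Fin n) (MvPolynomial (Fin n) ℤ) →+* Lau n :=
  eval₂Hom (iot σ) fun j => -mn (Pi.single j 1)

/-- Evaluation at the reversed reciprocals. -/
noncomputable def rcp : MvPolynomial (Fin n) ℤ →+* Lau n :=
  eval₂Hom (Int.castRingHom _) fun k => mn (-Pi.single k.rev 1)

lemma iot_X (σ : Perm (Fin n)) (i : Fin n) : iot σ (X i) = mn (Pi.single (σ i) 1) := by simp [iot]

lemma evx_C (σ : Perm (Fin n)) (f : MvPolynomial (Fin n) ℤ) : evx σ (C f) = iot σ f := by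
  simp [evx]

lemma evx_X (σ : Perm (Fin n)) (j : Fin n) : evx σ (X j) = -mn (Pi.single j 1) := by simp [evx]

lemma iot_sx (σ : Perm (Fin n)) (i j : Fin n) (f : MvPolynomial (Fin n) ℤ) :
    iot σ (sx id i j f) = iot (σ * swap i j) f :=
  hom_ext' (φ := (iot σ).comp (sx id i j)) (ψ := iot (σ * swap i j)) (fun t => by simp [iot_X]) f

lemma evx_sx (σ : Perm (Fin n)) (i j : Fin n) (g : MvPolynomial (Fin n) (MvPolynomial (Fin n) ℤ)) :
    evx σ (MvPolynomial.map (sx id i j) g) = evx (σ * swap i j) g :=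
  hom_ext (φ := (evx σ).comp (MvPolynomial.map (sx id i j))) (ψ := evx (σ * swap i j))
    (fun t => by simp [evx_C, iot_X]) (fun t => by simp [evx_X]) g

lemma iot_prod (σ : Perm (Fin n)) (f : Fin n → ℕ) :
    iot σ (∏ i, X i ^ f i) = mn ((fun i => (f i : ℤ)) ∘ ⇑σ⁻¹) := by
  simp only [map_prod, map_pow, iot_X, ← mn_nsmul, ← mn_sum]
  congr 1
  funext k
  obtain ⟨k, rfl⟩ := σ.surjective k
  simp [Finset.sum_apply, Pi.single_apply]

lemma Rec.hT {K : Type} [CommRing K] {a : Fin n → K} {s : Fin n → Fin n → K →+* K}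
    {T : Perm (Fin n) → K} (h : Rec a s T) (e : Perm (Fin n) → K →+* Lau n)
    (e1 : ∀ σ i, e σ (a i) = mn (Pi.single (σ i) 1))
    (e2 : ∀ σ i j f, e σ (s i j f) = e (σ * swap i j) f) (β : Bool)
    (c : (Bool → Perm (Fin n)) → Lau n) (hc : ∀ ω s, c (Function.update ω β s) = c ω)
    (w : Perm (Fin n)) (i j : Fin n) (hij : j.1 = i.1 + 1) (hl : len (swap i j * w) < len w)
    (ω : Bool → Perm (Fin n)) :
    (mn (Pi.single (ω β i) 1) - mn (Pi.single (ω β j) 1)) * (c ω * e (ω β) (T w))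
      = c ω * e (ω β) (T (swap i j * w)) - c (Function.update ω β (ω β * swap i j)) *
        e (Function.update ω β (ω β * swap i j) β) (T (swap i j * w)) := by
  have := congrArg (e (ω β)) (h w i j hij hl)
  rw [map_mul, map_sub, map_sub, e1, e1, e2] at this
  rw [hc, Function.update_self]
  linear_combination c ω * this

lemma start_loc (ν : Fin n → ℤ) : ∃ κ₀ : Fin n → ℤ, ∀ ω : Bool → Perm (Fin n),
    evx (ω false) (stair id) = mn κ₀ * mn (ν ∘ ⇑(ω false)⁻¹) *
      evr ω (∏ p ∈ univ.filter (fun p : Fin n × Fin n => p.1.1 + p.2.1 < n - 1),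
        (X (Sum.inl (false, p.1)) + X (Sum.inr p.2))) := by
  refine ⟨(∑ p ∈ univ.filter (fun p : Fin n × Fin n => p.1.1 + p.2.1 < n - 1),
    (Pi.single p.1 1 + Pi.single p.2.rev 1)) - ν ∘ Fin.rev, fun ω => ?_⟩
  simp only [stair, map_prod, map_add, evx_C, evx_X, iot_X, evr_l, evr_r, id]
  by_cases h : ω false = Fin.revPerm
  · rw [h, ← mn_add, show ν ∘ ⇑(Fin.revPerm : Perm (Fin n))⁻¹ = ν ∘ Fin.rev from rfl,
      sub_add_cancel, mn_sum, ← prod_mul_distrib]
    refine prod_nbij' Prod.swap Prod.swap (by simp [add_comm]) (by simp [add_comm]) (by simp)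
      (by simp) fun p _ => ?_
    have u : ∀ k : Fin n, mn (Pi.single k 1) * mn (-Pi.single k 1) = 1 := fun k => by
      rw [← mn_add, add_neg_cancel, mn_zero]
    simp only [Fin.revPerm_apply, Prod.fst_swap, Prod.snd_swap, Fin.rev_rev, mn_add]
    linear_combination mn (Pi.single p.2 1) * u p.1.rev - mn (Pi.single p.1.rev 1) * u p.2
  obtain ⟨i, hi⟩ : ∃ i, ω false i < i.rev := by
    by_contra hc
    push Not at hc
    have : Fin.revPerm * ω false = 1 := eq_one_of_le fun i => by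
      simpa using Fin.rev_le_iff.1 (hc i)
    exact h (eq_inv_of_mul_eq_one_right this)
  obtain ⟨k, hk⟩ : ∃ k : Fin n, k < ω false k.rev := by
    by_contra hc
    push Not at hc
    have : ω false * Fin.revPerm = 1 := eq_one_of_le fun i => by simpa using hc i
    exact h (eq_inv_of_mul_eq_one_left this)
  rw [prod_eq_zero (i := (i, ω false i)) _ (add_neg_cancel _),
    prod_eq_zero (i := (k, (ω false k.rev).rev)) _ (by simp), mul_zero]
  · have := (ω false k.rev).2
    simp only [mem_filter, mem_univ, true_and, Fin.val_rev, Fin.lt_def] at hk ⊢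
    omega
  · have := i.2
    simp only [mem_filter, mem_univ, true_and, Fin.val_rev, Fin.lt_def] at hi ⊢
    omega

lemma evr_mg (ω : Bool → Perm (Fin n)) (P : MvPolynomial (Gv n) ℤ) :
    evr ω (rename mg P) = evr (fun _ => ω false) P :=
  hom_ext' (φ := (evr ω).comp (rename mg).toRingHom) (ψ := evr fun _ => ω false)
    (by rintro (⟨β, k⟩ | k) <;> simp [mg, evr_l, evr_r]) P

lemma evr_one (P : MvPolynomial (Gv n) ℤ) : evr (fun _ => 1) P = rcp (ez P) :=
  hom_ext' (φ := evr fun _ => 1) (ψ := rcp.comp ez)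
    (by rintro (⟨β, k⟩ | k) <;> simp [ez, rcp, evr_l, evr_r]) P

lemma ez_mg (P : MvPolynomial (Gv n) ℤ) : ez (rename mg P) = ez P :=
  hom_ext' (φ := ez.comp (rename mg).toRingHom) (ψ := ez)
    (by rintro (⟨β, k⟩ | k) <;> simp [ez, mg]) P

lemma GeoA.out {P : MvPolynomial (Gv n) ℤ} (h : GeoA P) :
    (∀ M, LC (ez P) M) ∧ ∃ m : ℕ, Refl (ez P) fun _ => m := by
  have : ∀ k : ℕ, ∃ (κ : Type) (_ : Fintype κ) (_ : DecidableEq κ) (lb : κ → Bool),
      k ≤ Fintype.card κ ∧ GeoK lb P := by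
    intro k
    induction k with
    | zero => obtain ⟨κ, _, _, lb, h⟩ := h; exact ⟨κ, _, _, lb, Nat.zero_le _, h⟩
    | succ k ih =>
      obtain ⟨κ, _, _, lb, h1, h2⟩ := ih
      exact ⟨Option κ, _, _, _, by simpa using h1, by simpa using h2.col false 0⟩
  refine ⟨fun M => ?_, ?_⟩
  · obtain ⟨κ, _, _, lb, h1, h2⟩ := this (univ.sup fun l => (M l).toNat)
    refine ez_mg P ▸ h2.merge.out.1 M fun l => ?_
    have := le_sup (f := fun l => (M l).toNat) (mem_univ l)
    omega
  · obtain ⟨κ, _, _, lb, h⟩ := h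
    exact ⟨_, ez_mg P ▸ h.merge.out.2⟩

theorem skew_rcp {D : Perm (Fin n) → MvPolynomial (Fin n) ℤ → MvPolynomial (Fin n) ℤ}
    (h1 : ∀ f, D 1 f = f) (h2 : ∀ f, Rec (fun i => X (id i)) (sx id) fun w => D w f)
    {E : Perm (Fin n) → Perm (Fin n) → MvPolynomial (Fin n) ℤ → MvPolynomial (Fin n) ℤ}
    (h3 : ∀ w f g, D w (f * g) = ∑ v, E w v f * D v g) (U v w : Perm (Fin n)) (lam : Fin n → ℕ)
    (hl : ∀ i j : Fin n, j.1 = i.1 + 1 → (∃ k ≤ i, i < w k) → (lam j : ℤ) + sm U i + sm U j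
      + sm (v⁻¹ * Fin.revPerm) i + sm (v⁻¹ * Fin.revPerm) j + sm w⁻¹ i + sm w⁻¹ j ≤ lam i + 3) :
    ∃ (ν : Fin n → ℤ) (P : MvPolynomial (Gv n) ℤ), GeoA P ∧
      iot 1 (E w v ((∏ i, X i ^ lam i) * D U (∏ i, X i ^ (n - 1 - i.1)))) = mn ν * rcp (ez P) := by
  have hx : Function.Injective (id : Fin n → Fin n) := Function.injective_id
  have e1 : ∀ (σ : Perm (Fin n)) i, evx σ (C (X (id i))) = mn (Pi.single (σ i) 1) :=
    fun σ i => by rw [evx_C, iot_X]; rfl
  obtain ⟨κ₀, s0⟩ := start_loc (n := n) fun i => -(i.1 : ℤ)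
  obtain ⟨ν₁, P₁, a1, a2, a3⟩ := chain false _ (fun _ => mn κ₀) (fun _ _ => rfl)
    ((rec_ext hx h1 h2 (stair id)).hT evx e1 evx_sx false (fun _ => 1) fun _ _ => rfl)
    ⟨_, _, _, _, geoK_start⟩ (fun ω => by rw [one_mul, ext_one h1, s0])
    (fun i j hij => by simp only [hij]; push_cast; omega) (v⁻¹ * Fin.revPerm)
  obtain ⟨ν₂, P₂, b1, b2, b3⟩ := chain true _ (fun ω => mn κ₀ * mn (ν₁ ∘ ⇑(ω false)⁻¹))
    (fun _ _ => by simp) ((h2 (∏ i, X i ^ (n - 1 - i.1))).hT iot iot_X iot_sx true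
      (fun ω => evx (ω false) (ext (D (v⁻¹ * Fin.revPerm)) (stair id))) fun _ _ => by simp)
    (ν₀ := fun i => ((n - 1 - i.1 : ℕ) : ℤ)) a1
    (fun ω => by rw [h1, iot_prod, ← one_mul (evx _ _), a2]; ring)
    (fun i j hij => by have := j.2; omega) U
  obtain ⟨κ, _, _, lb, b4⟩ := b1
  have l1 : ∀ i j : Fin n, j.1 = i.1 + 1 → len (swap i j) = 1 := fun i j hij => by
    have := len_step 1 hij
    rw [mul_one, len_one] at this
    omega
  obtain ⟨ν₃, P₃, c1, c2⟩ := chain_rev false (fun w g => ext (D w) g) (fun g ω => evx (ω false) g)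
    (fun _ => mn κ₀) (fun _ _ => rfl) (ext_one h1)
    (fun g i j hij ω => by
      have := (rec_ext hx h1 h2 g).hT evx e1 evx_sx false (fun _ => 1) (fun _ _ => rfl) (swap i j)
        i j hij (by rw [swap_mul_self, len_one, l1 i j hij]; omega) ω
      simpa only [one_mul, swap_mul_self, ext_one h1] using this)
    (fun g w i j hij hl => by
      have := (nilHecke (fun i j h => hx (X_injective (C_injective _ _ h))) (by simp) (by simp)
        (fun i j f => by
          rw [MvPolynomial.map_map]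
          have : (sx id i j).comp (sx id i j) = RingHom.id (MvPolynomial (Fin n) ℤ) :=
            ringHom_ext' (Subsingleton.elim _ _) fun t => by simp
          rw [this, MvPolynomial.map_id])
        (rec_ext hx h1 h2 g) (rec_ext hx h1 h2 _) (u := swap i j) (ext_one h1 _) w).2
      rw [if_pos (by rw [hl, l1 i j hij])] at this
      exact this.symm) w⁻¹
    (C ((∏ i, X i ^ lam i) * D U (∏ i, X i ^ (n - 1 - i.1))) *
      ext (D (v⁻¹ * Fin.revPerm)) (stair id)) ((fun i => (lam i : ℤ)) + ν₁ + ν₂) _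
    ⟨_, _, _, _, b4.merge⟩
    (fun ω => by
      have := b2 fun _ => ω false
      rw [map_mul, evx_C, map_mul, iot_prod, evr_mg, Pi.add_comp, Pi.add_comp, mn_add, mn_add]
      linear_combination mn ((fun i => (lam i : ℤ)) ∘ ⇑(ω false)⁻¹) * this)
    (fun i j hij hi => by
      have := hl i j hij (by simpa using hi)
      have := a3 i j hij
      have := b3 i j hij
      simp only [Pi.add_apply]; omega)
  refine ⟨κ₀ + ν₃, P₃, c1, ?_⟩
  have := c2 fun _ => 1
  rw [inv_inv, evr_one] at this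
  rw [mn_add, ← skew_eq hx h1 h2 h3]
  refine Eq.trans ?_ this
  exact hom_ext (φ := (iot 1).comp (eval fun j => -X (id j))) (ψ := evx 1)
    (fun t => by simp [evx_C]) (fun t => by simp [evx_X, iot_X]) _

end Pool.Agent.K9c
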