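import Pool.Agent.Lib.MP_9c9c2f_co.Rows
import Pool.Agent.Lib.MP_9c9c2f_co.Bases
import Pool.Agent.Lib.MP_9c9c2f_co.Alg

/-! Assembly: skew divided differences as specialised multidegrees. -/

set_option linter.unusedSectionVars false
set_option linter.style.haveILetI false

namespace Pool.Agent.K9c
open MvPolynomial Finset Equiv

variable {n : ℕ} {τ : Type} [Fintype τ] [DecidableEq τ]

lemma Geo.chain {G : Type} [Fintype G] [DecidableEq G] {wt : Pos n → G → ℤ}
    {T T' : Fin n ⊕ Fin n → Prop} [DecidablePred T] [DecidablePred T'] {r : Fin n → G}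
    (hr : RowW wt T r) (hw : PosW wt) (hd : ∀ c, T c → ¬ T' c)
    (hc : ∀ j k, T (Sum.inr j) ↔ T (Sum.inr k)) {P : Perm (Fin n) → MvPolynomial G ℤ}
    (hP : Rec (fun i => X (r i)) (sx r) P) (h1 : Geo wt T T' (P 1)) (w : Perm (Fin n)) :
    Geo wt T T' (P w) := by
  induction w using perm_ind with
  | h1 => exact h1
  | hs w i j hij hl ih => exact ih.step hr hw hd hc hij (hP w i j hij hl)

/-- Grading variables: the given ones, a second set of row variables, the variables `z`. -/
abbrev Gr (τ : Type) (n : ℕ) := τ ⊕ (Fin n ⊕ Fin n)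

/-- Column weights. -/
def cw (y : Fin n → Option τ) : Fin n ⊕ Fin n → Gr τ n → ℤ :=
  Sum.elim (fun j => (y j).elim 0 fun t => Pi.single (Sum.inl t) 1)
    fun j => Pi.single (Sum.inr (Sum.inr j)) 1

/-- Weights of the entries, with row labels `r` on the right block. -/
def wR (x : Fin n → τ) (y : Fin n → Option τ) (r : Fin n → Gr τ n) (p : Pos n) : Gr τ n → ℤ :=
  Pi.single (Sum.elim (fun _ => Sum.inl (x p.1)) (fun _ => r p.1) p.2) 1 + cw y p.2

lemma lin_add {G : Type} [Fintype G] (w w' : G → ℤ) : lin (w + w') = lin w + lin w' := by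
  simp [lin, add_mul, sum_add_distrib]

lemma lin_single {G : Type} [Fintype G] [DecidableEq G] (g : G) :
    lin (Pi.single g 1) = X g := by
  rw [lin, sum_eq_single g] <;> simp +contextual

lemma lin_zero {G : Type} [Fintype G] : lin (0 : G → ℤ) = 0 := by simp [lin]

variable {x : Fin n → τ} {y : Fin n → Option τ}

lemma lin_left (r : Fin n → Gr τ n) (i j : Fin n) :
    lin (wR x y r (i, Sum.inl j)) = rename Sum.inl (X (x i) + (y j).elim 0 X) := by
  simp only [wR, cw, lin_add, lin_single, Sum.elim_inl]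
  cases y j <;> simp [lin_zero, lin_single]

lemma lin_right (r : Fin n → Gr τ n) (i j : Fin n) :
    lin (wR x y r (i, Sum.inr j)) = X (r i) + X (Sum.inr (Sum.inr j)) := by
  simp only [wR, cw, lin_add, lin_single, Sum.elim_inr]

lemma cw_nonneg (c : Fin n ⊕ Fin n) (g : Gr τ n) : 0 ≤ cw y c g := by
  rcases c with j | j
  · simp only [cw, Sum.elim_inl]
    cases y j <;> simp [Pi.single_apply]
    split_ifs <;> norm_num
  · simp only [cw, Sum.elim_inr, Pi.single_apply]
    split_ifs <;> norm_num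

lemma posW_wR (r : Fin n → Gr τ n) : PosW (wR x y r) := by
  refine ⟨fun p g => add_nonneg ?_ (cw_nonneg _ _), fun p => ⟨_, add_pos_of_pos_of_nonneg
    (by rw [Pi.single_eq_same]; exact one_pos) (cw_nonneg _ _)⟩⟩
  rw [Pi.single_apply]; split_ifs <;> norm_num

lemma cw_x (hy : ∀ i j, y j ≠ some (x i)) (c : Fin n ⊕ Fin n) (i : Fin n) :
    cw y c (Sum.inl (x i)) = 0 := by
  rcases c with j | j
  · have := hy i j
    simp only [cw, Sum.elim_inl]
    rcases h : y j with _ | t
    · rfl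
    · rw [h] at this
      exact Pi.single_eq_of_ne (fun e => this (congrArg some (Sum.inl_injective e).symm)) _
  · simp [cw]

lemma cw_x' (c : Fin n ⊕ Fin n) (i : Fin n) : cw y c (Sum.inr (Sum.inl i)) = 0 := by
  rcases c with j | j
  · simp only [cw, Sum.elim_inl]
    cases y j <;> simp
  · simp [cw]

lemma rowW_left (hx : Function.Injective x) (hy : ∀ i j, y j ≠ some (x i)) :
    RowW (wR x y fun i => Sum.inr (Sum.inl i)) (fun c => c.isLeft) fun i => Sum.inl (x i) where
  inj := Sum.inl_injective.comp hx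
  h1 := by rintro ⟨k, j | j⟩ i <;> simp [wR, cw_x hy, Pi.single_apply, hx.eq_iff, eq_comm]
  h2 := by
    rintro i k (j | j) h
    · simp only [wR, Sum.elim_inl]; abel
    · simp at h

lemma rowW_right :
    RowW (wR x y fun i => Sum.inr (Sum.inl i)) (fun c => c.isRight)
      fun i => Sum.inr (Sum.inl i) where
  inj := Sum.inr_injective.comp Sum.inl_injective
  h1 := by rintro ⟨k, j | j⟩ i <;> simp [wR, cw_x', Pi.single_apply, eq_comm]
  h2 := by
    rintro i k (j | j) h
    · simp at h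
    · simp only [wR, Sum.elim_inr]; abel

lemma rowW_all (hx : Function.Injective x) (hy : ∀ i j, y j ≠ some (x i)) :
    RowW (wR x y fun i => Sum.inl (x i)) (fun _ => True) fun i => Sum.inl (x i) where
  inj := Sum.inl_injective.comp hx
  h1 := by rintro ⟨k, j | j⟩ i <;> simp [wR, cw_x hy, Pi.single_apply, hx.eq_iff, eq_comm]
  h2 := by rintro i k (j | j) - <;> simp only [wR, Sum.elim_inl, Sum.elim_inr] <;> abel

/-- Embedding of the ring with extra variables `z`, the old variables renamed by `k`. -/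
noncomputable def emb (k : τ → Gr τ n) :
    MvPolynomial (Fin n) (MvPolynomial τ ℤ) →+* MvPolynomial (Gr τ n) ℤ :=
  eval₂Hom (rename k).toRingHom fun j => X (Sum.inr (Sum.inr j))

@[simp] lemma emb_C (k : τ → Gr τ n) (f : MvPolynomial τ ℤ) : emb k (C f) = rename k f := by
  simp [emb]

@[simp] lemma emb_X (k : τ → Gr τ n) (j : Fin n) : emb k (X j) = X (Sum.inr (Sum.inr j)) := by
  simp [emb]

lemma hom_ext {L : Type} [CommRing L] {φ ψ : MvPolynomial (Fin n) (MvPolynomial τ ℤ) →+* L}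
    (h1 : ∀ t, φ (C (X t)) = ψ (C (X t))) (h2 : ∀ j, φ (X j) = ψ (X j)) (f) : φ f = ψ f :=
  DFunLike.congr_fun (ringHom_ext' (ringHom_ext' (Subsingleton.elim _ _) h1) h2) f

lemma hom_ext' {G L : Type} [CommRing L] {φ ψ : MvPolynomial G ℤ →+* L}
    (h1 : ∀ t, φ (X t) = ψ (X t)) (f) : φ f = ψ f :=
  DFunLike.congr_fun (ringHom_ext' (Subsingleton.elim _ _) h1) f

/-- The specialisation `z j = - x j`. -/
noncomputable def evz (x : Fin n → τ) : MvPolynomial (Gr τ n) ℤ →+* MvPolynomial τ ℤ :=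
  eval₂Hom (Int.castRingHom _) (Sum.elim X (Sum.elim (fun i => X (x i)) fun j => -X (x j)))

lemma evz_inl (f : MvPolynomial τ ℤ) : evz x (rename Sum.inl f) = f :=
  hom_ext' (φ := (evz x).comp (rename Sum.inl).toRingHom) (ψ := RingHom.id _)
    (fun t => by simp [evz]) f

/-- The top polynomial. -/
noncomputable def dtop (x : Fin n → τ) (y : Fin n → Option τ) : MvPolynomial τ ℤ :=
  ∏ p ∈ univ.filter (fun p : Fin n × Fin n => p.1.1 + p.2.1 < n - 1),
    (X (x p.1) + (y p.2).elim 0 X)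

/-- Renaming of the row variables to the second set. -/
noncomputable def kk (x : Fin n → τ) : τ → Gr τ n :=
  Function.extend x (fun i => Sum.inr (Sum.inl i)) Sum.inl

lemma k1 (hx : Function.Injective x) (i : Fin n) : kk x (x i) = Sum.inr (Sum.inl i) :=
  hx.extend_apply _ _ i

lemma k0 (t : τ) (ht : ¬ ∃ i, x i = t) : kk x t = Sum.inl t := Function.extend_apply' _ _ _ ht

/-- Identification of the two sets of row variables. -/
def pp (x : Fin n → τ) : Gr τ n → Gr τ n :=
  Sum.elim Sum.inl (Sum.elim (fun i => Sum.inl (x i)) fun j => Sum.inr (Sum.inr j))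

lemma c1 (i j : Fin n) (f : MvPolynomial τ ℤ) : sx (fun i => (Sum.inl (x i) : Gr τ n)) i j
    ((rename Sum.inl).toRingHom f) = (rename Sum.inl).toRingHom (sx x i j f) :=
  hom_ext' (φ := (sx (fun i => (Sum.inl (x i) : Gr τ n)) i j).comp (rename Sum.inl).toRingHom)
    (ψ := (rename Sum.inl).toRingHom.comp (sx x i j))
    (fun t => by simp [Sum.inl_injective.swap_apply]) f

lemma c2 (hx : Function.Injective x) (i j : Fin n) (g : MvPolynomial (Fin n) (MvPolynomial τ ℤ)) :
    sx (fun i => (Sum.inl (x i) : Gr τ n)) i j (emb (kk x) g) = emb (kk x) g := by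
  refine hom_ext (φ := (sx (fun i => (Sum.inl (x i) : Gr τ n)) i j).comp (emb (kk x))) (ψ := emb (kk x)) (fun t => ?_)
    (fun j => ?_) g
  · by_cases ht : ∃ i, x i = t
    · obtain ⟨l, rfl⟩ := ht; simp [k1 hx, swap_apply_of_ne_of_ne]
    · simp [k0 t ht, Sum.inl_injective.swap_apply, swap_off ht]
  · simp [swap_apply_of_ne_of_ne]

lemma c3 (hx : Function.Injective x) (i j : Fin n) (g : MvPolynomial (Fin n) (MvPolynomial τ ℤ)) :
    sx (fun i => (Sum.inr (Sum.inl i) : Gr τ n)) i j (emb (kk x) g)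
      = emb (kk x) (MvPolynomial.map (sx x i j) g) := by
  refine hom_ext (φ := (sx (fun i => (Sum.inr (Sum.inl i) : Gr τ n)) i j).comp (emb (kk x)))
    (ψ := (emb (kk x)).comp (MvPolynomial.map (sx x i j))) (fun t => ?_) (fun j => ?_) g
  · by_cases ht : ∃ i, x i = t
    · obtain ⟨l, rfl⟩ := ht
      simp [k1 hx, swap_x hx, Sum.inr_injective.swap_apply, Sum.inl_injective.swap_apply]
    · simp [k0 t ht, swap_off ht, swap_apply_of_ne_of_ne]
  · simp [swap_apply_of_ne_of_ne]

lemma c4 (i j : Fin n) (f : MvPolynomial τ ℤ) :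
    sx (fun i => (Sum.inr (Sum.inl i) : Gr τ n)) i j (rename Sum.inl f) = rename Sum.inl f :=
  hom_ext' (φ := (sx (fun i => (Sum.inr (Sum.inl i) : Gr τ n)) i j).comp (rename Sum.inl).toRingHom)
    (ψ := (rename Sum.inl).toRingHom) (fun t => by simp [swap_apply_of_ne_of_ne]) f

lemma c5 (i j : Fin n) (g : MvPolynomial (Fin n) (MvPolynomial τ ℤ)) :
    sx (fun i => (Sum.inl (x i) : Gr τ n)) i j (emb Sum.inl g)
      = emb Sum.inl (MvPolynomial.map (sx x i j) g) :=
  hom_ext (φ := (sx (fun i => (Sum.inl (x i) : Gr τ n)) i j).comp (emb Sum.inl))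
    (ψ := (emb Sum.inl).comp (MvPolynomial.map (sx x i j)))
    (fun t => by simp [Sum.inl_injective.swap_apply])
    (fun j => by simp [swap_apply_of_ne_of_ne]) g

lemma c6 (hx : Function.Injective x) (g : MvPolynomial (Fin n) (MvPolynomial τ ℤ)) :
    (rename (pp x)).toRingHom (emb (kk x) g) = emb Sum.inl g := by
  refine hom_ext (φ := (rename (pp x)).toRingHom.comp (emb (kk x))) (ψ := emb Sum.inl)
    (fun t => ?_) (fun j => by simp [pp]) g
  by_cases ht : ∃ i, x i = t
  · obtain ⟨l, rfl⟩ := ht; simp [k1 hx, pp]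
  · simp [k0 t ht, pp]

lemma c7 (f : MvPolynomial τ ℤ) :
    (rename (pp x)).toRingHom (rename Sum.inl f) = rename Sum.inl f := by
  simp [rename_rename, pp]

lemma start_eq (hx : Function.Injective x) :
    ∏ p ∈ tri n, lin (wR x y (fun i => Sum.inr (Sum.inl i)) p)
      = emb (kk x) (stair x) * (rename Sum.inl).toRingHom (dtop x y) := by
  rw [tri, dtop, stair, map_prod, map_prod, prod_filter, prod_filter, prod_filter,
    Fintype.prod_prod_type, Fintype.prod_prod_type, Fintype.prod_prod_type, ← prod_mul_distrib]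
  refine prod_congr rfl fun i _ => ?_
  rw [Fintype.prod_sum_type, mul_comm]
  congr 1 <;> refine prod_congr rfl fun j _ => if_congr Iff.rfl ?_ rfl
  · simp [lin_right, k1 hx]
  · exact lin_left _ _ _

variable {D : Perm (Fin n) → MvPolynomial τ ℤ → MvPolynomial τ ℤ}

lemma geo1 (hx : Function.Injective x) (hy : ∀ i j, y j ≠ some (x i)) (h1 : ∀ f, D 1 f = f)
    (h2 : ∀ f, Rec (fun i => X (x i)) (sx x) fun w => D w f) (u : Perm (Fin n)) :
    Geo (wR x y fun i => Sum.inr (Sum.inl i)) (fun c => c.isLeft) (fun c => c.isRight)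
      (emb (kk x) (stair x) * (rename Sum.inl).toRingHom (D u (dtop x y))) := by
  refine Geo.chain (rowW_left hx hy) (posW_wR _) (by simp) (by simp)
    ((h2 (dtop x y)).map (rename Sum.inl).toRingHom (emb (kk x) (stair x)) (by simp) c1
      fun i j => c2 hx i j _) ?_ u
  simp only [h1, ← start_eq hx]
  exact geo_start (posW_wR _)

lemma geo2 (hx : Function.Injective x) (hy : ∀ i j, y j ≠ some (x i)) (h1 : ∀ f, D 1 f = f)
    (h2 : ∀ f, Rec (fun i => X (x i)) (sx x) fun w => D w f) (u v : Perm (Fin n)) :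
    Geo (wR x y fun i => Sum.inr (Sum.inl i)) (fun c => c.isRight) (fun c => c.isLeft)
      (rename Sum.inl (D u (dtop x y)) * emb (kk x) (ext (D v) (stair x))) := by
  refine Geo.chain rowW_right (posW_wR _) (by simp) (by simp)
    ((rec_ext hx h1 h2 (stair x)).map (emb (kk x)) (rename Sum.inl (D u (dtop x y)))
      (by simp [k1 hx]) (c3 hx) fun i j => c4 i j _) ?_ v
  simp only [ext_one h1]
  rw [mul_comm]; exact (geo1 hx hy h1 h2 u).symm

lemma geo3 {P : MvPolynomial (Gr τ n) ℤ}
    (h : Geo (wR x y fun i => Sum.inr (Sum.inl i)) (fun c => c.isRight) (fun c => c.isLeft) P) :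
    Geo (wR x y fun i => Sum.inl (x i)) (fun _ => True) (fun _ => False)
      ((rename (pp x)).toRingHom P) := by
  refine h.regrade (posW_wR _) (posW_wR _) (by simp) (fun t => ⟨t ∘ pp x, ?_⟩) _ ?_
  · rintro ⟨i, j | j⟩
    · simp only [wR, cw, chi_add, chi_single, Sum.elim_inl]
      cases y j <;> simp [chi_zero, chi_single, pp]
    · simp [wR, cw, chi_add, chi_single, pp]
  · rintro ⟨i, j | j⟩
    · rw [lin_left, lin_left, c7]
    · simp [lin_right, pp]

lemma geo_skew (hx : Function.Injective x) (hy : ∀ i j, y j ≠ some (x i)) (h1 : ∀ f, D 1 f = f)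
    (h2 : ∀ f, Rec (fun i => X (x i)) (sx x) fun w => D w f) (u v w : Perm (Fin n)) :
    Geo (wR x y fun i => Sum.inl (x i)) (fun _ => True) (fun _ => False)
      (emb Sum.inl (ext (D w) (C (D u (dtop x y)) * ext (D v) (stair x)))) := by
  rw [← one_mul (emb _ _)]
  refine Geo.chain (rowW_all hx hy) (posW_wR _) (by simp) (by simp)
    ((rec_ext hx h1 h2 (C (D u (dtop x y)) * ext (D v) (stair x))).map (emb Sum.inl) 1 (by simp)
      c5 fun i j => map_one _) ?_ w
  have := geo3 (geo2 hx hy h1 h2 u v)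
  rw [map_mul, c6 hx, c7] at this
  simp only [ext_one h1, one_mul, map_mul, emb_C]
  exact this

lemma pos_of_geo (hx : Function.Injective x) (hy : ∀ i j, y j ≠ some (x i))
    {P : MvPolynomial (Gr τ n) ℤ}
    (h : Geo (wR x y fun i => Sum.inl (x i)) (fun _ => True) (fun _ => False) P) :
    ∃ B, Exch B ∧ ∀ a, (a ∈ B → 0 < coeff a (evz x P)) ∧ (a ∉ B → coeff a (evz x P) = 0) := by
  obtain ⟨Z, D, ρ, C, h1, h2, h3, -, h5, h6, h7, rfl⟩ := h
  have e : ∀ i j, evz x (lin (wR x y (fun i => Sum.inl (x i)) (i, Sum.inr j)))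
      = X (x i) - X (x j) := fun i j => by simp [lin_right, evz, sub_eq_add_neg]
  have ne : ∀ i j : Fin n, i ≠ j → (X (x i) - X (x j) : MvPolynomial τ ℤ) ≠ 0 :=
    fun i j h => sub_ne_zero.2 fun e => h (hx (X_injective e))
  suffices ∃ B, Exch B ∧ ∀ a, (a ∈ B → 0 < coeff a (evz x C)) ∧ (a ∉ B → coeff a (evz x C) = 0) by
    obtain ⟨B, b1, b2⟩ := this
    refine ⟨B, b1, fun a => ?_⟩
    rw [map_mul, map_natCast, ← nsmul_eq_mul, coeff_smul]
    exact ⟨fun h => nsmul_pos ((b2 a).1 h) h7.ne', fun h => by rw [(b2 a).2 h, smul_zero]⟩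
  rcases gauss (posW_wR _) (evz x) (fun k => by rw [e, sub_self]) h1 h2 h3 h5 h6 univ.offDiag
    (by simp) (fun _ _ q hq _ => by simpa using hq) with h0 | ⟨D', C', a1, a2, a3, a4⟩
  · have := (mul_eq_zero.1 h0).resolve_left (prod_ne_zero_iff.2 fun p hp => by
      rw [e]; exact ne _ _ (by simpa using hp))
    exact ⟨∅, fun a ha => ha.elim, fun a => by simp [this]⟩
  refine pos_of_md (posW_wR _) a1 a2.homog a3 (evz x)
    (univ.offDiag.image fun p : Fin n × Fin n => (p.1, Sum.inr p.2))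
    (univ.image fun k : Fin n => (k, Sum.inr k))
    (fun q => insert (x q.1) (Sum.elim (fun j => (y j).toFinset) (fun _ => ∅) q.2)) ?_ ?_ ?_ ?_
  · intro q hq
    obtain ⟨p, hp, rfl⟩ := mem_image.1 hq
    refine ⟨fun z hz => ?_, by rw [e]; exact ne _ _ (by simpa using hp)⟩
    rw [eval_X]; exact (hz.2 p hp).1
  · intro q hq
    obtain ⟨k, -, rfl⟩ := mem_image.1 hq
    rw [e, sub_self]
  · rintro ⟨i, j | j⟩ q1 q2
    · rw [lin_left, evz_inl, sum_insert (by simpa using hy i j)]
      simp only [Sum.elim_inl]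
      cases y j <;> simp
    · by_cases hij : i = j
      · exact absurd (mem_image.2 ⟨i, mem_univ _, by rw [hij]⟩) q2
      · exact absurd (mem_image.2 ⟨(i, j), by simpa using hij, rfl⟩) q1
  · rw [a4, prod_image]
    intro p _ q _ h
    simp only [Prod.mk.injEq, Sum.inr.injEq] at h
    exact Prod.ext h.1 h.2

theorem skew_mconvex (hx : Function.Injective x) (hy : ∀ i j, y j ≠ some (x i))
    (h1 : ∀ f, D 1 f = f) (h2 : ∀ f, Rec (fun i => X (x i)) (sx x) fun w => D w f)
    {E : Perm (Fin n) → Perm (Fin n) → MvPolynomial τ ℤ → MvPolynomial τ ℤ}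
    (h3 : ∀ w f g, D w (f * g) = ∑ v, E w v f * D v g) (u v w : Perm (Fin n)) :
    ∃ B, Exch B ∧ ∀ a, (a ∈ B → 0 < coeff a (E w v (D u (dtop x y)))) ∧
      (a ∉ B → coeff a (E w v (D u (dtop x y))) = 0) := by
  have := pos_of_geo hx hy (geo_skew hx hy h1 h2 u (v⁻¹ * Fin.revPerm) w)
  have e : ∀ g, evz x (emb Sum.inl g) = eval (fun j => -X (x j)) g :=
    hom_ext (φ := (evz x).comp (emb Sum.inl)) (fun t => by simp [evz]) fun j => by simp [evz]
  rwa [e, skew_eq hx h1 h2 h3] at this

end Pool.Agent.K9c
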