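import Pool.Agent.Lib.MP_9c9c2f_co.HBM
import Pool.Agent.Lib.MP_9c9c2f_co.Main

/-! The volume polynomial as the limit of the Hilbert function. -/

set_option linter.unusedSectionVars false
set_option linter.style.haveILetI false

namespace Pool.Agent.K9c
open MvPolynomial Finset Filter Topology Module

/-- Divided power with an integer exponent. -/
noncomputable def wq (γ : ℤ) (a : ℝ) : ℝ := if 0 ≤ γ then a ^ γ.toNat / γ.toNat.factorial else 0

lemma wq_nat (j : ℕ) (a : ℝ) : wq j a = a ^ j / j.factorial := by simp [wq]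

lemma wq_neg {γ : ℤ} (h : γ < 0) (a : ℝ) : wq γ a = 0 := if_neg h.not_ge

/-- Number of ways to write `m` as an ordered sum of `F` terms. -/
def mc (F : ℕ) (m : ℤ) : ℕ := if 0 ≤ m then F.multichoose m.toNat else 0

lemma mc_tendsto (F : ℕ) {a : ℕ} (ha : 0 < a) (c : ℤ) :
    Tendsto (fun k : ℕ => (mc F (k * a + c) : ℝ) / (k : ℝ) ^ ((F : ℤ) - 1)) atTop
      (𝓝 (wq (F - 1) a)) := by
  have ev : ∀ᶠ k : ℕ in atTop, (1 : ℤ) ≤ k * a + c ∧ (k : ℤ) + c ≤ k * a + c := by
    filter_upwards [eventually_ge_atTop (1 - c).toNat] with k hk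
    have : (k : ℤ) ≤ k * a := le_mul_of_one_le_right (Nat.cast_nonneg _) (by exact_mod_cast ha)
    omega
  rcases F with _ | j
  · rw [wq_neg (by norm_num)]
    refine tendsto_const_nhds.congr' ?_
    filter_upwards [ev] with k hk
    obtain ⟨m, hm⟩ : ∃ m, (k * a + c : ℤ).toNat = m + 1 := ⟨(k * a + c : ℤ).toNat - 1, by omega⟩
    rw [mc, if_pos (by omega), hm, Nat.multichoose_zero_succ]; simp
  simp only [Nat.cast_succ, add_sub_cancel_right, wq_nat, zpow_natCast]
  let ν : ℕ → ℕ := fun k => j + (k * a + c : ℤ).toNat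
  have t0 : Tendsto ν atTop atTop := by
    refine tendsto_atTop.2 fun b => ?_
    filter_upwards [ev, eventually_ge_atTop (b - c).toNat] with k hk h2
    simp only [ν]; omega
  have t1 : Tendsto (fun k : ℕ => (ν k : ℝ) / k) atTop (𝓝 a) := by
    have := (tendsto_const_div_atTop_nhds_zero_nat ((j : ℝ) + c)).add_const (a : ℝ)
    rw [zero_add] at this
    refine this.congr' ?_
    filter_upwards [ev, eventually_gt_atTop 0] with k hk h2
    have e : ((ν k : ℤ) : ℝ) = ((j + (k * a + c) : ℤ) : ℝ) := by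
      congr 1; simp only [ν]; omega
    have h3 : (k : ℝ) ≠ 0 := by exact_mod_cast h2.ne'
    push_cast at e
    rw [e]; field_simp; ring
  have t2 := (((isEquivalent_choose j).comp_tendsto t0).div
    (Asymptotics.IsEquivalent.refl (u := fun k : ℕ => (k : ℝ) ^ j))).symm.tendsto_nhds
    (((t1.pow j).div_const (j.factorial : ℝ)).congr fun k => by
      simp only [Pi.div_apply, Function.comp_apply, div_pow]; ring)
  refine t2.congr' ?_
  filter_upwards [ev] with k hk
  simp only [Pi.div_apply, Function.comp_apply, mc]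
  rw [if_pos (by omega), Nat.multichoose_eq, show j + 1 + (k * a + c : ℤ).toNat - 1 = ν k by
    simp only [ν]; omega, Nat.choose_symm_add]

lemma inv_nat_tendsto : Tendsto (fun k : ℕ => (k : ℝ)⁻¹) atTop (𝓝[>] 0) :=
  tendsto_inv_atTop_nhdsGT_zero.comp tendsto_natCast_atTop_atTop

variable {σ G : Type} [Fintype σ] [DecidableEq σ] [Fintype G] [DecidableEq G]

/-- The grading in which the variable `p` has degree the unit vector `ρ p`. -/
def pw (ρ : σ → G) (p : σ) : G → ℤ := Pi.single (ρ p) 1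

lemma posW_pw (ρ : σ → G) : PosW (pw ρ) := by
  refine ⟨fun p g => ?_, fun p => ⟨ρ p, by simp [pw]⟩⟩
  rw [pw, Pi.single_apply]; split_ifs <;> norm_num

lemma lin_pw (ρ : σ → G) (p : σ) : lin (pw ρ p) = X (ρ p) := lin_single _

lemma weight_pw (ρ : σ → G) (e : σ →₀ ℕ) (g : G) :
    Finsupp.weight (pw ρ) e g = ((∑ q ∈ univ.filter (ρ · = g), e q : ℕ) : ℤ) := by
  rw [weight_apply', sum_filter]
  push_cast
  refine sum_congr rfl fun q _ => ?_
  simp [pw, Pi.single_apply, eq_comm]

/-- Number of variables of each degree in a set. -/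
def cn (ρ : σ → G) (F : Finset σ) (g : G) : ℕ := (F.filter (ρ · = g)).card

lemma sum_cn (ρ : σ → G) (F : Finset σ) : ∑ g, cn ρ F g = F.card :=
  (card_eq_sum_card_fiberwise fun _ _ => mem_univ _).symm

lemma cn_compl (ρ : σ → G) (F : Finset σ) (g : G) : cn ρ univ g = cn ρ F g + cn ρ Fᶜ g := by
  rw [cn, ← union_compl F, filter_union, card_union_of_disjoint
    (disjoint_filter_filter disjoint_compl_right)]; rfl

lemma card_cell (ρ : σ → G) {N : ℕ} {p : σ →₀ ℕ} (hp : p ≤ top N) (d : G → ℤ) :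
    (((posW_pw ρ).finite d).toFinset.filter (· ⊓ top N = p)).card
      = ∏ g, mc (cn ρ (free N p) g) (d g - Finsupp.weight (pw ρ) p g) := by
  by_cases h : ∀ g, 0 ≤ d g - Finsupp.weight (pw ρ) p g
  swap
  · push Not at h
    obtain ⟨g, hg⟩ := h
    rw [prod_eq_zero (mem_univ g) (if_neg hg.not_ge), card_eq_zero, filter_eq_empty_iff]
    intro e he h2
    rw [← show Finsupp.weight (pw ρ) e = d by simpa using he, weight_pw, weight_pw] at hg
    have : ∑ q ∈ univ.filter (ρ · = g), p q ≤ ∑ q ∈ univ.filter (ρ · = g), e q :=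
      sum_le_sum fun q _ => (h2 ▸ inf_le_left : p ≤ e) q
    omega
  simp only [mc, h, if_true, cn, ← card_finsuppAntidiag_nat_eq_multichoose,
    ← Fintype.card_piFinset]
  have zero : ∀ u ∈ Fintype.piFinset fun g => finsuppAntidiag ((free N p).filter (ρ · = g))
      (d g - Finsupp.weight (pw ρ) p g).toNat, ∀ g q, ¬ (p q = N ∧ ρ q = g) → u g q = 0 := by
    intro u hu g q hq
    by_contra h0
    have := (mem_finsuppAntidiag.1 (Fintype.mem_piFinset.1 hu g)).2 (Finsupp.mem_support_iff.2 h0)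
    exact hq (by simpa [mem_free] using this)
  have val : ∀ u ∈ Fintype.piFinset fun g => finsuppAntidiag ((free N p).filter (ρ · = g))
      (d g - Finsupp.weight (pw ρ) p g).toNat, ∀ q, (∑ g, u g) q = u (ρ q) q := by
    intro u hu q
    rw [Finsupp.finsetSum_apply]
    exact sum_eq_single _ (fun g _ hg => zero u hu g q fun h => hg h.2.symm) (by simp)
  have sub : ∀ g, (free N p).filter (ρ · = g) ⊆ univ.filter (ρ · = g) :=
    fun g => filter_subset_filter _ (subset_univ _)
  refine card_nbij' (fun e g => (e - p).filter (ρ · = g)) (fun u => p + ∑ g, u g) ?_ ?_ ?_ ?_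
  · intro e he
    obtain ⟨h1, h2⟩ := mem_filter.1 he
    have h3 : ∀ q, min (e q) N = p q := fun q => by rw [← h2]; simp
    have h4 : Finsupp.weight (pw ρ) e = d := by simpa using h1
    refine Fintype.mem_piFinset.2 fun g => mem_finsuppAntidiag.2 ⟨?_, fun q hq => ?_⟩
    · rw [sum_congr rfl (g := fun q => e q - p q) fun q hq => by simp [(mem_filter.1 hq).2],
        sum_subset (sub g) fun q h5 h6 => ?_, ← h4, weight_pw, weight_pw, Int.toNat_sub,
        sum_tsub_distrib _ fun q _ => by have := h3 q; omega]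
      have := h3 q
      simp only [mem_filter, mem_free, mem_univ, true_and] at h5 h6
      simp only [h5, and_true] at h6
      omega
    · have := h3 q
      simp only [Finsupp.support_filter, mem_filter, Finsupp.mem_support_iff, Finsupp.tsub_apply,
        mem_free] at hq ⊢
      exact ⟨by omega, hq.2⟩
  · intro u hu
    refine mem_filter.2 ⟨(Set.Finite.mem_toFinset _).2 (funext fun g => ?_), Finsupp.ext fun q => ?_⟩
    · have a := (mem_finsuppAntidiag.1 (Fintype.mem_piFinset.1 hu g)).1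
      rw [sum_subset (sub g) fun q _ h6 => zero u hu g q (by simpa [mem_free] using h6)] at a
      rw [map_add, Pi.add_apply, weight_pw ρ (∑ g, u g), sum_congr rfl (g := fun q => u g q)
        fun q hq => by rw [val u hu, (mem_filter.1 hq).2], a]
      have := h g
      omega
    · have a : p q ≤ N := hp q
      have b := zero u hu (ρ q) q
      simp only [Finsupp.inf_apply, Finsupp.add_apply, val u hu, top_apply, and_true] at b ⊢
      omega
  · intro e he
    have h2 : p ≤ e := (mem_filter.1 he).2 ▸ inf_le_left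
    ext q
    have := h2 q
    simp [Finsupp.filter_apply]
    omega
  · intro u hu
    funext g
    ext q
    simp only [add_tsub_cancel_left, Finsupp.filter_apply, val u hu]
    split_ifs with h5
    · rw [h5]
    · exact (zero u hu g q fun h => h5 h.2).symm

/-- The volume functional dual to the multidegree. -/
noncomputable def vol (M : G → ℤ) (a : G → ℝ) : MvPolynomial G ℤ →ₗ[ℤ] ℝ :=
  (basisMonomials G ℤ).constr ℤ fun β => ∏ g, wq (M g - 1 - β g) (a g)

lemma vol_monomial (M : G → ℤ) (a : G → ℝ) (β : G →₀ ℕ) (c : ℤ) :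
    vol M a (monomial β c) = c * ∏ g, wq (M g - 1 - β g) (a g) := by
  have : (monomial β c : MvPolynomial G ℤ) = c • basisMonomials G ℤ β := by simp [smul_monomial]
  rw [this, map_smul, vol, Basis.constr_basis, zsmul_eq_mul]

lemma prod_X_eq (ρ : σ → G) (F : Finset σ) : ∏ q ∈ F, (X (ρ q) : MvPolynomial G ℤ)
    = monomial (Finsupp.equivFunOnFinite.symm (cn ρ F)) 1 := by
  rw [monomial_eq, C_1, one_mul, Finsupp.prod_fintype _ _ (by simp),
    ← prod_fiberwise_of_maps_to (t := univ) (g := ρ) fun _ _ => mem_univ _]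
  refine prod_congr rfl fun g _ => ?_
  rw [prod_congr rfl (g := fun _ => X g) fun q hq => by rw [(mem_filter.1 hq).2], prod_const]
  rfl

theorem hf_tendsto (ρ : σ → G) {I : Ideal (MvPolynomial σ ℚ)} (hI : Homog (pw ρ) I) {D : ℤ}
    {C : MvPolynomial G ℤ} (hC : MD (pw ρ) I D C) {a : G → ℕ} (ha : ∀ g, 0 < a g) (c : G → ℤ) :
    Tendsto (fun k : ℕ => (hf (pw ρ) I (fun g => k * a g + c g) : ℝ)
      / (k : ℝ) ^ (D - Fintype.card G)) atTop
      (𝓝 (vol (fun g => cn ρ univ g) (fun g => a g) C)) := by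
  classical
  have hw := posW_pw ρ
  obtain ⟨N, hN⟩ := exists_stab (someOrder σ) I
  have hN := hN N le_rfl
  set m := someOrder σ
  have e1 : ∀ d, hf (pw ρ) I d = ∑ p ∈ cells m I N,
      ∏ g, mc (cn ρ (free N p) g) (d g - Finsupp.weight (pw ρ) p g) := by
    intro d
    rw [hf_eq_card hw m hI, card_eq_sum_card_fiberwise (f := (· ⊓ top N)) (t := cells m I N)
      fun e he => mem_cells.2 ⟨inf_le_right, std_lower (mem_filter.1 he).2 inf_le_left⟩]
    refine sum_congr rfl fun p hp => ?_
    rw [← card_cell ρ (mem_cells.1 hp).1, filter_filter]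
    refine congrArg _ (filter_congr fun e _ => ⟨fun h => h.2, fun h => ⟨hN e ?_, h⟩⟩)
    rw [h]; exact (mem_cells.1 hp).2
  have t := tendsto_finsetSum (cells m I N) fun p hp =>
    ((zpow_tendsto (sub_nonneg.2 (hC.card_le hw hI hN p hp))).comp
      inv_nat_tendsto).mul (tendsto_finsetProd univ fun g _ =>
        mc_tendsto (cn ρ (free N p) g) (ha g) (c g - Finsupp.weight (pw ρ) p g))
  convert t.congr' _ using 2
  · rw [hC.eq_cellPoly hw hI hN, cellPoly, map_sum, sum_filter]
    refine sum_congr rfl fun p _ => ?_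
    simp only [lin_pw, prod_X_eq, vol_monomial, sub_eq_zero, ite_mul, one_mul, zero_mul,
      Int.cast_one, Finsupp.equivFunOnFinite_symm_apply_apply]
    refine if_congr eq_comm (prod_congr rfl fun g _ => ?_) rfl
    rw [cn_compl ρ (free N p)]; congr 1; push_cast; ring
  filter_upwards [eventually_gt_atTop 0] with k hk
  have h3 : (k : ℝ) ≠ 0 := by exact_mod_cast hk.ne'
  rw [e1, Nat.cast_sum, sum_div]
  refine sum_congr rfl fun p _ => ?_
  have : ∏ g, (k : ℝ) ^ ((cn ρ (free N p) g : ℤ) - 1)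
      = k ^ (((free N p).card : ℤ) - Fintype.card G) := by
    rw [← sum_cn ρ, zpow_sub₀ h3, zpow_natCast, zpow_natCast, ← prod_pow_eq_pow_sum, ← card_univ,
      ← prod_const, ← prod_div_distrib]
    exact prod_congr rfl fun g _ => by rw [zpow_sub₀ h3, zpow_natCast, zpow_one]
  simp only [Function.comp_apply, prod_div_distrib, this, Nat.cast_prod, add_sub_assoc, inv_zpow]
  rw [inv_mul_eq_div, div_div, ← zpow_add₀ h3]
  congr 2; ring

theorem vol_bm (ρ : σ → G) {Z : Set (σ → ℚ)} (hZ : Prm Z) (hT : TorSt (pw ρ) Z) {D : ℤ}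
    {C : MvPolynomial G ℤ} (hC : MD (pw ρ) (VI Z) D C) {a b : G → ℕ} (ha : ∀ g, 0 < a g)
    (hb : ∀ g, 0 < b g) :
    vol (fun g => cn ρ univ g) (fun g => 2 * a g) C * vol (fun g => cn ρ univ g) (fun g => 2 * b g) C
      ≤ vol (fun g => cn ρ univ g) (fun g => a g + b g) C ^ 2 := by
  obtain ⟨r, K, c, h1, h2⟩ := bm_hf (posW_pw ρ) hZ
  have T := fun {a : G → ℕ} (ha : ∀ g, 0 < a g) c => hf_tendsto ρ hT.homog hC ha c
  set M : G → ℤ := fun g => cn ρ univ g
  set s := D - Fintype.card G
  have two : ∀ {a : G → ℕ}, (∀ g, 0 < a g) →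
      vol M (fun g => 2 * a g) C = 2 ^ s * vol M (fun g => a g) C := by
    intro a ha
    have t1 := T (a := fun g => 2 * a g) (fun g => Nat.mul_pos two_pos (ha g)) 0
    have t2 := ((T ha 0).comp (tendsto_id.const_mul_atTop' two_pos)).const_mul ((2 : ℝ) ^ s)
    push_cast at t1
    refine tendsto_nhds_unique t1 (t2.congr fun k => ?_)
    simp only [Function.comp_apply, id, Nat.cast_mul, Nat.cast_ofNat, mul_zpow, mul_left_comm,
      mul_assoc]
    field_simp
  have nn : ∀ {a : G → ℕ}, (∀ g, 0 < a g) → 0 ≤ vol M (fun g => a g) C := fun ha =>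
    ge_of_tendsto' (T ha 0) fun k => by positivity
  have t3 := T (a := fun g => a g + b g) (fun g => Nat.add_pos_left (ha g) _) c
  push_cast at t3
  have le := le_of_tendsto_of_tendsto' (((T ha 0).mul (T hb 0)).const_mul ((4 : ℝ) ^ r))
    (t3.pow 2) fun k => by
      rw [div_mul_div_comm, div_pow, ← sq, ← mul_div_assoc]
      refine div_le_div_of_nonneg_right ?_ (sq_nonneg _)
      have := h1 (fun g => k * a g + (0 : G → ℤ) g) fun g => k * b g + (0 : G → ℤ) g
      have e : ((fun g => (k : ℤ) * a g + (0 : G → ℤ) g) + fun g => k * b g + (0 : G → ℤ) g) + c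
          = fun g => (k : ℤ) * (a g + b g) + c g := by funext g; simp [mul_add]
      rw [e] at this
      exact_mod_cast this
  rw [two ha, two hb, mul_mul_mul_comm, ← mul_zpow]
  rcases (nn ha).eq_or_lt with h0 | h0
  · rw [← h0, zero_mul, mul_zero]; positivity
  refine le_trans (mul_le_mul_of_nonneg_right ?_ (mul_nonneg h0.le (nn hb))) le
  rw [← zpow_natCast, show (2 : ℝ) * 2 = 4 by norm_num]
  refine zpow_le_zpow_right₀ (by norm_num) ?_
  by_contra hlt
  push Not at hlt
  have t4 := ((zpow_tendsto (sub_nonneg.2 hlt.le)).comp inv_nat_tendsto).mul_const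
    (((K * ∑ g, a g + 1 : ℕ) : ℝ) ^ r)
  rw [if_neg (by omega), zero_mul] at t4
  refine absurd (le_of_tendsto_of_tendsto (T ha 0) t4 ?_) h0.not_ge
  filter_upwards [eventually_gt_atTop 0] with k hk
  have h3 : (0 : ℝ) < k := by exact_mod_cast hk
  have b1 := h2 fun g => k * a g + (0 : G → ℤ) g
  have e : (∑ g, ((k : ℤ) * a g + (0 : G → ℤ) g)).toNat = k * ∑ g, a g := by
    simp only [Pi.zero_apply, add_zero, ← mul_sum]
    exact_mod_cast Int.toNat_natCast _
  rw [e] at b1
  have b2 : K * (k * ∑ g, a g) + 1 ≤ k * (K * ∑ g, a g + 1) := by nlinarith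
  rw [Function.comp_apply, inv_zpow, div_le_iff₀ (zpow_pos h3 _), zpow_sub₀ h3.ne', inv_div,
    mul_right_comm, div_mul_cancel₀ _ (zpow_pos h3 _).ne', zpow_natCast, ← mul_pow]
  exact_mod_cast b1.trans (Nat.pow_le_pow_left b2 r)

end Pool.Agent.K9c
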