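import Pool.Agent.Lib.MP_9c9c2f_co.Sweep

/-! Row sweeps of matrix point sets and Gauss slices. -/

set_option linter.unusedSectionVars false
set_option linter.style.haveILetI false

namespace Pool.Agent.K9c
open MvPolynomial Finset Matrix

variable {n : ℕ} {G : Type} [Fintype G] [DecidableEq G]

section Act
variable {κ : Type} [Fintype κ] [DecidableEq κ]

/-- Left multiplication on the columns in `T`. -/
def act (T : κ → Prop) [DecidablePred T] (g : Matrix (Fin n) (Fin n) ℚ) (M : Fin n × κ → ℚ) :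
    Fin n × κ → ℚ := fun p => if T p.2 then ∑ k, g p.1 k * M (k, p.2) else M p

variable {T : κ → Prop} [DecidablePred T]

lemma act_mul (g h : Matrix (Fin n) (Fin n) ℚ) (M : Fin n × κ → ℚ) :
    act T (g * h) M = act T g (act T h M) := by
  funext p
  by_cases hp : T p.2
  · simp only [act, hp, if_true, Matrix.mul_apply, sum_mul, mul_sum, mul_assoc]
    exact sum_comm
  · simp [act, hp]

lemma act_transvection (i k : Fin n) (c : ℚ) (M : Fin n × κ → ℚ) (p : Fin n × κ) :
    act T (transvection i k c) M p = M p + if p.1 = i ∧ T p.2 then c * M (k, p.2) else 0 := by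
  by_cases hp : T p.2
  · simp only [act, hp, if_true, transvection, Matrix.add_apply, add_mul, sum_add_distrib,
      Matrix.one_apply, ite_mul, one_mul, zero_mul, sum_ite_eq, mem_univ, and_true,
      Matrix.single_apply]
    congr 1
    by_cases h : p.1 = i
    · simp [h]
    · simp [h, Ne.symm h]
  · simp [act, hp]

lemma act_comm {T' : κ → Prop} [DecidablePred T'] (hd : ∀ c, T c → ¬ T' c)
    (g h : Matrix (Fin n) (Fin n) ℚ) (M : Fin n × κ → ℚ) :
    act T' h (act T g M) = act T g (act T' h M) := by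
  funext p
  by_cases hp : T p.2
  · simp [act, hp, hd _ hp]
  · simp [act, hp]

/-- Lower triangular matrices. -/
def Low (g : Matrix (Fin n) (Fin n) ℚ) : Prop := ∀ i k, i < k → g i k = 0

/-- Lower triangular up to the entry `(b, a)`. -/
def Par (b a : Fin n) (g : Matrix (Fin n) (Fin n) ℚ) : Prop :=
  ∀ i k, i < k → ¬ (i = b ∧ k = a) → g i k = 0

lemma Par.mul {b a : Fin n} (hab : a.1 = b.1 + 1) {g h : Matrix (Fin n) (Fin n) ℚ}
    (hg : Par b a g) (hh : Par b a h) : Par b a (g * h) := by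
  intro i k hik hne
  rw [Matrix.mul_apply]
  refine sum_eq_zero fun l _ => ?_
  by_contra h0
  obtain ⟨h1, h2⟩ := mul_ne_zero_iff.1 h0
  have a1 : ¬ i < l ∨ (i = b ∧ l = a) := by by_contra hc; push Not at hc; exact h1 (hg i l hc.1 (by tauto))
  have a2 : ¬ l < k ∨ (l = b ∧ k = a) := by by_contra hc; push Not at hc; exact h2 (hh l k hc.1 (by tauto))
  simp only [Fin.lt_def, Fin.ext_iff] at *
  omega

lemma Low.par {b a : Fin n} {g : Matrix (Fin n) (Fin n) ℚ} (h : Low g) : Par b a g :=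
  fun i k hik _ => h i k hik

lemma Par.low {b a : Fin n} {g : Matrix (Fin n) (Fin n) ℚ} (h : Par b a g) (h0 : g b a = 0) :
    Low g := fun i k hik => by
  by_cases e : i = b ∧ k = a
  · rw [e.1, e.2, h0]
  · exact h i k hik e

lemma par_transvection (b a : Fin n) (c : ℚ) : Par b a (transvection b a c) := by
  intro i k hik hne
  simp only [transvection, Matrix.add_apply, Matrix.one_apply, Matrix.single_apply]
  rw [if_neg hik.ne, if_neg (by tauto), add_zero]

lemma low_transvection {i k : Fin n} (h : k < i) (c : ℚ) : Low (transvection i k c) := by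
  intro i' k' hik
  simp only [transvection, Matrix.add_apply, Matrix.one_apply, Matrix.single_apply]
  rw [if_neg hik.ne, if_neg, add_zero]
  rintro ⟨rfl, rfl⟩
  exact absurd hik h.not_gt

/-- The matrix exchanging two rows. -/
def swm (a b : Fin n) : Matrix (Fin n) (Fin n) ℚ :=
  Matrix.of fun i k => if Equiv.swap a b i = k then 1 else 0

lemma swm_mul (a b : Fin n) (g : Matrix (Fin n) (Fin n) ℚ) (i k : Fin n) :
    (swm a b * g) i k = g (Equiv.swap a b i) k := by simp [swm, Matrix.mul_apply]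

lemma swm_swm (a b : Fin n) : swm a b * swm a b = 1 := by
  ext i k; rw [swm_mul]; simp [swm, Matrix.one_apply]

lemma par_swm {b a : Fin n} (hab : a.1 = b.1 + 1) : Par b a (swm a b) := by
  intro i k hik hne
  simp only [swm, of_apply]
  refine if_neg fun e => ?_
  rw [Equiv.swap_apply_def] at e
  simp only [Fin.lt_def, Fin.ext_iff] at *
  split_ifs at e <;> omega

/-- Stability under lower triangular matrices on the columns in `T`. -/
def LowSt (T : κ → Prop) [DecidablePred T] (Z : Set (Fin n × κ → ℚ)) : Prop :=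
  ∀ g, Low g → ∀ M ∈ Z, act T g M ∈ Z

/-- The rows of the columns in `T` carry the labels `r`. -/
structure RowW (wt : Fin n × κ → G → ℤ) (T : κ → Prop) [DecidablePred T] (r : Fin n → G) :
    Prop where
  inj : Function.Injective r
  h1 : ∀ p i, wt p (r i) = if p.1 = i ∧ T p.2 then 1 else 0
  h2 : ∀ i k c, T c → wt (i, c) + Pi.single (r k) 1 = wt (k, c) + Pi.single (r i) 1

/-- Exchange of two rows on the columns in `T`. -/
def swp (T : κ → Prop) [DecidablePred T] (a b : Fin n) (p : Fin n × κ) : Fin n × κ :=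
  if T p.2 then (Equiv.swap a b p.1, p.2) else p

lemma RowW.pair {wt : Fin n × κ → G → ℤ} {r : Fin n → G} (h : RowW wt T r) {a b : Fin n}
    (hab : a ≠ b) : RowPair wt (fun p => p.1 = a ∧ T p.2) (fun p => p.1 = b ∧ T p.2) (swp T a b)
      (r a) (r b) where
  ne := h.inj.ne hab
  inv p := by by_cases hp : T p.2 <;> simp [swp, hp]
  hAB p := by by_cases hp : T p.2 <;> simp [swp, hp, Equiv.swap_apply_eq_iff]
  disj p h1 h2 := hab (h1.1.symm.trans h2.1)
  fix p h1 h2 := by
    by_cases hp : T p.2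
    · simp only [hp, and_true] at h1 h2
      simp [swp, hp, Equiv.swap_apply_of_ne_of_ne h1 h2]
    · simp [swp, hp]
  wa p := h.h1 p a
  wb p := h.h1 p b
  wo p g ha hb := by
    by_cases hp : T p.2
    · obtain ⟨i, c⟩ := p
      have := congrFun (h.h2 (Equiv.swap a b i) i c hp) g
      simp only [swp, hp, if_true]
      by_cases h1 : i = a
      · subst h1; simpa [Pi.single_eq_of_ne ha, Pi.single_eq_of_ne hb] using this
      by_cases h2 : i = b
      · subst h2; simpa [Pi.single_eq_of_ne ha, Pi.single_eq_of_ne hb] using this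
      · rw [Equiv.swap_apply_of_ne_of_ne h1 h2]
    · simp [swp, hp]

lemma row_sweep {wt : Fin n × κ → G → ℤ} {r : Fin n → G} (h : RowW wt T r) (hw : PosW wt)
    {Z : Set (Fin n × κ → ℚ)} (hZ : (VI Z).IsPrime) (hT : TorSt wt Z) (hL : LowSt T Z) {D : ℤ}
    {C : MvPolynomial G ℤ} (hC : MD wt (VI Z) D C) {b a : Fin n} (hab : a.1 = b.1 + 1) :
    ∃ Z' : Set (Fin n × κ → ℚ), (VI Z').IsPrime ∧ TorSt wt Z' ∧ LowSt T Z' ∧
      (∀ θ : (Fin n × κ → ℚ) → Fin n × κ → ℚ, (∀ g M, θ (act T g M) = act T g (θ M)) →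
        (∀ M ∈ Z, θ M ∈ Z) → ∀ M ∈ Z', θ M ∈ Z') ∧ ∃ ρ : ℕ, 0 < ρ ∧ ∃ C',
        MD wt (VI Z') (D + 1) C' ∧ (X (r b) - X (r a)) * ((ρ : MvPolynomial G ℤ) * C') =
          C - rename (Equiv.swap (r a) (r b)) C := by
  have hlt : b < a := by rw [Fin.lt_def]; omega
  have hne : a ≠ b := hlt.ne'
  have eA : ∀ c M, sh (fun p => p.1 = a ∧ T p.2) (swp T a b) c M
      = act T (transvection a b c) M := by
    intro c M; funext p
    rw [act_transvection, sh]
    split_ifs with hp
    · simp [swp, hp.1, hp.2]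
    · rfl
  have eB : ∀ c M, sh (fun p => p.1 = b ∧ T p.2) (swp T a b) c M
      = act T (transvection b a c) M := by
    intro c M; funext p
    rw [act_transvection, sh]
    split_ifs with hp
    · simp [swp, hp.1, hp.2]
    · rfl
  have eW : ∀ M : Fin n × κ → ℚ, M ∘ swp T a b = act T (swm a b) M := by
    intro M; funext p
    by_cases hp : T p.2 <;> simp [swp, act, swm, hp]
  obtain ⟨e1, e2, e3⟩ := (h.pair hne).sweep hw hZ hT
    (fun c z hz => eA c z ▸ hL _ (low_transvection hlt c) z hz) hC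
  have e4 : VI {y | ∃ g, Par b a g ∧ ∃ M ∈ Z, y = act T g M} =
      VI (swept (fun p => p.1 = b ∧ T p.2) (swp T a b) Z) := by
    refine le_antisymm (VI_anti ?_) ?_
    · rintro _ ⟨τ, z, hz, rfl⟩
      exact ⟨_, par_transvection b a τ, z, hz, eB τ z⟩
    · rintro f hf _ ⟨g, hg, M, hM, rfl⟩
      by_cases h0 : g a a = 0 ∧ g b a ≠ 0
      · rw [← e1] at hf
        refine hf _ ⟨0, _, ⟨act T (swm a b * g) M, hL _ (((par_swm hab).mul hab hg).low ?_) M hM,
          rfl⟩, ?_⟩
        · rw [swm_mul, Equiv.swap_apply_right, h0.1]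
        · beta_reduce
          rw [sh_zero, eW, ← act_mul, ← Matrix.mul_assoc, swm_swm, Matrix.one_mul]
      · refine hf _ ⟨g b a / g a a, act T (transvection b a (-(g b a / g a a)) * g) M,
          hL _ (((par_transvection b a _).mul hab hg).low ?_) M hM, ?_⟩
        · rw [transvection_mul_apply_same]
          by_cases h1 : g a a = 0
          · have : g b a = 0 := by tauto
            simp [this]
          · field_simp; ring
        · rw [eB, ← act_mul, ← Matrix.mul_assoc, transvection_mul_transvection_same _ _ hne.symm,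
            add_neg_cancel, transvection_zero, Matrix.one_mul]
  refine ⟨_, e4 ▸ e2, ?_, ?_, ?_, e4 ▸ e3⟩
  · rintro t _ ⟨g, hg, M, hM, rfl⟩
    refine ⟨Matrix.of fun i k => t (r i) * g i k / t (r k), fun i k hik hn => by
      simp [hg i k hik hn], _, hT t M hM, funext fun p => ?_⟩
    by_cases hp : T p.2
    · simp only [tor, act, hp, if_true, mul_sum, of_apply]
      refine sum_congr rfl fun k _ => ?_
      have := congrArg (fun w => chi w t) (h.h2 p.1 k p.2 hp)
      simp only [chi_add, chi_single] at this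
      rw [eq_div_of_mul_eq (t (r k)).ne_zero this]
      ring
    · simp [tor, act, hp]
  · rintro g' hg' _ ⟨g, hg, M, hM, rfl⟩
    exact ⟨g' * g, hg'.par.mul hab hg, M, hM, (act_mul _ _ _).symm⟩
  · rintro θ hθ hs _ ⟨g, hg, M, hM, rfl⟩
    exact ⟨g, hg, _, hs M hM, hθ g M⟩

end Act

/-- Positions of the matrix `(φ | ψ)`. -/
abbrev Pos (n : ℕ) := Fin n × (Fin n ⊕ Fin n)

/-- Column shear on `ψ`. -/
abbrev csh (j k : Fin n) (c : ℚ) (M : Pos n → ℚ) : Pos n → ℚ :=
  sh (fun p : Pos n => p.2 = Sum.inr j) (fun p => (p.1, Sum.inr k)) c M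

/-- Stability under adding a left column of `ψ` to a right one. -/
def ColSt (Z : Set (Pos n → ℚ)) : Prop := ∀ j k, k < j → ∀ c, ∀ M ∈ Z, csh j k c M ∈ Z

/-- `P` is a positive multiple of the multidegree of a stable irreducible set. -/
def Geo (wt : Pos n → G → ℤ) (T T' : Fin n ⊕ Fin n → Prop) [DecidablePred T] [DecidablePred T']
    (P : MvPolynomial G ℤ) : Prop :=
  ∃ (Z : Set (Pos n → ℚ)) (D : ℤ) (ρ : ℕ) (C : MvPolynomial G ℤ), (VI Z).IsPrime ∧ TorSt wt Z ∧
    LowSt T Z ∧ LowSt T' Z ∧ ColSt Z ∧ MD wt (VI Z) D C ∧ 0 < ρ ∧ P = ρ * C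

variable {wt : Pos n → G → ℤ} {T T' : Fin n ⊕ Fin n → Prop} [DecidablePred T] [DecidablePred T']

lemma Geo.symm {P : MvPolynomial G ℤ} (h : Geo wt T T' P) : Geo wt T' T P := by
  obtain ⟨Z, D, ρ, C, h1, h2, h3, h4, h5⟩ := h
  exact ⟨Z, D, ρ, C, h1, h2, h4, h3, h5⟩

lemma Geo.step {r : Fin n → G} (hr : RowW wt T r) (hw : PosW wt) (hd : ∀ c, T c → ¬ T' c)
    (hc : ∀ j k, T (Sum.inr j) ↔ T (Sum.inr k)) {P P' : MvPolynomial G ℤ} (h : Geo wt T T' P)
    {b a : Fin n} (hab : a.1 = b.1 + 1)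
    (hP : (X (r b) - X (r a)) * P' = P - rename (Equiv.swap (r b) (r a)) P) : Geo wt T T' P' := by
  obtain ⟨Z, D, ρ, C, h1, h2, h3, h4, h5, h6, h7, rfl⟩ := h
  obtain ⟨Z', a1, a2, a3, a4, ρ', a5, C', a6, a7⟩ := row_sweep hr hw h1 h2 h3 h6 hab
  refine ⟨Z', D + 1, ρ * ρ', C', a1, a2, a3,
    fun g hg => a4 _ (fun g' M => act_comm hd g' g M) (h4 g hg),
    fun j k hjk c => a4 _ (fun g M => ?_) (h5 j k hjk c), a6, Nat.mul_pos h7 a5, ?_⟩
  · funext p
    by_cases hp : p.2 = Sum.inr j
    · by_cases hT : T (Sum.inr j)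
      · simp [sh, act, hp, hT, (hc j k).1 hT, mul_add, sum_add_distrib, mul_sum, mul_left_comm]
      · simp [sh, act, hp, hT, mt (hc j k).2 hT]
    · simp [sh, act, hp]
  · have hne : (X (r b) - X (r a) : MvPolynomial G ℤ) ≠ 0 := by
      refine sub_ne_zero.2 fun e => ?_
      have := hr.inj (X_injective e)
      rw [this] at hab; omega
    refine mul_left_cancel₀ hne ?_
    rw [hP, map_mul, map_natCast, ← mul_sub, Equiv.swap_comm, ← a7]
    push_cast; ring

/-- The two north-west triangles. -/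
def tri (n : ℕ) : Finset (Pos n) :=
  univ.filter fun p => p.1.1 + (Sum.elim id id p.2 : Fin n).1 < n - 1

lemma geo_start (hw : PosW wt) : Geo wt T T' (∏ p ∈ tri n, lin (wt p)) := by
  obtain ⟨D, hD⟩ := md_coordSub hw (tri n)
  have low : ∀ (T : Fin n ⊕ Fin n → Prop) [DecidablePred T], LowSt T (coordSub (tri n)) := by
    intro T _ g hg M hM p hp
    unfold act
    split_ifs
    · refine sum_eq_zero fun k _ => ?_
      by_cases hk : p.1 < k
      · rw [hg _ _ hk, zero_mul]
      · rw [hM (k, p.2), mul_zero]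
        simp only [tri, mem_filter, mem_univ, true_and, Fin.lt_def] at hp hk ⊢
        omega
    · exact hM p hp
  refine ⟨_, D, 1, _, coordSub_prime _, coordSub_torSt _ _, low T, low T', ?_, hD, one_pos,
    by simp⟩
  intro j k hjk c M hM p hp
  simp only [sh, hM p hp, zero_add]
  split_ifs with h
  · rw [hM (p.1, Sum.inr k), mul_zero]
    simp only [tri, mem_filter, mem_univ, true_and, Fin.lt_def, h, Sum.elim_inr, id] at hp hjk ⊢
    omega
  · rfl

lemma Geo.regrade {wt' : Pos n → G → ℤ} (hw : PosW wt) (hw' : PosW wt')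
    (hT : ∀ c, T' c ↔ ¬ T c) (hχ : ∀ t, ∃ t', ∀ p, chi (wt' p) t = chi (wt p) t')
    (κ : MvPolynomial G ℤ →+* MvPolynomial G ℤ) (hκ : ∀ q, κ (lin (wt q)) = lin (wt' q))
    {P : MvPolynomial G ℤ} (h : Geo wt T T' P) :
    Geo wt' (fun _ => True) (fun _ => False) (κ P) := by
  obtain ⟨Z, D, ρ, C, h1, h2, h3, h4, h5, h6, h7, rfl⟩ := h
  have t2 : TorSt wt' Z := fun t z hz => by
    obtain ⟨t', ht'⟩ := hχ t
    have : tor wt' t z = tor wt t' z := funext fun p => by rw [tor, tor, ht']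
    rw [this]; exact h2 t' z hz
  refine ⟨Z, D, ρ, κ C, h1, t2, fun g hg M hM => ?_, fun g _ M hM => ?_, h5,
    h6.regrade hw hw' h2.homog t2.homog κ hκ, h7, by simp⟩
  · have : act (fun _ => True) g M = act T g (act T' g M) := by
      funext p
      by_cases hp : T p.2 <;> simp [act, hp, hT]
    rw [this]; exact h3 g hg _ (h4 g hg M hM)
  · have : act (fun _ => False) g M = M := by funext p; simp [act]
    rwa [this]

/-- The set cut out by the first Gauss steps. -/
def gz (Z : Set (Pos n → ℚ)) (K : Finset (Fin n × Fin n)) : Set (Pos n → ℚ) :=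
  {M | M ∈ Z ∧ ∀ p ∈ K, M (p.1, Sum.inr p.2) = 0 ∧ M (min p.1 p.2, Sum.inr (min p.1 p.2)) ≠ 0}

lemma gz_insert (Z : Set (Pos n → ℚ)) (K : Finset (Fin n × Fin n)) (p : Fin n × Fin n) :
    gz Z (insert p K) = slc (gz Z K) (p.1, Sum.inr p.2) (min p.1 p.2, Sum.inr (min p.1 p.2)) := by
  ext M; simp only [gz, slc, Set.mem_ofPred_eq, forall_mem_insert]; tauto

lemma gauss {R : Type} [CommRing R] (hw : PosW wt) (ev : MvPolynomial G ℤ →+* R)
    (hev : ∀ k, ev (lin (wt (k, Sum.inr k))) = 0) {Z : Set (Pos n → ℚ)} (hZ : (VI Z).IsPrime)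
    (hT : TorSt wt Z) (hL : LowSt (fun _ => True) Z) (hc : ColSt Z) {D : ℤ} {C : MvPolynomial G ℤ}
    (hC : MD wt (VI Z) D C) (K : Finset (Fin n × Fin n)) : (∀ p ∈ K, p.1 ≠ p.2) →
      (∀ p ∈ K, ∀ q : Fin n × Fin n, q.1 ≠ q.2 → min q.1 q.2 < min p.1 p.2 → q ∈ K) →
      (∏ p ∈ K, ev (lin (wt (p.1, Sum.inr p.2)))) * ev C = 0 ∨ ∃ D' C', (VI (gz Z K)).IsPrime ∧
        TorSt wt (gz Z K) ∧ MD wt (VI (gz Z K)) D' C' ∧
        ev C' = (∏ p ∈ K, ev (lin (wt (p.1, Sum.inr p.2)))) * ev C := by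
  induction K using Finset.induction_on_max_value (fun p : Fin n × Fin n => min p.1 p.2) with
  | empty =>
    have : gz Z ∅ = Z := by ext M; simp [gz]
    rw [this]
    exact fun _ _ => Or.inr ⟨D, C, hZ, hT, hC, by simp⟩
  | insert p K hp hmax ih =>
    intro h1 h2
    have h3 : ∀ q : Fin n × Fin n, q.1 ≠ q.2 → min q.1 q.2 < min p.1 p.2 → q ∈ K := by
      intro q hq hlt
      refine (mem_insert.1 (h2 p (mem_insert_self _ _) q hq hlt)).resolve_left ?_
      rintro rfl; exact lt_irrefl _ hlt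
    rw [prod_insert hp, mul_assoc, gz_insert]
    rcases ih (fun q hq => h1 q (mem_insert_of_mem hq))
      (fun p' hp' q hq hlt => h3 q hq (hlt.trans_le (hmax p' hp'))) with h0 | ⟨D', C', a1, a2, a3, a4⟩
    · left; rw [h0, mul_zero]
    rw [← a4]
    by_cases hX : X (min p.1 p.2, Sum.inr (min p.1 p.2)) ∈ VI (gz Z K)
    · obtain ⟨c, hc⟩ := a3.dvd_of_mem hw a2.homog hX
      left; rw [hc, map_mul, hev, zero_mul, mul_zero]
    obtain ⟨A, _, sw, s1, s2, s3, s4⟩ : ∃ (A : Pos n → Prop) (_ : DecidablePred A)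
        (sw : Pos n → Pos n), (∀ c, ∀ z ∈ gz Z K, sh A sw c z ∈ gz Z K) ∧ A (p.1, Sum.inr p.2) ∧
        sw (p.1, Sum.inr p.2) = (min p.1 p.2, Sum.inr (min p.1 p.2)) ∧
        ¬ A (min p.1 p.2, Sum.inr (min p.1 p.2)) := by
      rcases lt_or_gt_of_ne (h1 p (mem_insert_self _ _)) with hlt | hlt
      · simp only [min_eq_left hlt.le] at h3 hmax ⊢
        refine ⟨fun q => q.2 = Sum.inr p.2, inferInstance, fun q => (q.1, Sum.inr p.1), ?_, rfl,
          rfl, by simpa using hlt.ne⟩
        rintro c z ⟨hz, hK⟩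
        refine ⟨hc _ _ hlt c z hz, fun q hq => ?_⟩
        have m1 := hmax q hq
        have m2 : min q.1 q.2 ≠ p.2 := (m1.trans_lt hlt).ne
        simp only [sh, (hK q hq).1, Sum.inr.injEq, m2, if_false, add_zero, zero_add]
        refine ⟨?_, (hK q hq).2⟩
        split_ifs with e
        · have m3 : q.1 ≠ p.1 := fun e' => hp (Prod.ext e' e ▸ hq)
          have m4 : q.1 < p.1 := by
            rw [e] at m1
            exact lt_of_le_of_ne ((min_le_iff.1 m1).resolve_right hlt.not_ge) m3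
          rw [(hK (q.1, p.1) (h3 _ m4.ne (min_lt_iff.2 (Or.inl m4)))).1, mul_zero]
        · rfl
      · simp only [min_eq_right hlt.le] at h3 hmax ⊢
        refine ⟨fun q => q.1 = p.1, inferInstance, fun q => (p.2, q.2), ?_, rfl,
          rfl, by simpa using hlt.ne⟩
        rintro c z ⟨hz, hK⟩
        refine ⟨?_, fun q hq => ?_⟩
        · have : sh (fun q : Pos n => q.1 = p.1) (fun q => (p.2, q.2)) c z
              = act (fun _ => True) (transvection p.1 p.2 c) z := by
            funext q; simp [act_transvection, sh]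
          rw [this]; exact hL _ (low_transvection hlt c) z hz
        have m1 := hmax q hq
        have m2 : min q.1 q.2 ≠ p.1 := (m1.trans_lt hlt).ne
        simp only [sh, (hK q hq).1, m2, if_false, add_zero, zero_add]
        refine ⟨?_, (hK q hq).2⟩
        split_ifs with e
        · have m3 : q.2 ≠ p.2 := fun e' => hp (Prod.ext e e' ▸ hq)
          have m4 : q.2 < p.2 := by
            rw [e] at m1
            exact lt_of_le_of_ne ((min_le_iff.1 m1).resolve_left hlt.not_ge) m3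
          rw [(hK (p.2, q.2) (h3 _ m4.ne' (min_lt_iff.2 (Or.inr m4)))).1, mul_zero]
        · rfl
    obtain ⟨C₁, b1, c, b2⟩ := md_slc hw a1 a2 s1 s2 s3 s4 hX a3
    refine Or.inr ⟨_, C₁, slc_prime a1 s1 s2 s3 s4 hX, a2.slc _ _, b1, ?_⟩
    have := congrArg ev b2
    rw [map_mul, hev, zero_mul, map_sub, map_mul, sub_eq_zero] at this
    exact this.symm

end Pool.Agent.K9c
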