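import Pool.Agent.Lib.MP_9c9c2f_co.Cone

/-! The sweep lemma: sweeping by a root subgroup applies a divided difference. -/

set_option linter.unusedSectionVars false
set_option linter.style.haveILetI false

namespace Pool.Agent.K9c
open MvPolynomial Finset Filter Topology Module

variable {σ G : Type} [Fintype σ] [DecidableEq σ] [Fintype G] [DecidableEq G]

/-- The union of the sheared copies of `Z`. -/
def swept (B : σ → Prop) [DecidablePred B] (sw : σ → σ) (Z : Set (σ → ℚ)) : Set (σ → ℚ) :=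
  {y | ∃ τ, ∃ z ∈ Z, y = sh B sw τ z}

/-- A point of the cone over the sweep. -/
def cpt (B : σ → Prop) [DecidablePred B] (sw : σ → σ) (β : Bool) (z : σ → ℚ) (s τ : ℚ) :
    σ ⊕ Bool → ℚ := Sum.elim (sh B sw τ z) fun γ => if γ = β then s else s * τ

/-- The cone over the sweep. -/
def cone (B : σ → Prop) [DecidablePred B] (sw : σ → σ) (β : Bool) (Z : Set (σ → ℚ)) :
    Set (σ ⊕ Bool → ℚ) := {y | ∃ z ∈ Z, ∃ s τ, y = cpt B sw β z s τ}

section
variable {B : σ → Prop} [DecidablePred B] {sw : σ → σ} {β : Bool} {Z : Set (σ → ℚ)}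

lemma cpt_s (z : σ → ℚ) (s τ : ℚ) : cpt B sw β z s τ (Sum.inr β) = s := by simp [cpt]
lemma cpt_t (z : σ → ℚ) (s τ : ℚ) : cpt B sw β z s τ (Sum.inr !β) = s * τ := by simp [cpt]
lemma eval_cpt (z : σ → ℚ) (s τ : ℚ) (f : MvPolynomial σ ℚ) :
    eval (cpt B sw β z s τ) (io f) = eval (sh B sw τ z) f := by
  rw [eval_rename]; rfl

lemma cone_prime (hZ : (VI Z).IsPrime) : (VI (cone B sw β Z)).IsPrime := by
  have := prime_image2 hZ (prime_univ (σ := Bool)) (fun z c => cpt B sw β z (c true) (c false))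
    (by
      rintro c (q | γ)
      · exact (IsPoly.coord q).add (IsPoly.ite _ ((IsPoly.const _).mul (IsPoly.coord _))
          (IsPoly.const 0))
      · exact IsPoly.const _)
    (by
      rintro z (q | γ)
      · exact (IsPoly.const _).add (IsPoly.ite _ ((IsPoly.coord false).mul (IsPoly.const _))
          (IsPoly.const 0))
      · exact IsPoly.ite _ (IsPoly.coord _) ((IsPoly.coord _).mul (IsPoly.coord _)))
  convert this using 2
  ext y
  constructor
  · rintro ⟨z, hz, s, τ, rfl⟩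
    exact ⟨z, hz, fun b => cond b s τ, trivial, rfl⟩
  · rintro ⟨z, hz, c, -, rfl⟩
    exact ⟨z, hz, _, _, rfl⟩

lemma cone_X (hZ : (VI Z).IsPrime) (γ : Bool) : X (Sum.inr γ) ∉ VI (cone B sw β Z) := by
  intro h
  obtain ⟨z, hz⟩ := nonempty_of_prime hZ
  have := h _ ⟨z, hz, 1, 1, rfl⟩
  simp [cpt] at this

lemma cone_comap : (VI (cone B sw β Z)).comap io = VI (swept B sw Z) := by
  ext f
  rw [Ideal.mem_comap, mem_VI, mem_VI]
  constructor
  · rintro h _ ⟨τ, z, hz, rfl⟩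
    rw [← eval_cpt (β := β) z 1 τ]
    exact h _ ⟨z, hz, 1, τ, rfl⟩
  · rintro h _ ⟨z, hz, s, τ, rfl⟩
    rw [eval_cpt]
    exact h _ ⟨τ, z, hz, rfl⟩

lemma cone_H2 (f : MvPolynomial σ ℚ) (k : ℕ)
    (h : X (Sum.inr β) ^ k * io f ∈ VI (cone B sw β Z) ⊔ Ideal.span {X (Sum.inr !β)}) :
    f ∈ VI Z := by
  intro z hz
  have := slc_le (q₀ := Sum.inr β) h (cpt B sw β z 1 0)
    ⟨⟨z, hz, 1, 0, rfl⟩, by rw [cpt_t, mul_zero], by rw [cpt_s]; exact one_ne_zero⟩
  rwa [map_mul, map_pow, eval_X, cpt_s, one_pow, one_mul, eval_cpt, sh_zero] at this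

lemma cone_H1 (hZ : (VI Z).IsPrime) (hB : ∀ p, B p → ¬ B (sw p)) (f : MvPolynomial σ ℚ)
    (hf : f ∈ VI Z) : ∃ k : ℕ,
      X (Sum.inr β) ^ k * io f ∈ VI (cone B sw β Z) ⊔ Ideal.span {X (Sum.inr !β)} := by
  classical
  refine slc_sat (A := Sum.elim B (· = !β)) (sw := Sum.map sw not) (cone_prime hZ) ?_ (by simp)
    (by simp) (by simp) (cone_X hZ β) ?_
  · rintro c _ ⟨z, hz, s, τ, rfl⟩
    refine ⟨z, hz, s, τ + c, funext ?_⟩
    rintro (q | γ)
    · have := congrFun (sh_sh hB c τ z) q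
      simp only [cpt, Sum.elim_inl, ← this]
      by_cases hq : B q <;> simp [sh, hq]
    · cases β <;> cases γ <;> simp [sh, cpt]
      all_goals ring
  · rintro _ ⟨⟨z, hz, s, τ, rfl⟩, h1, h2⟩
    rw [cpt_s] at h2
    rw [cpt_t] at h1
    rw [eval_cpt, (mul_eq_zero.1 h1).resolve_left h2, sh_zero]
    exact hf z hz

lemma cone_torSt {wt : σ → G → ℤ} {ab : Bool → G} (hT : TorSt wt Z)
    (hB : ∀ p, B p → wt p + Pi.single (ab β) 1 = wt (sw p) + Pi.single (ab !β) 1) :
    TorSt (wt2 wt ab) (cone B sw β Z) := by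
  rintro t _ ⟨z, hz, s, τ, rfl⟩
  have hc : ∀ (m : ℤ) (w : G → ℤ), chi (deg m w) t = (t none : ℚ) ^ m * chi w (t ∘ some) := by
    intro m w
    simp [chi, deg, Fintype.prod_option]
  refine ⟨_, hT (t ∘ some) z hz, t none * t (some (ab β)) * s,
    τ * t (some (ab !β)) / t (some (ab β)), funext ?_⟩
  have h0 := (t (some (ab β))).ne_zero
  rintro (q | γ)
  · simp only [tor, wt2, cpt, Sum.elim_inl, hc, zpow_zero, one_mul, sh]
    split_ifs with h
    · have := congrArg (fun w => chi w (t ∘ some)) (hB q h)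
      simp only [chi_add, chi_single, Function.comp_apply] at this
      rw [eq_div_of_mul_eq h0 this]
      field_simp
    · simp
  · simp only [tor, wt2, cpt, Sum.elim_inr, hc, zpow_one, chi_single, Function.comp_apply]
    split_ifs with h
    · rw [h]
    · rw [Bool.eq_not_iff.2 h]
      field_simp

end

/-- Data of a pair of rows exchanged by `sw`. -/
structure RowPair (wt : σ → G → ℤ) (A B : σ → Prop) [DecidablePred A] [DecidablePred B]
    (sw : σ → σ) (a b : G) : Prop where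
  ne : a ≠ b
  inv : ∀ p, sw (sw p) = p
  hAB : ∀ p, B p ↔ A (sw p)
  disj : ∀ p, A p → ¬ B p
  fix : ∀ p, ¬ A p → ¬ B p → sw p = p
  wa : ∀ p, wt p a = if A p then 1 else 0
  wb : ∀ p, wt p b = if B p then 1 else 0
  wo : ∀ p g, g ≠ a → g ≠ b → wt (sw p) g = wt p g

variable {wt : σ → G → ℤ} {A B : σ → Prop} [DecidablePred A] [DecidablePred B] {sw : σ → σ}
  {a b : G} {Z : Set (σ → ℚ)}

lemma RowPair.hBA (h : RowPair wt A B sw a b) (p : σ) : A p ↔ B (sw p) := by
  rw [h.hAB, h.inv]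

lemma RowPair.symm (h : RowPair wt A B sw a b) : RowPair wt B A sw b a :=
  ⟨h.ne.symm, h.inv, h.hBA, fun p hb ha => h.disj p ha hb, fun p hb ha => h.fix p ha hb, h.wb,
    h.wa, fun p g hb ha => h.wo p g ha hb⟩

lemma RowPair.nB (h : RowPair wt A B sw a b) (p : σ) (hp : B p) : ¬ B (sw p) :=
  h.disj _ ((h.hAB p).1 hp)

lemma RowPair.wt_sw (h : RowPair wt A B sw a b) (p : σ) :
    wt (sw p) = wt p ∘ Equiv.swap a b := by
  funext g
  rw [Function.comp_apply]
  by_cases ha : g = a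
  · subst ha; rw [Equiv.swap_apply_left, h.wa, h.wb]; exact if_congr (h.hAB p).symm rfl rfl
  by_cases hb : g = b
  · subst hb; rw [Equiv.swap_apply_right, h.wa, h.wb]; exact if_congr (h.hBA p).symm rfl rfl
  rw [Equiv.swap_apply_of_ne_of_ne ha hb, h.wo p g ha hb]

lemma RowPair.shift (h : RowPair wt A B sw a b) (p : σ) (hp : B p) :
    wt p + Pi.single a 1 = wt (sw p) + Pi.single b 1 := by
  have hA : ¬ A p := fun ha => h.disj p ha hp
  funext g
  rw [h.wt_sw, Pi.add_apply, Pi.add_apply, Function.comp_apply]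
  by_cases ha : g = a
  · subst ha; simp [h.wa, h.wb, hp, hA, Pi.single_eq_of_ne h.ne]
  by_cases hb : g = b
  · subst hb; simp [h.wa, h.wb, hp, hA, Pi.single_eq_of_ne h.ne.symm]
  simp [Equiv.swap_apply_of_ne_of_ne ha hb, Pi.single_eq_of_ne ha, Pi.single_eq_of_ne hb]

/-- The image of `Z` under the exchange of the two rows. -/
def flp (sw : σ → σ) (Z : Set (σ → ℚ)) : Set (σ → ℚ) := (fun z => z ∘ sw) '' Z

lemma flp_prime (hZ : (VI Z).IsPrime) : (VI (flp sw Z)).IsPrime :=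
  prime_image hZ _ fun q => IsPoly.coord (sw q)

lemma flp_flp (h : ∀ p, sw (sw p) = p) : flp sw (flp sw Z) = Z := by
  rw [flp, flp, Set.image_image]
  have : (fun z : σ → ℚ => (z ∘ sw) ∘ sw) = id := by funext z p; simp [h]
  rw [this, Set.image_id]

lemma RowPair.flp_torSt (h : RowPair wt A B sw a b) (hT : TorSt wt Z) : TorSt wt (flp sw Z) := by
  rintro t _ ⟨z, hz, rfl⟩
  refine ⟨_, hT (t ∘ Equiv.swap a b) z hz, funext fun p => ?_⟩
  simp only [tor, Function.comp_apply, h.wt_sw]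
  congr 1
  show ((∏ g, _ : ℚˣ) : ℚ) = ((∏ g, _ : ℚˣ) : ℚ)
  congr 1
  exact Equiv.prod_comp (Equiv.swap a b) fun g => t g ^ wt p g

lemma RowPair.flp_sh (h : RowPair wt A B sw a b) (hs : ∀ c, ∀ z ∈ Z, sh A sw c z ∈ Z) :
    ∀ c, ∀ z ∈ flp sw Z, sh B sw c z ∈ flp sw Z := by
  rintro c _ ⟨z, hz, rfl⟩
  refine ⟨_, hs c z hz, funext fun p => ?_⟩
  simp [sh, h.hAB]

lemma RowPair.cone_sub (h : RowPair wt A B sw a b) (hT : TorSt wt Z)
    (hs : ∀ c, ∀ z ∈ Z, sh A sw c z ∈ Z) (β : Bool) {y : σ ⊕ Bool → ℚ} (hy : y ∈ cone B sw β Z)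
    (h0 : y (Sum.inr β) * y (Sum.inr !β) ≠ 0) : y ∈ cone A sw (!β) (flp sw Z) := by
  obtain ⟨z, hz, s, τ, rfl⟩ := hy
  rw [cpt_s, cpt_t] at h0
  have hτ : τ ≠ 0 := fun e => h0 (by simp [e])
  have hα : -τ⁻¹ ≠ 0 := by simpa using hτ
  let t : G → ℚˣ := Pi.mulSingle a (Units.mk0 τ hτ) * Pi.mulSingle b (Units.mk0 _ hα)
  have ht : ∀ p, chi (wt p) t = (if A p then τ else 1) * if B p then -τ⁻¹ else 1 := by
    intro p
    rw [map_mul, chi_mulSingle, chi_mulSingle, h.wa, h.wb]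
    split_ifs <;> simp
  refine ⟨_, ⟨_, hs (-τ) _ (hT t z hz), rfl⟩, s * τ, τ⁻¹, funext ?_⟩
  rintro (p | γ)
  · simp only [cpt, Sum.elim_inl, sh, Function.comp_apply, tor, ht, h.inv, ← h.hAB, ← h.hBA]
    by_cases hA : A p
    · simp only [hA, h.disj p hA, if_true, if_false]; field_simp; ring
    by_cases hB : B p
    · simp only [hA, hB, if_true, if_false]; field_simp; ring
    · simp [hA, hB, h.fix p hA hB]
  · cases β <;> cases γ <;> simp [cpt, hτ]

lemma RowPair.cone_le (h : RowPair wt A B sw a b) (hZ : (VI Z).IsPrime) (hT : TorSt wt Z)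
    (hs : ∀ c, ∀ z ∈ Z, sh A sw c z ∈ Z) (β : Bool) :
    VI (cone A sw (!β) (flp sw Z)) ≤ VI (cone B sw β Z) := by
  intro f hf
  have hp := cone_prime (B := B) (sw := sw) (β := β) hZ
  refine mem_VI_of_ne hp (t := X (Sum.inr β) * X (Sum.inr !β))
    (fun e => (hp.mem_or_mem e).elim (cone_X hZ _) (cone_X hZ _)) fun y hy h0 => ?_
  rw [map_mul, eval_X, eval_X] at h0
  exact hf y (h.cone_sub hT hs β hy h0)

lemma RowPair.cone_eq (h : RowPair wt A B sw a b) (hZ : (VI Z).IsPrime) (hT : TorSt wt Z)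
    (hs : ∀ c, ∀ z ∈ Z, sh A sw c z ∈ Z) :
    VI (cone A sw false (flp sw Z)) = VI (cone B sw true Z) := by
  refine le_antisymm (h.cone_le hZ hT hs true) ?_
  have := h.symm.cone_le (flp_prime hZ) (h.flp_torSt hT) (h.flp_sh hs) false
  rwa [flp_flp h.inv] at this

lemma RowPair.hf_flp_le (h : RowPair wt A B sw a b) (hw : PosW wt) (d : G → ℤ) :
    hf wt (VI (flp sw Z)) d ≤ hf wt (VI Z) (d ∘ Equiv.swap a b) := by
  haveI := hw.fin
  refine hq_le_of_inj (rename sw).toLinearMap (fun f hf => ?_) fun f _ hf => ?_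
  · exact rename_mem (wt' := wt) sw
      (AddMonoidHom.mk' (fun d => d ∘ Equiv.swap a b) fun _ _ => rfl) h.wt_sw hf
  · rintro _ ⟨z, hz, rfl⟩
    rw [← eval_rename]
    exact hf z hz

lemma RowPair.md_flp (h : RowPair wt A B sw a b) (hw : PosW wt) {D : ℤ} {C : MvPolynomial G ℤ}
    (hC : MD wt (VI Z) D C) : MD wt (VI (flp sw Z)) D (rename (Equiv.swap a b) C) := by
  have e : ∀ d, hf wt (VI (flp sw Z)) d = hf wt (VI Z) (d ∘ Equiv.swap a b) := by
    intro d
    refine le_antisymm (h.hf_flp_le hw d) ?_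
    have := h.hf_flp_le (Z := flp sw Z) hw (d ∘ Equiv.swap a b)
    have e0 : (d ∘ Equiv.swap a b) ∘ Equiv.swap a b = d := by funext g; simp
    rwa [flp_flp h.inv, e0] at this
  have ed : ∀ (L : G → ℝ) (d : G → ℤ), dot (L ∘ Equiv.swap a b) (d ∘ Equiv.swap a b) = dot L d :=
    fun L d => Equiv.sum_comp (Equiv.swap a b) fun g => L g * d g
  intro L hL
  have := hC (L ∘ Equiv.swap a b) fun g => hL _
  have e1 : rv L (rename (Equiv.swap a b) C) = rv (L ∘ Equiv.swap a b) C := eval₂_rename _ _ _ _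
  have e2 : ∏ p, dot (L ∘ Equiv.swap a b) (wt p) = ∏ p, dot L (wt p) := by
    rw [← Equiv.prod_comp ⟨sw, sw, h.inv, h.inv⟩]
    exact prod_congr rfl fun p _ => by rw [← ed L (wt p), ← h.wt_sw]; rfl
  rw [e1, ← e2]
  refine this.congr fun ε => ?_
  congr 1
  rw [ser, ser, ← (Equiv.arrowCongr (Equiv.swap a b) (Equiv.refl ℤ)).tsum_eq]
  refine tsum_congr fun d => ?_
  rw [trm, trm, e, ← ed (ε • L)]
  rfl

lemma dot_single (L : G → ℝ) (g : G) : dot L (Pi.single g 1) = L g := by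
  rw [dot, sum_eq_single g] <;> simp +contextual

lemma dot_nsmul (L : G → ℝ) (k : ℕ) (d : G → ℤ) : dot L (k • d) = k * dot L d := by
  simp [dot, mul_sum, mul_left_comm]

theorem RowPair.sweep (h : RowPair wt A B sw a b) (hw : PosW wt) (hZ : (VI Z).IsPrime)
    (hT : TorSt wt Z) (hs : ∀ c, ∀ z ∈ Z, sh A sw c z ∈ Z) {D : ℤ} {C : MvPolynomial G ℤ}
    (hC : MD wt (VI Z) D C) : VI (swept A sw (flp sw Z)) = VI (swept B sw Z) ∧
      (VI (swept B sw Z)).IsPrime ∧ ∃ ρ : ℕ, 0 < ρ ∧ ∃ C', MD wt (VI (swept B sw Z)) (D + 1) C' ∧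
        (X b - X a) * ((ρ : MvPolynomial G ℤ) * C') = C - rename (Equiv.swap a b) C := by
  let ab : Bool → G := fun β => cond β a b
  have hJ := h.cone_eq hZ hT hs
  have hp := cone_prime (B := B) (sw := sw) (β := true) hZ
  have hH : Homog (wt2 wt ab) (VI (cone B sw true Z)) := (cone_torSt hT h.shift).homog
  have hI' := cone_comap (B := B) (sw := sw) (β := true) (Z := Z)
  refine ⟨by rw [← cone_comap (β := false), hJ, hI'], hI' ▸ Ideal.comap_isPrime _ _, ?_⟩
  obtain ⟨m₁, hm₁⟩ := hf_half hw hH true (cone_H1 hZ h.nB) cone_H2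
  obtain ⟨m₂, hm₂⟩ := hf_half (I := VI (flp sw Z)) hw hH false
    (by rw [← hJ]; exact cone_H1 (flp_prime hZ) h.symm.nB) (by rw [← hJ]; exact cone_H2)
  obtain ⟨m, hm, hm'⟩ : ∃ m, m₁ ≤ m ∧ m₂ ≤ m := ⟨_, le_max_left _ _, le_max_right _ _⟩
  obtain ⟨T, hne, e, e', lo, up⟩ := hf_rank hw hp hH (cone_X hZ true) m
  have hH' := hH.comap_io
  rw [hI'] at lo up hH'
  set J := VI (cone B sw true Z) with hJdef
  let hQ : (G → ℤ) → ℕ := fun d => hf (wt2 wt ab) J (deg m d)
  have cut : ∀ (β : Bool) (d : G → ℤ), hf (wt2 wt ab) J (deg (m + 1 : ℕ) d) =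
      hf (wt2 wt ab) (J ⊔ Ideal.span {X (Sum.inr β)}) (deg (m + 1 : ℕ) d) +
        hQ (d - Pi.single (ab β) 1) := by
    intro β d
    rw [hf_cut' (hw.wt2 ab).fin hp hH (isWeightedHomogeneous_X ℚ _ (Sum.inr β)) (cone_X hZ β)]
    simp [hQ, wt2, deg_sub]
  have key : ∀ d, hf wt (VI Z) (d - (m + 1) • Pi.single a 1) + hQ (d - Pi.single b 1) =
      hf wt (VI (flp sw Z)) (d - (m + 1) • Pi.single b 1) + hQ (d - Pi.single a 1) := by
    intro d
    have c1 := cut false d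
    have c2 := cut true d
    have c3 := hm₁ (m + 1) (by omega) d
    have c4 := hm₂ (m + 1) (by omega) d
    simp only [Bool.not_true, Bool.not_false] at c3 c4
    rw [c3] at c1
    rw [c4] at c2
    exact c1.symm.trans c2
  have sI' := sm_hf hw hH'
  have sQ : Sm hQ := (Sm.sum _ fun i => sI'.shift _).mono up
  have s1 := sm_hf hw hT.homog
  have s2 := sm_hf hw (h.flp_torSt hT).homog
  haveI : Nonempty T := hne.to_subtype
  have lim : ∀ L : G → ℝ, (∀ g, 0 < L g) → L a ≠ L b → Lim (hf wt (VI (swept B sw Z))) (D + 1) L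
      ((rv L C / ∏ p, dot L (wt p) - rv L (rename (Equiv.swap a b) C) / ∏ p, dot L (wt p)) /
        (L b - L a) / Fintype.card T) := by
    intro L hL hab
    refine Lim.of_rank sI' e e' lo up hL ?_
    have t1 := (tendsto_exp_one ((m + 1 : ℕ) * L a)).mul (hC L hL)
    have t2 := (tendsto_exp_one ((m + 1 : ℕ) * L b)).mul (h.md_flp hw hC L hL)
    rw [one_mul] at t1 t2
    refine ((t1.sub t2).div (tendsto_slope (L a) (L b)) (sub_ne_zero.2 hab.symm)).congr' ?_
    filter_upwards [self_mem_nhdsWithin] with ε hε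
    have hε' : (0 : ℝ) < ε := hε
    have k1 := congrArg (fun f => ser f (ε • L)) (funext key)
    simp only [ser_add (s1.shift _) (sQ.shift _) (smul_pos' hL hε'),
      ser_add (s2.shift _) (sQ.shift _) (smul_pos' hL hε'), ser_shift, dot_nsmul,
      dot_single, Pi.smul_apply, smul_eq_mul] at k1
    have hne' : Real.exp (-(ε * L a)) - Real.exp (-(ε * L b)) ≠ 0 := fun e0 =>
      hab (mul_left_cancel₀ hε'.ne' (neg_injective (Real.exp_injective (sub_eq_zero.1 e0))))
    rw [Pi.div_apply, zpow_add_one₀ hε'.ne', div_div_eq_mul_div, div_eq_iff hne']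
    simp only [mul_left_comm ((m + 1 : ℕ) : ℝ) ε] at k1
    linear_combination ε ^ D * ε * k1
  obtain ⟨C', hC'⟩ := exists_md_of_lim hw hH' (L := fun g => if g = a then 2 else 1)
    (fun g => by split_ifs <;> norm_num)
    (lim _ (fun g => by split_ifs <;> norm_num) (by simp [h.ne.symm]))
  refine ⟨Fintype.card T, Fintype.card_pos, C', hC', rv_ext fun L hL => ?_⟩
  have hprod : (∏ p, dot L (wt p)) ≠ 0 := (prod_pos fun p _ => hw.dot_pos hL p).ne'
  simp only [map_mul, map_sub, eval₂Hom_X', map_natCast]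
  by_cases hab : L a = L b
  · have e1 : rv L (rename (Equiv.swap a b) C) = rv (L ∘ Equiv.swap a b) C := eval₂_rename _ _ _ _
    have e2 : L ∘ Equiv.swap a b = L := funext fun g => Equiv.apply_swap_eq_self hab g
    rw [e1, e2, hab, sub_self, sub_self, zero_mul]
  · have := tendsto_nhds_unique (hC' L hL) (lim L hL hab)
    have h1 : L b - L a ≠ 0 := sub_ne_zero.2 (Ne.symm hab)
    have h2 : (Fintype.card T : ℝ) ≠ 0 := by exact_mod_cast Fintype.card_ne_zero
    field_simp at this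
    linear_combination this

end Pool.Agent.K9c
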